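import Pool.Agent.TH506.APD.Main

/-!
Asymptotics: the number of orders up to `X` is `O(X / log X)`.
-/

set_option autoImplicit false

namespace Pool.Agent.TH506.APD

open Finset Filter Topology Asymptotics

lemma exp_cond : ∃ x0 : ℝ, 1 ≤ x0 ∧ ∀ x : ℝ, x0 ≤ x →
    Real.log x + 3 * x ^ (1 / 2 : ℝ) * (1 + 16 * Real.log x) ≤ (x - 1) * Real.log 2 / 64 := by
  have h1 := (isLittleO_log_rpow_atTop (show (0 : ℝ) < 1 / 4 by norm_num)).bound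
    (show (0 : ℝ) < 1 by norm_num)
  obtain ⟨a, ha⟩ := eventually_atTop.1 h1
  refine ⟨max (max a 2) (10400 ^ 4), le_trans (by norm_num) (le_max_right _ _), fun x hx => ?_⟩
  have hxa : a ≤ x := (le_max_left a 2).trans ((le_max_left _ _).trans hx)
  have hx2 : 2 ≤ x := (le_max_right a 2).trans ((le_max_left _ _).trans hx)
  have hxb : 10400 ^ 4 ≤ x := (le_max_right _ _).trans hx
  have hx0 : 0 < x := by linarith
  have hx1 : 1 ≤ x := by linarith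
  have hlog : Real.log x ≤ x ^ (1 / 4 : ℝ) := by
    have h2 := ha x hxa
    rw [one_mul, Real.norm_of_nonneg (Real.log_nonneg hx1), Real.norm_of_nonneg (by positivity)] at h2
    exact h2
  have hlog0 : 0 ≤ Real.log x := Real.log_nonneg hx1
  set y := x ^ (1 / 4 : ℝ) with hy
  have hy0 : 0 < y := by positivity
  have hy4 : y ^ 4 = x := by
    rw [hy, ← Real.rpow_natCast, ← Real.rpow_mul hx0.le]; norm_num
  have hy2 : x ^ (1 / 2 : ℝ) = y ^ 2 := by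
    rw [hy, ← Real.rpow_natCast, ← Real.rpow_mul hx0.le]; norm_num
  have hyb : 10400 ≤ y := by
    rw [hy]
    have h3 : (10400 : ℝ) = ((10400 : ℝ) ^ 4) ^ (1 / 4 : ℝ) := by
      rw [← Real.rpow_natCast, ← Real.rpow_mul (by norm_num)]; norm_num
    rw [h3]
    exact Real.rpow_le_rpow (by norm_num) hxb (by norm_num)
  rw [hy2]
  have hl2 := Real.log_two_gt_d9
  have e1 : Real.log x + 3 * y ^ 2 * (1 + 16 * Real.log x) ≤ y + 3 * y ^ 2 * (1 + 16 * y) := by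
    gcongr
  have e2 : y + 3 * y ^ 2 * (1 + 16 * y) ≤ 52 * y ^ 3 := by nlinarith [sq_nonneg y]
  have e3 : 52 * y ^ 3 ≤ (x - 1) / 100 := by
    rw [← hy4]
    have : (10400 : ℝ) * y ^ 3 ≤ y ^ 4 := by
      calc (10400 : ℝ) * y ^ 3 ≤ y * y ^ 3 := by gcongr
        _ = y ^ 4 := by ring
    have h5 : (2 : ℝ) ≤ y ^ 4 := by rw [hy4]; exact hx2
    linarith
  have e4 : (x - 1) / 100 ≤ (x - 1) * Real.log 2 / 64 := by
    have : 0 ≤ x - 1 := by linarith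
    nlinarith
  linarith

lemma L_cond (c : ℝ) (hc : 0 < c) : ∃ B0 : ℕ, ∀ B : ℕ, B0 ≤ B →
    ((Nat.log 2 (B ^ 10) + 1 : ℕ) : ℝ) ^ 8 ≤ c * B := by
  have h1 : (fun x : ℝ => Real.log x ^ 8) =o[atTop] (id : ℝ → ℝ) := Real.isLittleO_pow_log_id_atTop
  have h2 := h1.bound (show (0 : ℝ) < c / 16 ^ 8 by positivity)
  obtain ⟨a, ha⟩ := eventually_atTop.1 h2
  refine ⟨max ⌈a⌉₊ 3, fun B hB => ?_⟩
  have hB3 : 3 ≤ B := (le_max_right _ _).trans hB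
  have hBa : a ≤ B := (Nat.le_ceil a).trans (by exact_mod_cast (le_max_left _ _).trans hB)
  have hBr : (3 : ℝ) ≤ B := by exact_mod_cast hB3
  have hlogB : 1 ≤ Real.log B := by
    rw [Real.le_log_iff_exp_le (by linarith)]
    have := Real.exp_one_lt_d9
    linarith
  have h3 := ha B hBa
  simp only [id] at h3
  rw [Real.norm_of_nonneg (by positivity), Real.norm_of_nonneg (by positivity)] at h3
  have hl2 := Real.log_two_gt_d9
  have h4 : (Nat.log 2 (B ^ 10) : ℝ) * Real.log 2 ≤ 10 * Real.log B := by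
    have h5 : 2 ^ Nat.log 2 (B ^ 10) ≤ B ^ 10 := Nat.pow_log_le_self 2 (by positivity)
    have h6 : (2 : ℝ) ^ Nat.log 2 (B ^ 10) ≤ (B : ℝ) ^ 10 := by exact_mod_cast h5
    have h7 := Real.log_le_log (by positivity) h6
    rw [Real.log_pow, Real.log_pow] at h7
    exact_mod_cast h7
  have h5 : ((Nat.log 2 (B ^ 10) + 1 : ℕ) : ℝ) ≤ 16 * Real.log B := by
    push_cast
    nlinarith [Nat.cast_nonneg (α := ℝ) (Nat.log 2 (B ^ 10))]
  calc ((Nat.log 2 (B ^ 10) + 1 : ℕ) : ℝ) ^ 8 ≤ (16 * Real.log B) ^ 8 := by gcongr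
    _ = 16 ^ 8 * Real.log B ^ 8 := by ring
    _ ≤ 16 ^ 8 * (c / 16 ^ 8 * B) := by gcongr
    _ = c * B := by ring

set_option maxHeartbeats 2000000 in
/-- the real estimates -/
lemma est {C : ℝ} {X Y L B w : ℕ} (hC1 : 1 ≤ C) (hCB : C ≤ B) (h300 : 300 ≤ B) (hB2Y : B ^ 2 ≤ Y)
    (hYX : Y ^ 20 ≤ X) (hX2 : X ≤ 2 * Y ^ 20) (hYL : Y < 2 ^ L) (hYL' : 2 ^ (L - 1) ≤ Y) (hL1 : 1 ≤ L)
    (hL8 : (L : ℝ) ^ 8 ≤ B) (hw : w = L ^ 8)
    (hexp : Real.log L + 3 * (L : ℝ) ^ (1 / 2 : ℝ) * (1 + 16 * Real.log L) ≤ ((L : ℝ) - 1) * Real.log 2 / 64) :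
    1 ≤ Real.log Y ∧ Real.log X ≤ 21 * Real.log Y ∧
    (Y : ℝ) ^ 10 + C * X / Real.log Y +
      C * (X * (w : ℝ) ^ (-(1 / 2) : ℝ) + (X : ℝ) ^ (3 / 4 : ℝ)) +
      C * X * (Y : ℝ) ^ (-(1 / 64) : ℝ) *
        Real.exp (3 * ((w ^ 2 : ℕ) : ℝ) ^ (1 / 32 : ℝ) * (1 + Real.log ((w ^ 2 : ℕ) : ℝ))) +
      (9 * X / ((w ^ 2 : ℕ) : ℝ) + 3 * (Y : ℝ) ^ 6) +
      8 * X * (1 + Real.log ((X ^ 2 + X + 1 : ℕ) : ℝ)) *
        (L ^ 2 + (1 + Real.log ((X ^ 2 + X + 1 : ℕ) : ℝ)) ^ 2) / w +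
      8 * L * X / Y +
      2 * B * (1 + Real.log ((X ^ 2 + X + 1 : ℕ) : ℝ) + L) * X / Y +
      148 * (B : ℝ) ^ 2 * (Y : ℝ) ^ 18 +
      (C * X / Real.log Y + B * (C * B ^ 2 + 4 * B * Y)) ≤ (5 * C + 2000000) * (X / Real.log Y) := by
  have hBr : (300 : ℝ) ≤ B := by exact_mod_cast h300
  have hB0' : (0 : ℝ) < B := by linarith
  have hB2Yr : (B : ℝ) ^ 2 ≤ Y := by exact_mod_cast hB2Y
  have hBYr : (B : ℝ) ≤ Y := by nlinarith
  have hYr : (300 : ℝ) ≤ Y := by linarith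
  have hY0r : (0 : ℝ) < Y := by linarith
  have hLr : (1 : ℝ) ≤ L := by exact_mod_cast hL1
  set u := Real.log Y with hu
  have hu1 : 1 ≤ u := by
    rw [hu, Real.le_log_iff_exp_le hY0r]
    have := Real.exp_one_lt_d9
    linarith
  have hl2 := Real.log_two_gt_d9
  have hl2' := Real.log_two_lt_d9
  have huL : u ≤ L := by
    have h1 : (Y : ℝ) ≤ 2 ^ L := by exact_mod_cast hYL.le
    have h2 := Real.log_le_log hY0r h1
    rw [Real.log_pow] at h2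
    nlinarith
  have hLL : ((L : ℝ) - 1) * Real.log 2 ≤ u := by
    have h6 : (2 : ℝ) ^ (L - 1) ≤ Y := by exact_mod_cast hYL'
    have h7 := Real.log_le_log (by positivity) h6
    rw [Real.log_pow, ← hu, Nat.cast_sub hL1] at h7
    exact_mod_cast h7
  have hLu : (L : ℝ) ≤ 3 * u := by nlinarith
  have hXr : (Y : ℝ) ^ 20 ≤ X := by exact_mod_cast hYX
  have hX2r : (X : ℝ) ≤ 2 * (Y : ℝ) ^ 20 := by exact_mod_cast hX2
  have hY1r : (1 : ℝ) ≤ Y := by linarith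
  have hX0 : (0 : ℝ) < X := lt_of_lt_of_le (by positivity) hXr
  have hX1r : (1 : ℝ) ≤ X := le_trans (one_le_pow₀ hY1r) hXr
  have hu0 : 0 < u := by linarith
  have hL0 : (0 : ℝ) < L := by linarith
  have hXu : 0 < (X : ℝ) / u := by positivity
  have hLpow : ∀ i : ℕ, i ≤ 8 → (L : ℝ) ^ i ≤ B := fun i hi =>
    (pow_le_pow_right₀ hLr hi).trans hL8
  have hLB : (L : ℝ) ≤ B := by simpa using hLpow 1 (by norm_num)
  have huY : u ≤ Y := by linarith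
  have hXY : (X : ℝ) / Y ≤ X / u := by gcongr
  have hpow19 : (Y : ℝ) ^ 19 ≤ X / Y := by
    rw [le_div_iff₀ hY0r]
    calc (Y : ℝ) ^ 19 * (Y : ℝ) = (Y : ℝ) ^ 20 := by ring
      _ ≤ (X : ℝ) := hXr
  have hpowle : ∀ i : ℕ, i ≤ 19 → (Y : ℝ) ^ i ≤ X / u := fun i hi =>
    (pow_le_pow_right₀ hY1r hi).trans (hpow19.trans hXY)
  -- the logarithm of `V`
  have hH : 1 + Real.log ((X ^ 2 + X + 1 : ℕ) : ℝ) ≤ 44 * u := by
    have h1 : ((X ^ 2 + X + 1 : ℕ) : ℝ) ≤ 12 * (Y : ℝ) ^ 40 := by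
      push_cast
      have h2 : (X : ℝ) ^ 2 ≤ (2 * (Y : ℝ) ^ 20) ^ 2 := by gcongr
      have h3 : (2 * (Y : ℝ) ^ 20) ^ 2 = 4 * (Y : ℝ) ^ 40 := by ring
      have h4 : (X : ℝ) ≤ X ^ 2 := le_self_pow₀ hX1r (by norm_num)
      linarith
    have h2 := Real.log_le_log (by positivity) h1
    rw [Real.log_mul (by norm_num) (by positivity), Real.log_pow] at h2
    have h3 : Real.log 12 ≤ 3 := by
      have : Real.log 12 ≤ Real.log (2 ^ 4) := Real.log_le_log (by norm_num) (by norm_num)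
      rw [Real.log_pow] at this
      push_cast at this
      linarith
    push_cast at h2
    rw [← hu] at h2
    push_cast
    linarith
  have hlogV : 0 ≤ Real.log ((X ^ 2 + X + 1 : ℕ) : ℝ) := Real.log_natCast_nonneg _
  generalize 1 + Real.log ((X ^ 2 + X + 1 : ℕ) : ℝ) = H at hH ⊢
  have hH0' : 0 ≤ H ∨ H < 0 := le_or_gt 0 H
  have t0 : (Y : ℝ) ^ 10 ≤ X / u := hpowle 10 (by norm_num)
  have t1 : C * X / u = C * (X / u) := by ring
  have hwr : ((w : ℕ) : ℝ) = (L : ℝ) ^ 8 := by rw [hw]; push_cast; ring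
  have hw2 : ((w ^ 2 : ℕ) : ℝ) = (L : ℝ) ^ 16 := by
    rw [Nat.cast_pow, hwr, ← pow_mul]
  have t2 : C * (X * (w : ℝ) ^ (-(1 / 2) : ℝ) + (X : ℝ) ^ (3 / 4 : ℝ)) ≤ 2 * C * (X / u) := by
    have h1 : (w : ℝ) ^ (-(1 / 2) : ℝ) ≤ 1 / u := by
      rw [hwr, ← Real.rpow_natCast, ← Real.rpow_mul hL0.le]
      have e1 : ((8 : ℕ) : ℝ) * (-(1 / 2) : ℝ) = -(4 : ℝ) := by norm_num
      rw [e1, Real.rpow_neg hL0.le, one_div]
      apply inv_anti₀ hu0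
      have h2 : (L : ℝ) ^ (4 : ℝ) = (L : ℝ) ^ (4 : ℕ) := by norm_cast
      rw [h2]
      calc u ≤ L := huL
        _ ≤ (L : ℝ) ^ 4 := le_self_pow₀ hLr (by norm_num)
    have h2 : (X : ℝ) ^ (3 / 4 : ℝ) ≤ X / u := by
      rw [le_div_iff₀ hu0]
      have h3 : u ≤ (X : ℝ) ^ (1 / 4 : ℝ) := by
        calc u ≤ Y := huY
          _ = ((Y : ℝ) ^ 4) ^ (1 / 4 : ℝ) := by
              rw [← Real.rpow_natCast, ← Real.rpow_mul hY0r.le]; norm_num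
          _ ≤ (X : ℝ) ^ (1 / 4 : ℝ) := by
              apply Real.rpow_le_rpow (by positivity) _ (by norm_num)
              exact (pow_le_pow_right₀ hY1r (by norm_num)).trans hXr
      calc (X : ℝ) ^ (3 / 4 : ℝ) * u ≤ (X : ℝ) ^ (3 / 4 : ℝ) * (X : ℝ) ^ (1 / 4 : ℝ) := by gcongr
        _ = X := by rw [← Real.rpow_add hX0]; norm_num
    calc C * (X * (w : ℝ) ^ (-(1 / 2) : ℝ) + (X : ℝ) ^ (3 / 4 : ℝ)) ≤ C * (X * (1 / u) + X / u) := by gcongr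
      _ = _ := by ring
  have t3 : C * X * (Y : ℝ) ^ (-(1 / 64) : ℝ) *
        Real.exp (3 * ((w ^ 2 : ℕ) : ℝ) ^ (1 / 32 : ℝ) * (1 + Real.log ((w ^ 2 : ℕ) : ℝ))) ≤ C * (X / u) := by
    have h2 : ((L : ℝ) ^ 16) ^ (1 / 32 : ℝ) = (L : ℝ) ^ (1 / 2 : ℝ) := by
      rw [← Real.rpow_natCast, ← Real.rpow_mul hL0.le]; norm_num
    rw [hw2, h2, Real.log_pow]
    push_cast
    have h5 : (Y : ℝ) ^ (-(1 / 64) : ℝ) = Real.exp (-(u / 64)) := by
      rw [Real.rpow_def_of_pos hY0r, ← hu]; congr 1; ring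
    rw [h5, mul_assoc, ← Real.exp_add]
    have h6 : Real.exp (-(u / 64) + 3 * (L : ℝ) ^ (1 / 2 : ℝ) * (1 + 16 * Real.log L)) ≤ 1 / u := by
      calc _ ≤ Real.exp (-Real.log L) := by
            apply Real.exp_le_exp.2
            linarith
        _ = 1 / L := by rw [Real.exp_neg, Real.exp_log hL0, one_div]
        _ ≤ 1 / u := by gcongr
    calc C * X * Real.exp (-(u / 64) + 3 * (L : ℝ) ^ (1 / 2 : ℝ) * (1 + 16 * Real.log L))
        ≤ C * X * (1 / u) := by gcongr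
      _ = _ := by ring
  have t4 : 9 * (X : ℝ) / ((w ^ 2 : ℕ) : ℝ) + 3 * (Y : ℝ) ^ 6 ≤ 12 * (X / u) := by
    rw [hw2]
    have h2 : u ≤ (L : ℝ) ^ 16 := huL.trans (le_self_pow₀ hLr (by norm_num))
    have h3 : 9 * (X : ℝ) / (L : ℝ) ^ 16 ≤ 9 * X / u := by gcongr
    have h4 := hpowle 6 (by norm_num)
    have h5 : 9 * (X : ℝ) / u = 9 * (X / u) := by ring
    linarith
  have t5 : 8 * (X : ℝ) * H * (L ^ 2 + H ^ 2) / w ≤ 1000000 * (X / u) := by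
    rcases hH0' with hH0 | hH0
    · rw [hwr]
      have h1 : 8 * (X : ℝ) * H * (L ^ 2 + H ^ 2) ≤ 8 * X * (44 * u) * ((3 * u) ^ 2 + (44 * u) ^ 2) := by
        gcongr
      have h2 : u ^ 8 ≤ (L : ℝ) ^ 8 := by gcongr
      calc 8 * (X : ℝ) * H * (L ^ 2 + H ^ 2) / (L : ℝ) ^ 8
          ≤ 8 * X * (44 * u) * ((3 * u) ^ 2 + (44 * u) ^ 2) / u ^ 8 := by gcongr
        _ = 684640 * (X / u) * (1 / u ^ 4) := by field_simp; ring
        _ ≤ 684640 * (X / u) * 1 := by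
            gcongr
            rw [div_le_one (by positivity)]
            exact one_le_pow₀ hu1
        _ ≤ _ := by linarith
    · have h1 : 8 * (X : ℝ) * H * (L ^ 2 + H ^ 2) / w ≤ 0 := by
        apply div_nonpos_of_nonpos_of_nonneg _ (by positivity)
        have : 8 * (X : ℝ) * H ≤ 0 := by nlinarith
        exact mul_nonpos_of_nonpos_of_nonneg this (by positivity)
      linarith
  have t6 : 8 * (L : ℝ) * X / Y ≤ 8 * (X / u) := by
    have h1 : (L : ℝ) / Y ≤ 1 / u := by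
      rw [div_le_div_iff₀ hY0r hu0]
      calc (L : ℝ) * u ≤ L * L := by gcongr
        _ = (L : ℝ) ^ 2 := by ring
        _ ≤ B := hLpow 2 (by norm_num)
        _ ≤ 1 * Y := by linarith
    calc 8 * (L : ℝ) * X / Y = 8 * X * ((L : ℝ) / Y) := by ring
      _ ≤ 8 * X * (1 / u) := by gcongr
      _ = _ := by ring
  have t7 : 2 * (B : ℝ) * (H + L) * X / Y ≤ 94 * (X / u) := by
    have h1 : (B : ℝ) * u / Y ≤ 1 / u := by
      rw [div_le_div_iff₀ hY0r hu0]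
      calc (B : ℝ) * u * u = B * u ^ 2 := by ring
        _ ≤ B * (L : ℝ) ^ 2 := by gcongr
        _ ≤ B * B := by gcongr; exact hLpow 2 (by norm_num)
        _ = (B : ℝ) ^ 2 := by ring
        _ ≤ 1 * Y := by linarith
    calc 2 * (B : ℝ) * (H + L) * X / Y ≤ 2 * (B : ℝ) * (44 * u + 3 * u) * X / Y := by gcongr
      _ = 94 * X * ((B : ℝ) * u / Y) := by ring
      _ ≤ 94 * X * (1 / u) := by gcongr
      _ = _ := by ring
  have t8 : 148 * (B : ℝ) ^ 2 * (Y : ℝ) ^ 18 ≤ 148 * (X / u) := by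
    calc 148 * (B : ℝ) ^ 2 * (Y : ℝ) ^ 18 ≤ 148 * Y * (Y : ℝ) ^ 18 := by gcongr
      _ = 148 * (Y : ℝ) ^ 19 := by ring
      _ ≤ _ := by gcongr; exact hpowle 19 le_rfl
  have t9 : (B : ℝ) * (C * B ^ 2 + 4 * B * Y) ≤ 5 * (X / u) := by
    calc (B : ℝ) * (C * B ^ 2 + 4 * B * Y) ≤ B * (B * B ^ 2 + 4 * B * Y) := by gcongr
      _ = (B : ℝ) ^ 2 * B ^ 2 + 4 * (B : ℝ) ^ 2 * Y := by ring
      _ ≤ Y * Y + 4 * Y * Y := by gcongr
      _ = 5 * (Y : ℝ) ^ 2 := by ring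
      _ ≤ _ := by gcongr; exact hpowle 2 (by norm_num)
  have hlogX : Real.log X ≤ 21 * u := by
    have h1 := Real.log_le_log hX0 hX2r
    rw [Real.log_mul (by norm_num) (by positivity), Real.log_pow, ← hu] at h1
    push_cast at h1
    linarith
  refine ⟨hu1, hlogX, ?_⟩
  rw [t1]
  have e : (5 * C + 2000000) * (X / u) = 5 * (C * (X / u)) + 2000000 * (X / u) := by ring
  have e2 : 2 * C * (X / u) = 2 * (C * (X / u)) := by ring
  rw [e2] at t2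
  rw [e]
  linarith

lemma exists_root (k : ℕ) (hk : k ≠ 0) (X : ℕ) : ∃ B : ℕ, B ^ k ≤ X ∧ X < (B + 1) ^ k := by
  have hex : ∃ b : ℕ, X < (b + 1) ^ k := ⟨X, by
    calc X < X + 1 := Nat.lt_succ_self X
      _ ≤ (X + 1) ^ k := Nat.le_self_pow hk _⟩
  refine ⟨Nat.find hex, ?_, Nat.find_spec hex⟩
  rcases Nat.eq_zero_or_pos (Nat.find hex) with h | h
  · rw [h, zero_pow hk]; exact Nat.zero_le _
  · have h1 := Nat.find_min hex (m := Nat.find hex - 1) (by omega)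
    have h2 : Nat.find hex - 1 + 1 = Nat.find hex := by omega
    rw [h2] at h1
    exact not_lt.1 h1

lemma pow_ratio {k B : ℕ} (hkB : 3 * k ≤ 2 * B) (hB : 0 < B) : (B + 1) ^ k ≤ 2 * B ^ k := by
  have hB0' : (0 : ℝ) < B := by exact_mod_cast hB
  have h1 : ((B : ℝ) + 1) ^ k ≤ 2 * (B : ℝ) ^ k := by
    have h2 : ((B : ℝ) + 1) = B * (1 + 1 / B) := by field_simp
    rw [h2, mul_pow, mul_comm]
    gcongr
    calc (1 + 1 / (B : ℝ)) ^ k ≤ (Real.exp (1 / B)) ^ k := by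
          gcongr
          have := Real.add_one_le_exp (1 / (B : ℝ))
          linarith
      _ = Real.exp (k * (1 / B)) := by rw [← Real.exp_nat_mul]
      _ ≤ Real.exp (2 / 3) := by
          apply Real.exp_le_exp.2
          rw [mul_one_div, div_le_div_iff₀ hB0' (by norm_num)]
          have : (3 * k : ℝ) ≤ 2 * B := by exact_mod_cast hkB
          linarith
      _ ≤ 2 := by
          rw [← Real.le_log_iff_exp_le (by norm_num)]
          have := Real.log_two_gt_d9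
          linarith
  exact_mod_cast h1

lemma choose_B (B0 : ℕ) (hB0 : 300 ≤ B0) : ∃ X0 : ℕ, ∀ X : ℕ, X0 ≤ X → ∃ B : ℕ, B0 ≤ B ∧
    (B ^ 10) ^ 20 ≤ X ∧ X ≤ 2 * (B ^ 10) ^ 20 := by
  obtain ⟨k, hk⟩ : ∃ k : ℕ, k = 10 * 20 := ⟨_, rfl⟩
  refine ⟨B0 ^ k, fun X hX => ?_⟩
  obtain ⟨B, h1, h2⟩ := exists_root k (by omega) X
  have h3 : B0 ≤ B := by
    by_contra hcon
    push Not at hcon
    exact absurd (hX.trans_lt h2) (not_lt.2 (Nat.pow_le_pow_left hcon k))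
  refine ⟨B, h3, ?_, ?_⟩
  · rw [← pow_mul, ← hk]; exact h1
  · rw [← pow_mul, ← hk]
    exact h2.le.trans (pow_ratio (by omega) (by omega))

lemma div_cond {D : ℝ}
    (hDb : ∀ n : ℕ, 1 ≤ n → (n.divisors.card : ℝ) ≤ D * (n : ℝ) ^ (1 / 2020 : ℝ))
    {X Y B : ℕ} (h300 : 300 ≤ B) (hDB : D ^ 2 ≤ B) (hY : Y = B ^ 10) (hX2 : X ≤ 2 * Y ^ 20)
    (hBY : B ≤ Y) :
    ∀ N : ℕ, 1 ≤ N → N ≤ X ^ 5 → N.divisors.card ≤ B := by
  intro N hN1 hN2
  have hB0' : (0 : ℝ) < B := by exact_mod_cast (by omega : 0 < B)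
  have hY0' : (0 : ℝ) < Y := by exact_mod_cast (by omega : 0 < Y)
  have h1 := hDb N hN1
  have h3 : N ≤ Y ^ 101 := by
    calc N ≤ X ^ 5 := hN2
      _ ≤ (2 * Y ^ 20) ^ 5 := Nat.pow_le_pow_left hX2 5
      _ = 32 * Y ^ 100 := by rw [mul_pow, ← pow_mul]; norm_num
      _ ≤ Y * Y ^ 100 := Nat.mul_le_mul_right _ (by omega)
      _ = Y ^ 101 := by rw [← pow_succ']
  have h2 : (N : ℝ) ≤ (Y : ℝ) ^ 101 := by exact_mod_cast h3
  have h3 : (N : ℝ) ^ (1 / 2020 : ℝ) ≤ (B : ℝ) ^ (1 / 2 : ℝ) := by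
    calc (N : ℝ) ^ (1 / 2020 : ℝ) ≤ ((Y : ℝ) ^ 101) ^ (1 / 2020 : ℝ) :=
          Real.rpow_le_rpow (by positivity) h2 (by norm_num)
      _ = (Y : ℝ) ^ (1 / 20 : ℝ) := by
          rw [← Real.rpow_natCast, ← Real.rpow_mul hY0'.le]; norm_num
      _ = (B : ℝ) ^ (1 / 2 : ℝ) := by
          rw [hY]; push_cast
          rw [← Real.rpow_natCast, ← Real.rpow_mul hB0'.le]; norm_num
  have h4 : D ≤ (B : ℝ) ^ (1 / 2 : ℝ) := by
    rw [← Real.sqrt_eq_rpow]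
    exact Real.le_sqrt_of_sq_le hDB
  have h5 : (N.divisors.card : ℝ) ≤ B := by
    calc (N.divisors.card : ℝ) ≤ D * (N : ℝ) ^ (1 / 2020 : ℝ) := h1
      _ ≤ (B : ℝ) ^ (1 / 2 : ℝ) * (B : ℝ) ^ (1 / 2 : ℝ) := by gcongr
      _ = B := by rw [← Real.rpow_add hB0']; norm_num
  exact_mod_cast h5

open Classical in
theorem count_large : ∃ (C : ℝ) (X0 : ℕ), 0 < C ∧ ∀ X : ℕ, X0 ≤ X →
    (#((Icc 2 X).filter IsOrd) : ℝ) ≤ C * X / Real.log X := by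
  obtain ⟨C, Y0, hC1, hcomb⟩ := combined
  obtain ⟨x0, hx01, hexp⟩ := exp_cond
  obtain ⟨B1, hB1⟩ := L_cond (1 / 2) (by norm_num)
  obtain ⟨D, hD, hDb⟩ := Pool.Agent.H510R2.divisor_bound (1 / 2020) (by norm_num)
  obtain ⟨b3, hb3⟩ : ∃ b : ℕ, b = 2 ^ ⌈x0⌉₊ := ⟨_, rfl⟩
  obtain ⟨b4, hb4⟩ : ∃ b : ℕ, b = ⌈D ^ 2⌉₊ := ⟨_, rfl⟩
  obtain ⟨b5, hb5⟩ : ∃ b : ℕ, b = ⌈C⌉₊ := ⟨_, rfl⟩
  obtain ⟨B0, h300, hY0B, hB1B, hx0B, hDB, hCB⟩ : ∃ B0 : ℕ, 300 ≤ B0 ∧ Y0 ≤ B0 ∧ B1 ≤ B0 ∧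
      b3 ≤ B0 ∧ b4 ≤ B0 ∧ b5 ≤ B0 :=
    ⟨300 + Y0 + B1 + b3 + b4 + b5, by omega, by omega, by omega, by omega, by omega, by omega⟩
  rw [hb3] at hx0B
  rw [hb4] at hDB
  rw [hb5] at hCB
  obtain ⟨X0, hX0⟩ := choose_B B0 h300
  refine ⟨21 * (5 * C + 2000000), max X0 2, by positivity, fun X hX => ?_⟩
  obtain ⟨B, hBB0, hYX, hX2⟩ := hX0 X ((le_max_left _ _).trans hX)
  have hX2' : 2 ≤ X := (le_max_right _ _).trans hX
  obtain ⟨Y, hY⟩ : ∃ Y : ℕ, Y = B ^ 10 := ⟨_, rfl⟩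
  rw [← hY] at hYX hX2
  have hBY : B ≤ Y := by rw [hY]; exact Nat.le_self_pow (by norm_num) B
  have hB2Y : B ^ 2 ≤ Y := by rw [hY]; exact Nat.pow_le_pow_right (by omega) (by norm_num)
  obtain ⟨L, hL⟩ : ∃ L : ℕ, L = Nat.log 2 Y + 1 := ⟨_, rfl⟩
  have hYL : Y < 2 ^ L := by rw [hL]; exact Nat.lt_pow_succ_log_self (by norm_num) Y
  have hYL' : 2 ^ (L - 1) ≤ Y := by
    rw [hL, Nat.add_sub_cancel]; exact Nat.pow_log_le_self 2 (by omega)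
  have hL1 : 1 ≤ L := by omega
  have hL8 : (L : ℝ) ^ 8 ≤ 1 / 2 * B := by
    have := hB1 B (hB1B.trans hBB0)
    rw [← hY, ← hL] at this
    exact this
  have hLx0 : x0 ≤ L := by
    have h1 : ⌈x0⌉₊ ≤ Nat.log 2 Y :=
      Nat.le_log_of_pow_le (by norm_num) (hx0B.trans (hBB0.trans hBY))
    calc x0 ≤ ⌈x0⌉₊ := Nat.le_ceil _
      _ ≤ L := by exact_mod_cast (by omega : ⌈x0⌉₊ ≤ L)
  have hBr : (300 : ℝ) ≤ B := by exact_mod_cast h300.trans hBB0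
  obtain ⟨w, hw⟩ : ∃ w : ℕ, w = L ^ 8 := ⟨_, rfl⟩
  have hwB : w + 2 ≤ B := by
    have : ((w + 2 : ℕ) : ℝ) ≤ B := by rw [hw]; push_cast; linarith
    exact_mod_cast this
  have hw1 : 1 ≤ w := by rw [hw]; exact Nat.one_le_pow _ _ hL1
  have hDB' : D ^ 2 ≤ B := (Nat.le_ceil _).trans (by exact_mod_cast hDB.trans hBB0)
  have hCB' : C ≤ B := (Nat.le_ceil _).trans (by exact_mod_cast hCB.trans hBB0)
  have hτ := div_cond hDb (h300.trans hBB0) hDB' hY hX2 hBY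
  have hYpos : 0 < Y := by omega
  have hwY : Y * w ^ 2 ≤ X := by
    calc Y * w ^ 2 ≤ Y * Y ^ 2 := Nat.mul_le_mul_left _ (Nat.pow_le_pow_left (by omega) 2)
      _ = Y ^ 3 := by ring
      _ ≤ Y ^ 20 := Nat.pow_le_pow_right hYpos (by norm_num)
      _ ≤ X := hYX
  have hmain := hcomb X Y w L B (hY0B.trans (hBB0.trans hBY)) (by omega) hw1 hwB hBY hYL hYX hX2 hwY hτ
  obtain ⟨e1, e2, e3⟩ := est hC1 hCB' (h300.trans hBB0) hB2Y hYX hX2 hYL hYL' hL1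
    (by linarith : (L : ℝ) ^ 8 ≤ B) hw (hexp L hLx0)
  have htot := hmain.trans e3
  have hXr : (2 : ℝ) ≤ X := by exact_mod_cast hX2'
  have hlogX0 : 0 < Real.log X := Real.log_pos (by linarith)
  have hu0 : 0 < Real.log Y := by linarith
  have hfin : (X : ℝ) / Real.log Y ≤ 21 * (X / Real.log X) := by
    have h1 : (X : ℝ) / Real.log Y = 21 * (X / (21 * Real.log Y)) := by field_simp
    rw [h1]
    gcongr
  calc (#((Icc 2 X).filter IsOrd) : ℝ) ≤ (5 * C + 2000000) * (X / Real.log Y) := htot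
    _ ≤ (5 * C + 2000000) * (21 * (X / Real.log X)) := by gcongr
    _ = _ := by ring

open Classical in
theorem count_all : ∃ C : ℝ, 0 < C ∧ ∀ X : ℕ, 2 ≤ X →
    (#((Icc 2 X).filter IsOrd) : ℝ) ≤ C * X / Real.log X := by
  obtain ⟨C, X0, hC, h⟩ := count_large
  refine ⟨C + Real.log (X0 + 2), by
    have : 0 ≤ Real.log ((X0 : ℝ) + 2) := Real.log_nonneg (by have := Nat.cast_nonneg (α := ℝ) X0; linarith)
    linarith, fun X hX => ?_⟩
  have hXr : (2 : ℝ) ≤ X := by exact_mod_cast hX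
  have hlog : 0 < Real.log X := Real.log_pos (by linarith)
  have hX00 : 0 ≤ Real.log ((X0 : ℝ) + 2) :=
    Real.log_nonneg (by have := Nat.cast_nonneg (α := ℝ) X0; linarith)
  rcases le_or_gt X0 X with h1 | h1
  · refine (h X h1).trans ?_
    gcongr
    linarith
  · have h2 : (#((Icc 2 X).filter IsOrd) : ℝ) ≤ X := by
      have h3 := card_filter_le (Icc 2 X) IsOrd
      rw [Nat.card_Icc] at h3
      exact_mod_cast h3.trans (by omega)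
    refine h2.trans ?_
    rw [le_div_iff₀ hlog]
    have h3 : Real.log X ≤ Real.log ((X0 : ℝ) + 2) := by
      apply Real.log_le_log (by linarith)
      have : (X : ℝ) ≤ X0 := by exact_mod_cast h1.le
      linarith
    nlinarith

end Pool.Agent.TH506.APD
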