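import Pool.Agent.TH506.APD.Main2
import Pool.Agent.TH506.APD.Fin

/-!
Asymptotics: orders that are not prime powers with `n ^ 2 + n + 1` composite: `o(X / log X)`.
-/

set_option autoImplicit false

namespace Pool.Agent.TH506.APD

open Finset Filter Topology Asymptotics

lemma exp_cond2 : ∃ x0 : ℝ, 1 ≤ x0 ∧ ∀ x : ℝ, x0 ≤ x →
    2 * Real.log x + 3 * x ^ (1 / 2 : ℝ) * (1 + 16 * Real.log x) ≤ (x - 1) * Real.log 2 / 64 := by
  have h1 := (isLittleO_log_rpow_atTop (show (0 : ℝ) < 1 / 4 by norm_num)).bound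
    (show (0 : ℝ) < 1 by norm_num)
  obtain ⟨a, ha⟩ := eventually_atTop.1 h1
  refine ⟨max (max a 2) (11000 ^ 4), le_trans (by norm_num) (le_max_right _ _), fun x hx => ?_⟩
  have hxa : a ≤ x := (le_max_left a 2).trans ((le_max_left _ _).trans hx)
  have hx2 : 2 ≤ x := (le_max_right a 2).trans ((le_max_left _ _).trans hx)
  have hxb : 11000 ^ 4 ≤ x := (le_max_right _ _).trans hx
  have hx0 : 0 < x := by linarith
  have hx1 : 1 ≤ x := by linarith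
  have hlog : Real.log x ≤ x ^ (1 / 4 : ℝ) := by
    have h2 := ha x hxa
    rw [one_mul, Real.norm_of_nonneg (Real.log_nonneg hx1), Real.norm_of_nonneg (by positivity)] at h2
    exact h2
  have hlog0 : 0 ≤ Real.log x := Real.log_nonneg hx1
  set y := x ^ (1 / 4 : ℝ) with hy
  have hy0 : 0 < y := by positivity
  have hy4 : y ^ 4 = x := by
    rw [hy, ← Real.rpow_natCast, ← Real.rpow_mul hx0.le]; norm_num
  have hy2 : x ^ (1 / 2 : ℝ) = y ^ 2 := by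
    rw [hy, ← Real.rpow_natCast, ← Real.rpow_mul hx0.le]; norm_num
  have hyb : 11000 ≤ y := by
    rw [hy]
    have h3 : (11000 : ℝ) = ((11000 : ℝ) ^ 4) ^ (1 / 4 : ℝ) := by
      rw [← Real.rpow_natCast, ← Real.rpow_mul (by norm_num)]; norm_num
    rw [h3]
    exact Real.rpow_le_rpow (by norm_num) hxb (by norm_num)
  rw [hy2]
  have hl2 := Real.log_two_gt_d9
  have e1 : 2 * Real.log x + 3 * y ^ 2 * (1 + 16 * Real.log x) ≤ 2 * y + 3 * y ^ 2 * (1 + 16 * y) := by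
    gcongr
  have e2 : 2 * y + 3 * y ^ 2 * (1 + 16 * y) ≤ 54 * y ^ 3 := by nlinarith [sq_nonneg y]
  have e3 : 54 * y ^ 3 ≤ (x - 1) / 100 := by
    rw [← hy4]
    have : (11000 : ℝ) * y ^ 3 ≤ y ^ 4 := by
      calc (11000 : ℝ) * y ^ 3 ≤ y * y ^ 3 := by gcongr
        _ = y ^ 4 := by ring
    have h5 : (2 : ℝ) ≤ y ^ 4 := by rw [hy4]; exact hx2
    linarith
  have e4 : (x - 1) / 100 ≤ (x - 1) * Real.log 2 / 64 := by
    have : 0 ≤ x - 1 := by linarith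
    nlinarith
  linarith

lemma level_cond {L : ℕ} (hL : 2 ^ 20 ≤ L) : ∃ J1 : ℕ, 1 ≤ J1 ∧ (L ^ 8) ^ 2 < 2 ^ 2 ^ J1 ∧
    (2 ^ J1) ^ 2 ≤ L := by
  obtain ⟨m, hm⟩ : ∃ m : ℕ, m = Nat.log 2 L := ⟨_, rfl⟩
  have hm20 : 20 ≤ m := by rw [hm]; exact Nat.le_log_of_pow_le (by norm_num) hL
  have hL0 : L ≠ 0 := by
    intro h; rw [h] at hL; norm_num at hL
  have h1 : 2 ^ m ≤ L := by rw [hm]; exact Nat.pow_log_le_self 2 hL0
  have h2 : L < 2 ^ (m + 1) := by rw [hm]; exact Nat.lt_pow_succ_log_self (by norm_num) L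
  have key : ∀ k : ℕ, 10 ≤ k → 16 * (2 * k + 2) ≤ 2 ^ k := by
    intro k hk
    induction k, hk using Nat.le_induction with
    | base => norm_num
    | succ k hk ih => rw [pow_succ]; omega
  refine ⟨m / 2, by omega, ?_, ?_⟩
  · have h3 := key (m / 2) (by omega)
    calc (L ^ 8) ^ 2 = L ^ 16 := by rw [← pow_mul]
      _ < (2 ^ (m + 1)) ^ 16 := Nat.pow_lt_pow_left h2 (by norm_num)
      _ = 2 ^ (16 * (m + 1)) := by rw [← pow_mul, mul_comm]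
      _ ≤ 2 ^ 2 ^ (m / 2) := Nat.pow_le_pow_right (by norm_num) (by omega)
  · calc (2 ^ (m / 2)) ^ 2 = 2 ^ (m / 2 * 2) := by rw [← pow_mul]
      _ ≤ 2 ^ m := Nat.pow_le_pow_right (by norm_num) (by omega)
      _ ≤ L := h1

set_option maxHeartbeats 4000000 in
/-- the real estimates -/
lemma est2 {C ε : ℝ} {X Y L B w J1 : ℕ} (hC1 : 1 ≤ C) (hCB : C ≤ B) (h300 : 300 ≤ B) (hB2Y : B ^ 2 ≤ Y)
    (hYX : Y ^ 20 ≤ X) (hX2 : X ≤ 2 * Y ^ 20) (hYL : Y < 2 ^ L) (hYL' : 2 ^ (L - 1) ≤ Y) (hL1 : 1 ≤ L)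
    (hL8 : (L : ℝ) ^ 8 ≤ B) (hw : w = L ^ 8)
    (hexp : 2 * Real.log L + 3 * (L : ℝ) ^ (1 / 2 : ℝ) * (1 + 16 * Real.log L) ≤
      ((L : ℝ) - 1) * Real.log 2 / 64) :
    1 ≤ Real.log Y ∧ Real.log X ≤ 21 * Real.log Y ∧ (L : ℝ) ≤ 3 * Real.log Y ∧
    4 * (Y : ℝ) ^ 10 +
      C * (X * (w : ℝ) ^ (-(1 / 2) : ℝ) + (X : ℝ) ^ (3 / 4 : ℝ)) +
      C * X * (Y : ℝ) ^ (-(1 / 64) : ℝ) *
        Real.exp (3 * ((w ^ 2 : ℕ) : ℝ) ^ (1 / 32 : ℝ) * (1 + Real.log ((w ^ 2 : ℕ) : ℝ))) +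
      (9 * X / ((w ^ 2 : ℕ) : ℝ) + 3 * (Y : ℝ) ^ 6) +
      8 * X * (1 + Real.log ((X ^ 2 + X + 1 : ℕ) : ℝ)) *
        (L ^ 2 + (1 + Real.log ((X ^ 2 + X + 1 : ℕ) : ℝ)) ^ 2) / w +
      8 * L * X / Y +
      2 * B * (1 + Real.log ((X ^ 2 + X + 1 : ℕ) : ℝ) + L) * X / Y +
      148 * (B : ℝ) ^ 2 * (Y : ℝ) ^ 18 +
      8 * X * (1 + Real.log ((X ^ 2 + X + 1 : ℕ) : ℝ)) *
        ((11 * L) ^ 2 + (1 + Real.log ((X ^ 2 + X + 1 : ℕ) : ℝ)) ^ 2) / w +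
      2 * (11 * L) * (Y : ℝ) ^ 2 *
        (X * (1 + Real.log ((X ^ 2 + X + 1 : ℕ) : ℝ)) / (Y : ℝ) ^ 4 + 2 * (Y : ℝ) ^ 10) +
      (C * X * 2 ^ J1 / Real.log Y ^ 2 + Y) +
      B * (C * B ^ 2 + 4 * B * Y) + (Y : ℝ) ^ 2 + ε * X / Real.log Y ≤
    (5 * C + 2000000) * (X / Real.log Y ^ 2) * 2 ^ J1 + ε * X / Real.log Y := by
  have hBr : (300 : ℝ) ≤ B := by exact_mod_cast h300
  have hB0' : (0 : ℝ) < B := by linarith
  have hB2Yr : (B : ℝ) ^ 2 ≤ Y := by exact_mod_cast hB2Y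
  have hBYr : (B : ℝ) ≤ Y := by nlinarith
  have hYr : (300 : ℝ) ≤ Y := by linarith
  have hY0r : (0 : ℝ) < Y := by linarith
  have hLr : (1 : ℝ) ≤ L := by exact_mod_cast hL1
  set u := Real.log Y with hu
  have hu1 : 1 ≤ u := by
    rw [hu, Real.le_log_iff_exp_le hY0r]
    have := Real.exp_one_lt_d9
    linarith
  have hl2 := Real.log_two_gt_d9
  have hl2' := Real.log_two_lt_d9
  have huL : u ≤ L := by
    have h1 : (Y : ℝ) ≤ 2 ^ L := by exact_mod_cast hYL.le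
    have h2 := Real.log_le_log hY0r h1
    rw [Real.log_pow] at h2
    nlinarith
  have hLL : ((L : ℝ) - 1) * Real.log 2 ≤ u := by
    have h6 : (2 : ℝ) ^ (L - 1) ≤ Y := by exact_mod_cast hYL'
    have h7 := Real.log_le_log (by positivity) h6
    rw [Real.log_pow, ← hu, Nat.cast_sub hL1] at h7
    exact_mod_cast h7
  have hLu : (L : ℝ) ≤ 3 * u := by nlinarith
  have hXr : (Y : ℝ) ^ 20 ≤ X := by exact_mod_cast hYX
  have hX2r : (X : ℝ) ≤ 2 * (Y : ℝ) ^ 20 := by exact_mod_cast hX2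
  have hY1r : (1 : ℝ) ≤ Y := by linarith
  have hX0 : (0 : ℝ) < X := lt_of_lt_of_le (by positivity) hXr
  have hX1r : (1 : ℝ) ≤ X := le_trans (one_le_pow₀ hY1r) hXr
  have hu0 : 0 < u := by linarith
  have hL0 : (0 : ℝ) < L := by linarith
  have hXu : 0 < (X : ℝ) / u ^ 2 := by positivity
  have hLpow : ∀ i : ℕ, i ≤ 8 → (L : ℝ) ^ i ≤ B := fun i hi =>
    (pow_le_pow_right₀ hLr hi).trans hL8
  have hupow : ∀ i : ℕ, i ≤ 8 → u ^ i ≤ B := fun i hi =>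
    (pow_le_pow_left₀ hu0.le huL i).trans (hLpow i hi)
  have hLB : (L : ℝ) ≤ B := by simpa using hLpow 1 (by norm_num)
  have huY2 : u ^ 2 ≤ Y := (hupow 2 (by norm_num)).trans hBYr
  have hXY : (X : ℝ) / Y ≤ X / u ^ 2 := by gcongr
  have hpow19 : (Y : ℝ) ^ 19 ≤ X / Y := by
    rw [le_div_iff₀ hY0r]
    calc (Y : ℝ) ^ 19 * (Y : ℝ) = (Y : ℝ) ^ 20 := by ring
      _ ≤ (X : ℝ) := hXr
  have hpowle : ∀ i : ℕ, i ≤ 19 → (Y : ℝ) ^ i ≤ X / u ^ 2 := fun i hi =>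
    (pow_le_pow_right₀ hY1r hi).trans (hpow19.trans hXY)
  -- the logarithm of `V`
  have hH : 1 + Real.log ((X ^ 2 + X + 1 : ℕ) : ℝ) ≤ 44 * u := by
    have h1 : ((X ^ 2 + X + 1 : ℕ) : ℝ) ≤ 12 * (Y : ℝ) ^ 40 := by
      push_cast
      have h2 : (X : ℝ) ^ 2 ≤ (2 * (Y : ℝ) ^ 20) ^ 2 := by gcongr
      have h3 : (2 * (Y : ℝ) ^ 20) ^ 2 = 4 * (Y : ℝ) ^ 40 := by ring
      have h4 : (X : ℝ) ≤ X ^ 2 := le_self_pow₀ hX1r (by norm_num)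
      linarith
    have h2 := Real.log_le_log (by positivity) h1
    rw [Real.log_mul (by norm_num) (by positivity), Real.log_pow] at h2
    have h3 : Real.log 12 ≤ 3 := by
      have : Real.log 12 ≤ Real.log (2 ^ 4) := Real.log_le_log (by norm_num) (by norm_num)
      rw [Real.log_pow] at this
      push_cast at this
      linarith
    push_cast at h2
    rw [← hu] at h2
    push_cast
    linarith
  have hlogV : 0 ≤ Real.log ((X ^ 2 + X + 1 : ℕ) : ℝ) := Real.log_natCast_nonneg _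
  have hH0 : 0 ≤ 1 + Real.log ((X ^ 2 + X + 1 : ℕ) : ℝ) := by linarith
  generalize 1 + Real.log ((X ^ 2 + X + 1 : ℕ) : ℝ) = H at hH hH0 ⊢
  have t0 : 4 * (Y : ℝ) ^ 10 ≤ 4 * (X / u ^ 2) := by
    have := hpowle 10 (by norm_num)
    linarith
  have hwr : ((w : ℕ) : ℝ) = (L : ℝ) ^ 8 := by rw [hw]; push_cast; ring
  have hw2 : ((w ^ 2 : ℕ) : ℝ) = (L : ℝ) ^ 16 := by
    rw [Nat.cast_pow, hwr, ← pow_mul]
  have t2 : C * (X * (w : ℝ) ^ (-(1 / 2) : ℝ) + (X : ℝ) ^ (3 / 4 : ℝ)) ≤ 2 * (C * (X / u ^ 2)) := by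
    have h1 : (w : ℝ) ^ (-(1 / 2) : ℝ) ≤ 1 / u ^ 2 := by
      rw [hwr, ← Real.rpow_natCast, ← Real.rpow_mul hL0.le]
      have e1 : ((8 : ℕ) : ℝ) * (-(1 / 2) : ℝ) = -(4 : ℝ) := by norm_num
      rw [e1, Real.rpow_neg hL0.le, one_div]
      apply inv_anti₀ (by positivity)
      have h2 : (L : ℝ) ^ (4 : ℝ) = (L : ℝ) ^ (4 : ℕ) := by norm_cast
      rw [h2]
      calc u ^ 2 ≤ (L : ℝ) ^ 2 := by gcongr
        _ ≤ (L : ℝ) ^ 4 := pow_le_pow_right₀ hLr (by norm_num)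
    have h2 : (X : ℝ) ^ (3 / 4 : ℝ) ≤ X / u ^ 2 := by
      rw [le_div_iff₀ (by positivity)]
      have h3 : u ^ 2 ≤ (X : ℝ) ^ (1 / 4 : ℝ) := by
        calc u ^ 2 ≤ Y := huY2
          _ = ((Y : ℝ) ^ 4) ^ (1 / 4 : ℝ) := by
              rw [← Real.rpow_natCast, ← Real.rpow_mul hY0r.le]; norm_num
          _ ≤ (X : ℝ) ^ (1 / 4 : ℝ) := by
              apply Real.rpow_le_rpow (by positivity) _ (by norm_num)
              exact (pow_le_pow_right₀ hY1r (by norm_num)).trans hXr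
      calc (X : ℝ) ^ (3 / 4 : ℝ) * u ^ 2 ≤ (X : ℝ) ^ (3 / 4 : ℝ) * (X : ℝ) ^ (1 / 4 : ℝ) := by gcongr
        _ = X := by rw [← Real.rpow_add hX0]; norm_num
    calc C * (X * (w : ℝ) ^ (-(1 / 2) : ℝ) + (X : ℝ) ^ (3 / 4 : ℝ)) ≤
          C * (X * (1 / u ^ 2) + X / u ^ 2) := by gcongr
      _ = _ := by ring
  have t3 : C * X * (Y : ℝ) ^ (-(1 / 64) : ℝ) *
        Real.exp (3 * ((w ^ 2 : ℕ) : ℝ) ^ (1 / 32 : ℝ) * (1 + Real.log ((w ^ 2 : ℕ) : ℝ))) ≤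
        C * (X / u ^ 2) := by
    have h2 : ((L : ℝ) ^ 16) ^ (1 / 32 : ℝ) = (L : ℝ) ^ (1 / 2 : ℝ) := by
      rw [← Real.rpow_natCast, ← Real.rpow_mul hL0.le]; norm_num
    rw [hw2, h2, Real.log_pow]
    push_cast
    have h5 : (Y : ℝ) ^ (-(1 / 64) : ℝ) = Real.exp (-(u / 64)) := by
      rw [Real.rpow_def_of_pos hY0r, ← hu]; congr 1; ring
    rw [h5, mul_assoc, ← Real.exp_add]
    have h6 : Real.exp (-(u / 64) + 3 * (L : ℝ) ^ (1 / 2 : ℝ) * (1 + 16 * Real.log L)) ≤ 1 / u ^ 2 := by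
      calc _ ≤ Real.exp (-(Real.log L + Real.log L)) := by
            apply Real.exp_le_exp.2
            linarith
        _ = 1 / (L : ℝ) ^ 2 := by
            rw [Real.exp_neg, Real.exp_add, Real.exp_log hL0, one_div, pow_two]
        _ ≤ 1 / u ^ 2 := by gcongr
    calc C * X * Real.exp (-(u / 64) + 3 * (L : ℝ) ^ (1 / 2 : ℝ) * (1 + 16 * Real.log L))
        ≤ C * X * (1 / u ^ 2) := by gcongr
      _ = _ := by ring
  have t4 : 9 * (X : ℝ) / ((w ^ 2 : ℕ) : ℝ) + 3 * (Y : ℝ) ^ 6 ≤ 12 * (X / u ^ 2) := by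
    rw [hw2]
    have h2 : u ^ 2 ≤ (L : ℝ) ^ 16 := by
      calc u ^ 2 ≤ (L : ℝ) ^ 2 := by gcongr
        _ ≤ (L : ℝ) ^ 16 := pow_le_pow_right₀ hLr (by norm_num)
    have h3 : 9 * (X : ℝ) / (L : ℝ) ^ 16 ≤ 9 * X / u ^ 2 := by gcongr
    have h4 := hpowle 6 (by norm_num)
    have h5 : 9 * (X : ℝ) / u ^ 2 = 9 * (X / u ^ 2) := by ring
    linarith
  have t5 : 8 * (X : ℝ) * H * (L ^ 2 + H ^ 2) / w ≤ 700000 * (X / u ^ 2) := by
    rw [hwr]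
    have h1 : 8 * (X : ℝ) * H * (L ^ 2 + H ^ 2) ≤ 8 * X * (44 * u) * ((3 * u) ^ 2 + (44 * u) ^ 2) := by
      gcongr
    have h2 : u ^ 8 ≤ (L : ℝ) ^ 8 := by gcongr
    calc 8 * (X : ℝ) * H * (L ^ 2 + H ^ 2) / (L : ℝ) ^ 8
        ≤ 8 * X * (44 * u) * ((3 * u) ^ 2 + (44 * u) ^ 2) / u ^ 8 := by gcongr
      _ = 684640 * (X / u ^ 2) * (1 / u ^ 3) := by field_simp; ring
      _ ≤ 684640 * (X / u ^ 2) * 1 := by
          gcongr
          rw [div_le_one (by positivity)]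
          exact one_le_pow₀ hu1
      _ ≤ _ := by linarith
  have t5' : 8 * (X : ℝ) * H * ((11 * L) ^ 2 + H ^ 2) / w ≤ 1100000 * (X / u ^ 2) := by
    rw [hwr]
    have h1 : 8 * (X : ℝ) * H * ((11 * L) ^ 2 + H ^ 2) ≤
        8 * X * (44 * u) * ((11 * (3 * u)) ^ 2 + (44 * u) ^ 2) := by
      gcongr
    have h2 : u ^ 8 ≤ (L : ℝ) ^ 8 := by gcongr
    calc 8 * (X : ℝ) * H * ((11 * L) ^ 2 + H ^ 2) / (L : ℝ) ^ 8
        ≤ 8 * X * (44 * u) * ((11 * (3 * u)) ^ 2 + (44 * u) ^ 2) / u ^ 8 := by gcongr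
      _ = 1064800 * (X / u ^ 2) * (1 / u ^ 3) := by field_simp; ring
      _ ≤ 1064800 * (X / u ^ 2) * 1 := by
          gcongr
          rw [div_le_one (by positivity)]
          exact one_le_pow₀ hu1
      _ ≤ _ := by linarith
  have t6 : 8 * (L : ℝ) * X / Y ≤ 8 * (X / u ^ 2) := by
    have h1 : (L : ℝ) / Y ≤ 1 / u ^ 2 := by
      rw [div_le_div_iff₀ hY0r (by positivity)]
      calc (L : ℝ) * u ^ 2 ≤ L * (L : ℝ) ^ 2 := by gcongr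
        _ = (L : ℝ) ^ 3 := by ring
        _ ≤ B := hLpow 3 (by norm_num)
        _ ≤ 1 * Y := by linarith
    calc 8 * (L : ℝ) * X / Y = 8 * X * ((L : ℝ) / Y) := by ring
      _ ≤ 8 * X * (1 / u ^ 2) := by gcongr
      _ = _ := by ring
  have t7 : 2 * (B : ℝ) * (H + L) * X / Y ≤ 94 * (X / u ^ 2) := by
    have h1 : (B : ℝ) * u / Y ≤ 1 / u ^ 2 := by
      rw [div_le_div_iff₀ hY0r (by positivity)]
      calc (B : ℝ) * u * u ^ 2 = (B : ℝ) * u ^ 3 := by ring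
        _ ≤ (B : ℝ) * (B : ℝ) := by gcongr; exact hupow 3 (by norm_num)
        _ = (B : ℝ) ^ 2 := by ring
        _ ≤ 1 * Y := by linarith
    calc 2 * (B : ℝ) * (H + L) * X / Y ≤ 2 * (B : ℝ) * (44 * u + 3 * u) * X / Y := by gcongr
      _ = 94 * X * ((B : ℝ) * u / Y) := by ring
      _ ≤ 94 * X * (1 / u ^ 2) := by gcongr
      _ = _ := by ring
  have t8 : 148 * (B : ℝ) ^ 2 * (Y : ℝ) ^ 18 ≤ 148 * (X / u ^ 2) := by
    calc 148 * (B : ℝ) ^ 2 * (Y : ℝ) ^ 18 ≤ 148 * Y * (Y : ℝ) ^ 18 := by gcongr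
      _ = 148 * (Y : ℝ) ^ 19 := by ring
      _ ≤ _ := by gcongr; exact hpowle 19 le_rfl
  have t10 : 2 * (11 * L) * (Y : ℝ) ^ 2 * (X * H / (Y : ℝ) ^ 4 + 2 * (Y : ℝ) ^ 10) ≤
      4000 * (X / u ^ 2) := by
    have h1 : 2 * (11 * L) * (Y : ℝ) ^ 2 * (X * H / (Y : ℝ) ^ 4 + 2 * (Y : ℝ) ^ 10) ≤
        2 * (11 * (3 * u)) * (Y : ℝ) ^ 2 * (X * (44 * u) / (Y : ℝ) ^ 4 + 2 * (Y : ℝ) ^ 10) := by gcongr
    have h2 : 2 * (11 * (3 * u)) * (Y : ℝ) ^ 2 * (X * (44 * u) / (Y : ℝ) ^ 4 + 2 * (Y : ℝ) ^ 10) =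
        2904 * X * (u ^ 2 / (Y : ℝ) ^ 2) + 132 * (u * (Y : ℝ) ^ 12) := by field_simp; ring
    have h3 : u ^ 2 / (Y : ℝ) ^ 2 ≤ 1 / u ^ 2 := by
      rw [div_le_div_iff₀ (by positivity) (by positivity)]
      calc u ^ 2 * u ^ 2 ≤ Y * Y := by gcongr
        _ = 1 * (Y : ℝ) ^ 2 := by ring
    have h4 : u * (Y : ℝ) ^ 12 ≤ X / u ^ 2 := by
      have h5 : u ≤ Y := by
        have := hupow 1 (by norm_num)
        rw [pow_one] at this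
        linarith
      calc u * (Y : ℝ) ^ 12 ≤ Y * (Y : ℝ) ^ 12 := by gcongr
        _ = (Y : ℝ) ^ 13 := by ring
        _ ≤ _ := hpowle 13 (by norm_num)
    calc _ ≤ _ := h1
      _ = _ := h2
      _ ≤ 2904 * X * (1 / u ^ 2) + 132 * (X / u ^ 2) := by gcongr
      _ = 3036 * (X / u ^ 2) := by ring
      _ ≤ _ := by gcongr; norm_num
  have t11 : (Y : ℝ) ≤ X / u ^ 2 := by simpa using hpowle 1 (by norm_num)
  have t9 : (B : ℝ) * (C * B ^ 2 + 4 * B * Y) ≤ 5 * (X / u ^ 2) := by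
    calc (B : ℝ) * (C * B ^ 2 + 4 * B * Y) ≤ B * (B * B ^ 2 + 4 * B * Y) := by gcongr
      _ = (B : ℝ) ^ 2 * B ^ 2 + 4 * (B : ℝ) ^ 2 * Y := by ring
      _ ≤ Y * Y + 4 * Y * Y := by gcongr
      _ = 5 * (Y : ℝ) ^ 2 := by ring
      _ ≤ _ := by gcongr; exact hpowle 2 (by norm_num)
  have t12 : (Y : ℝ) ^ 2 ≤ X / u ^ 2 := hpowle 2 (by norm_num)
  have hlogX : Real.log X ≤ 21 * u := by
    have h1 := Real.log_le_log hX0 hX2r
    rw [Real.log_mul (by norm_num) (by positivity), Real.log_pow, ← hu] at h1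
    push_cast at h1
    linarith
  refine ⟨hu1, hlogX, hLu, ?_⟩
  have hJ : (1 : ℝ) ≤ 2 ^ J1 := one_le_pow₀ (by norm_num)
  have e1 : C * X * 2 ^ J1 / u ^ 2 = (C * (X / u ^ 2)) * 2 ^ J1 := by ring
  rw [e1]
  have hCX : 0 ≤ C * (X / u ^ 2) := by positivity
  have e3 : (4 * (C * (X / u ^ 2)) + 2000000 * (X / u ^ 2)) ≤
      (4 * (C * (X / u ^ 2)) + 2000000 * (X / u ^ 2)) * 2 ^ J1 :=
    le_mul_of_one_le_right (by positivity) hJ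
  have e4 : (5 * C + 2000000) * (X / u ^ 2) * 2 ^ J1 = C * (X / u ^ 2) * 2 ^ J1 +
      (4 * (C * (X / u ^ 2)) + 2000000 * (X / u ^ 2)) * 2 ^ J1 := by ring
  rw [e4]
  linarith

open Classical in
theorem bad_small {η : ℝ} (hη : 0 < η) : ∃ X0 : ℕ, ∀ X : ℕ, X0 ≤ X →
    (#((Icc 2 X).filter Bad) : ℝ) * Real.log X ≤ η * X := by
  obtain ⟨C, hC1, hcomb0⟩ := combined2
  obtain ⟨Y0, hcomb⟩ := hcomb0 (η / 42) (by positivity)
  obtain ⟨x0, hx01, hexp⟩ := exp_cond2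
  obtain ⟨B1, hB1⟩ := L_cond (1 / 2) (by norm_num)
  obtain ⟨D, hD, hDb⟩ := Pool.Agent.H510R2.divisor_bound (1 / 2020) (by norm_num)
  set K : ℝ := 5 * C + 2000000 with hK
  obtain ⟨M0, hM0⟩ : ∃ M : ℕ, 2 ^ 20 ≤ M := ⟨_, le_rfl⟩
  obtain ⟨M1, hM1⟩ : ∃ M : ℕ, M = ⌈(126 * K / η) ^ 2⌉₊ + M0 := ⟨_, rfl⟩
  obtain ⟨b2, hb2⟩ : ∃ b : ℕ, b = 2 ^ M1 := ⟨_, rfl⟩
  obtain ⟨b3, hb3⟩ : ∃ b : ℕ, b = 2 ^ ⌈x0⌉₊ := ⟨_, rfl⟩
  obtain ⟨b4, hb4⟩ : ∃ b : ℕ, b = ⌈D ^ 2⌉₊ := ⟨_, rfl⟩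
  obtain ⟨b5, hb5⟩ : ∃ b : ℕ, b = ⌈C⌉₊ := ⟨_, rfl⟩
  obtain ⟨B0, h300, hY0B, hB1B, hx0B, hDB, hCB, hb2B⟩ : ∃ B0 : ℕ, 300 ≤ B0 ∧ Y0 ≤ B0 ∧ B1 ≤ B0 ∧
      b3 ≤ B0 ∧ b4 ≤ B0 ∧ b5 ≤ B0 ∧ b2 ≤ B0 :=
    ⟨300 + Y0 + B1 + b3 + b4 + b5 + b2, by omega, by omega, by omega, by omega, by omega, by omega, by omega⟩
  rw [hb3] at hx0B
  rw [hb4] at hDB
  rw [hb5] at hCB
  rw [hb2] at hb2B
  obtain ⟨X0, hX0⟩ := choose_B B0 h300
  refine ⟨max X0 2, fun X hX => ?_⟩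
  obtain ⟨B, hBB0, hYX, hX2⟩ := hX0 X ((le_max_left _ _).trans hX)
  have hX2' : 2 ≤ X := (le_max_right _ _).trans hX
  obtain ⟨Y, hY⟩ : ∃ Y : ℕ, Y = B ^ 10 := ⟨_, rfl⟩
  rw [← hY] at hYX hX2
  have hBY : B ≤ Y := by rw [hY]; exact Nat.le_self_pow (by norm_num) B
  have hB2Y : B ^ 2 ≤ Y := by rw [hY]; exact Nat.pow_le_pow_right (by omega) (by norm_num)
  obtain ⟨L, hL⟩ : ∃ L : ℕ, L = Nat.log 2 Y + 1 := ⟨_, rfl⟩
  have hYL : Y < 2 ^ L := by rw [hL]; exact Nat.lt_pow_succ_log_self (by norm_num) Y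
  have hYL' : 2 ^ (L - 1) ≤ Y := by
    rw [hL, Nat.add_sub_cancel]; exact Nat.pow_log_le_self 2 (by omega)
  have hL1 : 1 ≤ L := by omega
  have hL8 : (L : ℝ) ^ 8 ≤ 1 / 2 * B := by
    have := hB1 B (hB1B.trans hBB0)
    rw [← hY, ← hL] at this
    exact this
  have hLx0 : x0 ≤ L := by
    have h1 : ⌈x0⌉₊ ≤ Nat.log 2 Y :=
      Nat.le_log_of_pow_le (by norm_num) (hx0B.trans (hBB0.trans hBY))
    calc x0 ≤ ⌈x0⌉₊ := Nat.le_ceil _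
      _ ≤ L := by exact_mod_cast (by omega : ⌈x0⌉₊ ≤ L)
  have hLb : M1 ≤ L := by
    have h1 : M1 ≤ Nat.log 2 Y :=
      Nat.le_log_of_pow_le (by norm_num) (hb2B.trans (hBB0.trans hBY))
    omega
  have hLM0 : M0 ≤ L := by rw [hM1] at hLb; exact (Nat.le_add_left _ _).trans hLb
  have hLM1 : ⌈(126 * K / η) ^ 2⌉₊ ≤ L := by rw [hM1] at hLb; exact (Nat.le_add_right _ _).trans hLb
  obtain ⟨J1, hJ1, hJw, hJL⟩ := level_cond (L := L) (hM0.trans hLM0)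
  have hBr : (300 : ℝ) ≤ B := by exact_mod_cast h300.trans hBB0
  obtain ⟨w, hw⟩ : ∃ w : ℕ, w = L ^ 8 := ⟨_, rfl⟩
  have hwB : w + 2 ≤ B := by
    have : ((w + 2 : ℕ) : ℝ) ≤ B := by rw [hw]; push_cast; linarith
    exact_mod_cast this
  have hw1 : 1 ≤ w := by rw [hw]; exact Nat.one_le_pow _ _ hL1
  have hDB' : D ^ 2 ≤ B := (Nat.le_ceil _).trans (by exact_mod_cast hDB.trans hBB0)
  have hCB' : C ≤ B := (Nat.le_ceil _).trans (by exact_mod_cast hCB.trans hBB0)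
  have hτ := div_cond hDb (h300.trans hBB0) hDB' hY hX2 hBY
  have hYpos : 0 < Y := by omega
  have hwY : Y * w ^ 2 ≤ X := by
    calc Y * w ^ 2 ≤ Y * Y ^ 2 := Nat.mul_le_mul_left _ (Nat.pow_le_pow_left (by omega) 2)
      _ = Y ^ 3 := by ring
      _ ≤ Y ^ 20 := Nat.pow_le_pow_right hYpos (by norm_num)
      _ ≤ X := hYX
  have hmain := hcomb X Y w L B J1 (hY0B.trans (hBB0.trans hBY)) (by omega) hw1 hwB hBY hYL hL1 hYX hX2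
    hwY hτ hJ1 (by rw [hw]; exact hJw)
  obtain ⟨e1, e2, e3, e4⟩ := est2 (ε := η / 42) (J1 := J1) hC1 hCB' (h300.trans hBB0) hB2Y hYX hX2 hYL
    hYL' hL1 (by linarith : (L : ℝ) ^ 8 ≤ B) hw (hexp L hLx0)
  have htot := hmain.trans e4
  set u := Real.log Y with hu
  have hu0 : 0 < u := by linarith
  have hXr : (2 : ℝ) ≤ X := by exact_mod_cast hX2'
  have hX0r : (0 : ℝ) < X := by linarith
  have hlogX0 : 0 < Real.log X := Real.log_pos (by linarith)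
  have hK0 : 0 < K := by rw [hK]; linarith
  -- `2 ^ J1 ≤ √L`
  have hLr0 : (0 : ℝ) < L := by exact_mod_cast (by omega : 0 < L)
  have hJs : (2 : ℝ) ^ J1 ≤ Real.sqrt L := by
    apply Real.le_sqrt_of_sq_le
    exact_mod_cast hJL
  have hsq : 126 * K / η ≤ Real.sqrt L := by
    apply Real.le_sqrt_of_sq_le
    calc (126 * K / η) ^ 2 ≤ ⌈(126 * K / η) ^ 2⌉₊ := Nat.le_ceil _
      _ ≤ L := by exact_mod_cast hLM1
  have hs0 : 0 < Real.sqrt L := Real.sqrt_pos.2 hLr0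
  have hss : Real.sqrt L * Real.sqrt L = L := Real.mul_self_sqrt hLr0.le
  have h1 : (2 : ℝ) ^ J1 / u ≤ η / (42 * K) := by
    rw [div_le_div_iff₀ hu0 (by positivity)]
    rw [div_le_iff₀ hη] at hsq
    have h2 : Real.sqrt L * Real.sqrt L ≤ 3 * u := by rw [hss]; exact e3
    have h3 : (2 : ℝ) ^ J1 * (42 * K) ≤ Real.sqrt L * (42 * K) := by gcongr
    have h4 : Real.sqrt L * (42 * K) * 3 ≤ Real.sqrt L * (Real.sqrt L * η) := by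
      have : 42 * K * 3 ≤ Real.sqrt L * η := by linarith
      calc Real.sqrt L * (42 * K) * 3 = Real.sqrt L * (42 * K * 3) := by ring
        _ ≤ _ := by gcongr
    have h5 : Real.sqrt L * (Real.sqrt L * η) ≤ 3 * u * η := by
      calc Real.sqrt L * (Real.sqrt L * η) = Real.sqrt L * Real.sqrt L * η := by ring
        _ ≤ _ := by gcongr
    linarith
  calc (#((Icc 2 X).filter Bad) : ℝ) * Real.log X
      ≤ (K * (X / u ^ 2) * 2 ^ J1 + η / 42 * X / u) * (21 * u) := by gcongr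
    _ = 21 * K * X * (2 ^ J1 / u) + η / 2 * X := by field_simp; ring
    _ ≤ 21 * K * X * (η / (42 * K)) + η / 2 * X := by gcongr
    _ = η * X := by field_simp; ring

end Pool.Agent.TH506.APD
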