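import Pool.Agent.TH506.APD.Fin2
import Pool.Agent.Helper923.PNT

/-!
The number of orders `n ≤ X` with `n ^ 2 + n + 1` composite is asymptotic to `X / log X`.
-/

set_option autoImplicit false

namespace Pool.Agent.TH506.APD

open Finset Filter Topology Asymptotics

lemma pnt_nat : Tendsto (fun n : ℕ => (Nat.primeCounting n : ℝ) * Real.log n / n) atTop (𝓝 1) := by
  have h := Pool.Agent.Helper923.PNT.pi_tendsto.comp (tendsto_natCast_atTop_atTop (R := ℝ))
  refine h.congr fun n => ?_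
  simp only [Function.comp, Nat.floor_natCast]

/-- comparison of `X` and its square root -/
lemma sqrt_facts {X : ℕ} (hX : 16 ≤ X) : ∃ Y : ℕ, Y = Nat.sqrt X ∧ 4 ≤ Y ∧ Y ^ 2 ≤ X ∧
    Real.log X ≤ 4 * Real.log Y ∧ X < (Y + 1) ^ 2 := by
  refine ⟨Nat.sqrt X, rfl, ?_, Nat.sqrt_le' X, ?_, Nat.lt_succ_sqrt' X⟩
  · rw [Nat.le_sqrt']; exact hX
  · have h1 : 4 ≤ Nat.sqrt X := by rw [Nat.le_sqrt']; exact hX
    have h2 := Nat.lt_succ_sqrt' X
    set Y := Nat.sqrt X with hY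
    have h3 : X ≤ Y ^ 4 := by
      have : (Y + 1) ^ 2 ≤ (Y ^ 2) ^ 2 := Nat.pow_le_pow_left (by nlinarith) 2
      calc X ≤ (Y + 1) ^ 2 := h2.le
        _ ≤ (Y ^ 2) ^ 2 := this
        _ = Y ^ 4 := by ring
    have h4 : Real.log X ≤ Real.log ((Y : ℝ) ^ 4) :=
      Real.log_le_log (by exact_mod_cast (by omega : 0 < X)) (by exact_mod_cast h3)
    rw [Real.log_pow] at h4
    exact_mod_cast h4

lemma log_sq_small {δ : ℝ} (hδ : 0 < δ) : ∃ Y0 : ℕ, ∀ Y : ℕ, Y0 ≤ Y → Real.log Y ^ 2 ≤ δ * Y := by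
  have h1 : (fun x : ℝ => Real.log x ^ 2) =o[atTop] (id : ℝ → ℝ) := Real.isLittleO_pow_log_id_atTop
  obtain ⟨a, ha⟩ := eventually_atTop.1 (h1.bound hδ)
  refine ⟨⌈a⌉₊, fun Y hY => ?_⟩
  have h2 := ha Y ((Nat.le_ceil a).trans (by exact_mod_cast hY))
  simp only [id] at h2
  rwa [Real.norm_of_nonneg (by positivity), Real.norm_of_nonneg (by positivity)] at h2

lemma log_large (K : ℝ) : ∃ Y0 : ℕ, ∀ Y : ℕ, Y0 ≤ Y → K ≤ Real.log Y := by
  have h1 := (Real.tendsto_log_atTop.comp (tendsto_natCast_atTop_atTop (R := ℝ))).eventually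
    (eventually_ge_atTop K)
  exact eventually_atTop.1 h1

/-- primes `n` with `n ^ 2 + n + 1` prime -/
theorem both_small {η : ℝ} (hη : 0 < η) : ∃ X0 : ℕ, ∀ X : ℕ, X0 ≤ X →
    (#((Icc 2 X).filter (fun n => n.Prime ∧ (n ^ 2 + n + 1).Prime)) : ℝ) * Real.log X ≤ η * X := by
  obtain ⟨C, Y0, hC, hr⟩ := rough_count3
  obtain ⟨Y1, hY1⟩ := log_sq_small (δ := η / 16) (by positivity)
  obtain ⟨Y2, hY2⟩ := log_large (16 * C / η + 1)
  refine ⟨(Y0 + Y1 + Y2 + 4) ^ 2, fun X hX => ?_⟩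
  have hX16 : 16 ≤ X := by
    have : 4 ^ 2 ≤ (Y0 + Y1 + Y2 + 4) ^ 2 := Nat.pow_le_pow_left (by omega) 2
    omega
  obtain ⟨Y, hY, hY4, hYX, hlog, _⟩ := sqrt_facts hX16
  have hYM : Y0 + Y1 + Y2 + 4 ≤ Y := by rw [hY, Nat.le_sqrt']; exact hX
  have hlogY2 := hY2 Y (by omega)
  have hlogY1 := hY1 Y (by omega)
  have hu1 : 1 ≤ Real.log Y := by
    have : 0 ≤ 16 * C / η := by positivity
    linarith
  have hXr : (0 : ℝ) < X := by exact_mod_cast (by omega : 0 < X)
  have hYr : (0 : ℝ) < Y := by exact_mod_cast (by omega : 0 < Y)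
  set A := (Icc 2 X).filter (fun n => n.Prime ∧ (n ^ 2 + n + 1).Prime) with hA
  have h1 : (#(A.filter (fun n => Y < n)) : ℝ) ≤ C * X * 2 ^ 1 / Real.log Y ^ 2 + Y := by
    refine hr X Y 0 1 (by omega) (by omega) le_rfl (by norm_num) _ (fun n hn => ?_)
    rw [mem_filter, hA, mem_filter, mem_Icc] at hn
    obtain ⟨⟨⟨h2, h3⟩, h4, h5⟩, h6⟩ := hn
    refine ⟨h3, fun l hl hln => ?_, fun l hl hlv => ?_⟩
    · rw [(Nat.prime_dvd_prime_iff_eq hl h4).1 hln]; exact h6
    · right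
      rw [(Nat.prime_dvd_prime_iff_eq hl h5).1 hlv]
      have : n ≤ n ^ 2 + n + 1 := by nlinarith
      omega
  have h2 : #(A.filter (fun n => ¬ Y < n)) ≤ Y := by
    have : A.filter (fun n => ¬ Y < n) ⊆ Icc 1 Y := by
      intro n hn
      rw [mem_filter, hA, mem_filter, mem_Icc] at hn
      rw [mem_Icc]
      omega
    have := card_le_card this
    rwa [Nat.card_Icc, Nat.add_sub_cancel] at this
  have h3 := Finset.card_filter_add_card_filter_not (s := A) (fun n => Y < n)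
  have h4 : (#A : ℝ) ≤ 2 * C * X / Real.log Y ^ 2 + 2 * Y := by
    have h5 : (#A : ℝ) = #(A.filter (fun n => Y < n)) + #(A.filter (fun n => ¬ Y < n)) := by
      exact_mod_cast h3.symm
    have h6 : (#(A.filter (fun n => ¬ Y < n)) : ℝ) ≤ Y := by exact_mod_cast h2
    have h7 : C * X * 2 ^ 1 / Real.log Y ^ 2 = 2 * C * X / Real.log Y ^ 2 := by ring
    rw [h7] at h1
    linarith
  set u := Real.log Y with hu
  have hu0 : 0 < u := by linarith
  have hYX' : (Y : ℝ) ^ 2 ≤ X := by exact_mod_cast hYX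
  have hlogX0 : 0 ≤ Real.log X := Real.log_natCast_nonneg X
  have h8 : 8 * C / u ≤ η / 2 := by
    rw [div_le_div_iff₀ hu0 (by norm_num)]
    have h9 : 16 * C / η * η ≤ u * η := by gcongr; linarith
    rw [div_mul_cancel₀ _ hη.ne'] at h9
    linarith
  have h9 : 8 * Y * u ≤ η / 2 * X := by
    have h10 : u ≤ u ^ 2 := by nlinarith
    calc 8 * (Y : ℝ) * u ≤ 8 * Y * (u ^ 2) := by gcongr
      _ ≤ 8 * Y * (η / 16 * Y) := by gcongr
      _ = η / 2 * (Y : ℝ) ^ 2 := by ring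
      _ ≤ _ := by gcongr
  calc (#A : ℝ) * Real.log X ≤ (2 * C * X / u ^ 2 + 2 * Y) * (4 * u) := by gcongr
    _ = (8 * C / u) * X + 8 * Y * u := by field_simp; ring
    _ ≤ η / 2 * X + η / 2 * X := by gcongr
    _ = η * X := by ring

/-- proper prime powers -/
theorem pp_small {η : ℝ} (hη : 0 < η) : ∃ X0 : ℕ, ∀ X : ℕ, X0 ≤ X →
    (#((Icc 2 X).filter (fun n => IsPrimePow n ∧ ¬ n.Prime)) : ℝ) * Real.log X ≤ η * X := by
  obtain ⟨Y1, hY1⟩ := log_sq_small (δ := η / 96) (by positivity)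
  refine ⟨(Y1 + 4) ^ 2, fun X hX => ?_⟩
  have hX16 : 16 ≤ X := by
    have : 4 ^ 2 ≤ (Y1 + 4) ^ 2 := Nat.pow_le_pow_left (by omega) 2
    omega
  obtain ⟨Y, hY, hY4, hYX, hlog, hXY⟩ := sqrt_facts hX16
  have hYM : Y1 + 4 ≤ Y := by rw [hY, Nat.le_sqrt']; exact hX
  have hlogY1 := hY1 Y (by omega)
  have hXr : (0 : ℝ) < X := by exact_mod_cast (by omega : 0 < X)
  have hYr : (4 : ℝ) ≤ Y := by exact_mod_cast hY4
  have hlogX0 : 0 ≤ Real.log X := Real.log_natCast_nonneg X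
  have hlogX1 : 1 ≤ Real.log X := by
    rw [Real.le_log_iff_exp_le hXr]
    have := Real.exp_one_lt_d9
    have : (16 : ℝ) ≤ X := by exact_mod_cast hX16
    linarith
  have hsub : (Icc 2 X).filter (fun n => IsPrimePow n ∧ ¬ n.Prime) ⊆
      ((range (Y + 1)) ×ˢ (range (Nat.log 2 X + 1))).image (fun q => q.1 ^ q.2) := by
    intro n hn
    rw [mem_filter, mem_Icc] at hn
    obtain ⟨⟨h2, h3⟩, h4, h5⟩ := hn
    obtain ⟨p, k, hp, hk, rfl⟩ := (isPrimePow_nat_iff n).1 h4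
    have hk2 : 2 ≤ k := by
      by_contra hcon
      have : k = 1 := by omega
      rw [this, pow_one] at h5
      exact h5 hp
    rw [mem_image]
    refine ⟨(p, k), ?_, rfl⟩
    rw [mem_product, mem_range, mem_range]
    constructor
    · have h6 : p ^ 2 ≤ p ^ k := Nat.pow_le_pow_right hp.pos hk2
      have h7 : p ≤ Y := by rw [hY, Nat.le_sqrt']; omega
      simp only; omega
    · have h6 : 2 ^ k ≤ p ^ k := Nat.pow_le_pow_left hp.two_le k
      have h7 := Nat.le_log_of_pow_le (by norm_num : 1 < 2) (h6.trans h3)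
      simp only; omega
  have hcard : (#((Icc 2 X).filter (fun n => IsPrimePow n ∧ ¬ n.Prime)) : ℝ) ≤
      (Y + 1) * (Nat.log 2 X + 1) := by
    have h1 := (card_le_card hsub).trans card_image_le
    rw [card_product, card_range, card_range] at h1
    exact_mod_cast h1
  have hl2 := Real.log_two_gt_d9
  have h4 : (Nat.log 2 X : ℝ) ≤ 2 * Real.log X := by
    have h5 : 2 ^ Nat.log 2 X ≤ X := Nat.pow_log_le_self 2 (by omega)
    have h6 : (2 : ℝ) ^ Nat.log 2 X ≤ X := by exact_mod_cast h5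
    have h7 := Real.log_le_log (by positivity) h6
    rw [Real.log_pow] at h7
    nlinarith [Nat.cast_nonneg (α := ℝ) (Nat.log 2 X)]
  set u := Real.log Y with hu
  have hYX' : (Y : ℝ) ^ 2 ≤ X := by exact_mod_cast hYX
  have hu0 : 0 ≤ u := Real.log_natCast_nonneg Y
  calc (#((Icc 2 X).filter (fun n => IsPrimePow n ∧ ¬ n.Prime)) : ℝ) * Real.log X
      ≤ ((Y + 1) * (Nat.log 2 X + 1)) * Real.log X := by gcongr
    _ ≤ ((2 * Y) * (2 * Real.log X + Real.log X)) * Real.log X := by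
        gcongr
        linarith
    _ = 6 * Y * (Real.log X) ^ 2 := by ring
    _ ≤ 6 * Y * (4 * u) ^ 2 := by gcongr
    _ = 96 * Y * u ^ 2 := by ring
    _ ≤ 96 * Y * (η / 96 * Y) := by gcongr
    _ = η * (Y : ℝ) ^ 2 := by ring
    _ ≤ _ := by gcongr

open Classical in
/-- the asymptotic formula -/
theorem asy (O : ℕ → Prop) (hO1 : ∀ n, O n → IsOrd n) (hO2 : ∀ p : ℕ, p.Prime → O p) :
    Tendsto (fun X : ℕ => ({n : ℕ | 2 ≤ n ∧ n ≤ X ∧ ¬ (n ^ 2 + n + 1).Prime ∧ O n}.ncard : ℝ) *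
      Real.log X / X) atTop (𝓝 1) ∧
    Tendsto (fun X : ℕ => ({n : ℕ | 2 ≤ n ∧ n ≤ X ∧ ¬ (n ^ 2 + n + 1).Prime ∧ O n ∧
      ¬ IsPrimePow n}.ncard : ℝ) * Real.log X / X) atTop (𝓝 0) := by
  have hfin : ∀ (X : ℕ) (P : ℕ → Prop), ({n : ℕ | 2 ≤ n ∧ n ≤ X ∧ P n}.ncard) =
      #((Icc 2 X).filter P) := by
    intro X P
    rw [← Set.ncard_coe_finset]
    congr 1
    ext n
    simp only [Set.mem_ofPred_eq, coe_filter, mem_Icc]
    tauto
  constructor
  · rw [Metric.tendsto_atTop]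
    intro ε hε
    obtain ⟨X1, h1⟩ := bad_small (η := ε / 5) (by positivity)
    obtain ⟨X2, h2⟩ := both_small (η := ε / 5) (by positivity)
    obtain ⟨X3, h3⟩ := pp_small (η := ε / 5) (by positivity)
    obtain ⟨X4, h4⟩ := Metric.tendsto_atTop.1 pnt_nat (ε / 5) (by positivity)
    refine ⟨X1 + X2 + X3 + X4 + 2, fun X hX => ?_⟩
    have e1 := h1 X (by omega)
    have e2 := h2 X (by omega)
    have e3 := h3 X (by omega)
    have e4 := h4 X (by omega)
    have hXr : (0 : ℝ) < X := by exact_mod_cast (by omega : 0 < X)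
    have hlogX0 : 0 ≤ Real.log X := Real.log_natCast_nonneg X
    obtain ⟨N, hN⟩ : ∃ N : ℕ, N = {n : ℕ | 2 ≤ n ∧ n ≤ X ∧ ¬ (n ^ 2 + n + 1).Prime ∧ O n}.ncard := ⟨_, rfl⟩
    rw [← hN]
    have hN2 : N = #((Icc 2 X).filter (fun n => ¬ (n ^ 2 + n + 1).Prime ∧ O n)) := by
      rw [hN, hfin]
      congr!
    have hpi : Nat.primeCounting X = #((Icc 2 X).filter Nat.Prime) := by
      unfold Nat.primeCounting Nat.primeCounting'
      rw [Nat.count_eq_card_filter_range]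
      congr 1
      ext m
      simp only [mem_filter, mem_range, mem_Icc]
      constructor
      · rintro ⟨h5, h6⟩; exact ⟨⟨h6.two_le, by omega⟩, h6⟩
      · rintro ⟨h5, h6⟩; exact ⟨by omega, h6⟩
    have hup : N ≤ Nat.primeCounting X + #((Icc 2 X).filter (fun n => IsPrimePow n ∧ ¬ n.Prime)) +
        #((Icc 2 X).filter Bad) := by
      have h5 : (Icc 2 X).filter (fun n => ¬ (n ^ 2 + n + 1).Prime ∧ O n) ⊆
          ((Icc 2 X).filter Nat.Prime ∪ (Icc 2 X).filter (fun n => IsPrimePow n ∧ ¬ n.Prime)) ∪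
            (Icc 2 X).filter Bad := by
        intro n hn
        rw [mem_filter] at hn
        simp only [mem_union, mem_filter]
        by_cases hp : n.Prime
        · exact Or.inl (Or.inl ⟨hn.1, hp⟩)
        · by_cases hpp : IsPrimePow n
          · exact Or.inl (Or.inr ⟨hn.1, hpp, hp⟩)
          · exact Or.inr ⟨hn.1, hO1 n hn.2.2, hpp, hn.2.1⟩
      rw [hpi, hN2]
      exact (card_le_card h5).trans ((card_union_le _ _).trans (Nat.add_le_add_right (card_union_le _ _) _))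
    have hlow : Nat.primeCounting X ≤ N +
        #((Icc 2 X).filter (fun n => n.Prime ∧ (n ^ 2 + n + 1).Prime)) := by
      have h5 : (Icc 2 X).filter Nat.Prime ⊆ (Icc 2 X).filter (fun n => ¬ (n ^ 2 + n + 1).Prime ∧ O n) ∪
          (Icc 2 X).filter (fun n => n.Prime ∧ (n ^ 2 + n + 1).Prime) := by
        intro n hn
        rw [mem_filter] at hn
        simp only [mem_union, mem_filter]
        by_cases hp : (n ^ 2 + n + 1).Prime
        · exact Or.inr ⟨hn.1, hn.2, hp⟩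
        · exact Or.inl ⟨hn.1, hp, hO2 n hn.2⟩
      rw [hpi, hN2]
      exact (card_le_card h5).trans (card_union_le _ _)
    have hup' : (N : ℝ) ≤ Nat.primeCounting X + #((Icc 2 X).filter (fun n => IsPrimePow n ∧ ¬ n.Prime)) +
        #((Icc 2 X).filter Bad) := by exact_mod_cast hup
    have hlow' : (Nat.primeCounting X : ℝ) ≤ N +
        #((Icc 2 X).filter (fun n => n.Prime ∧ (n ^ 2 + n + 1).Prime)) := by exact_mod_cast hlow
    rw [Real.dist_eq, abs_lt] at e4 ⊢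
    have g1 : (N : ℝ) * Real.log X / X ≤ (Nat.primeCounting X : ℝ) * Real.log X / X + ε / 5 + ε / 5 := by
      rw [div_le_iff₀ hXr]
      have g2 : ((Nat.primeCounting X : ℝ) * Real.log X / X + ε / 5 + ε / 5) * X =
          (Nat.primeCounting X : ℝ) * Real.log X + ε / 5 * X + ε / 5 * X := by field_simp
      rw [g2]
      calc (N : ℝ) * Real.log X ≤ (Nat.primeCounting X + #((Icc 2 X).filter (fun n => IsPrimePow n ∧ ¬ n.Prime)) +
        #((Icc 2 X).filter Bad)) * Real.log X := by gcongr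
        _ = (Nat.primeCounting X : ℝ) * Real.log X +
          #((Icc 2 X).filter (fun n => IsPrimePow n ∧ ¬ n.Prime)) * Real.log X +
          #((Icc 2 X).filter Bad) * Real.log X := by ring
        _ ≤ _ := by linarith
    have g3 : (Nat.primeCounting X : ℝ) * Real.log X / X ≤ (N : ℝ) * Real.log X / X + ε / 5 := by
      rw [div_le_iff₀ hXr]
      have g2 : ((N : ℝ) * Real.log X / X + ε / 5) * X = (N : ℝ) * Real.log X + ε / 5 * X := by field_simp
      rw [g2]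
      calc (Nat.primeCounting X : ℝ) * Real.log X ≤ (N +
        #((Icc 2 X).filter (fun n => n.Prime ∧ (n ^ 2 + n + 1).Prime))) * Real.log X := by gcongr
        _ = (N : ℝ) * Real.log X +
          #((Icc 2 X).filter (fun n => n.Prime ∧ (n ^ 2 + n + 1).Prime)) * Real.log X := by ring
        _ ≤ _ := by linarith
    constructor <;> linarith [e4.1, e4.2]
  · rw [Metric.tendsto_atTop]
    intro ε hε
    obtain ⟨X1, h1⟩ := bad_small (η := ε / 2) (by positivity)
    refine ⟨X1 + 1, fun X hX => ?_⟩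
    have e1 := h1 X (by omega)
    have hXr : (0 : ℝ) < X := by exact_mod_cast (by omega : 0 < X)
    have hlogX0 : 0 ≤ Real.log X := Real.log_natCast_nonneg X
    obtain ⟨N, hN⟩ : ∃ N : ℕ, N = {n : ℕ | 2 ≤ n ∧ n ≤ X ∧ ¬ (n ^ 2 + n + 1).Prime ∧ O n ∧
      ¬ IsPrimePow n}.ncard := ⟨_, rfl⟩
    rw [← hN]
    have hN2 : N = #((Icc 2 X).filter (fun n => ¬ (n ^ 2 + n + 1).Prime ∧ O n ∧ ¬ IsPrimePow n)) := by
      rw [hN, hfin]
      congr!
    have h2 : #((Icc 2 X).filter (fun n => ¬ (n ^ 2 + n + 1).Prime ∧ O n ∧ ¬ IsPrimePow n)) ≤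
        #((Icc 2 X).filter Bad) := by
      apply card_le_card
      intro n hn
      rw [mem_filter] at hn ⊢
      exact ⟨hn.1, hO1 n hn.2.2.1, hn.2.2.2, hn.2.1⟩
    rw [← hN2] at h2
    have h2' : (N : ℝ) ≤ #((Icc 2 X).filter Bad) := by exact_mod_cast h2
    rw [Real.dist_eq, sub_zero, abs_of_nonneg (by positivity), div_lt_iff₀ hXr]
    calc _ ≤ (#((Icc 2 X).filter Bad) : ℝ) * Real.log X := by gcongr
      _ ≤ ε / 2 * X := e1
      _ < ε * X := by nlinarith

end Pool.Agent.TH506.APD
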