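import Pool.Agent.H109R2.SIC.Singer

/-!
Singer's difference set is a planar difference set (from the character sums).
-/

set_option autoImplicit false

namespace Pool.Agent.TH506.APD

open Finset Pool.Agent.H109R2.SIC

variable (p : ℕ) [Fact p.Prime]

lemma rep_D3 (g : A3 p) (hg : g ≠ 0) :
    ((D3 p ×ˢ D3 p).filter (fun q : A3 p × A3 p => q.1 - q.2 = g)).card = 1 := by
  classical
  have hp0 : (0 : ℝ) < p := by exact_mod_cast (Fact.out : p.Prime).pos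
  -- the character sums
  have h1 : ∀ ψ : AddChar (A3 p) ℂ, (∑ q ∈ D3 p ×ˢ D3 p, ψ (q.1 - q.2)) =
      (p : ℂ) + (if ψ = 1 then ((p : ℂ) ^ 2 + p + 1) else 0) := by
    intro ψ
    have h2 : (∑ q ∈ D3 p ×ˢ D3 p, ψ (q.1 - q.2)) =
        ((‖∑ a ∈ D3 p, ψ a‖ ^ 2 : ℝ) : ℂ) := by
      rw [← Complex.normSq_eq_norm_sq, ← Complex.mul_conj, map_sum, Finset.sum_mul_sum,
        Finset.sum_product]
      apply Finset.sum_congr rfl
      intro a _
      apply Finset.sum_congr rfl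
      intro b _
      rw [sub_eq_add_neg, AddChar.map_add_eq_mul, AddChar.map_neg_eq_conj]
    rw [h2]
    by_cases hψ : ψ = 1
    · rw [if_pos hψ, hψ]
      simp only [AddChar.one_apply, sum_const, card_D3, nsmul_eq_mul, mul_one]
      have : ‖((p + 1 : ℕ) : ℂ)‖ = (p : ℝ) + 1 := by
        rw [Complex.norm_natCast]; push_cast; ring
      rw [this]
      push_cast
      ring
    · rw [if_neg hψ, norm_sum_D3 p ψ hψ]
      push_cast; ring
  have h3 : ∑ ψ : AddChar (A3 p) ℂ, (∑ q ∈ D3 p ×ˢ D3 p, ψ (q.1 - q.2)) * ψ (-g) =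
      (p : ℂ) ^ 2 + p + 1 := by
    have h4 : ∀ ψ : AddChar (A3 p) ℂ, (∑ q ∈ D3 p ×ˢ D3 p, ψ (q.1 - q.2)) * ψ (-g) =
        (p : ℂ) * ψ (-g) + (if ψ = 1 then ((p : ℂ) ^ 2 + p + 1) else 0) := by
      intro ψ
      rw [h1 ψ, add_mul]
      congr 1
      split_ifs with h
      · rw [h]; simp
      · simp
    rw [Finset.sum_congr rfl (fun ψ _ => h4 ψ), Finset.sum_add_distrib, ← Finset.mul_sum,
      AddChar.sum_apply_eq_ite, if_neg (neg_ne_zero.2 hg), mul_zero, zero_add,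
      Finset.sum_ite_eq' univ (1 : AddChar (A3 p) ℂ), if_pos (mem_univ _)]
  have h5 : ∑ ψ : AddChar (A3 p) ℂ, (∑ q ∈ D3 p ×ˢ D3 p, ψ (q.1 - q.2)) * ψ (-g) =
      ((((D3 p ×ˢ D3 p).filter (fun q : A3 p × A3 p => q.1 - q.2 = g)).card : ℕ) : ℂ) *
        (Fintype.card (A3 p) : ℂ) := by
    simp only [Finset.sum_mul]
    rw [Finset.sum_comm]
    have h6 : ∀ q ∈ D3 p ×ˢ D3 p, ∑ ψ : AddChar (A3 p) ℂ, ψ (q.1 - q.2) * ψ (-g) =
        if q.1 - q.2 = g then (Fintype.card (A3 p) : ℂ) else 0 := by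
      intro q _
      have h7 : ∀ ψ : AddChar (A3 p) ℂ, ψ (q.1 - q.2) * ψ (-g) = ψ (q.1 - q.2 - g) := by
        intro ψ
        rw [← AddChar.map_add_eq_mul, sub_eq_add_neg (q.1 - q.2) g]
      rw [Finset.sum_congr rfl (fun ψ _ => h7 ψ), AddChar.sum_apply_eq_ite]
      simp only [sub_eq_zero]
    rw [Finset.sum_congr rfl h6, ← Finset.sum_filter, sum_const, nsmul_eq_mul]
  rw [h3, card_A3] at h5
  have h8 : ((p : ℂ) ^ 2 + p + 1) = ((p ^ 2 + p + 1 : ℕ) : ℂ) := by push_cast; ring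
  rw [h8] at h5
  have h9 : p ^ 2 + p + 1 = ((D3 p ×ˢ D3 p).filter (fun q : A3 p × A3 p => q.1 - q.2 = g)).card *
      (p ^ 2 + p + 1) := by exact_mod_cast h5
  have h10 : 0 < p ^ 2 + p + 1 := by positivity
  exact (Nat.eq_of_mul_eq_mul_right h10 (by rw [one_mul]; exact h9)).symm

end Pool.Agent.TH506.APD
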