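import Pool.Agent.TH506.APD.Siv2

/-!
Values with a large smooth part, and the exceptional set `E1`.
-/

set_option autoImplicit false

namespace Pool.Agent.TH506.APD

open Finset

/-- the completely multiplicative function `m ^ (-σ)` -/
noncomputable def powHom (σ : ℝ) (hσ : 0 < σ) : ℕ →* ℝ where
  toFun m := (m : ℝ) ^ (-σ)
  map_one' := by simp
  map_mul' a b := by
    push_cast
    exact Real.mul_rpow (by positivity) (by positivity)

lemma smooth_sum (z : ℕ) (hz : 1 ≤ z) (S : Finset ℕ)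
    (hS : ∀ d ∈ S, d ≠ 0 ∧ ∀ q : ℕ, q.Prime → q ∣ d → q ≤ z) :
    ∑ d ∈ S, (d : ℝ) ^ (-(31 / 32) : ℝ) ≤
      Real.exp (3 * (z : ℝ) ^ (1 / 32 : ℝ) * (1 + Real.log z)) := by
  have hz0 : (0 : ℝ) < z := by exact_mod_cast hz
  set f := powHom (31 / 32) (by norm_num) with hf
  have hfa : ∀ m : ℕ, f m = (m : ℝ) ^ (-(31 / 32) : ℝ) := fun m => rfl
  have hfnn : ∀ m : ℕ, 0 ≤ f m := fun m => by rw [hfa]; positivity
  have hfp : ∀ p : ℕ, p.Prime → f p ≤ 2 / 3 := by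
    intro p hp
    rw [hfa, Real.rpow_neg (by positivity)]
    have h2 : (2 : ℝ) ≤ p := by exact_mod_cast hp.two_le
    have h3 : (3 / 2 : ℝ) ≤ (p : ℝ) ^ (31 / 32 : ℝ) := by
      calc (3 / 2 : ℝ) ≤ (2 : ℝ) ^ (31 / 32 : ℝ) := by
            rw [Real.rpow_def_of_pos (by norm_num : (0 : ℝ) < 2),
              ← Real.log_le_iff_le_exp (by norm_num)]
            have h4 : Real.log (3 / 2) ≤ 1 / 2 := by
              have := Real.log_le_sub_one_of_pos (by norm_num : (0 : ℝ) < 3 / 2)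
              linarith
            have := Real.log_two_gt_d9
            linarith
        _ ≤ _ := Real.rpow_le_rpow (by norm_num) h2 (by norm_num)
    calc ((p : ℝ) ^ (31 / 32 : ℝ))⁻¹ ≤ (3 / 2 : ℝ)⁻¹ := inv_anti₀ (by norm_num) h3
      _ = _ := by norm_num
  obtain ⟨hsum, hhas⟩ := EulerProduct.summable_and_hasSum_smoothNumbers_prod_primesBelow_geometric
    (f := f) (fun {p} hp => by
      rw [Real.norm_of_nonneg (hfnn p)]
      have := hfp p hp
      linarith) (z + 1)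
  have h1 : ∑ d ∈ S, (d : ℝ) ^ (-(31 / 32) : ℝ) ≤ ∏ p ∈ (z + 1).primesBelow, (1 - f p)⁻¹ := by
    have hmem : ∀ d ∈ S, d ∈ (z + 1).smoothNumbers := by
      intro d hd
      rw [Nat.mem_smoothNumbers']
      intro p hp hpd
      exact Nat.lt_succ_of_le ((hS d hd).2 p hp hpd)
    classical
    have h2 : ∑ d ∈ S, (d : ℝ) ^ (-(31 / 32) : ℝ) =
        ∑ m ∈ S.subtype (fun d => d ∈ (z + 1).smoothNumbers), f m :=
      (Finset.sum_subtype_of_mem (fun d => f d) hmem).symm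
    rw [h2, ← hhas.tsum_eq]
    exact hhas.summable.sum_le_tsum _ (fun m _ => hfnn m)
  refine h1.trans ?_
  have h4 : ∀ p ∈ (z + 1).primesBelow, (1 - f p)⁻¹ ≤ Real.exp (3 * f p) := by
    intro p hp
    have hpp := Nat.prime_of_mem_primesBelow hp
    have h5 := hfp p hpp
    have h6 := hfnn p
    rw [inv_le_comm₀ (by linarith) (Real.exp_pos _), ← Real.exp_neg]
    -- `exp (-3x) ≤ 1 - x` for `0 ≤ x ≤ 2/3`
    have h7 : Real.exp (-(3 * f p)) * (1 + 3 * f p) ≤ 1 := by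
      have h8 := Real.add_one_le_exp (3 * f p)
      calc Real.exp (-(3 * f p)) * (1 + 3 * f p) ≤ Real.exp (-(3 * f p)) * Real.exp (3 * f p) := by
            gcongr; linarith
        _ = 1 := by rw [← Real.exp_add]; simp
    have h9 : 1 ≤ (1 - f p) * (1 + 3 * f p) := by nlinarith
    have h10 : (0 : ℝ) < 1 + 3 * f p := by linarith
    exact le_of_mul_le_mul_right (h7.trans h9) h10
  calc ∏ p ∈ (z + 1).primesBelow, (1 - f p)⁻¹ ≤ ∏ p ∈ (z + 1).primesBelow, Real.exp (3 * f p) := by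
        apply Finset.prod_le_prod _ h4
        intro p hp
        have := hfp p (Nat.prime_of_mem_primesBelow hp)
        apply inv_nonneg.2
        linarith
    _ = Real.exp (∑ p ∈ (z + 1).primesBelow, 3 * f p) := by rw [Real.exp_sum]
    _ ≤ _ := by
        apply Real.exp_le_exp.2
        calc ∑ p ∈ (z + 1).primesBelow, 3 * f p ≤ ∑ k ∈ Icc 1 z, 3 * ((z : ℝ) ^ (1 / 32 : ℝ) * (1 / k)) := by
              refine (Finset.sum_le_sum (g := fun k : ℕ => 3 * ((z : ℝ) ^ (1 / 32 : ℝ) * (1 / (k : ℝ)))) ?_).trans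
                (Finset.sum_le_sum_of_subset_of_nonneg ?_ (fun i _ _ => by positivity))
              · intro p hp
                have hpp := Nat.prime_of_mem_primesBelow hp
                have hpz : p ≤ z := Nat.lt_succ_iff.1 (Nat.lt_of_mem_primesBelow hp)
                have hp0 : (0 : ℝ) < p := by exact_mod_cast hpp.pos
                rw [hfa]
                have e1 : (p : ℝ) ^ (-(31 / 32) : ℝ) = (p : ℝ) ^ (1 / 32 : ℝ) * (1 / p) := by
                  rw [one_div (p : ℝ), ← Real.rpow_neg_one (p : ℝ), ← Real.rpow_add hp0]; norm_num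
                rw [e1]
                gcongr
              · intro p hp
                rw [mem_Icc]
                exact ⟨(Nat.prime_of_mem_primesBelow hp).pos, Nat.lt_succ_iff.1 (Nat.lt_of_mem_primesBelow hp)⟩
          _ = 3 * (z : ℝ) ^ (1 / 32 : ℝ) * ∑ k ∈ Icc 1 z, (1 : ℝ) / k := by
              rw [Finset.mul_sum]
              apply Finset.sum_congr rfl
              intro k _; ring
          _ ≤ _ := by
              gcongr
              have h := harmonic_le_one_add_log z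
              rw [harmonic_eq_sum_Icc] at h
              push_cast at h
              simpa [one_div] using h

/-- a divisor of controlled size -/
lemma exists_divisor {s Y z : ℕ} (hY : Y < s) (hz : ∀ q : ℕ, q.Prime → q ∣ s → q ≤ z) (hY1 : 1 ≤ Y) :
    ∃ d : ℕ, d ∣ s ∧ Y < d ∧ d ≤ Y * z := by
  classical
  have hex : ∃ d : ℕ, d ∣ s ∧ Y < d := ⟨s, dvd_rfl, hY⟩
  set d := Nat.find hex with hd
  obtain ⟨h1, h2⟩ := Nat.find_spec hex
  have hd1 : d ≠ 1 := by omega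
  have hq := Nat.minFac_prime hd1
  obtain ⟨e, he⟩ := Nat.minFac_dvd d
  have hqz := hz _ hq ((Nat.minFac_dvd d).trans h1)
  refine ⟨d, h1, h2, ?_⟩
  have he1 : e < d := by
    have h3 : 0 < e := by
      rcases Nat.eq_zero_or_pos e with h | h
      · rw [h, mul_zero] at he; omega
      · exact h
    calc e < d.minFac * e := by nlinarith [hq.two_le]
      _ = d := he.symm
  have h3 := Nat.find_min hex he1
  have h4 : ¬ Y < e := fun h => h3 ⟨(Dvd.intro_left _ he.symm).trans h1, h⟩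
  calc d = d.minFac * e := he
    _ ≤ z * Y := Nat.mul_le_mul hqz (by omega)
    _ = Y * z := mul_comm _ _

/-- A3: large smooth part -/
theorem A3_count : ∃ C : ℝ, 0 < C ∧ ∀ X Y z : ℕ, 1 ≤ Y → 1 ≤ z → Y * z ≤ X → ∀ A : Finset ℕ,
    (∀ n ∈ A, n ≤ X ∧ ∃ s : ℕ, s ∣ n ^ 2 + n + 1 ∧ Y < s ∧ ∀ q : ℕ, q.Prime → q ∣ s → q ≤ z) →
    (#A : ℝ) ≤ C * X * (Y : ℝ) ^ (-(1 / 64) : ℝ) *
      Real.exp (3 * (z : ℝ) ^ (1 / 32 : ℝ) * (1 + Real.log z)) := by
  classical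
  obtain ⟨D, hD, hDb⟩ := Pool.Agent.H510R2.divisor_bound (1 / 64) (by norm_num)
  refine ⟨4 * D, by positivity, fun X Y z hY hz hYz A hA => ?_⟩
  have hY0 : (0 : ℝ) < Y := by exact_mod_cast hY
  set S : Finset ℕ := (Ioc Y (Y * z)).filter (fun d => ∀ q : ℕ, q.Prime → q ∣ d → q ≤ z) with hS
  have hsub : A ⊆ S.biUnion (fun d => A.filter (fun n => d ∣ n ^ 2 + n + 1)) := by
    intro n hn
    obtain ⟨_, s, h1, h2, h3⟩ := hA n hn
    obtain ⟨d, h4, h5, h6⟩ := exists_divisor h2 h3 hY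
    rw [mem_biUnion]
    refine ⟨d, ?_, mem_filter.2 ⟨hn, h4.trans h1⟩⟩
    rw [hS, mem_filter, mem_Ioc]
    exact ⟨⟨h5, h6⟩, fun q hq hqd => h3 q hq (hqd.trans h4)⟩
  calc (#A : ℝ) ≤ ((∑ d ∈ S, #(A.filter (fun n => d ∣ n ^ 2 + n + 1)) : ℕ) : ℝ) := by
        exact_mod_cast (card_le_card hsub).trans card_biUnion_le
    _ = ∑ d ∈ S, (#(A.filter (fun n => d ∣ n ^ 2 + n + 1)) : ℝ) := by push_cast; rfl
    _ ≤ ∑ d ∈ S, (4 * D * X * (Y : ℝ) ^ (-(1 / 64) : ℝ)) * (d : ℝ) ^ (-(31 / 32) : ℝ) := by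
        apply Finset.sum_le_sum
        intro d hd
        rw [hS, mem_filter, mem_Ioc] at hd
        have hd0 : 0 < d := by omega
        have hdr : (0 : ℝ) < d := by exact_mod_cast hd0
        have h1 := count_dvd (X := X) hd0 (A.filter (fun n => d ∣ n ^ 2 + n + 1))
          (fun x hx => (hA x (mem_filter.1 hx).1).1) (fun x hx => (mem_filter.1 hx).2)
        have h2 := hDb d hd0
        have h3 : (1 : ℝ) ≤ X / d := by
          rw [le_div_iff₀ hdr, one_mul]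
          exact_mod_cast hd.1.2.trans hYz
        have h4 : (d : ℝ) ^ (-(1 / 64) : ℝ) ≤ (Y : ℝ) ^ (-(1 / 64) : ℝ) := by
          rw [Real.rpow_neg hdr.le, Real.rpow_neg hY0.le]
          apply inv_anti₀ (by positivity)
          apply Real.rpow_le_rpow hY0.le _ (by norm_num)
          exact_mod_cast hd.1.1.le
        calc (#(A.filter (fun n => d ∣ n ^ 2 + n + 1)) : ℝ) ≤ (d.divisors.card : ℝ) * (3 * X / d + 1) := h1
          _ ≤ (D * (d : ℝ) ^ (1 / 64 : ℝ)) * (3 * X / d + X / d) := by gcongr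
          _ = 4 * D * X * ((d : ℝ) ^ (1 / 64 : ℝ) * (d : ℝ) ^ (-1 : ℝ)) := by
              rw [Real.rpow_neg_one]; field_simp; ring
          _ = 4 * D * X * ((d : ℝ) ^ (-(1 / 64) : ℝ) * (d : ℝ) ^ (-(31 / 32) : ℝ)) := by
              rw [← Real.rpow_add hdr, ← Real.rpow_add hdr]; norm_num
          _ ≤ 4 * D * X * ((Y : ℝ) ^ (-(1 / 64) : ℝ) * (d : ℝ) ^ (-(31 / 32) : ℝ)) := by gcongr
          _ = _ := by ring
    _ = (4 * D * X * (Y : ℝ) ^ (-(1 / 64) : ℝ)) * ∑ d ∈ S, (d : ℝ) ^ (-(31 / 32) : ℝ) := by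
        rw [Finset.mul_sum]
    _ ≤ _ := by
        gcongr
        apply smooth_sum z hz
        intro d hd
        rw [hS, mem_filter, mem_Ioc] at hd
        exact ⟨by omega, hd.2⟩

lemma E1_bound {z n : ℕ} (hn : 1 ≤ n) (h : E1 z n) :
    ∃ m : ℕ, z < m ^ 2 + m + 1 ∧ (m ^ 2 + m + 1) ∣ n ^ 2 + n + 1 ∧ m ^ 2 + m + 1 ≤ 4 * n := by
  obtain ⟨m, hm, hz, hd, hi⟩ := h
  refine ⟨m, hz, hd, ?_⟩
  obtain ⟨k, hk⟩ := hd
  have hk2 : 2 ≤ k := by
    by_contra hcon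
    have h1 : k = 0 ∨ k = 1 := by omega
    rcases h1 with rfl | rfl
    · omega
    · nlinarith
  have h43 : 4 * m < 3 * n := by
    by_contra hcon
    push Not at hcon
    have h1 : 2 * (m ^ 2 + m + 1) ≤ n ^ 2 + n + 1 := by
      rw [hk, mul_comm]; exact Nat.mul_le_mul_left _ hk2
    nlinarith
  have hnk : n - m + 1 ≤ k := by
    rw [hk, mul_comm] at hi
    exact Nat.le_of_mul_le_mul_left hi (by positivity)
  have h1 : n + 5 ≤ 4 * k := by omega
  by_contra hcon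
  push Not at hcon
  have h2 : (n + 5) * (m ^ 2 + m + 1) ≤ 4 * (n ^ 2 + n + 1) := by
    calc (n + 5) * (m ^ 2 + m + 1) ≤ (4 * k) * (m ^ 2 + m + 1) := Nat.mul_le_mul_right _ h1
      _ = 4 * ((m ^ 2 + m + 1) * k) := by ring
      _ = _ := by rw [← hk]
  have h3 : (n + 5) * (4 * n + 1) ≤ (n + 5) * (m ^ 2 + m + 1) := Nat.mul_le_mul_left _ hcon
  nlinarith

/-- A2: the exceptional set `E1` -/
theorem A2_count : ∃ C : ℝ, 0 < C ∧ ∀ X w : ℕ, 1 ≤ X → 1 ≤ w → ∀ A : Finset ℕ,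
    (∀ n ∈ A, n ≤ X ∧ 1 ≤ n ∧ E1 (w ^ 2) n) →
    (#A : ℝ) ≤ C * (X * (w : ℝ) ^ (-(1 / 2) : ℝ) + (X : ℝ) ^ (3 / 4 : ℝ)) := by
  classical
  obtain ⟨D, hD, hDb⟩ := Pool.Agent.H510R2.divisor_bound (1 / 8) (by norm_num)
  have hsum : Summable (fun k : ℕ => 1 / (k : ℝ) ^ (5 / 4 : ℝ)) :=
    Real.summable_one_div_nat_rpow.2 (by norm_num)
  set T := ∑' k : ℕ, 1 / (k : ℝ) ^ (5 / 4 : ℝ) with hT
  have hT0 : 0 ≤ T := tsum_nonneg fun k => by positivity
  refine ⟨3 * D * T + 16 * D, by positivity, fun X w hX hw A hA => ?_⟩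
  have hX0 : (1 : ℝ) ≤ X := by exact_mod_cast hX
  have hw0 : (0 : ℝ) < w := by exact_mod_cast hw
  set M := Nat.sqrt (4 * X) with hM
  set S : Finset ℕ := (Icc w M).filter (fun m => m ^ 2 + m + 1 ≤ 4 * X) with hS
  have hsub : A ⊆ S.biUnion (fun m => A.filter (fun n => m ^ 2 + m + 1 ∣ n ^ 2 + n + 1)) := by
    intro n hn
    obtain ⟨h1, h2, h3⟩ := hA n hn
    obtain ⟨m, h4, h5, h6⟩ := E1_bound h2 h3
    rw [mem_biUnion]
    refine ⟨m, ?_, mem_filter.2 ⟨hn, h5⟩⟩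
    rw [hS, mem_filter, mem_Icc]
    refine ⟨⟨?_, ?_⟩, by omega⟩
    · by_contra hcon
      push Not at hcon
      have h7 : (m + 1) ^ 2 ≤ w ^ 2 := Nat.pow_le_pow_left hcon 2
      nlinarith
    · rw [hM, Nat.le_sqrt]
      nlinarith
  have hterm : ∀ m ∈ S, (#(A.filter (fun n => m ^ 2 + m + 1 ∣ n ^ 2 + n + 1)) : ℝ) ≤
      3 * D * X * (w : ℝ) ^ (-(1 / 2) : ℝ) * (1 / (m : ℝ) ^ (5 / 4 : ℝ)) + 2 * D * (X : ℝ) ^ (1 / 8 : ℝ) := by
    intro m hm
    rw [hS, mem_filter, mem_Icc] at hm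
    have hm0 : 0 < m := by omega
    have hmr : (0 : ℝ) < m := by exact_mod_cast hm0
    set d := m ^ 2 + m + 1 with hd
    have hd0 : 0 < d := by positivity
    have hdr : (0 : ℝ) < d := by exact_mod_cast hd0
    have h1 := count_dvd (X := X) hd0 (A.filter (fun n => d ∣ n ^ 2 + n + 1))
      (fun x hx => (hA x (mem_filter.1 hx).1).1) (fun x hx => (mem_filter.1 hx).2)
    have h2 := hDb d hd0
    have h3 : (d : ℝ) ^ (1 / 8 : ℝ) * (3 * X / d) ≤ 3 * X * ((w : ℝ) ^ (-(1 / 2) : ℝ) * (1 / (m : ℝ) ^ (5 / 4 : ℝ))) := by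
      have e1 : (d : ℝ) ^ (1 / 8 : ℝ) * (3 * X / d) = 3 * X * (d : ℝ) ^ (-(7 / 8) : ℝ) := by
        have : (d : ℝ) ^ (-(7 / 8) : ℝ) = (d : ℝ) ^ (1 / 8 : ℝ) * (d : ℝ) ^ (-1 : ℝ) := by
          rw [← Real.rpow_add hdr]; norm_num
        rw [this, Real.rpow_neg_one]; field_simp
      rw [e1]
      gcongr
      have e2 : (m : ℝ) ^ 2 ≤ d := by
        have : m ^ 2 ≤ d := by rw [hd]; omega
        exact_mod_cast this
      calc (d : ℝ) ^ (-(7 / 8) : ℝ) ≤ ((m : ℝ) ^ 2) ^ (-(7 / 8) : ℝ) := by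
            rw [Real.rpow_neg hdr.le, Real.rpow_neg (by positivity)]
            apply inv_anti₀ (by positivity)
            exact Real.rpow_le_rpow (by positivity) e2 (by norm_num)
        _ = (m : ℝ) ^ (-(1 / 2) : ℝ) * (1 / (m : ℝ) ^ (5 / 4 : ℝ)) := by
            have e3 : 1 / (m : ℝ) ^ (5 / 4 : ℝ) = (m : ℝ) ^ (-(5 / 4) : ℝ) := by
              rw [Real.rpow_neg hmr.le, one_div]
            rw [e3, ← Real.rpow_add hmr, ← Real.rpow_natCast, ← Real.rpow_mul hmr.le]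
            norm_num
        _ ≤ _ := by
            have e4 : (m : ℝ) ^ (-(1 / 2) : ℝ) ≤ (w : ℝ) ^ (-(1 / 2) : ℝ) := by
              rw [Real.rpow_neg hmr.le, Real.rpow_neg hw0.le]
              apply inv_anti₀ (by positivity)
              apply Real.rpow_le_rpow hw0.le _ (by norm_num)
              exact_mod_cast hm.1.1
            exact mul_le_mul_of_nonneg_right e4 (by positivity)
    have h4 : (d : ℝ) ^ (1 / 8 : ℝ) ≤ 2 * (X : ℝ) ^ (1 / 8 : ℝ) := by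
      calc (d : ℝ) ^ (1 / 8 : ℝ) ≤ (256 * (X : ℝ)) ^ (1 / 8 : ℝ) := by
            apply Real.rpow_le_rpow hdr.le _ (by norm_num)
            have : (d : ℝ) ≤ 4 * X := by exact_mod_cast hm.2
            linarith
        _ = 2 * (X : ℝ) ^ (1 / 8 : ℝ) := by
            rw [Real.mul_rpow (by norm_num) (by positivity)]
            congr 1
            rw [show (256 : ℝ) = 2 ^ (8 : ℕ) by norm_num, ← Real.rpow_natCast, ← Real.rpow_mul (by norm_num)]
            norm_num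
    calc (#(A.filter (fun n => d ∣ n ^ 2 + n + 1)) : ℝ) ≤ (d.divisors.card : ℝ) * (3 * X / d + 1) := h1
      _ ≤ (D * (d : ℝ) ^ (1 / 8 : ℝ)) * (3 * X / d + 1) := by gcongr
      _ = D * ((d : ℝ) ^ (1 / 8 : ℝ) * (3 * X / d)) + D * (d : ℝ) ^ (1 / 8 : ℝ) := by ring
      _ ≤ D * (3 * X * ((w : ℝ) ^ (-(1 / 2) : ℝ) * (1 / (m : ℝ) ^ (5 / 4 : ℝ)))) + D * (2 * (X : ℝ) ^ (1 / 8 : ℝ)) := by
          gcongr
      _ = _ := by ring
  have hMr : (M : ℝ) ≤ 2 * (X : ℝ) ^ (1 / 2 : ℝ) := by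
    have h1 : M ^ 2 ≤ 4 * X := by rw [hM, pow_two]; exact Nat.sqrt_le _
    have h2 : (M : ℝ) ^ 2 ≤ 4 * X := by exact_mod_cast h1
    rw [← Real.sqrt_eq_rpow]
    have h3 : (2 * Real.sqrt X) ^ 2 = 4 * X := by
      rw [mul_pow, Real.sq_sqrt (by linarith)]; norm_num
    refine (sq_le_sq₀ (by positivity) (by positivity)).1 ?_
    rw [h3]; exact h2
  calc (#A : ℝ) ≤ ((∑ m ∈ S, #(A.filter (fun n => m ^ 2 + m + 1 ∣ n ^ 2 + n + 1)) : ℕ) : ℝ) := by
        exact_mod_cast (card_le_card hsub).trans card_biUnion_le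
    _ = ∑ m ∈ S, (#(A.filter (fun n => m ^ 2 + m + 1 ∣ n ^ 2 + n + 1)) : ℝ) := by push_cast; rfl
    _ ≤ ∑ m ∈ S, (3 * D * X * (w : ℝ) ^ (-(1 / 2) : ℝ) * (1 / (m : ℝ) ^ (5 / 4 : ℝ)) + 2 * D * (X : ℝ) ^ (1 / 8 : ℝ)) :=
        Finset.sum_le_sum hterm
    _ = 3 * D * X * (w : ℝ) ^ (-(1 / 2) : ℝ) * ∑ m ∈ S, (1 / (m : ℝ) ^ (5 / 4 : ℝ)) +
        #S * (2 * D * (X : ℝ) ^ (1 / 8 : ℝ)) := by
        rw [Finset.sum_add_distrib, ← Finset.mul_sum, sum_const, nsmul_eq_mul]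
    _ ≤ 3 * D * X * (w : ℝ) ^ (-(1 / 2) : ℝ) * T + (2 * (X : ℝ) ^ (1 / 2 : ℝ) + 2 * (X : ℝ) ^ (1 / 2 : ℝ)) * (2 * D * (X : ℝ) ^ (1 / 8 : ℝ)) := by
        gcongr
        · exact hsum.sum_le_tsum _ (fun i _ => by positivity)
        · have h1 : #S ≤ M + 1 := by
            calc #S ≤ #(Icc w M) := card_filter_le _ _
              _ ≤ M + 1 := by rw [Nat.card_Icc]; omega
          have h2 : (#S : ℝ) ≤ M + 1 := by exact_mod_cast h1
          have h3 : (1 : ℝ) ≤ (X : ℝ) ^ (1 / 2 : ℝ) := Real.one_le_rpow hX0 (by norm_num)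
          linarith
    _ = 3 * D * T * (X * (w : ℝ) ^ (-(1 / 2) : ℝ)) + 8 * D * ((X : ℝ) ^ (1 / 2 : ℝ) * (X : ℝ) ^ (1 / 8 : ℝ)) := by ring
    _ ≤ (3 * D * T + 16 * D) * (X * (w : ℝ) ^ (-(1 / 2) : ℝ)) + (3 * D * T + 16 * D) * (X : ℝ) ^ (3 / 4 : ℝ) := by
        rw [← Real.rpow_add (by linarith)]
        have h1 : (X : ℝ) ^ ((1 / 2 : ℝ) + 1 / 8) ≤ (X : ℝ) ^ (3 / 4 : ℝ) :=
          Real.rpow_le_rpow_of_exponent_le hX0 (by norm_num)
        have h2 : 0 ≤ 3 * D * T := by positivity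
        have h3 : 0 ≤ (X : ℝ) * (w : ℝ) ^ (-(1 / 2) : ℝ) := by positivity
        have h4 : 0 ≤ (X : ℝ) ^ (3 / 4 : ℝ) := by positivity
        have h5 : 8 * D * (X : ℝ) ^ ((1 / 2 : ℝ) + 1 / 8) ≤ (3 * D * T + 16 * D) * (X : ℝ) ^ (3 / 4 : ℝ) := by
          apply mul_le_mul _ h1 (by positivity) (by positivity)
          linarith
        have h6 : 3 * D * T * (X * (w : ℝ) ^ (-(1 / 2) : ℝ)) ≤ (3 * D * T + 16 * D) * (X * (w : ℝ) ^ (-(1 / 2) : ℝ)) := by
          apply mul_le_mul_of_nonneg_right _ h3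
          linarith
        linarith
    _ = _ := by ring

end Pool.Agent.TH506.APD
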