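import Pool.Agent.TH506.APD.Qr

/-!
Numbers `n` without small prime factors such that `n ^ 2 + n + 1` has no medium prime factors.
-/

set_option autoImplicit false

namespace Pool.Agent.TH506.APD

open Finset Polynomial
open Pool.Agent.H410R2.ED Pool.Agent.H474R2.PG

/-- choice of the level, dimension `3` -/
lemma exists_level3 {c Y : ℕ} (hc : 1 ≤ c) (hY : 2 ^ (16 * c) ≤ Y) :
    ∃ J : ℕ, 1 ≤ J ∧ ((2 : ℝ) ^ 2 ^ J) ^ (c * 3) ≤ Y ∧ 2 ^ 2 ^ J ≤ Y ∧
      1 / (2 : ℝ) ^ J ≤ 8 * c * Real.log 2 / Real.log Y := by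
  obtain ⟨J, h1, h2, h3, h4⟩ := exists_level (c := 2 * c) (Y := Y) (by omega) (by
    rw [show 8 * (2 * c) = 16 * c by ring]; exact hY)
  refine ⟨J, h1, le_trans ?_ h2, h3, h4.trans (le_of_eq ?_)⟩
  · apply pow_le_pow_right₀
    · exact one_le_pow₀ (by norm_num)
    · omega
  · push_cast; ring

open Classical in
theorem rough_count3 : ∃ (C : ℝ) (Y0 : ℕ), 0 < C ∧ ∀ X Y w J1 : ℕ, Y0 ≤ Y → 1 ≤ X → 1 ≤ J1 →
    w < 2 ^ 2 ^ J1 → ∀ A : Finset ℕ, (∀ n ∈ A, n ≤ X ∧ (∀ l : ℕ, l.Prime → l ∣ n → Y < l) ∧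
      (∀ l : ℕ, l.Prime → l ∣ n ^ 2 + n + 1 → l ≤ w ∨ Y < l)) →
    (#A : ℝ) ≤ C * X * 2 ^ J1 / Real.log Y ^ 2 + Y := by
  obtain ⟨c, hc, hsv⟩ := sieve_exp
  obtain ⟨C1, hC1, h1⟩ := mert (Polynomial.X : ℤ[X]) Polynomial.irreducible_X (by rw [natDegree_X]; norm_num)
  obtain ⟨C2, hC2, h2⟩ := mert FP FP_irreducible (by rw [FP_natDegree]; norm_num)
  have hlog2 : 0 < Real.log 2 := Real.log_pos (by norm_num)
  have hc0 : (0 : ℝ) < c := by exact_mod_cast hc
  refine ⟨4 * Real.exp (C1 + 2 * C2) * (8 * c * Real.log 2) ^ 2, 2 ^ (16 * c), by positivity,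
    fun X Y w J1 hY0 hX hJ1 hw A hA => ?_⟩
  obtain ⟨J, hJ, hJ2, hJ3, hJ4⟩ := exists_level3 hc hY0
  have hY2 : 2 ^ 1 ≤ Y := le_trans (Nat.pow_le_pow_right (by norm_num) (by omega)) hY0
  have hlogY : 0 < Real.log Y := Real.log_pos (by exact_mod_cast (by omega : 1 < Y))
  obtain ⟨P, hP⟩ : ∃ P : ℕ → ℕ → Prop, ∀ l n, P l n ↔ (l ∣ n ∨ (2 ^ 2 ^ J1 ≤ l ∧ l ∣ n ^ 2 + n + 1)) :=
    ⟨_, fun _ _ => Iff.rfl⟩
  have hper : ∀ l n, P l (n + l) ↔ P l n := by
    intro l n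
    rw [hP, hP]
    have h3 : n + l ≡ n [MOD l] := by simp
    rw [dvd_val_congr h3, Nat.dvd_add_self_right]
  have hcard : ∀ l : ℕ, l.Prime → #((range l).filter (P l)) =
      rho (Polynomial.X : ℤ[X]) l + (if 2 ^ 2 ^ J1 ≤ l then rho FP l else 0) := by
    intro l hl
    have h3 : (range l).filter (P l) = (range l).filter (fun n => l ∣ n) ∪
        (range l).filter (fun n => 2 ^ 2 ^ J1 ≤ l ∧ l ∣ n ^ 2 + n + 1) := by
      rw [← Finset.filter_or]
      apply Finset.filter_congr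
      intro n _
      rw [hP]
    rw [h3, card_union_of_disjoint]
    · congr 1
      · unfold rho
        congr 1
        apply Finset.filter_congr
        intro a _
        rw [eval_X, Int.natCast_dvd_natCast]
      · split_ifs with h4
        · rw [rho_FP]
          congr 1
          apply Finset.filter_congr
          intro a _
          simp [h4]
        · rw [card_eq_zero, Finset.filter_eq_empty_iff]
          intro a _ h5
          exact h4 h5.1
    · rw [Finset.disjoint_filter]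
      intro a _ h4 h5
      have h6 : l ∣ a ^ 2 + a := dvd_add (dvd_pow h4 (by norm_num)) h4
      have h7 := (Nat.dvd_add_right h6).1 h5.2
      exact hl.one_lt.ne' (Nat.dvd_one.1 h7)
  have hcard3 : ∀ l : ℕ, l.Prime → #((range l).filter (P l)) ≤ 3 := by
    intro l hl
    rw [hcard l hl, rho_X hl.pos]
    have := rho_FP_le hl
    split_ifs <;> omega
  have hS : 2 * (J * Real.log 2) - J1 * Real.log 2 - (C1 + 2 * C2) ≤
      ∑ l ∈ Pr 3 J, (#((range l).filter (P l)) : ℝ) / l := by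
    have e1 := (abs_le.1 (h1 J hJ)).1
    have e2 := (abs_le.1 (h2 J hJ)).1
    have e3 := (abs_le.1 (h2 J1 hJ1)).2
    have e4 : ∑ l ∈ Pr 3 J, (#((range l).filter (P l)) : ℝ) / l =
        ∑ l ∈ Pr 3 J, (rho (Polynomial.X : ℤ[X]) l : ℝ) / l +
        ∑ l ∈ (Pr 3 J).filter (fun l => 2 ^ 2 ^ J1 ≤ l), (rho FP l : ℝ) / l := by
      rw [Finset.sum_filter, ← Finset.sum_add_distrib]
      apply Finset.sum_congr rfl
      intro l hl
      rw [hcard l (mem_filter.1 hl).2.1]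
      split_ifs <;> push_cast <;> ring
    have e5 := Finset.sum_filter_add_sum_filter_not (Pr 3 J) (fun l => 2 ^ 2 ^ J1 ≤ l)
      (fun l => (rho FP l : ℝ) / l)
    have e6 : ∑ l ∈ (Pr 3 J).filter (fun l => ¬ 2 ^ 2 ^ J1 ≤ l), (rho FP l : ℝ) / l ≤
        ∑ l ∈ Pr 3 J1, (rho FP l : ℝ) / l := by
      apply Finset.sum_le_sum_of_subset_of_nonneg
      · intro l hl
        rw [mem_filter] at hl
        have h3 := (mem_filter.1 hl.1).2
        unfold Pr
        rw [mem_filter, mem_range]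
        exact ⟨not_le.1 hl.2, h3⟩
      · intro i _ _; positivity
    rw [e4]
    linarith
  have hmain := hsv P (X + 1) J _ hper hcard3 hS
  have hsub : A ⊆ (range (X + 1)).filter (fun t => ∀ l ∈ Pr 3 J, ¬ P l t) := by
    intro n hn
    obtain ⟨h3, h4, h5⟩ := hA n hn
    rw [mem_filter, mem_range]
    refine ⟨by omega, ?_⟩
    intro l hl hPl
    have hlp : l.Prime := (mem_filter.1 hl).2.1
    have hlt : l < 2 ^ 2 ^ J := mem_range.1 (mem_filter.1 hl).1
    rcases (hP l n).1 hPl with h6 | ⟨h6, h7⟩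
    · have := h4 l hlp h6; omega
    · rcases h5 l hlp h7 with h8 | h8 <;> omega
  have hexp : Real.exp (-(2 * (J * Real.log 2) - J1 * Real.log 2 - (C1 + 2 * C2))) =
      Real.exp (C1 + 2 * C2) * 2 ^ J1 * (1 / 2 ^ J) ^ 2 := by
    have e1 : -(2 * (J * Real.log 2) - J1 * Real.log 2 - (C1 + 2 * C2)) =
        (C1 + 2 * C2) + Real.log (2 ^ J1) - Real.log (2 ^ J) - Real.log (2 ^ J) := by
      rw [Real.log_pow, Real.log_pow]; ring
    rw [e1, Real.exp_sub, Real.exp_sub, Real.exp_add, Real.exp_log (by positivity),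
      Real.exp_log (by positivity)]
    field_simp
  calc (#A : ℝ) ≤ _ := by exact_mod_cast card_le_card hsub
    _ ≤ _ := hmain
    _ ≤ 2 * ((X + 1 : ℕ) : ℝ) * (Real.exp (C1 + 2 * C2) * 2 ^ J1 * (8 * c * Real.log 2 / Real.log Y) ^ 2) + Y := by
        rw [hexp]
        gcongr
    _ ≤ 2 * (2 * (X : ℝ)) * (Real.exp (C1 + 2 * C2) * 2 ^ J1 * (8 * c * Real.log 2 / Real.log Y) ^ 2) + Y := by
        have : ((X + 1 : ℕ) : ℝ) ≤ 2 * X := by
          have : (1 : ℝ) ≤ X := by exact_mod_cast hX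
          push_cast; linarith
        gcongr
    _ = _ := by field_simp; ring

end Pool.Agent.TH506.APD
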