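import Pool.Agent.H152R2.Planar

/-!
Abelian planar difference sets: fixed subgroups of multipliers and free orbits.
-/

set_option autoImplicit false

namespace Pool.Agent.TH506.APD

open Finset Pool.Agent.H152R2

/-- a map all of whose orbits on `A` have length `f` -/
lemma dvd_card_of_free {α : Type*} [DecidableEq α] (σ : α → α) (f : ℕ) (hf : 0 < f) :
    ∀ (k : ℕ) (A : Finset α), #A = k → (∀ x ∈ A, σ x ∈ A) → (∀ x ∈ A, σ^[f] x = x) →
      (∀ x ∈ A, ∀ i, 0 < i → i < f → σ^[i] x ≠ x) → f ∣ #A := by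
  intro k
  induction k using Nat.strong_induction_on with
  | _ k ih =>
  intro A hk hσ hper hfree
  rcases A.eq_empty_or_nonempty with rfl | ⟨x, hx⟩
  · simp
  have hit : ∀ i, ∀ y ∈ A, σ^[i] y ∈ A := by
    intro i
    induction i with
    | zero => intro y hy; simpa using hy
    | succ i ih => intro y hy; rw [Function.iterate_succ_apply]; exact ih _ (hσ y hy)
  set O : Finset α := (range f).image (fun i => σ^[i] x) with hO
  have hinj : Set.InjOn (fun i => σ^[i] x) (range f : Set ℕ) := by
    have key : ∀ i j : ℕ, i < j → j < f → σ^[i] x ≠ σ^[j] x := by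
      intro i j hij hj h
      have h1 : σ^[f - i] (σ^[i] x) = x := by
        rw [← Function.iterate_add_apply]
        have : f - i + i = f := by omega
        rw [this]; exact hper x hx
      rw [h, ← Function.iterate_add_apply] at h1
      have h2 : f - i + j = (j - i) + f := by omega
      rw [h2, Function.iterate_add_apply, hper x hx] at h1
      exact hfree x hx (j - i) (by omega) (by omega) h1
    intro i hi j hj hij
    simp only [coe_range, Set.mem_Iio] at hi hj
    rcases lt_trichotomy i j with h | h | h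
    · exact absurd hij (key i j h hj)
    · exact h
    · exact absurd hij.symm (key j i h hi)
  have hOc : #O = f := by
    rw [hO, card_image_of_injOn hinj, card_range]
  have hOA : O ⊆ A := by
    intro y hy
    obtain ⟨i, -, rfl⟩ := mem_image.1 hy
    exact hit i x hx
  have hsub : A \ O ⊆ A := sdiff_subset
  have hc : #(A \ O) + #O = #A := card_sdiff_add_card_eq_card hOA
  have h1 : f ∣ #(A \ O) := by
    refine ih #(A \ O) (by omega) (A \ O) rfl ?_ (fun y hy => hper y (hsub hy))
      (fun y hy => hfree y (hsub hy))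
    intro y hy
    rw [mem_sdiff] at hy ⊢
    refine ⟨hσ y hy.1, fun h => hy.2 ?_⟩
    obtain ⟨i, hi, hiy⟩ := mem_image.1 h
    have h2 : y = σ^[f - 1 + i] x := by
      rw [Function.iterate_add_apply, hiy, ← Function.iterate_succ_apply]
      have : (f - 1).succ = f := by omega
      rw [this, hper y hy.1]
    rw [h2]
    rcases Nat.lt_or_ge (f - 1 + i) f with h3 | h3
    · exact mem_image.2 ⟨_, mem_range.2 h3, rfl⟩
    · refine mem_image.2 ⟨f - 1 + i - f, mem_range.2 ?_, ?_⟩
      · have := mem_range.1 hi; omega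
      · have h4 : f - 1 + i = (f - 1 + i - f) + f := by omega
        conv_rhs => rw [h4]
        rw [Function.iterate_add_apply, hper x hx]
  rw [← hc, hOc]
  exact h1.add dvd_rfl

variable {G : Type*} [AddCommGroup G] {n : ℕ} {D : Finset G}

/-- a subgroup which contains with a nonzero `a - b` also `a` and `b` (`a, b ∈ D`) -/
lemma closed_card (h : IsPDS n D) (H : AddSubgroup G)
    (hH : ∀ a ∈ D, ∀ b ∈ D, a ≠ b → a - b ∈ H → a ∈ H ∧ b ∈ H) :
    ∃ m : ℕ, Nat.card H = m ^ 2 + m + 1 ∧
      (H ≠ ⊤ → m < n ∧ (n - m + 1) * (m ^ 2 + m + 1) ≤ n ^ 2 + n + 1) := by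
  classical
  have hfin := h.finite
  have := Fintype.ofFinite G
  set DH : Finset G := D.filter (fun x => x ∈ H) with hDH
  have h1 : #(DH.offDiag) = #((univ : Finset G).filter (fun x => x ∈ H ∧ x ≠ 0)) := by
    apply Finset.card_bij (fun q _ => q.1 - q.2)
    · rintro ⟨a, b⟩ hab
      simp only [mem_offDiag, hDH, mem_filter] at hab
      simp only [mem_filter, mem_univ, true_and]
      exact ⟨H.sub_mem hab.1.2 hab.2.1.2, sub_ne_zero.2 hab.2.2⟩
    · rintro ⟨a, b⟩ hab ⟨a', b'⟩ hab' he
      simp only [mem_offDiag, hDH, mem_filter] at hab hab'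
      have := h.uniq hab.1.1 hab.2.1.1 hab'.1.1 hab'.2.1.1 he hab.2.2
      rw [this.1, this.2]
    · intro x hx
      simp only [mem_filter, mem_univ, true_and] at hx
      obtain ⟨q, ⟨h1, h2, hq⟩, _⟩ := h.diff x hx.2
      have hne : q.1 ≠ q.2 := by
        intro he; apply hx.2; rw [← hq, he, sub_self]
      have h3 := hH q.1 h1 q.2 h2 hne (by rw [hq]; exact hx.1)
      refine ⟨q, ?_, hq⟩
      simp only [mem_offDiag, hDH, mem_filter]
      exact ⟨⟨h1, h3.1⟩, ⟨h2, h3.2⟩, hne⟩
  have h2 : Nat.card H = #((univ : Finset G).filter (fun x => x ∈ H ∧ x ≠ 0)) + 1 := by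
    have e1 : Nat.card H = #((univ : Finset G).filter (fun x => x ∈ H)) := by
      rw [Nat.card_eq_fintype_card, Fintype.card_subtype]
    have e2 : (univ : Finset G).filter (fun x => x ∈ H ∧ x ≠ 0) =
        ((univ : Finset G).filter (fun x => x ∈ H)).erase 0 := by
      ext x
      simp only [mem_filter, mem_univ, true_and, mem_erase]
      tauto
    rw [e2, card_erase_of_mem (by simp [H.zero_mem]), e1]
    have : 0 < #((univ : Finset G).filter (fun x => x ∈ H)) :=
      card_pos.2 ⟨0, by simp [H.zero_mem]⟩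
    omega
  have hindex : H.index * Nat.card H = n ^ 2 + n + 1 := by
    rw [H.index_mul_card, h.card_group]
  -- elements of `D` outside `H` are in different nonzero cosets
  have h3 : #(D.filter (fun x => ¬ x ∈ H)) + 1 ≤ H.index := by
    have e1 : H.index = #((univ : Finset (G ⧸ H))) := by
      rw [card_univ, ← Nat.card_eq_fintype_card]; rfl
    rw [e1]
    have e2 : #(D.filter (fun x => ¬ x ∈ H)) ≤ #((univ : Finset (G ⧸ H)).erase 0) := by
      apply Finset.card_le_card_of_injOn (fun x => (QuotientAddGroup.mk x : G ⧸ H))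
      · intro x hx
        simp only [coe_filter, Set.mem_ofPred_eq] at hx
        simp only [coe_erase, coe_univ, Set.mem_sdiff, Set.mem_univ, true_and, Set.mem_singleton_iff]
        intro h0
        exact hx.2 ((QuotientAddGroup.eq_zero_iff x).1 h0)
      · intro a ha b hb hab
        simp only [coe_filter, Set.mem_ofPred_eq] at ha hb
        by_contra hne
        have h4 : -a + b ∈ H := QuotientAddGroup.eq.1 hab
        have h5 : b - a ∈ H := by rw [sub_eq_add_neg, add_comm]; exact h4
        exact hb.2 (hH b hb.1 a ha.1 (Ne.symm hne) h5).1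
    rw [card_erase_of_mem (mem_univ _)] at e2
    have : 0 < #((univ : Finset (G ⧸ H))) := card_pos.2 ⟨0, mem_univ _⟩
    omega
  have h4 : #DH + #(D.filter (fun x => ¬ x ∈ H)) = n + 1 := by
    rw [← h.card, hDH]
    exact Finset.card_filter_add_card_filter_not _
  rw [Finset.offDiag_card] at h1
  rcases Nat.eq_zero_or_pos #DH with h0 | hpos
  · -- trivial subgroup
    rw [h0] at h1
    have h5 : Nat.card H = 1 := by rw [h2, ← h1]
    refine ⟨0, by rw [h5]; norm_num, fun _ => ?_⟩
    have hn : 0 < n := by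
      rcases Nat.eq_zero_or_pos n with rfl | hn
      · exfalso
        rename_i hne
        apply hne
        apply AddSubgroup.eq_top_of_card_eq
        rw [h5, h.card_group]; norm_num
      · exact hn
    refine ⟨hn, ?_⟩
    have : n ≤ n ^ 2 := Nat.le_self_pow (by norm_num) n
    simp only [Nat.sub_zero]
    linarith
  · obtain ⟨m, hm⟩ : ∃ m, #DH = m + 1 := ⟨#DH - 1, by omega⟩
    rw [hm] at h1 h4
    have h5 : Nat.card H = m ^ 2 + m + 1 := by
      rw [h2, ← h1]
      have : (m + 1) * (m + 1) - (m + 1) = m ^ 2 + m := by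
        rw [Nat.sub_eq_iff_eq_add (by nlinarith)]; ring
      rw [this]
    refine ⟨m, h5, fun hne => ?_⟩
    have h6 : Nat.card H < n ^ 2 + n + 1 := by
      rw [← h.card_group]
      refine lt_of_le_of_ne ?_ ?_
      · exact Nat.card_le_card_of_injective _ Subtype.val_injective
      · intro he
        exact hne (AddSubgroup.eq_top_of_card_eq _ he)
    have h7 : m < n := by
      rw [h5] at h6
      by_contra hcon
      push Not at hcon
      nlinarith
    refine ⟨h7, ?_⟩
    have h8 : n - m + 1 ≤ H.index := by omega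
    rw [← hindex, h5]
    exact Nat.mul_le_mul_right _ h8

/-- exceptional orders of the first kind -/
def E1 (z n : ℕ) : Prop := ∃ m : ℕ, m < n ∧ z < m ^ 2 + m + 1 ∧ (m ^ 2 + m + 1) ∣ n ^ 2 + n + 1 ∧
  (n - m + 1) * (m ^ 2 + m + 1) ≤ n ^ 2 + n + 1

/-- the fixed subgroup -/
def fixS (G : Type*) [AddCommGroup G] (t : ℕ) : AddSubgroup G where
  carrier := {x | t • x = x}
  zero_mem' := by simp
  add_mem' := by
    intro a b ha hb
    simp only [Set.mem_ofPred_eq] at *
    rw [smul_add, ha, hb]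
  neg_mem' := by
    intro a ha
    simp only [Set.mem_ofPred_eq] at *
    rw [smul_neg, ha]

lemma mem_fixS {t : ℕ} {x : G} : x ∈ fixS G t ↔ t • x = x := Iff.rfl

lemma fix_closed (h : IsPDS n D) {t : ℕ} (ht : ∀ x ∈ D, t • x ∈ D) :
    ∀ a ∈ D, ∀ b ∈ D, a ≠ b → a - b ∈ fixS G t → a ∈ fixS G t ∧ b ∈ fixS G t := by
  intro a ha b hb hne hab
  rw [mem_fixS, smul_sub] at hab
  have := h.uniq ha hb (ht a ha) (ht b hb) hab.symm hne
  exact ⟨this.1.symm, this.2.symm⟩

/-- outside `E1` a multiplier which is `1` modulo a prime `r > z` is trivial -/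
lemma act_trivial (h : IsPDS n D) {z : ℕ} (hE : ¬ E1 z n) {t : ℕ} (ht : ∀ x ∈ D, t • x ∈ D)
    {r : ℕ} (hr : r.Prime) (hrv : r ∣ n ^ 2 + n + 1) (hz : z < r) (htr : (t : ZMod r) = 1) (x : G) :
    t • x = x := by
  classical
  have hfin := h.finite
  have hfr : Fact r.Prime := ⟨hr⟩
  obtain ⟨m, hm, hm2⟩ := closed_card h (fixS G t) (fix_closed h ht)
  obtain ⟨g, hg⟩ := exists_prime_addOrderOf_dvd_card' (G := G) r (by rw [h.card_group]; exact hrv)
  have hgf : g ∈ fixS G t := by
    rw [mem_fixS]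
    have h1 : t ≡ 1 [MOD addOrderOf g] := by
      rw [hg]
      exact (ZMod.natCast_eq_natCast_iff _ _ _).1 (by rw [htr]; simp)
    have h2 : t • g = 1 • g := (nsmul_eq_nsmul_iff_modEq).2 h1
    rw [h2, one_smul]
  have h3 : r ∣ Nat.card (fixS G t) := by
    have h4 : addOrderOf (⟨g, hgf⟩ : fixS G t) = r := by
      rw [← hg]; exact (AddSubgroup.addOrderOf_mk g hgf)
    rw [← h4]
    exact addOrderOf_dvd_natCard _
  have h5 : z < m ^ 2 + m + 1 := by
    rw [← hm]
    exact lt_of_lt_of_le hz (Nat.le_of_dvd Nat.card_pos h3)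
  by_contra hne
  have htop : fixS G t ≠ ⊤ := by
    intro he
    apply hne
    have : x ∈ fixS G t := by rw [he]; trivial
    exact this
  obtain ⟨h6, h7⟩ := hm2 htop
  refine hE ⟨m, h6, h5, ?_, h7⟩
  rw [← hm, ← h.card_group]
  exact AddSubgroup.card_addSubgroup_dvd_card _

/-- the `z`-smooth part of the group -/
def smS (G : Type*) [AddCommGroup G] [Finite G] (z : ℕ) : AddSubgroup G where
  carrier := {x | ∀ q : ℕ, q.Prime → q ∣ addOrderOf x → q ≤ z}
  zero_mem' := by
    intro q hq hq0
    rw [addOrderOf_zero] at hq0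
    exact absurd (Nat.dvd_one.1 hq0) hq.one_lt.ne'
  add_mem' := by
    intro a b ha hb q hq hq0
    have h1 := hq0.trans (AddCommute.addOrderOf_add_dvd_lcm (AddCommute.all a b))
    rcases (Nat.Prime.dvd_lcm hq).1 h1 with h2 | h2
    · exact ha q hq h2
    · exact hb q hq h2
  neg_mem' := by
    intro a ha q hq hq0
    rw [addOrderOf_neg] at hq0
    exact ha q hq hq0

lemma mem_smS [Finite G] {z : ℕ} {x : G} :
    x ∈ smS G z ↔ ∀ q : ℕ, q.Prime → q ∣ addOrderOf x → q ≤ z := Iff.rfl

lemma smS_card [Finite G] (z : ℕ) {q : ℕ} (hq : q.Prime) (hqs : q ∣ Nat.card (smS G z)) :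
    q ≤ z := by
  have : Fact q.Prime := ⟨hq⟩
  obtain ⟨g, hg⟩ := exists_prime_addOrderOf_dvd_card' (G := smS G z) q hqs
  apply g.2 q hq
  rw [AddSubgroup.addOrderOf_coe, hg]

lemma smS_index [Finite G] (z : ℕ) {q : ℕ} (hq : q.Prime) (hqs : q ∣ (smS G z).index) :
    z < q := by
  have : Fact q.Prime := ⟨hq⟩
  obtain ⟨y, hy⟩ := exists_prime_addOrderOf_dvd_card' (G := G ⧸ smS G z) q hqs
  obtain ⟨x, rfl⟩ := QuotientAddGroup.mk_surjective y
  by_contra hcon
  push Not at hcon
  have h1 : q • x ∈ smS G z := by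
    rw [← QuotientAddGroup.eq_zero_iff]
    have := addOrderOf_nsmul_eq_zero (QuotientAddGroup.mk x : G ⧸ smS G z)
    rw [hy] at this
    exact this
  have h2 : x ∈ smS G z := by
    intro l hl hlx
    have h3 : addOrderOf x ∣ q * addOrderOf (q • x) := by
      apply addOrderOf_dvd_of_nsmul_eq_zero
      rw [mul_comm, mul_smul, addOrderOf_nsmul_eq_zero]
    rcases hl.dvd_mul.1 (hlx.trans h3) with h4 | h4
    · rw [(Nat.prime_dvd_prime_iff_eq hl hq).1 h4]; exact hcon
    · exact h1 l hl h4
  have h3 : (QuotientAddGroup.mk x : G ⧸ smS G z) = 0 := (QuotientAddGroup.eq_zero_iff x).2 h2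
  rw [h3, addOrderOf_zero] at hy
  exact hq.one_lt.ne hy

lemma iter_smul (p i : ℕ) (x : G) : (fun y : G => p • y)^[i] x = p ^ i • x := by
  induction i generalizing x with
  | zero => simp
  | succ i ih => rw [Function.iterate_succ_apply, ih, pow_succ, mul_smul]

/-- the arithmetic structure of an order outside `E1` -/
theorem structure_of (h : IsPDS n D) (hn : 0 < n) {z p : ℕ} (hp : p.Prime) (hpn : p ∣ n)
    (hE : ¬ E1 z n) :
    ∃ f s R j : ℕ, 0 < f ∧ n ^ 2 + n + 1 = s * R ∧ (∀ q : ℕ, q.Prime → q ∣ s → q ≤ z) ∧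
      (∀ r : ℕ, r.Prime → r ∣ R → z < r ∧ orderOf (p : ZMod r) = f) ∧
      j * (j - 1) + 1 ≤ s ∧ j ≤ n + 1 ∧ f ∣ (n + 1 - j) ∧ s ≤ n ^ 2 + n + 1 ∧
      f ∣ (n ^ 2 + n + 1 - s) := by
  classical
  obtain ⟨D', h', h0⟩ := h.exists_normalised
  have hfin := h.finite
  have := Fintype.ofFinite G
  have hpD : ∀ i : ℕ, ∀ x ∈ D', p ^ i • x ∈ D' := by
    intro i x hx
    exact h'.smul_mem h0 hn (pow_ne_zero _ hp.ne_zero)
      (fun r hr hrt => by rw [(Nat.prime_dvd_prime_iff_eq hr hp).1 (hr.dvd_of_dvd_pow hrt)]; exact hpn) hx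
  have hcop : Nat.Coprime p (n ^ 2 + n + 1) := Nat.Coprime.coprime_dvd_left hpn (IsPDS.coprime_card' n)
  -- the order of `p`
  have hord : ∀ r : ℕ, r.Prime → r ∣ n ^ 2 + n + 1 → z < r → ∀ i : ℕ,
      ((p : ZMod r) ^ i = 1 ↔ ∀ x : G, p ^ i • x = x) := by
    intro r hr hrv hzr i
    have : Fact r.Prime := ⟨hr⟩
    constructor
    · intro hi x
      exact act_trivial h' hE (hpD i) hr hrv hzr (by push_cast; exact hi) x
    · intro hi
      obtain ⟨g, hg⟩ := exists_prime_addOrderOf_dvd_card' (G := G) r (by rw [h.card_group]; exact hrv)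
      have h1 : p ^ i • g = 1 • g := by rw [hi g, one_smul]
      have h2 := (nsmul_eq_nsmul_iff_modEq).1 h1
      rw [hg] at h2
      have h3 := (ZMod.natCast_eq_natCast_iff _ _ _).2 h2
      push_cast at h3
      exact h3
  obtain ⟨f, hf0, hf⟩ : ∃ f : ℕ, 0 < f ∧ ∀ r : ℕ, r.Prime → r ∣ n ^ 2 + n + 1 → z < r →
      orderOf (p : ZMod r) = f := by
    by_cases hex : ∃ r : ℕ, r.Prime ∧ r ∣ n ^ 2 + n + 1 ∧ z < r
    · obtain ⟨r0, hr0, hr0v, hzr0⟩ := hex
      refine ⟨orderOf (p : ZMod r0), ?_, ?_⟩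
      · have : Fact r0.Prime := ⟨hr0⟩
        rw [orderOf_pos_iff]
        have hne : (p : ZMod r0) ≠ 0 := by
          intro h1
          have h2 := (ZMod.natCast_eq_zero_iff _ _).1 h1
          have h3 := Nat.dvd_gcd h2 hr0v
          rw [hcop] at h3
          exact hr0.one_lt.ne' (Nat.dvd_one.1 h3)
        exact isOfFinOrder_iff_pow_eq_one.2 ⟨r0 - 1, by have := hr0.two_le; omega,
          ZMod.pow_card_sub_one_eq_one hne⟩
      · intro r hr hrv hzr
        rw [orderOf_eq_orderOf_iff]
        intro i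
        rw [hord r hr hrv hzr i, hord r0 hr0 hr0v hzr0 i]
    · exact ⟨1, one_pos, fun r h1 h2 h3 => absurd ⟨r, h1, h2, h3⟩ hex⟩
  have hsR : Nat.card (smS G z) * (smS G z).index = n ^ 2 + n + 1 := by
    rw [(smS G z).card_mul_index, h.card_group]
  refine ⟨f, Nat.card (smS G z), (smS G z).index, #(D'.filter (fun x => x ∈ smS G z)), hf0,
    hsR.symm, fun q hq hqs => smS_card z hq hqs, ?_, ?_, ?_, ?_, ?_, ?_⟩
  · intro r hr hrR
    have h1 := smS_index z hr hrR
    exact ⟨h1, hf r hr (hrR.trans (Dvd.intro_left _ hsR)) h1⟩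
  · -- differences
    set DH : Finset G := D'.filter (fun x => x ∈ smS G z) with hDH
    have h1 : #(DH.offDiag) ≤ #(((univ : Finset G).filter (fun x => x ∈ smS G z)).erase 0) := by
      apply Finset.card_le_card_of_injOn (fun q : G × G => q.1 - q.2)
      · rintro ⟨a, b⟩ hab
        simp only [coe_offDiag, hDH, coe_filter, Set.mem_offDiag, Set.mem_ofPred_eq] at hab
        simp only [coe_erase, coe_filter, mem_univ, true_and, Set.mem_sdiff, Set.mem_ofPred_eq,
          Set.mem_singleton_iff]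
        exact ⟨(smS G z).sub_mem hab.1.2 hab.2.1.2, sub_ne_zero.2 hab.2.2⟩
      · rintro ⟨a, b⟩ hab ⟨a', b'⟩ hab' he
        simp only [coe_offDiag, hDH, coe_filter, Set.mem_offDiag, Set.mem_ofPred_eq] at hab hab'
        have := h'.uniq hab.1.1 hab.2.1.1 hab'.1.1 hab'.2.1.1 he hab.2.2
        rw [this.1, this.2]
    have h2 : Nat.card (smS G z) = #((univ : Finset G).filter (fun x => x ∈ smS G z)) := by
      rw [Nat.card_eq_fintype_card, Fintype.card_subtype]
    rw [offDiag_card, card_erase_of_mem (by simp [(smS G z).zero_mem]), ← h2] at h1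
    have h3 : 0 < Nat.card (smS G z) := Nat.card_pos
    have h4 : #DH * (#DH - 1) = #DH * #DH - #DH := by rw [Nat.mul_sub, mul_one]
    omega
  · rw [← h'.card]; exact card_filter_le _ _
  · -- free orbits on `D' \ S`
    have h1 : n + 1 - #(D'.filter (fun x => x ∈ smS G z)) = #(D'.filter (fun x => ¬ x ∈ smS G z)) := by
      rw [← h'.card, ← Finset.card_filter_add_card_filter_not (s := D') (fun x => x ∈ smS G z)]
      simp
    rw [h1]
    refine dvd_card_of_free (fun x : G => p • x) f hf0 _ _ rfl ?_ ?_ ?_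
    · intro x hx
      rw [mem_filter] at hx ⊢
      refine ⟨by simpa using hpD 1 x hx.1, fun hcon => hx.2 ?_⟩
      obtain ⟨q, hq, hqx, hzq⟩ : ∃ q : ℕ, q.Prime ∧ q ∣ addOrderOf x ∧ z < q := by
        have := hx.2
        rw [mem_smS] at this
        push Not at this
        obtain ⟨q, h1, h2, h3⟩ := this
        exact ⟨q, h1, h2, h3⟩
      have hqv : q ∣ n ^ 2 + n + 1 := by
        rw [← h.card_group]; exact hqx.trans (addOrderOf_dvd_natCard _)
      have h2 : p ^ f • x = x := (hord q hq hqv hzq f).1 (by rw [← hf q hq hqv hzq]; exact pow_orderOf_eq_one _) x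
      have h3 : p ^ (f - 1) • (p • x) = x := by
        rw [← mul_smul, ← pow_succ, Nat.sub_add_cancel hf0, h2]
      rw [← h3]
      exact (smS G z).nsmul_mem hcon _
    · intro x hx
      rw [mem_filter] at hx
      obtain ⟨q, hq, hqx, hzq⟩ : ∃ q : ℕ, q.Prime ∧ q ∣ addOrderOf x ∧ z < q := by
        have := hx.2
        rw [mem_smS] at this
        push Not at this
        obtain ⟨q, h1, h2, h3⟩ := this
        exact ⟨q, h1, h2, h3⟩
      have hqv : q ∣ n ^ 2 + n + 1 := by
        rw [← h.card_group]; exact hqx.trans (addOrderOf_dvd_natCard _)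
      rw [iter_smul]
      exact (hord q hq hqv hzq f).1 (by rw [← hf q hq hqv hzq]; exact pow_orderOf_eq_one _) x
    · intro x hx i hi0 hif hix
      rw [mem_filter] at hx
      obtain ⟨q, hq, hqx, hzq⟩ : ∃ q : ℕ, q.Prime ∧ q ∣ addOrderOf x ∧ z < q := by
        have := hx.2
        rw [mem_smS] at this
        push Not at this
        obtain ⟨q, h1, h2, h3⟩ := this
        exact ⟨q, h1, h2, h3⟩
      have hqv : q ∣ n ^ 2 + n + 1 := by
        rw [← h.card_group]; exact hqx.trans (addOrderOf_dvd_natCard _)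
      rw [iter_smul] at hix
      have h1 : p ^ i • x = 1 • x := by rw [hix, one_smul]
      have h2 := ((nsmul_eq_nsmul_iff_modEq).1 h1).of_dvd hqx
      have h3 := (ZMod.natCast_eq_natCast_iff _ _ _).2 h2
      push_cast at h3
      have h4 := orderOf_dvd_of_pow_eq_one h3
      rw [hf q hq hqv hzq] at h4
      exact absurd (Nat.le_of_dvd hi0 h4) (by omega)
  · rw [← h.card_group]
    exact Nat.card_le_card_of_injective _ Subtype.val_injective
  · -- free orbits on `G \ S`
    have h1 : n ^ 2 + n + 1 - Nat.card (smS G z) = #((univ : Finset G).filter (fun x => ¬ x ∈ smS G z)) := by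
      have h2 : Nat.card (smS G z) = #((univ : Finset G).filter (fun x => x ∈ smS G z)) := by
        rw [Nat.card_eq_fintype_card, Fintype.card_subtype]
      have h3 : n ^ 2 + n + 1 = #(univ : Finset G) := by
        rw [card_univ, ← Nat.card_eq_fintype_card, h.card_group]
      rw [h2, h3, ← Finset.card_filter_add_card_filter_not (s := (univ : Finset G)) (fun x => x ∈ smS G z)]
      simp
    rw [h1]
    refine dvd_card_of_free (fun x : G => p • x) f hf0 _ _ rfl ?_ ?_ ?_
    · intro x hx
      rw [mem_filter] at hx ⊢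
      refine ⟨mem_univ _, fun hcon => hx.2 ?_⟩
      obtain ⟨q, hq, hqx, hzq⟩ : ∃ q : ℕ, q.Prime ∧ q ∣ addOrderOf x ∧ z < q := by
        have := hx.2
        rw [mem_smS] at this
        push Not at this
        obtain ⟨q, h1, h2, h3⟩ := this
        exact ⟨q, h1, h2, h3⟩
      have hqv : q ∣ n ^ 2 + n + 1 := by
        rw [← h.card_group]; exact hqx.trans (addOrderOf_dvd_natCard _)
      have h2 : p ^ f • x = x := (hord q hq hqv hzq f).1 (by rw [← hf q hq hqv hzq]; exact pow_orderOf_eq_one _) x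
      have h3 : p ^ (f - 1) • (p • x) = x := by
        rw [← mul_smul, ← pow_succ, Nat.sub_add_cancel hf0, h2]
      rw [← h3]
      exact (smS G z).nsmul_mem hcon _
    · intro x hx
      rw [mem_filter] at hx
      obtain ⟨q, hq, hqx, hzq⟩ : ∃ q : ℕ, q.Prime ∧ q ∣ addOrderOf x ∧ z < q := by
        have := hx.2
        rw [mem_smS] at this
        push Not at this
        obtain ⟨q, h1, h2, h3⟩ := this
        exact ⟨q, h1, h2, h3⟩
      have hqv : q ∣ n ^ 2 + n + 1 := by
        rw [← h.card_group]; exact hqx.trans (addOrderOf_dvd_natCard _)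
      rw [iter_smul]
      exact (hord q hq hqv hzq f).1 (by rw [← hf q hq hqv hzq]; exact pow_orderOf_eq_one _) x
    · intro x hx i hi0 hif hix
      rw [mem_filter] at hx
      obtain ⟨q, hq, hqx, hzq⟩ : ∃ q : ℕ, q.Prime ∧ q ∣ addOrderOf x ∧ z < q := by
        have := hx.2
        rw [mem_smS] at this
        push Not at this
        obtain ⟨q, h1, h2, h3⟩ := this
        exact ⟨q, h1, h2, h3⟩
      have hqv : q ∣ n ^ 2 + n + 1 := by
        rw [← h.card_group]; exact hqx.trans (addOrderOf_dvd_natCard _)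
      rw [iter_smul] at hix
      have h1 : p ^ i • x = 1 • x := by rw [hix, one_smul]
      have h2 := ((nsmul_eq_nsmul_iff_modEq).1 h1).of_dvd hqx
      have h3 := (ZMod.natCast_eq_natCast_iff _ _ _).2 h2
      push_cast at h3
      have h4 := orderOf_dvd_of_pow_eq_one h3
      rw [hf q hq hqv hzq] at h4
      exact absurd (Nat.le_of_dvd hi0 h4) (by omega)

end Pool.Agent.TH506.APD
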