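import Mathlib
import Pool.Agent.TH506.APD.Fin

set_option autoImplicit false

namespace Pool.Agent.TH506.APD.AbelianPlanarCountOld

open Finset Pool.Agent.TH506.APD Pool.Agent.H152R2

/-- Some finite abelian group `G` of order `n ^ 2 + n + 1` contains a planar difference set of order
`n`: a set `D` of `n + 1` elements such that every element `g ≠ 1` has exactly one representation
`g = a * b⁻¹` with `a, b ∈ D`. (These are the Singer parameters for `m = 3`.) -/
def HasAbelianPlanarDifferenceSet (n : ℕ) : Prop :=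
  ∃ (G : Type) (_ : CommGroup G) (_ : Fintype G) (_ : DecidableEq G) (D : Finset G),
    Fintype.card G = n ^ 2 + n + 1 ∧ D.card = n + 1 ∧
    ∀ g : G, g ≠ 1 → ((D ×ˢ D).filter (fun p : G × G => p.1 * p.2⁻¹ = g)).card = 1

lemma isOrd_of {n : ℕ} (h : HasAbelianPlanarDifferenceSet n) : IsOrd n := by
  obtain ⟨G, i1, i2, i3, D, h1, h2, h3⟩ := h
  refine ⟨Additive G, inferInstance, D.map Additive.ofMul.toEmbedding, ⟨?_, ?_, ?_⟩⟩
  · rw [← h1]
    exact (Nat.card_congr Additive.toMul).trans Nat.card_eq_fintype_card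
  · rw [card_map, h2]
  · intro g hg
    have h4 := h3 (Additive.toMul g) (by
      intro he
      apply hg
      exact Additive.toMul.injective he)
    obtain ⟨q, hq⟩ := Finset.card_eq_one.1 h4
    have hmem : ∀ r : G × G, (r.1 ∈ D ∧ r.2 ∈ D) ∧ r.1 * r.2⁻¹ = Additive.toMul g ↔ r = q := by
      intro r
      have h5 : r ∈ ({q} : Finset (G × G)) ↔ r = q := Finset.mem_singleton
      rw [← h5, ← hq, mem_filter, mem_product]
    have hq' := (hmem q).2 rfl
    refine ⟨(Additive.ofMul q.1, Additive.ofMul q.2), ⟨?_, ?_, ?_⟩, ?_⟩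
    · exact Finset.mem_map.2 ⟨q.1, hq'.1.1, rfl⟩
    · exact Finset.mem_map.2 ⟨q.2, hq'.1.2, rfl⟩
    · apply Additive.toMul.injective
      change q.1 / q.2 = Additive.toMul g
      rw [div_eq_mul_inv]
      exact hq'.2
    · rintro ⟨a, b⟩ ⟨ha, hb, hab⟩
      obtain ⟨a', ha', rfl⟩ := Finset.mem_map.1 ha
      obtain ⟨b', hb', rfl⟩ := Finset.mem_map.1 hb
      have h5 : a' * b'⁻¹ = Additive.toMul g := by
        rw [← hab, ← div_eq_mul_inv]
        rfl
      have h6 := (hmem (a', b')).1 ⟨⟨ha', hb'⟩, h5⟩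
      rw [← h6]
      rfl

/-- There is a constant `C` such that for every `X ≥ 2` at most `C * X / log X` integers
`2 ≤ n ≤ X` are orders of planar difference sets in finite abelian groups. (By Singer's theorem all
prime powers are such orders, so `X / log X` is the true order of magnitude.) -/
theorem result : ∃ C : ℝ, 0 < C ∧ ∀ X : ℕ, 2 ≤ X →
    ({n : ℕ | 2 ≤ n ∧ n ≤ X ∧ HasAbelianPlanarDifferenceSet n}.ncard : ℝ) ≤
      C * X / Real.log X := by
  classical
  obtain ⟨C, hC, h⟩ := count_all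
  refine ⟨C, hC, fun X hX => ?_⟩
  refine le_trans ?_ (h X hX)
  have h1 : {n : ℕ | 2 ≤ n ∧ n ≤ X ∧ HasAbelianPlanarDifferenceSet n} ⊆
      (((Icc 2 X).filter IsOrd : Finset ℕ) : Set ℕ) := by
    rintro n ⟨h1, h2, h3⟩
    rw [Finset.mem_coe, mem_filter, mem_Icc]
    exact ⟨⟨h1, h2⟩, isOrd_of h3⟩
  have h2 := Set.ncard_le_ncard h1 (Finset.finite_toSet _)
  rw [Set.ncard_coe_finset] at h2
  exact_mod_cast h2

end Pool.Agent.TH506.APD.AbelianPlanarCountOld
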