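import Pool.Agent.TH506.APD.Alg

/-!
Multipliers of even order: then `n` is a square. Consequence: prime divisors of `n` are squares modulo
the prime divisors of `n ^ 2 + n + 1`.
-/

set_option autoImplicit false

namespace Pool.Agent.TH506.APD

open Finset Pool.Agent.H152R2

variable {G : Type*} [AddCommGroup G] {n : ℕ} {D : Finset G}

/-- the map `x ↦ x - t x` -/
def oneSub (G : Type*) [AddCommGroup G] (t : ℕ) : G →+ G where
  toFun x := x - t • x
  map_zero' := by simp
  map_add' a b := by rw [smul_add]; abel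

lemma ker_oneSub (t : ℕ) : (oneSub G t).ker = fixS G t := by
  ext x
  rw [AddMonoidHom.mem_ker, mem_fixS]
  change x - t • x = 0 ↔ _
  rw [sub_eq_zero]
  exact eq_comm

/-- a nontrivial involution among the multipliers forces `n` to be a square -/
theorem square_of_invol (h : IsPDS n D) (hn : 2 ≤ n) {t : ℕ} (ht : ∀ x ∈ D, t • x ∈ D)
    (htt : ∀ x : G, t • (t • x) = x) (hne : ∃ x : G, t • x ≠ x) : IsSquare n := by
  classical
  have hfin := h.finite
  have := Fintype.ofFinite G
  -- `D \ H` is in bijection with `K \ 0`, `K` the range of `1 - t`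
  have hcard1 : #(D.filter (fun x => ¬ x ∈ fixS G t)) + 1 = Nat.card (oneSub G t).range := by
    have h1 : #(D.filter (fun x => ¬ x ∈ fixS G t)) =
        #(((univ : Finset G).filter (fun x => x ∈ (oneSub G t).range)).erase 0) := by
      apply Finset.card_bij (fun a _ => a - t • a)
      · intro a ha
        rw [mem_filter, mem_fixS] at ha
        rw [mem_erase, mem_filter]
        refine ⟨?_, mem_univ _, ⟨a, rfl⟩⟩
        intro h0
        exact ha.2 (sub_eq_zero.1 h0).symm
      · intro a ha b hb hab
        rw [mem_filter, mem_fixS] at ha hb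
        have hane : a ≠ t • a := fun h => ha.2 h.symm
        exact (h.uniq ha.1 (ht a ha.1) hb.1 (ht b hb.1) hab hane).1
      · intro y hy
        rw [mem_erase, mem_filter] at hy
        obtain ⟨hy0, _, x, hx⟩ := hy
        have hx' : x - t • x = y := hx
        have hty : t • y = -y := by
          rw [← hx', smul_sub, htt]; abel
        obtain ⟨q, ⟨h1, h2, hq⟩, _⟩ := h.diff y hy0
        have hq12 : q.1 ≠ q.2 := by
          intro he; apply hy0; rw [← hq, he, sub_self]
        have h3 : q.1 - q.2 = t • q.2 - t • q.1 := by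
          rw [← smul_sub, ← neg_sub q.1 q.2, smul_neg, hq, hty, neg_neg]
        have h4 := h.uniq h1 h2 (ht _ h2) (ht _ h1) h3 hq12
        refine ⟨q.1, ?_, ?_⟩
        · rw [mem_filter, mem_fixS]
          refine ⟨h1, fun h5 => hq12 ?_⟩
          rw [h4.2, h5]
        · have h5 : t • q.1 = q.2 := h4.2.symm
          rw [h5, hq]
    have hz : (0 : G) ∈ (univ : Finset G).filter (fun x => x ∈ (oneSub G t).range) :=
      mem_filter.2 ⟨mem_univ _, (oneSub G t).range.zero_mem⟩
    rw [h1, card_erase_of_mem hz]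
    have h2 : Nat.card (oneSub G t).range = #((univ : Finset G).filter (fun x => x ∈ (oneSub G t).range)) := by
      rw [Nat.card_eq_fintype_card, Fintype.card_subtype]
    have h3 : 0 < #((univ : Finset G).filter (fun x => x ∈ (oneSub G t).range)) :=
      card_pos.2 ⟨0, hz⟩
    omega
  have hcard2 : Nat.card (oneSub G t).range * Nat.card (fixS G t) = n ^ 2 + n + 1 := by
    have h1 : Nat.card (oneSub G t).range = (fixS G t).index := by
      rw [← ker_oneSub]
      exact (Nat.card_congr (QuotientAddGroup.quotientKerEquivRange (oneSub G t)).toEquiv).symm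
    rw [h1, AddSubgroup.index_mul_card, h.card_group]
  -- the number of fixed elements of `D`
  have hcard3 : #(D.filter (fun x => x ∈ fixS G t)) + #(D.filter (fun x => ¬ x ∈ fixS G t)) = n + 1 := by
    rw [← h.card]; exact Finset.card_filter_add_card_filter_not _
  -- the size of the fixed subgroup
  have hcard4 : Nat.card (fixS G t) = #(D.filter (fun x => x ∈ fixS G t)) *
      (#(D.filter (fun x => x ∈ fixS G t)) - 1) + 1 := by
    set DH : Finset G := D.filter (fun x => x ∈ fixS G t) with hDH
    have h1 : #(DH.offDiag) = #((univ : Finset G).filter (fun x => x ∈ fixS G t ∧ x ≠ 0)) := by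
      apply Finset.card_bij (fun q _ => q.1 - q.2)
      · rintro ⟨a, b⟩ hab
        simp only [mem_offDiag, hDH, mem_filter] at hab
        simp only [mem_filter, mem_univ, true_and]
        exact ⟨(fixS G t).sub_mem hab.1.2 hab.2.1.2, sub_ne_zero.2 hab.2.2⟩
      · rintro ⟨a, b⟩ hab ⟨a', b'⟩ hab' he
        simp only [mem_offDiag, hDH, mem_filter] at hab hab'
        have := h.uniq hab.1.1 hab.2.1.1 hab'.1.1 hab'.2.1.1 he hab.2.2
        rw [this.1, this.2]
      · intro x hx
        simp only [mem_filter, mem_univ, true_and] at hx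
        obtain ⟨q, ⟨h1, h2, hq⟩, _⟩ := h.diff x hx.2
        have hne : q.1 ≠ q.2 := by
          intro he; apply hx.2; rw [← hq, he, sub_self]
        have h3 := fix_closed h ht q.1 h1 q.2 h2 hne (by rw [hq]; exact hx.1)
        refine ⟨q, ?_, hq⟩
        simp only [mem_offDiag, hDH, mem_filter]
        exact ⟨⟨h1, h3.1⟩, ⟨h2, h3.2⟩, hne⟩
    have h2 : Nat.card (fixS G t) = #((univ : Finset G).filter (fun x => x ∈ fixS G t ∧ x ≠ 0)) + 1 := by
      have e1 : Nat.card (fixS G t) = #((univ : Finset G).filter (fun x => x ∈ fixS G t)) := by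
        rw [Nat.card_eq_fintype_card, Fintype.card_subtype]
      have e2 : (univ : Finset G).filter (fun x => x ∈ fixS G t ∧ x ≠ 0) =
          ((univ : Finset G).filter (fun x => x ∈ fixS G t)).erase 0 := by
        ext x
        simp only [mem_filter, mem_univ, true_and, mem_erase]
        tauto
      rw [e2, card_erase_of_mem (by simp [(fixS G t).zero_mem]), e1]
      have : 0 < #((univ : Finset G).filter (fun x => x ∈ fixS G t)) :=
        card_pos.2 ⟨0, by simp [(fixS G t).zero_mem]⟩
      omega
    rw [h2, ← h1, offDiag_card, Nat.mul_sub, mul_one]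
  obtain ⟨x0, hx0⟩ := hne
  -- not everything is fixed
  have hlt : #(D.filter (fun x => x ∈ fixS G t)) < n + 1 := by
    by_contra hcon
    have h0 : #(D.filter (fun x => ¬ x ∈ fixS G t)) = 0 := by omega
    rw [h0] at hcard1
    have h1 : Nat.card (fixS G t) = n ^ 2 + n + 1 := by
      rw [← hcard1, zero_add, one_mul] at hcard2; exact hcard2
    have h2 : fixS G t = ⊤ := AddSubgroup.eq_top_of_card_eq _ (by rw [h1, h.card_group])
    apply hx0
    have : x0 ∈ fixS G t := by rw [h2]; trivial
    exact this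
  generalize #(D.filter (fun x => x ∈ fixS G t)) = k at hcard3 hcard4 hlt
  generalize #(D.filter (fun x => ¬ x ∈ fixS G t)) = l at hcard1 hcard3
  rw [← hcard1, hcard4] at hcard2
  rcases Nat.eq_zero_or_pos k with rfl | hk
  · exfalso
    have hl : l = n + 1 := by omega
    subst hl
    simp only [zero_mul, zero_add, mul_one] at hcard2
    nlinarith
  · obtain ⟨m, rfl⟩ : ∃ m, k = m + 1 := ⟨k - 1, by omega⟩
    simp only [Nat.add_sub_cancel] at hcard2
    have hl : l = n - m := by omega
    have hmn : m < n := by omega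
    obtain ⟨d, rfl⟩ : ∃ d, n = m + d := ⟨n - m, by omega⟩
    have hl' : l = d := by omega
    subst hl'
    have hd : 0 < l := by omega
    -- `(d + 1) ((m + 1) m + 1) = (m + d)^2 + (m + d) + 1`
    refine ⟨m, ?_⟩
    have h1 : l * (m + l) = l * (m * m) := by nlinarith
    exact Nat.eq_of_mul_eq_mul_left hd h1

/-- if `n` is not a square, the prime divisors of `n` are squares modulo those of `n ^ 2 + n + 1` -/
theorem isSquare_of_dvd (h : IsPDS n D) (hn : 2 ≤ n) (hsq : ¬ IsSquare n) {p q : ℕ} (hp : p.Prime)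
    (hpn : p ∣ n) (hq : q.Prime) (hqv : q ∣ n ^ 2 + n + 1) : IsSquare (p : ZMod q) := by
  classical
  obtain ⟨D', h', h0⟩ := h.exists_normalised
  have hfin := h.finite
  have : Fact q.Prime := ⟨hq⟩
  have hpD : ∀ i : ℕ, ∀ x ∈ D', p ^ i • x ∈ D' := by
    intro i x hx
    exact h'.smul_mem h0 (by omega) (pow_ne_zero _ hp.ne_zero)
      (fun r hr hrt => by rw [(Nat.prime_dvd_prime_iff_eq hr hp).1 (hr.dvd_of_dvd_pow hrt)]; exact hpn) hx
  have hcop : Nat.Coprime p (n ^ 2 + n + 1) := Nat.Coprime.coprime_dvd_left hpn (IsPDS.coprime_card' n)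
  have hex : ∃ i : ℕ, 0 < i ∧ ∀ x : G, p ^ i • x = x := by
    refine ⟨(n ^ 2 + n + 1).totient, Nat.totient_pos.2 (by positivity), fun x => ?_⟩
    have h1 : p ^ (n ^ 2 + n + 1).totient ≡ 1 [MOD n ^ 2 + n + 1] := Nat.ModEq.pow_totient hcop
    have h2 : p ^ (n ^ 2 + n + 1).totient ≡ 1 [MOD addOrderOf x] :=
      h1.of_dvd (by rw [← h.card_group]; exact addOrderOf_dvd_natCard _)
    have h3 := (nsmul_eq_nsmul_iff_modEq (x := x)).2 h2
    rw [h3, one_smul]
  set F := Nat.find hex with hF
  obtain ⟨hF0, hF1⟩ := Nat.find_spec hex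
  have hodd : ¬ Even F := by
    rintro ⟨k, hk⟩
    have hk0 : 0 < k := by omega
    have hmin := Nat.find_min hex (m := k) (by omega)
    push Not at hmin
    apply hsq
    apply square_of_invol h' hn (hpD k)
    · intro x
      rw [← mul_smul, ← pow_add, ← hk]
      exact hF1 x
    · exact hmin hk0
  obtain ⟨k, hk⟩ := Nat.not_even_iff_odd.1 hodd
  obtain ⟨g, hg⟩ := exists_prime_addOrderOf_dvd_card' (G := G) q (by rw [h.card_group]; exact hqv)
  have h1 : p ^ F • g = 1 • g := by rw [hF1 g, one_smul]
  have h2 := (nsmul_eq_nsmul_iff_modEq).1 h1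
  rw [hg] at h2
  have h3 := (ZMod.natCast_eq_natCast_iff _ _ _).2 h2
  push_cast at h3
  refine ⟨(p : ZMod q) ^ (k + 1), ?_⟩
  calc (p : ZMod q) = (p : ZMod q) ^ F * p := by rw [h3, one_mul]
    _ = (p : ZMod q) ^ (k + 1) * (p : ZMod q) ^ (k + 1) := by rw [hk]; ring

end Pool.Agent.TH506.APD
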