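import Mathlib

/-!
The rough part of `n ^ 2 + n + 1` is composite: counting.
-/

set_option autoImplicit false

namespace Pool.Agent.TH506.APD

open Finset

/-- the quadratic form -/
def Qn (j a c : ℕ) : ℕ :=
  (((j : ℤ) ^ 2 - j + 1) * (a : ℤ) ^ 2 - (2 * (j : ℤ) - 1) * a * c + (c : ℤ) ^ 2).natAbs

lemma s_cast {j s : ℕ} (hs : s = j * (j - 1) + 1) : (s : ℤ) = (j : ℤ) ^ 2 - j + 1 := by
  rcases Nat.eq_zero_or_pos j with rfl | hj
  · simp [hs]
  · rw [hs]; push_cast [Nat.cast_sub (show 1 ≤ j by omega)]; ring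

lemma comp_case {X Y n j s f c a b : ℕ} (hY : 0 < Y) (hX : X ≤ 2 * Y ^ 20) (hn : n ≤ X)
    (hf : Y ^ 9 < f) (hj : n + 1 = j + f * c) (hs : s = j * (j - 1) + 1) (ha : 0 < a)
    (hab : a ≤ b) (hv : n ^ 2 + n + 1 = s * ((1 + f * a) * (1 + f * b))) :
    c ≤ 4 * Y ^ 11 ∧ ((a ≤ Y ^ 6 ∧ (1 + f * a) ∣ Qn j a c ∧ Qn j a c ≠ 0) ∨
      (∃ k : ℕ, 0 < k ∧ k ≤ 36 * Y ^ 7 ∧ c ^ 2 = s * a * b + k ∧
        (f : ℤ) * k = s * (a + b) - c * (2 * j - 1))) := by
  have hYp : ∀ i : ℕ, 1 ≤ Y ^ i := fun i => Nat.one_le_pow _ _ hY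
  have hc1 : c < 3 * Y ^ 11 := by
    have h1 : Y ^ 9 * c ≤ f * c := Nat.mul_le_mul_right _ hf.le
    have h2 : f * c ≤ 2 * Y ^ 20 + 1 := by omega
    have h3 : Y ^ 9 * (3 * Y ^ 11) = 3 * Y ^ 20 := by ring
    by_contra hcon
    push Not at hcon
    have h4 : Y ^ 9 * (3 * Y ^ 11) ≤ Y ^ 9 * c := Nat.mul_le_mul_left _ hcon
    have h5 := hYp 20
    rcases Nat.eq_or_lt_of_le h5 with h6 | h6
    · -- Y = 1
      have hY1 : Y = 1 := by
        by_contra hne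
        have : 2 ≤ Y := by omega
        have h7 : 2 ^ 20 ≤ Y ^ 20 := Nat.pow_le_pow_left this 20
        omega
      subst hY1
      simp only [one_pow] at *
      nlinarith
    · omega
  have hs' := s_cast hs
  have hfa : 0 < f := by have := hYp 9; omega
  have hsp : 0 < s := by omega
  have hnz : (n : ℤ) = (j : ℤ) - 1 + f * c := by
    have : ((n + 1 : ℕ) : ℤ) = ((j + f * c : ℕ) : ℤ) := by rw [hj]
    push_cast at this
    linarith
  have hvz : (n : ℤ) ^ 2 + n + 1 = s * ((1 + f * a) * (1 + f * b)) := by exact_mod_cast hv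
  have hfz : (0 : ℤ) < f := by exact_mod_cast hfa
  have haz : (0 : ℤ) < a := by exact_mod_cast ha
  have habz : (a : ℤ) ≤ b := by exact_mod_cast hab
  have hsz : (0 : ℤ) < s := by exact_mod_cast hsp
  have hcz : (0 : ℤ) ≤ c := by positivity
  have hjz : (0 : ℤ) ≤ j := by positivity
  refine ⟨by omega, ?_⟩
  rcases le_or_gt a (Y ^ 6) with haY | haY
  · left
    refine ⟨haY, ?_, ?_⟩
    · unfold Qn
      rw [← Int.natCast_dvd]
      have h1 : ((1 + f * a : ℕ) : ℤ) ∣ (a : ℤ) ^ 2 * ((n : ℤ) ^ 2 + n + 1) := by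
        rw [hvz]
        push_cast
        exact ⟨(a : ℤ) ^ 2 * (s * (1 + f * b)), by ring⟩
      have h2 : ((j : ℤ) ^ 2 - j + 1) * (a : ℤ) ^ 2 - (2 * (j : ℤ) - 1) * a * c + (c : ℤ) ^ 2 =
          (a : ℤ) ^ 2 * ((n : ℤ) ^ 2 + n + 1) - ((1 + f * a : ℕ) : ℤ) *
            (a * c * (2 * j - 1) + c ^ 2 * (f * a - 1)) := by
        rw [hnz]; push_cast; ring
      rw [h2]
      exact dvd_sub h1 (dvd_mul_right _ _)
    · unfold Qn
      rw [Int.natAbs_ne_zero]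
      intro h0
      have h1 : (2 * (c : ℤ) - (2 * j - 1) * a) ^ 2 + 3 * (a : ℤ) ^ 2 = 0 := by
        have : (2 * (c : ℤ) - (2 * j - 1) * a) ^ 2 + 3 * (a : ℤ) ^ 2 =
          4 * (((j : ℤ) ^ 2 - j + 1) * (a : ℤ) ^ 2 - (2 * (j : ℤ) - 1) * a * c + (c : ℤ) ^ 2) := by ring
        rw [this, h0, mul_zero]
      nlinarith [sq_nonneg (2 * (c : ℤ) - (2 * j - 1) * a)]
  · right
    -- the key identity
    have hid : (f : ℤ) * (c ^ 2 - s * a * b) = s * (a + b) - c * (2 * j - 1) := by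
      have h1 : (f : ℤ) * ((f : ℤ) * (c ^ 2 - s * a * b)) = f * (s * (a + b) - c * (2 * j - 1)) := by
        rw [hnz] at hvz
        have h2 : (((j : ℤ) - 1 + f * c) ^ 2 + ((j : ℤ) - 1 + f * c) + 1) =
          s + f * c * (2 * j - 1) + f ^ 2 * c ^ 2 := by rw [hs']; ring
        rw [h2] at hvz
        linear_combination hvz
      exact mul_left_cancel₀ hfz.ne' h1
    have hkpos : (0 : ℤ) < c ^ 2 - s * a * b := by
      by_contra hcon
      push Not at hcon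
      have h1 : (s : ℤ) * (a + b) ≤ c * (2 * j - 1) := by
        have : (f : ℤ) * (c ^ 2 - s * a * b) ≤ 0 := mul_nonpos_of_nonneg_of_nonpos hfz.le hcon
        linarith
      have h2 : (0 : ℤ) < s * (a + b) := by positivity
      have h3 : ((s : ℤ) * (a + b)) ^ 2 ≤ (c * (2 * j - 1)) ^ 2 := pow_le_pow_left₀ h2.le h1 2
      have h4 : ((c : ℤ) * (2 * j - 1)) ^ 2 ≤ (s * a * b) * (4 * s - 3) := by
        have h5 : (4 : ℤ) * s - 3 = (2 * j - 1) ^ 2 := by rw [hs']; ring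
        rw [h5, mul_pow]
        exact mul_le_mul_of_nonneg_right (by linarith) (by positivity)
      have h5 : (s : ℤ) * (s * (a + b) ^ 2) ≤ s * (a * b * (4 * s - 3)) := by
        have e1 : (s : ℤ) * (s * (a + b) ^ 2) = ((s : ℤ) * (a + b)) ^ 2 := by ring
        have e2 : (s : ℤ) * (a * b * (4 * s - 3)) = ((s : ℤ) * a * b) * (4 * s - 3) := by ring
        rw [e1, e2]
        exact h3.trans h4
      have h6 : (s : ℤ) * (a + b) ^ 2 ≤ a * b * (4 * s - 3) := le_of_mul_le_mul_left h5 hsz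
      have h7 : (0 : ℤ) < a * b := by
        have : (0 : ℤ) < b := by linarith
        positivity
      have h8 : (0 : ℤ) ≤ s * (a - b) ^ 2 := by positivity
      nlinarith
    obtain ⟨k, hk⟩ : ∃ k : ℕ, (k : ℤ) = c ^ 2 - s * a * b :=
      ⟨(c ^ 2 - s * a * b : ℤ).toNat, Int.toNat_of_nonneg hkpos.le⟩
    have hk0 : 0 < k := by
      have : (0 : ℤ) < k := by rw [hk]; exact hkpos
      exact_mod_cast this
    have hck : c ^ 2 = s * a * b + k := by
      have : ((c ^ 2 : ℕ) : ℤ) = ((s * a * b + k : ℕ) : ℤ) := by push_cast; rw [hk]; ring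
      exact_mod_cast this
    refine ⟨k, hk0, ?_, hck, by rw [hk]; exact hid⟩
    -- the bound for `k`
    have hsb : s * b < 9 * Y ^ 16 := by
      have h1 : s * b * Y ^ 6 ≤ s * b * a := Nat.mul_le_mul_left _ haY.le
      have h2 : c ^ 2 ≤ (3 * Y ^ 11) ^ 2 := Nat.pow_le_pow_left hc1.le 2
      have h3 : (3 * Y ^ 11) ^ 2 = 9 * Y ^ 16 * Y ^ 6 := by ring
      have h4 : s * b * a < 9 * Y ^ 16 * Y ^ 6 := by
        have : s * b * a = s * a * b := by ring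
        omega
      have h5 : s * b * Y ^ 6 < 9 * Y ^ 16 * Y ^ 6 := lt_of_le_of_lt h1 h4
      exact lt_of_mul_lt_mul_right h5 (Nat.zero_le _)
    have hfk : (f : ℤ) * k ≤ 21 * (Y : ℤ) ^ 16 := by
      have h1 : (f : ℤ) * k = s * (a + b) - c * (2 * j - 1) := by rw [hk]; exact hid
      have h2 : (s : ℤ) * (a + b) ≤ 2 * (s * b) := by
        have := mul_le_mul_of_nonneg_left habz hsz.le
        linarith
      have h3 : -((c : ℤ) * (2 * j - 1)) ≤ c := by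
        have h30 : (0 : ℤ) ≤ c * j := mul_nonneg hcz hjz
        have h31 : -((c : ℤ) * (2 * j - 1)) = c - 2 * (c * j) := by ring
        linarith
      have h4 : (s : ℤ) * b < 9 * (Y : ℤ) ^ 16 := by exact_mod_cast hsb
      have h5 : (c : ℤ) < 3 * (Y : ℤ) ^ 11 := by exact_mod_cast hc1
      have h6 : (Y : ℤ) ^ 11 ≤ (Y : ℤ) ^ 16 := pow_le_pow_right₀ (by exact_mod_cast hY) (by norm_num)
      linarith
    have h1 : Y ^ 9 * k ≤ f * k := Nat.mul_le_mul_right _ hf.le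
    have h2 : f * k ≤ 21 * Y ^ 16 := by exact_mod_cast hfk
    have h3 : Y ^ 9 * k ≤ Y ^ 9 * (21 * Y ^ 7) := by
      calc Y ^ 9 * k ≤ 21 * Y ^ 16 := h1.trans h2
        _ = _ := by ring
    have h4 := Nat.le_of_mul_le_mul_left h3 (by have := hYp 9; omega)
    omega

/-- the order in terms of the other parameters -/
def fK (j c k a : ℕ) : ℕ :=
  ((((j * (j - 1) + 1 : ℕ) : ℤ) * ((a : ℤ) + (((c ^ 2 - k) / ((j * (j - 1) + 1) * a) : ℕ) : ℤ)) -
    (c : ℤ) * (2 * (j : ℤ) - 1)) / (k : ℤ)).toNat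

/-- A8: composite rough part, large order -/
lemma A8_count {X Y B J : ℕ} (hY : 2 ≤ Y) (hX1 : Y ^ 20 ≤ X) (hX : X ≤ 2 * Y ^ 20) (hJ : J ≤ Y)
    (hτ : ∀ N : ℕ, 1 ≤ N → N ≤ X ^ 5 → N.divisors.card ≤ B) (A : Finset ℕ)
    (hA : ∀ n ∈ A, n ≤ X ∧ ∃ j s f c a b : ℕ, j < J ∧ s ≤ Y ∧ Y ^ 9 < f ∧ 0 < c ∧
      n + 1 = j + f * c ∧ s = j * (j - 1) + 1 ∧ 0 < a ∧ a ≤ b ∧
      n ^ 2 + n + 1 = s * ((1 + f * a) * (1 + f * b))) :
    #A ≤ 148 * J * B * Y ^ 18 := by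
  classical
  have hY0 : 0 < Y := by omega
  have hYp : ∀ i : ℕ, 1 ≤ Y ^ i := fun i => Nat.one_le_pow _ _ hY0
  have hbig : 25 * Y ^ 22 ≤ X ^ 5 := by
    calc 25 * Y ^ 22 ≤ 2 ^ 5 * Y ^ 22 := by omega
      _ ≤ Y ^ 5 * Y ^ 22 := Nat.mul_le_mul_right _ (Nat.pow_le_pow_left hY 5)
      _ = Y ^ 27 := by ring
      _ ≤ Y ^ 100 := Nat.pow_le_pow_right hY0 (by norm_num)
      _ = (Y ^ 20) ^ 5 := by ring
      _ ≤ X ^ 5 := Nat.pow_le_pow_left hX1 5
  -- the two covering sets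
  set S1 : Finset ℕ := (range J).biUnion (fun j => (Icc 1 (Y ^ 6)).biUnion (fun a =>
    (Icc 1 (4 * Y ^ 11)).biUnion (fun c => (if j * (j - 1) + 1 ≤ Y then (Qn j a c).divisors else ∅).image
      (fun r => j + ((r - 1) / a) * c)))) with hS1
  set S2 : Finset ℕ := (range J).biUnion (fun j => (Icc 1 (4 * Y ^ 11)).biUnion (fun c =>
    (Icc 1 (36 * Y ^ 7)).biUnion (fun k => (c ^ 2 - k).divisors.image
      (fun a => j + fK j c k a * c)))) with hS2
  have hsub : A.image (fun n => n + 1) ⊆ S1 ∪ S2 := by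
    intro y hy
    obtain ⟨n, hn, rfl⟩ := mem_image.1 hy
    obtain ⟨hnX, j, s, f, c, a, b, hj, hsY, hf, hc, hnj, hs, ha, hab, hv⟩ := hA n hn
    obtain ⟨h1, h2⟩ := comp_case hY0 hX hnX hf hnj hs ha hab hv
    rw [mem_union]
    rcases h2 with ⟨h3, h4, h5⟩ | ⟨k, hk0, hk, hck, hfk⟩
    · left
      rw [hS1]
      simp only [mem_biUnion, mem_range, mem_Icc, mem_image]
      refine ⟨j, hj, a, ⟨ha, h3⟩, c, ⟨hc, h1⟩, 1 + f * a, ?_, ?_⟩
      · rw [if_pos (by rw [← hs]; exact hsY)]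
        exact Nat.mem_divisors.2 ⟨h4, h5⟩
      · rw [Nat.add_sub_cancel_left, Nat.mul_div_cancel _ ha, hnj]
    · right
      rw [hS2]
      simp only [mem_biUnion, mem_range, mem_Icc, mem_image]
      have hsp : 0 < s := by omega
      have hcks : c ^ 2 - k = s * a * b := by omega
      refine ⟨j, hj, c, ⟨hc, h1⟩, k, ⟨hk0, hk⟩, a, ?_, ?_⟩
      · rw [Nat.mem_divisors, hcks]
        have hb : 0 < b := by omega
        exact ⟨⟨s * b, by ring⟩, by positivity⟩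
      · unfold fK
        rw [← hs, hcks, Nat.mul_div_cancel_left _ (by positivity), ← hfk,
          Int.mul_ediv_cancel _ (by exact_mod_cast hk0.ne'), Int.toNat_natCast, hnj]
  have hc1 : #S1 ≤ J * (Y ^ 6 * (4 * Y ^ 11 * B)) := by
    rw [hS1]
    refine card_biUnion_le.trans ((sum_le_card_nsmul _ _ (Y ^ 6 * (4 * Y ^ 11 * B)) ?_).trans (by simp))
    intro j hj
    refine card_biUnion_le.trans ((sum_le_card_nsmul _ _ (4 * Y ^ 11 * B) ?_).trans (by simp))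
    intro a ha
    refine card_biUnion_le.trans ((sum_le_card_nsmul _ _ B ?_).trans (by simp))
    intro c hc
    refine card_image_le.trans ?_
    rw [mem_Icc] at ha hc
    rw [mem_range] at hj
    split_ifs with hsY
    · by_cases hQ : Qn j a c = 0
      · rw [hQ]; simp
      · apply hτ _ (by omega)
        refine le_trans ?_ hbig
        have hs' := s_cast (j := j) rfl
        have hjY : (j : ℤ) ≤ Y := by exact_mod_cast (by omega : j ≤ Y)
        have hsYz : ((j * (j - 1) + 1 : ℕ) : ℤ) ≤ Y := by exact_mod_cast hsY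
        have ha6 : (a : ℤ) ≤ (Y : ℤ) ^ 6 := by exact_mod_cast ha.2
        have hc11 : (c : ℤ) ≤ 4 * (Y : ℤ) ^ 11 := by exact_mod_cast hc.2
        have hYz : (1 : ℤ) ≤ Y := by exact_mod_cast hY0
        have h1 : |((j : ℤ) ^ 2 - j + 1) * (a : ℤ) ^ 2 - (2 * (j : ℤ) - 1) * a * c + (c : ℤ) ^ 2| ≤
            25 * (Y : ℤ) ^ 22 := by
          rw [← hs']
          have e1 : (((j * (j - 1) + 1 : ℕ) : ℤ)) * (a : ℤ) ^ 2 ≤ Y * ((Y : ℤ) ^ 6) ^ 2 := by gcongr
          have e2 : |(2 * (j : ℤ) - 1)| ≤ 2 * Y := by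
            rw [abs_le]; constructor <;> linarith
          have e3 : |(2 * (j : ℤ) - 1) * a * c| ≤ 2 * Y * (Y : ℤ) ^ 6 * (4 * (Y : ℤ) ^ 11) := by
            rw [abs_mul, abs_mul, abs_of_nonneg (by positivity : (0 : ℤ) ≤ a),
              abs_of_nonneg (by positivity : (0 : ℤ) ≤ c)]
            gcongr
          have e4 : (c : ℤ) ^ 2 ≤ (4 * (Y : ℤ) ^ 11) ^ 2 := by gcongr
          have e5 : Y * ((Y : ℤ) ^ 6) ^ 2 ≤ (Y : ℤ) ^ 22 := by
            calc Y * ((Y : ℤ) ^ 6) ^ 2 = (Y : ℤ) ^ 13 := by ring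
              _ ≤ _ := pow_le_pow_right₀ hYz (by norm_num)
          have e6 : 2 * Y * (Y : ℤ) ^ 6 * (4 * (Y : ℤ) ^ 11) ≤ 8 * (Y : ℤ) ^ 22 := by
            calc 2 * Y * (Y : ℤ) ^ 6 * (4 * (Y : ℤ) ^ 11) = 8 * (Y : ℤ) ^ 18 := by ring
              _ ≤ _ := by
                have : (Y : ℤ) ^ 18 ≤ (Y : ℤ) ^ 22 := pow_le_pow_right₀ hYz (by norm_num)
                linarith
          have e7 : (4 * (Y : ℤ) ^ 11) ^ 2 = 16 * (Y : ℤ) ^ 22 := by ring
          have e8 := abs_le.1 e3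
          have e9 : (0 : ℤ) ≤ (((j * (j - 1) + 1 : ℕ) : ℤ)) * (a : ℤ) ^ 2 := by positivity
          have e10 : (0 : ℤ) ≤ (c : ℤ) ^ 2 := by positivity
          rw [abs_le]
          constructor <;> linarith
        have h2 : ((Qn j a c : ℕ) : ℤ) ≤ 25 * (Y : ℤ) ^ 22 := by
          unfold Qn
          rw [Int.natCast_natAbs]
          exact h1
        exact_mod_cast h2
    · simp
  have hc2 : #S2 ≤ J * (4 * Y ^ 11 * (36 * Y ^ 7 * B)) := by
    rw [hS2]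
    refine card_biUnion_le.trans ((sum_le_card_nsmul _ _ (4 * Y ^ 11 * (36 * Y ^ 7 * B)) ?_).trans (by simp))
    intro j _
    refine card_biUnion_le.trans ((sum_le_card_nsmul _ _ (36 * Y ^ 7 * B) ?_).trans (by simp))
    intro c hc
    refine card_biUnion_le.trans ((sum_le_card_nsmul _ _ B ?_).trans (by simp))
    intro k _
    refine card_image_le.trans ?_
    rw [mem_Icc] at hc
    by_cases hQ : c ^ 2 - k = 0
    · rw [hQ]; simp
    · apply hτ _ (by omega)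
      calc c ^ 2 - k ≤ c ^ 2 := Nat.sub_le _ _
        _ ≤ (4 * Y ^ 11) ^ 2 := Nat.pow_le_pow_left hc.2 2
        _ = 16 * Y ^ 22 := by ring
        _ ≤ 25 * Y ^ 22 := by omega
        _ ≤ _ := hbig
  have h1 : #A ≤ #S1 + #S2 := by
    calc #A = #(A.image (fun n => n + 1)) := by
          rw [card_image_of_injective _ (add_left_injective 1)]
      _ ≤ #(S1 ∪ S2) := card_le_card hsub
      _ ≤ _ := card_union_le _ _
  calc #A ≤ J * (Y ^ 6 * (4 * Y ^ 11 * B)) + J * (4 * Y ^ 11 * (36 * Y ^ 7 * B)) := by omega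
    _ = 4 * J * B * Y ^ 17 + 144 * J * B * Y ^ 18 := by ring
    _ ≤ 4 * J * B * Y ^ 18 + 144 * J * B * Y ^ 18 := by
        have : Y ^ 17 ≤ Y ^ 18 := Nat.pow_le_pow_right hY0 (by norm_num)
        gcongr
    _ = _ := by ring

end Pool.Agent.TH506.APD
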