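import Pool.Agent.TH506.APD.Ord

set_option autoImplicit false

namespace Pool.Agent.TH506.APD

open Finset

/-- A7: medium order -/
lemma A7_count {X Y L z J V : ℕ} {H : ℝ} (hY : 0 < Y) (hYX : Y ^ 20 ≤ X) (hL : Y < 2 ^ L)
    (hV : X ^ 2 + X + 1 ≤ V) (hH : ∑ k ∈ Icc 1 V, (1 : ℝ) / k ≤ H) (A : Finset ℕ)
    (hA : ∀ n ∈ A, n ≤ X ∧ ∃ p f r j : ℕ, p.Prime ∧ p ≤ Y ∧ Y ^ 2 < f ∧ f ≤ Y ^ 9 ∧
      r ∈ ordSet p f z ∧ r ∣ n ^ 2 + n + 1 ∧ j < J ∧ n + 1 ≡ j [MOD f]) :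
    (#A : ℝ) ≤ 2 * J * (H + L) * X / Y := by
  classical
  have hY0 : (0 : ℝ) < Y := by exact_mod_cast hY
  have hYX' : (Y : ℝ) ^ 20 ≤ X := by exact_mod_cast hYX
  have hH0 : 0 ≤ H := le_trans (Finset.sum_nonneg fun i _ => by positivity) hH
  have h1 : A ⊆ (Icc 2 Y).biUnion (fun p => (Ioc (Y ^ 2) (Y ^ 9)).biUnion (fun f =>
      ((ordSet p f z).filter (fun r => r ≤ V)).biUnion (fun r => (range J).biUnion (fun j =>
        A.filter (fun n => n + 1 ≡ j [MOD f] ∧ r ∣ n ^ 2 + n + 1))))) := by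
    intro n hn
    obtain ⟨h0, p, f, r, j, h1, h2, h3, h4, h5, h6, h7, h8⟩ := hA n hn
    simp only [mem_biUnion, mem_Icc, mem_Ioc, mem_filter, mem_range]
    refine ⟨p, ⟨h1.two_le, h2⟩, f, ⟨h3, h4⟩, r, ⟨h5, ?_⟩, j, h7, hn, h8, h6⟩
    calc r ≤ n ^ 2 + n + 1 := Nat.le_of_dvd (by positivity) h6
      _ ≤ X ^ 2 + X + 1 := by gcongr
      _ ≤ V := hV
  calc (#A : ℝ) ≤ ((∑ p ∈ Icc 2 Y, ∑ f ∈ Ioc (Y ^ 2) (Y ^ 9), ∑ r ∈ (ordSet p f z).filter (fun r => r ≤ V),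
        ∑ j ∈ range J, #(A.filter (fun n => n + 1 ≡ j [MOD f] ∧ r ∣ n ^ 2 + n + 1)) : ℕ) : ℝ) := by
        norm_cast
        refine (card_le_card h1).trans (card_biUnion_le.trans (sum_le_sum fun p _ => ?_))
        refine card_biUnion_le.trans (sum_le_sum fun f _ => ?_)
        exact card_biUnion_le.trans (sum_le_sum fun r _ => card_biUnion_le)
    _ = ∑ p ∈ Icc 2 Y, ∑ f ∈ Ioc (Y ^ 2) (Y ^ 9), ∑ r ∈ (ordSet p f z).filter (fun r => r ≤ V),
        ∑ j ∈ range J, (#(A.filter (fun n => n + 1 ≡ j [MOD f] ∧ r ∣ n ^ 2 + n + 1)) : ℝ) := by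
        push_cast; rfl
    _ ≤ ∑ p ∈ Icc 2 Y, ∑ f ∈ Ioc (Y ^ 2) (Y ^ 9), ∑ r ∈ (ordSet p f z).filter (fun r => r ≤ V),
        ∑ j ∈ range J, (2 * ((X : ℝ) / f * (1 / r) + 1)) := by
        apply Finset.sum_le_sum; intro p _
        apply Finset.sum_le_sum; intro f hf
        rw [mem_Ioc] at hf
        apply Finset.sum_le_sum; intro r hr
        apply Finset.sum_le_sum; intro j _
        rw [mem_filter] at hr
        have hf0 : 0 < f := by omega
        have hrp := (ordSet_prop hr.1).1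
        have h2 := count_one (X := X) hrp (ordSet_coprime' hf0 hr.1)
          (A.filter (fun n => n + 1 ≡ j [MOD f] ∧ r ∣ n ^ 2 + n + 1))
          (fun x hx => (hA x (mem_filter.1 hx).1).1)
          (fun x hx y hy => Nat.ModEq.add_right_cancel' 1
            ((mem_filter.1 hx).2.1.trans (mem_filter.1 hy).2.1.symm))
          (fun x hx => (mem_filter.1 hx).2.2)
        calc ((#(A.filter (fun n => n + 1 ≡ j [MOD f] ∧ r ∣ n ^ 2 + n + 1)) : ℕ) : ℝ)
            ≤ ((2 * (X / (f * r) + 1) : ℕ) : ℝ) := by exact_mod_cast h2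
          _ = 2 * (((X / (f * r) : ℕ) : ℝ) + 1) := by push_cast; ring
          _ ≤ 2 * ((X : ℝ) / ((f * r : ℕ) : ℝ) + 1) := by gcongr; exact Nat.cast_div_le
          _ = _ := by push_cast; rw [div_mul_div_comm, mul_one]
    _ ≤ ∑ p ∈ Icc 2 Y, ∑ f ∈ Ioc (Y ^ 2) (Y ^ 9), (2 * J * (X * H * (1 / (f : ℝ) ^ 2) + L * (Y : ℝ) ^ 9)) := by
        apply Finset.sum_le_sum; intro p hp
        apply Finset.sum_le_sum; intro f hf
        rw [mem_Ioc] at hf
        rw [mem_Icc] at hp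
        have hf0 : 0 < f := by omega
        have hf0' : (0 : ℝ) < f := by exact_mod_cast hf0
        have e1 : ∑ r ∈ (ordSet p f z).filter (fun r => r ≤ V),
            ∑ j ∈ range J, (2 * ((X : ℝ) / f * (1 / r) + 1)) =
            2 * J * ((X : ℝ) / f * ∑ r ∈ (ordSet p f z).filter (fun r => r ≤ V), (1 : ℝ) / r +
              (#((ordSet p f z).filter (fun r => r ≤ V)) : ℝ)) := by
          simp only [sum_const, card_range, nsmul_eq_mul]
          rw [← Finset.mul_sum, ← Finset.mul_sum, Finset.sum_add_distrib, ← Finset.mul_sum,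
            sum_const, nsmul_eq_mul]
          ring
        rw [e1]
        have h2 := sum_inv_ordSet (p := p) (z := z) hf0 hH
        have h3 : (#((ordSet p f z).filter (fun r => r ≤ V)) : ℝ) ≤ L * (Y : ℝ) ^ 9 := by
          have h4 := (card_filter_le (ordSet p f z) (fun r => r ≤ V)).trans
            (card_ordSet (z := z) hp.1 (lt_of_le_of_lt hp.2 hL) hf0)
          have h5 : L * f ≤ L * Y ^ 9 := Nat.mul_le_mul_left _ hf.2
          exact_mod_cast h4.trans h5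
        have h4 : (X : ℝ) / f * ∑ r ∈ (ordSet p f z).filter (fun r => r ≤ V), (1 : ℝ) / r ≤
            X * H * (1 / (f : ℝ) ^ 2) := by
          calc _ ≤ (X : ℝ) / f * (H / f) := by gcongr
            _ = _ := by field_simp
        gcongr
    _ ≤ ∑ p ∈ Icc 2 Y, (2 * J * (X * H * (1 / (Y : ℝ) ^ 2) + L * (Y : ℝ) ^ 18)) := by
        apply Finset.sum_le_sum; intro p hp
        rw [← Finset.mul_sum, Finset.sum_add_distrib, ← Finset.mul_sum, sum_const, nsmul_eq_mul]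
        have h2 := sum_inv_sq_tail (Y ^ 2) (Y ^ 9) (pow_pos hY 2)
        have h3 : (#(Ioc (Y ^ 2) (Y ^ 9)) : ℝ) ≤ (Y : ℝ) ^ 9 := by
          rw [Nat.card_Ioc]
          have : Y ^ 9 - Y ^ 2 ≤ Y ^ 9 := Nat.sub_le _ _
          exact_mod_cast this
        push_cast at h2
        calc _ ≤ 2 * (J : ℝ) * (X * H * (1 / (Y : ℝ) ^ 2) + (Y : ℝ) ^ 9 * (L * (Y : ℝ) ^ 9)) := by gcongr
          _ = _ := by ring
    _ ≤ Y * (2 * J * (X * H * (1 / (Y : ℝ) ^ 2) + L * (Y : ℝ) ^ 18)) := by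
        rw [sum_const, nsmul_eq_mul, Nat.card_Icc]
        gcongr
        norm_cast; omega
    _ = 2 * J * (H * X + L * (Y : ℝ) ^ 20) / Y := by field_simp
    _ ≤ 2 * J * (H * X + L * X) / Y := by gcongr
    _ = _ := by ring

/-- A5: two primes modulo which `p` has the same small order -/
lemma A5_count {X Y L w V : ℕ} {H : ℝ} (hw : 0 < w) (hY : 0 < Y) (hYX : Y ^ 20 ≤ X) (hL : Y < 2 ^ L)
    (hV : Y ^ 6 ≤ V) (hH : ∑ k ∈ Icc 1 V, (1 : ℝ) / k ≤ H) (A : Finset ℕ)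
    (hA : ∀ n ∈ A, n ≤ X ∧ ∃ p f r r' : ℕ, p.Prime ∧ p ≤ Y ∧ p ∣ n ∧ 0 < f ∧ f ≤ Y ^ 2 ∧
      r ∈ ordSet p f (w ^ 2) ∧ r' ∈ ordSet p f (w ^ 2) ∧ r ≠ r' ∧ r ≤ Y ^ 6 ∧ r' ≤ Y ^ 6 ∧
      r ∣ n ^ 2 + n + 1 ∧ r' ∣ n ^ 2 + n + 1) :
    (#A : ℝ) ≤ 8 * X * H * (L ^ 2 + H ^ 2) / w := by
  classical
  have hY0 : (0 : ℝ) < Y := by exact_mod_cast hY
  have hY1 : (1 : ℝ) ≤ Y := by exact_mod_cast hY
  have hw0 : (0 : ℝ) < w := by exact_mod_cast hw
  have hYX' : (Y : ℝ) ^ 20 ≤ X := by exact_mod_cast hYX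
  have hH0 : 0 ≤ H := le_trans (Finset.sum_nonneg fun i _ => by positivity) hH
  set T : ℕ → ℕ → Finset ℕ := fun p f => (ordSet p f (w ^ 2)).filter (fun r => r ≤ Y ^ 6) with hT
  have h1 : A ⊆ (Icc 2 Y).biUnion (fun p => (Icc 1 (Y ^ 2)).biUnion (fun f =>
      (T p f).biUnion (fun r => (T p f).biUnion (fun r' =>
        A.filter (fun n => p.Prime ∧ p ∣ n ∧ r ≠ r' ∧ r ∣ n ^ 2 + n + 1 ∧ r' ∣ n ^ 2 + n + 1))))) := by
    intro n hn
    obtain ⟨h0, p, f, r, r', h1, h2, h3, h4, h5, h6, h7, h8, h9, h10, h11, h12⟩ := hA n hn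
    simp only [mem_biUnion, mem_Icc, mem_filter, hT]
    exact ⟨p, ⟨h1.two_le, h2⟩, f, ⟨h4, h5⟩, r, ⟨h6, h9⟩, r', ⟨h7, h10⟩, hn, h1, h3, h8, h11, h12⟩
  have hsum : ∀ p ∈ Icc 2 Y, ∑ f ∈ Icc 1 (Y ^ 2), (∑ r ∈ T p f, (1 : ℝ) / r) ^ 2 ≤ (L ^ 2 + H ^ 2) / w := by
    intro p hp
    rw [mem_Icc] at hp
    have hTnn : ∀ f, 0 ≤ ∑ r ∈ T p f, (1 : ℝ) / r := fun f => Finset.sum_nonneg fun i _ => by positivity
    calc ∑ f ∈ Icc 1 (Y ^ 2), (∑ r ∈ T p f, (1 : ℝ) / r) ^ 2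
        ≤ ∑ f ∈ Icc 1 w ∪ Ioc w (Y ^ 2), (∑ r ∈ T p f, (1 : ℝ) / r) ^ 2 := by
          apply Finset.sum_le_sum_of_subset_of_nonneg
          · intro f hf
            rw [mem_Icc] at hf
            rw [mem_union, mem_Icc, mem_Ioc]
            omega
          · intro f _ _; positivity
      _ ≤ ∑ f ∈ Icc 1 w, (∑ r ∈ T p f, (1 : ℝ) / r) ^ 2 + ∑ f ∈ Ioc w (Y ^ 2), (∑ r ∈ T p f, (1 : ℝ) / r) ^ 2 := by
          rw [← Finset.sum_union_inter]
          have : 0 ≤ ∑ f ∈ Icc 1 w ∩ Ioc w (Y ^ 2), (∑ r ∈ T p f, (1 : ℝ) / r) ^ 2 :=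
            Finset.sum_nonneg fun f _ => by positivity
          linarith
      _ ≤ ∑ f ∈ Icc 1 w, ((L : ℝ) / w) ^ 2 + ∑ f ∈ Ioc w (Y ^ 2), H ^ 2 * (1 / (f : ℝ) ^ 2) := by
          apply add_le_add
          · apply Finset.sum_le_sum
            intro f hf
            rw [mem_Icc] at hf
            apply pow_le_pow_left₀ (hTnn f)
            have h2 := sum_inv_ordSet' (z := w ^ 2) (pow_pos hw 2) hp.1 (lt_of_le_of_lt hp.2 hL) (by omega : 0 < f)
            have h3 : ∑ r ∈ T p f, (1 : ℝ) / r ≤ ∑ r ∈ ordSet p f (w ^ 2), (1 : ℝ) / r :=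
              Finset.sum_le_sum_of_subset_of_nonneg (filter_subset _ _) (fun i _ _ => by positivity)
            have h4 : (f : ℝ) ≤ w := by exact_mod_cast hf.2
            calc _ ≤ (L : ℝ) * f / ((w ^ 2 : ℕ) : ℝ) := h3.trans h2
              _ ≤ (L : ℝ) * w / ((w ^ 2 : ℕ) : ℝ) := by gcongr
              _ = _ := by push_cast; field_simp
          · apply Finset.sum_le_sum
            intro f hf
            rw [mem_Ioc] at hf
            have hf0 : 0 < f := by omega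
            have h2 := sum_inv_ordSet (p := p) (z := w ^ 2) hf0 hH
            have h3 : ∑ r ∈ T p f, (1 : ℝ) / r ≤ ∑ r ∈ (ordSet p f (w ^ 2)).filter (fun r => r ≤ V), (1 : ℝ) / r := by
              apply Finset.sum_le_sum_of_subset_of_nonneg
              · intro r hr
                simp only [hT, mem_filter] at hr ⊢
                exact ⟨hr.1, hr.2.trans hV⟩
              · intro i _ _; positivity
            calc (∑ r ∈ T p f, (1 : ℝ) / r) ^ 2 ≤ (H / f) ^ 2 := pow_le_pow_left₀ (hTnn f) (h3.trans h2) 2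
              _ = _ := by rw [div_pow]; ring
      _ ≤ (L : ℝ) ^ 2 / w + H ^ 2 / w := by
          apply add_le_add
          · rw [sum_const, nsmul_eq_mul, Nat.card_Icc]
            simp only [add_tsub_cancel_right]
            apply le_of_eq; field_simp
          · rw [← Finset.mul_sum]
            calc _ ≤ H ^ 2 * (1 / w) := by
                  gcongr
                  exact sum_inv_sq_tail w _ hw
              _ = _ := by ring
      _ = _ := by ring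
  have hp1 : ∑ p ∈ Icc 2 Y, (1 : ℝ) / p ≤ H := by
    refine le_trans ?_ hH
    apply Finset.sum_le_sum_of_subset_of_nonneg
    · intro p hp
      rw [mem_Icc] at hp ⊢
      refine ⟨by omega, hp.2.trans (le_trans ?_ hV)⟩
      exact Nat.le_self_pow (by norm_num) Y
    · intro i _ _; positivity
  calc (#A : ℝ) ≤ ((∑ p ∈ Icc 2 Y, ∑ f ∈ Icc 1 (Y ^ 2), ∑ r ∈ T p f, ∑ r' ∈ T p f,
        #(A.filter (fun n => p.Prime ∧ p ∣ n ∧ r ≠ r' ∧ r ∣ n ^ 2 + n + 1 ∧ r' ∣ n ^ 2 + n + 1)) : ℕ) : ℝ) := by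
        norm_cast
        refine (card_le_card h1).trans (card_biUnion_le.trans (sum_le_sum fun p _ => ?_))
        refine card_biUnion_le.trans (sum_le_sum fun f _ => ?_)
        exact card_biUnion_le.trans (sum_le_sum fun r _ => card_biUnion_le)
    _ = ∑ p ∈ Icc 2 Y, ∑ f ∈ Icc 1 (Y ^ 2), ∑ r ∈ T p f, ∑ r' ∈ T p f,
        (#(A.filter (fun n => p.Prime ∧ p ∣ n ∧ r ≠ r' ∧ r ∣ n ^ 2 + n + 1 ∧ r' ∣ n ^ 2 + n + 1)) : ℝ) := by
        push_cast; rfl
    _ ≤ ∑ p ∈ Icc 2 Y, ∑ f ∈ Icc 1 (Y ^ 2), ∑ r ∈ T p f, ∑ r' ∈ T p f,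
        (8 * X * (1 / (p : ℝ)) * (1 / r * (1 / r'))) := by
        apply Finset.sum_le_sum; intro p hp
        apply Finset.sum_le_sum; intro f hf
        apply Finset.sum_le_sum; intro r hr
        apply Finset.sum_le_sum; intro r' hr'
        simp only [hT, mem_filter] at hr hr'
        rw [mem_Icc] at hp hf
        by_cases hcond : p.Prime ∧ r ≠ r'
        · have hf0 : 0 < f := by omega
          have hrp := (ordSet_prop hr.1).1
          have hrp' := (ordSet_prop hr'.1).1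
          have h2 := count_two (X := X) hrp hrp' (ordSet_coprime hcond.1 hf0 hr.1)
            (ordSet_coprime hcond.1 hf0 hr'.1) hcond.2
            (A.filter (fun n => p.Prime ∧ p ∣ n ∧ r ≠ r' ∧ r ∣ n ^ 2 + n + 1 ∧ r' ∣ n ^ 2 + n + 1))
            (fun x hx => (hA x (mem_filter.1 hx).1).1)
            (fun x hx y hy => ((Nat.modEq_zero_iff_dvd.2 (mem_filter.1 hx).2.2.1).trans
              (Nat.modEq_zero_iff_dvd.2 (mem_filter.1 hy).2.2.1).symm))
            (fun x hx => (mem_filter.1 hx).2.2.2.2.1) (fun x hx => (mem_filter.1 hx).2.2.2.2.2)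
          have hp0 : (0 : ℝ) < p := by exact_mod_cast hcond.1.pos
          have hr0 : (0 : ℝ) < r := by exact_mod_cast hrp.pos
          have hr0' : (0 : ℝ) < r' := by exact_mod_cast hrp'.pos
          have h3 : (p : ℝ) * r * r' ≤ X := by
            have h4 : (p : ℝ) ≤ Y := by exact_mod_cast hp.2
            have h5 : (r : ℝ) ≤ (Y : ℝ) ^ 6 := by exact_mod_cast hr.2
            have h6 : (r' : ℝ) ≤ (Y : ℝ) ^ 6 := by exact_mod_cast hr'.2
            calc (p : ℝ) * r * r' ≤ Y * (Y : ℝ) ^ 6 * (Y : ℝ) ^ 6 := by gcongr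
              _ = (Y : ℝ) ^ 13 := by ring
              _ ≤ (Y : ℝ) ^ 20 := pow_le_pow_right₀ hY1 (by norm_num)
              _ ≤ X := hYX'
          calc ((#(A.filter (fun n => p.Prime ∧ p ∣ n ∧ r ≠ r' ∧ r ∣ n ^ 2 + n + 1 ∧ r' ∣ n ^ 2 + n + 1)) : ℕ) : ℝ)
              ≤ ((4 * (X / (p * r * r') + 1) : ℕ) : ℝ) := by exact_mod_cast h2
            _ = 4 * (((X / (p * r * r') : ℕ) : ℝ) + 1) := by push_cast; ring
            _ ≤ 4 * ((X : ℝ) / ((p * r * r' : ℕ) : ℝ) + X / (p * r * r')) := by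
                gcongr
                · exact Nat.cast_div_le
                · rw [le_div_iff₀ (by positivity), one_mul]; exact h3
            _ = _ := by push_cast; field_simp; ring
        · have h2 : A.filter (fun n => p.Prime ∧ p ∣ n ∧ r ≠ r' ∧ r ∣ n ^ 2 + n + 1 ∧ r' ∣ n ^ 2 + n + 1) = ∅ := by
            rw [Finset.filter_eq_empty_iff]
            intro n _ h
            exact hcond ⟨h.1, h.2.2.1⟩
          rw [h2]
          simp only [card_empty, Nat.cast_zero]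
          positivity
    _ = ∑ p ∈ Icc 2 Y, (8 * X * (1 / (p : ℝ))) * ∑ f ∈ Icc 1 (Y ^ 2), (∑ r ∈ T p f, (1 : ℝ) / r) ^ 2 := by
        apply Finset.sum_congr rfl; intro p _
        rw [Finset.mul_sum]
        apply Finset.sum_congr rfl; intro f _
        rw [pow_two, Finset.sum_mul_sum, Finset.mul_sum]
        apply Finset.sum_congr rfl; intro r _
        rw [Finset.mul_sum]
    _ ≤ ∑ p ∈ Icc 2 Y, (8 * X * (1 / (p : ℝ))) * ((L ^ 2 + H ^ 2) / w) := by
        apply Finset.sum_le_sum; intro p hp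
        gcongr
        exact hsum p hp
    _ = 8 * X * ((L ^ 2 + H ^ 2) / w) * ∑ p ∈ Icc 2 Y, (1 : ℝ) / p := by
        rw [Finset.mul_sum]
        apply Finset.sum_congr rfl; intro p _
        ring
    _ ≤ 8 * X * ((L ^ 2 + H ^ 2) / w) * H := by gcongr
    _ = _ := by ring

end Pool.Agent.TH506.APD
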