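import Pool.Agent.TH506.APD.Alg
import Pool.Agent.TH506.APD.Ord2
import Pool.Agent.TH506.APD.Comp

/-!
Classification of the orders outside the exceptional sets.
-/

set_option autoImplicit false

namespace Pool.Agent.TH506.APD

open Finset

lemma modEq_one_of_primes {f : ℕ} : ∀ N : ℕ, N ≠ 0 → (∀ r : ℕ, r.Prime → r ∣ N → r ≡ 1 [MOD f]) →
    N ≡ 1 [MOD f] := by
  intro N
  induction N using Nat.recOnMul with
  | zero => intro h; exact absurd rfl h
  | one => intro _ _; rfl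
  | prime p hp => intro _ h; exact h p hp dvd_rfl
  | mul a b iha ihb =>
    intro h0 h
    have ha : a ≠ 0 := by rintro rfl; simp at h0
    have hb : b ≠ 0 := by rintro rfl; simp at h0
    have := (iha ha (fun r hr hra => h r hr (hra.mul_right b))).mul
      (ihb hb (fun r hr hrb => h r hr (hrb.mul_left a)))
    simpa using this

/-- the cases P5 - P9 -/
def P5 (Y w n : ℕ) : Prop := ∃ p f r r' : ℕ, p.Prime ∧ p ≤ Y ∧ p ∣ n ∧ 0 < f ∧ f ≤ Y ^ 2 ∧
      r ∈ ordSet p f (w ^ 2) ∧ r' ∈ ordSet p f (w ^ 2) ∧ r ≠ r' ∧ r ≤ Y ^ 6 ∧ r' ≤ Y ^ 6 ∧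
      r ∣ n ^ 2 + n + 1 ∧ r' ∣ n ^ 2 + n + 1
def P6 (Y z n : ℕ) : Prop := ∃ p f r : ℕ, p.Prime ∧ p ≤ Y ∧ 0 < f ∧ f ≤ Y ^ 2 ∧
      r ∈ ordSet p f z ∧ Y ^ 6 ≤ r ∧ r ∣ n ^ 2 + n + 1
def P7 (Y z J n : ℕ) : Prop := ∃ p f r j : ℕ, p.Prime ∧ p ≤ Y ∧ Y ^ 2 < f ∧ f ≤ Y ^ 9 ∧
      r ∈ ordSet p f z ∧ r ∣ n ^ 2 + n + 1 ∧ j < J ∧ n + 1 ≡ j [MOD f]
def P8 (Y J n : ℕ) : Prop := ∃ j s f c a b : ℕ, j < J ∧ s ≤ Y ∧ Y ^ 9 < f ∧ 0 < c ∧
      n + 1 = j + f * c ∧ s = j * (j - 1) + 1 ∧ 0 < a ∧ a ≤ b ∧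
      n ^ 2 + n + 1 = s * ((1 + f * a) * (1 + f * b))
def P9 (J n : ℕ) : Prop := ∃ j R : ℕ, j < J ∧ R.Prime ∧ n ^ 2 + n + 1 = (j * (j - 1) + 1) * R

theorem classify {Y w n p f s R j : ℕ} (hw : 1 ≤ w) (hwY : w + 2 ≤ Y)
    (hYn : Y ^ 10 < n) (hp : p.Prime) (hpY : p ≤ Y) (hpn : p ∣ n) (hE : ¬ E1 (w ^ 2) n)
    (hf0 : 0 < f) (hv : n ^ 2 + n + 1 = s * R)
    (hR : ∀ r : ℕ, r.Prime → r ∣ R → w ^ 2 < r ∧ orderOf (p : ZMod r) = f)
    (hjs : j * (j - 1) + 1 ≤ s) (hjn : j ≤ n + 1) (hd1 : f ∣ (n + 1 - j))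
    (hd2 : f ∣ (n ^ 2 + n + 1 - s)) (hsY : s ≤ Y)
    (hsq : ¬ ∃ r : ℕ, r.Prime ∧ w ^ 2 < r ∧ r ≤ Y ^ 6 ∧ r ^ 2 ∣ n ^ 2 + n + 1) :
    P5 Y w n ∨ P6 Y (w ^ 2) n ∨ P7 Y (w ^ 2) (w + 2) n ∨ P8 Y (w + 2) n ∨ P9 (w + 2) n := by
  have hY0 : 0 < Y := by omega
  have hYp : ∀ i : ℕ, 1 ≤ Y ^ i := fun i => Nat.one_le_pow _ _ hY0
  have hYn' : Y < n := lt_of_le_of_lt (Nat.le_self_pow (by norm_num) Y) hYn
  have hnv : n < n ^ 2 + n + 1 := by nlinarith [sq_nonneg n]
  have hR0 : R ≠ 0 := by rintro rfl; simp at hv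
  have hR1 : R ≠ 1 := by rintro rfl; omega
  have hs0 : 0 < s := by omega
  have hsv : s ≤ n ^ 2 + n + 1 := by omega
  have hT : ∀ r : ℕ, r.Prime → r ∣ R → r ∈ ordSet p f (w ^ 2) := fun r hr hrR =>
    mem_ordSet_of hp.two_le hf0 hr (hR r hr hrR).1 (hR r hr hrR).2
  have hRv : R ∣ n ^ 2 + n + 1 := by rw [hv]; exact dvd_mul_left _ _
  rcases le_or_gt f (Y ^ 2) with hf | hf
  · -- small order
    by_cases hbig : ∃ r : ℕ, r.Prime ∧ r ∣ R ∧ Y ^ 6 ≤ r
    · obtain ⟨r, h1, h2, h3⟩ := hbig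
      right; left
      exact ⟨p, f, r, hp, hpY, hf0, hf, hT r h1 h2, h3, h2.trans hRv⟩
    · push Not at hbig
      left
      have hr := Nat.minFac_prime hR1
      set r := R.minFac with hrdef
      obtain ⟨R1, hR1'⟩ := Nat.minFac_dvd R
      rw [← hrdef] at hR1'
      have hrR : r ∣ R := Dvd.intro _ hR1'.symm
      have hrY := hbig r hr hrR
      have hne1 : R1 ≠ 1 := by
        rintro rfl
        rw [mul_one] at hR1'
        have h1 : s * R ≤ Y * Y ^ 6 := Nat.mul_le_mul hsY (by rw [hR1']; exact hrY.le)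
        have h2 : Y * Y ^ 6 ≤ Y ^ 10 := by
          calc Y * Y ^ 6 = Y ^ 7 := by ring
            _ ≤ Y ^ 10 := Nat.pow_le_pow_right hY0 (by norm_num)
        omega
      have hr' := Nat.minFac_prime hne1
      have hr'R : R1.minFac ∣ R := (Nat.minFac_dvd R1).trans (Dvd.intro_left _ hR1'.symm)
      refine ⟨p, f, r, R1.minFac, hp, hpY, hpn, hf0, hf, hT r hr hrR, hT _ hr' hr'R, ?_, hrY.le,
        (hbig _ hr' hr'R).le, hrR.trans hRv, hr'R.trans hRv⟩
      intro he
      apply hsq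
      refine ⟨r, hr, (hR r hr hrR).1, hrY.le, ?_⟩
      have h1 : r * r ∣ R := by
        conv_rhs => rw [hR1']
        exact Nat.mul_dvd_mul_left r (he ▸ Nat.minFac_dvd R1)
      rw [pow_two]
      exact h1.trans hRv
  · -- `s = j (j - 1) + 1`
    right; right
    obtain ⟨c, hc⟩ := hd1
    obtain ⟨d, hd⟩ := hd2
    have hnj : n + 1 = j + f * c := by omega
    have hsf : s < f := by
      have : Y ≤ Y ^ 2 := Nat.le_self_pow (by norm_num) Y
      omega
    have hs : s = j * (j - 1) + 1 := by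
      have h1 : (n : ℤ) = (j : ℤ) - 1 + f * c := by
        have : ((n + 1 : ℕ) : ℤ) = ((j + f * c : ℕ) : ℤ) := by rw [hnj]
        push_cast at this; linarith
      have h2 : (n : ℤ) ^ 2 + n + 1 = s + f * d := by
        have : n ^ 2 + n + 1 = s + f * d := by omega
        exact_mod_cast this
      have h3 := s_cast (j := j) rfl
      have h4 : (f : ℤ) ∣ (s : ℤ) - ((j * (j - 1) + 1 : ℕ) : ℤ) := by
        refine ⟨c * (2 * j - 1) + f * c ^ 2 - d, ?_⟩
        rw [h1] at h2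
        rw [h3]
        linear_combination (-1 : ℤ) * h2
      have h5 : (s : ℤ) - ((j * (j - 1) + 1 : ℕ) : ℤ) = ((s - (j * (j - 1) + 1) : ℕ) : ℤ) := by
        push_cast [Nat.cast_sub hjs]; ring
      rw [h5] at h4
      have h6 : f ∣ s - (j * (j - 1) + 1) := by exact_mod_cast h4
      have h7 := Nat.eq_zero_of_dvd_of_lt h6 (by omega)
      omega
    have hjw : j < w + 2 := by
      rcases le_or_gt s (w ^ 2) with h1 | h1
      · by_contra hcon
        push Not at hcon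
        have h2 : (w + 2) * (w + 1) ≤ j * (j - 1) := Nat.mul_le_mul hcon (by omega)
        nlinarith
      · exfalso
        apply hE
        have hj2 : 2 ≤ j := by
          by_contra hcon
          have h2 : s = 1 := by
            rw [hs]
            interval_cases j <;> rfl
          rw [h2] at h1
          have := Nat.one_le_pow 2 w hw
          omega
        have hsm : (j - 1) ^ 2 + (j - 1) + 1 = s := by
          rw [hs]
          obtain ⟨i, rfl⟩ : ∃ i, j = i + 2 := ⟨j - 2, by omega⟩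
          simp only [Nat.add_succ_sub_one]
          ring
        have hjY : j - 1 < s := by rw [← hsm]; nlinarith [sq_nonneg (j - 1)]
        refine ⟨j - 1, by omega, by rw [hsm]; exact h1, ?_, ?_⟩
        · rw [hsm, hv]; exact dvd_mul_right _ _
        · rw [hsm]
          calc (n - (j - 1) + 1) * s ≤ (n + 1) * n := Nat.mul_le_mul (by omega) (by omega)
            _ ≤ n ^ 2 + n + 1 := by nlinarith
    have hmod : n + 1 ≡ j [MOD f] := by
      rw [hnj]
      exact (Nat.modEq_iff_dvd' (by omega)).2 (by simp) |>.symm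
    rcases le_or_gt f (Y ^ 9) with hf9 | hf9
    · left
      have hr := Nat.minFac_prime hR1
      exact ⟨p, f, R.minFac, j, hp, hpY, hf, hf9, hT _ hr (Nat.minFac_dvd R),
        (Nat.minFac_dvd R).trans hRv, hjw, hmod⟩
    · right
      by_cases hRp : R.Prime
      · right
        exact ⟨j, R, hjw, hRp, by rw [← hs]; exact hv⟩
      · left
        have hr := Nat.minFac_prime hR1
        have hsqle := Nat.minFac_sq_le_self (Nat.pos_of_ne_zero hR0) hRp
        set r := R.minFac with hrdef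
        obtain ⟨R1, hR1'⟩ := Nat.minFac_dvd R
        rw [← hrdef] at hR1'
        have hrR1 : r ≤ R1 := by
          have h1 : r * r ≤ r * R1 := by rw [← pow_two]; exact hsqle.trans (le_of_eq hR1')
          exact Nat.le_of_mul_le_mul_left h1 hr.pos
        have hprime : ∀ q : ℕ, q.Prime → q ∣ R → q ≡ 1 [MOD f] := by
          intro q hq hqR
          have h1 := ordSet_dvd hf0 (hT q hq hqR)
          exact ((Nat.modEq_iff_dvd' hq.one_lt.le).2 h1).symm
        have hr1 := hprime r hr (Dvd.intro _ hR1'.symm)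
        have hR11 : R1 ≡ 1 [MOD f] := by
          apply modEq_one_of_primes
          · have := hr.pos; omega
          · intro q hq hqR
            exact hprime q hq (hqR.trans (Dvd.intro_left _ hR1'.symm))
        obtain ⟨a, ha⟩ := (Nat.modEq_iff_dvd' hr.one_lt.le).1 hr1.symm
        obtain ⟨b, hb⟩ := (Nat.modEq_iff_dvd' (by have := hr.pos; omega : 1 ≤ R1)).1 hR11.symm
        have hra : r = 1 + f * a := by have := hr.pos; omega
        have hrb : R1 = 1 + f * b := by have := hr.pos; omega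
        have ha0 : 0 < a := by
          rcases Nat.eq_zero_or_pos a with rfl | h
          · have := hr.one_lt; omega
          · exact h
        refine ⟨j, s, f, c, a, b, hjw, hsY, hf9, ?_, hnj, hs, ha0, ?_, ?_⟩
        · rcases Nat.eq_zero_or_pos c with rfl | h
          · omega
          · exact h
        · have : f * a ≤ f * b := by omega
          exact Nat.le_of_mul_le_mul_left this hf0
        · rw [hv, ← hra, ← hrb, ← hR1']

end Pool.Agent.TH506.APD
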