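import Mathlib

/-!
Counting solutions of `n ^ 2 + n + 1 = 0` modulo `d` in an interval.
-/

set_option autoImplicit false

namespace Pool.Agent.TH506.APD

open Finset

/-- elements of `[0, X]` which are pairwise congruent modulo `d` -/
lemma class_count {X d : ℕ} (A : Finset ℕ) (hA : ∀ x ∈ A, x ≤ X)
    (hc : ∀ x ∈ A, ∀ y ∈ A, x ≡ y [MOD d]) : #A ≤ X / d + 1 := by
  calc #A ≤ #(range (X / d + 1)) := by
        apply card_le_card_of_injOn (fun x => x / d)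
        · intro x hx
          simp only [coe_range, Set.mem_Iio]
          exact Nat.lt_succ_of_le (Nat.div_le_div_right (hA x hx))
        · intro x hx y hy hxy
          have h1 : x % d = y % d := hc x hx y hy
          have h2 : x / d = y / d := hxy
          rw [← Nat.div_add_mod x d, ← Nat.div_add_mod y d, h1, h2]
    _ = _ := card_range _

lemma root_pair {r x y : ℕ} (hr : r.Prime) (hx : r ∣ x ^ 2 + x + 1) (hy : r ∣ y ^ 2 + y + 1) :
    x ≡ y [MOD r] ∨ r ∣ x + y + 1 := by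
  have h1 : (r : ℤ) ∣ ((x : ℤ) - y) * (x + y + 1) := by
    have h2 : (r : ℤ) ∣ (x : ℤ) ^ 2 + x + 1 := by exact_mod_cast hx
    have h3 : (r : ℤ) ∣ (y : ℤ) ^ 2 + y + 1 := by exact_mod_cast hy
    have h4 : ((x : ℤ) - y) * (x + y + 1) = ((x : ℤ) ^ 2 + x + 1) - ((y : ℤ) ^ 2 + y + 1) := by ring
    rw [h4]; exact dvd_sub h2 h3
  rcases (Nat.prime_iff_prime_int.1 hr).dvd_or_dvd h1 with h2 | h2
  · left
    exact ((Nat.modEq_iff_dvd).2 (by rw [← neg_sub]; exact (dvd_neg).2 h2))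
  · right
    exact_mod_cast h2

lemma split {f r : ℕ} (hr : r.Prime) (hfr : Nat.Coprime f r) (A : Finset ℕ)
    (hAf : ∀ x ∈ A, ∀ y ∈ A, x ≡ y [MOD f]) (hAr : ∀ x ∈ A, r ∣ x ^ 2 + x + 1) :
    ∃ A1 A2 : Finset ℕ, A1 ⊆ A ∧ A2 ⊆ A ∧ #A ≤ #A1 + #A2 ∧
      (∀ x ∈ A1, ∀ y ∈ A1, x ≡ y [MOD f * r]) ∧ (∀ x ∈ A2, ∀ y ∈ A2, x ≡ y [MOD f * r]) := by
  classical
  rcases A.eq_empty_or_nonempty with rfl | ⟨x0, hx0⟩
  · exact ⟨∅, ∅, by simp, by simp, by simp, by simp, by simp⟩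
  refine ⟨A.filter (fun x => x ≡ x0 [MOD r]), A.filter (fun x => ¬ x ≡ x0 [MOD r]),
    filter_subset _ _, filter_subset _ _, ?_, ?_, ?_⟩
  · rw [Finset.card_filter_add_card_filter_not]
  · intro x hx y hy
    rw [mem_filter] at hx hy
    exact (Nat.modEq_and_modEq_iff_modEq_mul hfr).1 ⟨hAf x hx.1 y hy.1, hx.2.trans hy.2.symm⟩
  · intro x hx y hy
    rw [mem_filter] at hx hy
    refine (Nat.modEq_and_modEq_iff_modEq_mul hfr).1 ⟨hAf x hx.1 y hy.1, ?_⟩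
    have h1 := (root_pair hr (hAr x hx.1) (hAr x0 hx0)).resolve_left hx.2
    have h2 := (root_pair hr (hAr y hy.1) (hAr x0 hx0)).resolve_left hy.2
    have h3 : (r : ℤ) ∣ (y : ℤ) - x := by
      have h4 : (r : ℤ) ∣ (x : ℤ) + x0 + 1 := by exact_mod_cast h1
      have h5 : (r : ℤ) ∣ (y : ℤ) + x0 + 1 := by exact_mod_cast h2
      have h6 : (y : ℤ) - x = ((y : ℤ) + x0 + 1) - ((x : ℤ) + x0 + 1) := by ring
      rw [h6]; exact dvd_sub h5 h4
    exact (Nat.modEq_iff_dvd).2 h3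

lemma count_one {X f r : ℕ} (hr : r.Prime) (hfr : Nat.Coprime f r) (A : Finset ℕ)
    (hA : ∀ x ∈ A, x ≤ X)
    (hAf : ∀ x ∈ A, ∀ y ∈ A, x ≡ y [MOD f]) (hAr : ∀ x ∈ A, r ∣ x ^ 2 + x + 1) :
    #A ≤ 2 * (X / (f * r) + 1) := by
  obtain ⟨A1, A2, h1, h2, h3, h4, h5⟩ := split hr hfr A hAf hAr
  have h6 := class_count A1 (fun x hx => hA x (h1 hx)) h4
  have h7 := class_count A2 (fun x hx => hA x (h2 hx)) h5
  omega

lemma count_two {X f r r' : ℕ} (hr : r.Prime) (hr' : r'.Prime) (hfr : Nat.Coprime f r)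
    (hfr' : Nat.Coprime f r') (hne : r ≠ r') (A : Finset ℕ)
    (hA : ∀ x ∈ A, x ≤ X)
    (hAf : ∀ x ∈ A, ∀ y ∈ A, x ≡ y [MOD f]) (hAr : ∀ x ∈ A, r ∣ x ^ 2 + x + 1)
    (hAr' : ∀ x ∈ A, r' ∣ x ^ 2 + x + 1) :
    #A ≤ 4 * (X / (f * r * r') + 1) := by
  obtain ⟨A1, A2, h1, h2, h3, h4, h5⟩ := split hr hfr A hAf hAr
  have hc : Nat.Coprime (f * r) r' := Nat.Coprime.mul_left hfr' ((Nat.coprime_primes hr hr').2 hne)
  have h6 := count_one hr' hc A1 (fun x hx => hA x (h1 hx)) h4 (fun x hx => hAr' x (h1 hx))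
  have h7 := count_one hr' hc A2 (fun x hx => hA x (h2 hx)) h5 (fun x hx => hAr' x (h2 hx))
  omega

/-- number of `n ≤ X` with `d ∣ n ^ 2 + n + 1` -/
theorem count_dvd {X d : ℕ} (hd : 0 < d) (A : Finset ℕ) (hA : ∀ x ∈ A, x ≤ X)
    (hAd : ∀ x ∈ A, d ∣ x ^ 2 + x + 1) :
    (#A : ℝ) ≤ (d.divisors.card : ℝ) * (3 * X / d + 1) := by
  classical
  rcases A.eq_empty_or_nonempty with rfl | hne
  · simp only [card_empty, Nat.cast_zero]; positivity
  set x0 := A.min' hne with hx0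
  have hx0A : x0 ∈ A := A.min'_mem hne
  have hmin : ∀ x ∈ A, x0 ≤ x := fun x hx => A.min'_le x hx
  set e := d / Nat.gcd d 3 with he
  have he3 : d ≤ 3 * e := by
    have h1 : Nat.gcd d 3 * e = d := Nat.mul_div_cancel' (Nat.gcd_dvd_left d 3)
    have h2 : Nat.gcd d 3 ≤ 3 := Nat.le_of_dvd (by norm_num) (Nat.gcd_dvd_right d 3)
    calc d = Nat.gcd d 3 * e := h1.symm
      _ ≤ 3 * e := Nat.mul_le_mul_right _ h2
  have he0 : 0 < e := by omega
  have hfib : ∀ g ∈ d.divisors, #(A.filter (fun x => Nat.gcd d (x - x0) = g)) ≤ X / e + 1 := by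
    intro g hg
    apply class_count _ (fun x hx => hA x (mem_filter.1 hx).1)
    -- key congruences
    have hg0 : 0 < g := Nat.pos_of_mem_divisors hg
    have hkey : ∀ x ∈ A.filter (fun x => Nat.gcd d (x - x0) = g),
        (g : ℤ) ∣ (x : ℤ) - x0 ∧ ((d / g : ℕ) : ℤ) ∣ (x : ℤ) + x0 + 1 := by
      intro x hx
      rw [mem_filter] at hx
      have h0 := hmin x hx.1
      have h1 : g ∣ x - x0 := by rw [← hx.2]; exact Nat.gcd_dvd_right _ _
      have h2 : d ∣ (x - x0) * (x + x0 + 1) := by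
        have h3 : (d : ℤ) ∣ (x : ℤ) ^ 2 + x + 1 := by exact_mod_cast hAd x hx.1
        have h4 : (d : ℤ) ∣ (x0 : ℤ) ^ 2 + x0 + 1 := by exact_mod_cast hAd x0 hx0A
        have h5 : (((x - x0) * (x + x0 + 1) : ℕ) : ℤ) = ((x : ℤ) ^ 2 + x + 1) - ((x0 : ℤ) ^ 2 + x0 + 1) := by
          push_cast [Nat.cast_sub h0]; ring
        have h6 : (d : ℤ) ∣ (((x - x0) * (x + x0 + 1) : ℕ) : ℤ) := by
          rw [h5]; exact dvd_sub h3 h4
        exact_mod_cast h6
      obtain ⟨u, hu⟩ := h1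
      have hgd : g ∣ d := Nat.dvd_of_mem_divisors hg
      obtain ⟨d', hd'⟩ := hgd
      have hcop : Nat.Coprime d' u := by
        have h3 : Nat.gcd (g * d') (g * u) = g := by rw [← hd', ← hu]; exact hx.2
        rw [Nat.gcd_mul_left] at h3
        exact Nat.eq_of_mul_eq_mul_left hg0 (by rw [h3, mul_one])
      have h3 : d' ∣ x + x0 + 1 := by
        rw [hd', hu, mul_assoc] at h2
        have h4 := Nat.dvd_of_mul_dvd_mul_left hg0 h2
        exact hcop.dvd_of_dvd_mul_left h4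
      refine ⟨?_, ?_⟩
      · have : ((x - x0 : ℕ) : ℤ) = (x : ℤ) - x0 := by push_cast [Nat.cast_sub h0]; ring
        rw [← this, hu]
        push_cast
        exact dvd_mul_right _ _
      · have h4 : d / g = d' := by rw [hd']; exact Nat.mul_div_cancel_left _ hg0
        rw [h4]
        exact_mod_cast h3
    have hdg : g * (d / g) = d := Nat.mul_div_cancel' (Nat.dvd_of_mem_divisors hg)
    intro x hx y hy
    obtain ⟨hx1, hx2⟩ := hkey x hx
    obtain ⟨hy1, hy2⟩ := hkey y hy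
    set d' := d / g with hd'
    have h1 : (g : ℤ) ∣ (y : ℤ) - x := by
      have : (y : ℤ) - x = ((y : ℤ) - x0) - ((x : ℤ) - x0) := by ring
      rw [this]; exact dvd_sub hy1 hx1
    have h2 : (d' : ℤ) ∣ (y : ℤ) - x := by
      have : (y : ℤ) - x = ((y : ℤ) + x0 + 1) - ((x : ℤ) + x0 + 1) := by ring
      rw [this]; exact dvd_sub hy2 hx2
    -- the gcd of `g` and `d'` divides `3`
    have h3 : Nat.gcd g d' ∣ 3 := by
      set c := Nat.gcd g d' with hc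
      have h4 : (c : ℤ) ∣ (x : ℤ) - x0 := (Int.natCast_dvd_natCast.2 (Nat.gcd_dvd_left g d')).trans hx1
      have h5 : (c : ℤ) ∣ (x : ℤ) + x0 + 1 := (Int.natCast_dvd_natCast.2 (Nat.gcd_dvd_right g d')).trans hx2
      have h6 : (c : ℤ) ∣ (x0 : ℤ) ^ 2 + x0 + 1 := by
        have h7 : (d : ℤ) ∣ (x0 : ℤ) ^ 2 + x0 + 1 := by exact_mod_cast hAd x0 hx0A
        have h8 : (c : ℤ) ∣ (d : ℤ) := Int.natCast_dvd_natCast.2
          ((Nat.gcd_dvd_left g d').trans (Nat.dvd_of_mem_divisors hg))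
        exact h8.trans h7
      have h7 : (c : ℤ) ∣ 2 * (x0 : ℤ) + 1 := by
        have : 2 * (x0 : ℤ) + 1 = ((x : ℤ) + x0 + 1) - ((x : ℤ) - x0) := by ring
        rw [this]; exact dvd_sub h5 h4
      have h8 : (c : ℤ) ∣ 3 := by
        have : (3 : ℤ) = 4 * ((x0 : ℤ) ^ 2 + x0 + 1) - (2 * (x0 : ℤ) + 1) * (2 * (x0 : ℤ) + 1) := by ring
        rw [this]
        exact dvd_sub (h6.mul_left 4) (h7.mul_left _)
      exact_mod_cast h8
    obtain ⟨W, hW⟩ : ∃ W : ℕ, W = ((y : ℤ) - x).natAbs := ⟨_, rfl⟩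
    have h4 : g ∣ W := by rw [hW]; exact Int.natCast_dvd.1 h1
    have h5 : d' ∣ W := by rw [hW]; exact Int.natCast_dvd.1 h2
    have h6 : d ∣ 3 * W := by
      have h7 : Nat.gcd g d' * Nat.lcm g d' = d := by rw [Nat.gcd_mul_lcm]; exact hdg
      rw [← h7]
      exact Nat.mul_dvd_mul h3 (Nat.lcm_dvd h4 h5)
    have h7 : e ∣ W := by
      have h8 : Nat.gcd d 3 * e = d := Nat.mul_div_cancel' (Nat.gcd_dvd_left d 3)
      have hg3 : 0 < Nat.gcd d 3 := Nat.gcd_pos_of_pos_left _ hd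
      obtain ⟨t, ht⟩ := Nat.gcd_dvd_right d 3
      have h9 : Nat.Coprime e t := by
        have h10 : Nat.gcd (Nat.gcd d 3 * e) (Nat.gcd d 3 * t) = Nat.gcd d 3 := by
          rw [h8, ← ht]
        rw [Nat.gcd_mul_left] at h10
        exact Nat.eq_of_mul_eq_mul_left hg3 (by rw [h10, mul_one])
      have h10 : Nat.gcd d 3 * e ∣ Nat.gcd d 3 * (t * W) := by
        rw [h8, ← mul_assoc, ← ht]; exact h6
      exact h9.dvd_of_dvd_mul_left (Nat.dvd_of_mul_dvd_mul_left hg3 h10)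
    refine (Nat.modEq_iff_dvd).2 ?_
    rw [hW] at h7
    exact Int.natCast_dvd.2 h7
  have h1 : #A = ∑ g ∈ d.divisors, #(A.filter (fun x => Nat.gcd d (x - x0) = g)) := by
    apply Finset.card_eq_sum_card_fiberwise
    intro x hx
    simp only [mem_coe, Nat.mem_divisors]
    exact ⟨Nat.gcd_dvd_left _ _, hd.ne'⟩
  have h2 : #A ≤ d.divisors.card * (X / e + 1) := by
    rw [h1, ← smul_eq_mul, ← Finset.sum_const]
    exact Finset.sum_le_sum hfib
  have h3 : ((X / e : ℕ) : ℝ) ≤ 3 * X / d := by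
    refine (Nat.cast_div_le).trans ?_
    have hd0 : (0 : ℝ) < d := by exact_mod_cast hd
    have he0' : (0 : ℝ) < e := by exact_mod_cast he0
    rw [div_le_div_iff₀ he0' hd0]
    have : (d : ℝ) ≤ 3 * e := by exact_mod_cast he3
    nlinarith [Nat.cast_nonneg (α := ℝ) X]
  calc (#A : ℝ) ≤ ((d.divisors.card * (X / e + 1) : ℕ) : ℝ) := by exact_mod_cast h2
    _ = (d.divisors.card : ℝ) * (((X / e : ℕ) : ℝ) + 1) := by push_cast; ring
    _ ≤ _ := by gcongr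

end Pool.Agent.TH506.APD
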