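import Pool.Agent.TH506.APD.Rgh

/-!
`n ^ 2 + n + 1 = s * prime`, all prime divisors of `n` squares modulo a prime `q`: `o(X / log X)`.
-/

set_option autoImplicit false

namespace Pool.Agent.TH506.APD

open Finset
open Pool.Agent.H410R2.ED Pool.Agent.H474R2.PG

open Classical in
lemma card_affine' {l s a : ℕ} (hl : l.Prime) (hs : ¬ l ∣ s) (Q : ℕ → Prop)
    (hQ : ∀ n, Q (n % l) ↔ Q n) :
    #((range l).filter (fun t => Q (a + s * t))) = #((range l).filter Q) := by
  have : Fact l.Prime := ⟨hl⟩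
  have hs0 : (s : ZMod l) ≠ 0 := fun h => hs ((ZMod.natCast_eq_zero_iff s l).1 h)
  refine Finset.card_bij (fun t _ => (a + s * t) % l) ?_ ?_ ?_
  · intro t ht
    rw [mem_filter] at ht ⊢
    exact ⟨mem_range.2 (Nat.mod_lt _ hl.pos), (hQ _).2 ht.2⟩
  · intro t ht t' ht' h
    rw [mem_filter, mem_range] at ht ht'
    have h1 : ((a + s * t : ℕ) : ZMod l) = ((a + s * t' : ℕ) : ZMod l) :=
      (ZMod.natCast_eq_natCast_iff' _ _ _).2 h
    push_cast at h1
    have h3 := mul_left_cancel₀ hs0 (add_left_cancel h1)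
    have h4 := (ZMod.natCast_eq_natCast_iff' _ _ _).1 h3
    rwa [Nat.mod_eq_of_lt ht.1, Nat.mod_eq_of_lt ht'.1] at h4
  · intro b hb
    rw [mem_filter, mem_range] at hb
    set x : ZMod l := ((b : ZMod l) - a) * (s : ZMod l)⁻¹ with hx
    have h1 : ((a + s * x.val : ℕ) : ZMod l) = (b : ZMod l) := by
      push_cast
      rw [ZMod.natCast_val, ZMod.cast_id', id, hx]
      field_simp
      ring
    have h2 := (ZMod.natCast_eq_natCast_iff' _ _ _).1 h1
    refine ⟨x.val, ?_, ?_⟩
    · rw [mem_filter, mem_range]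
      refine ⟨ZMod.val_lt x, ?_⟩
      rw [← hQ, h2, hQ]
      exact hb.2
    · rwa [Nat.mod_eq_of_lt hb.1] at h2

lemma rho_fq_self {q : ℕ} (hq : q.Prime) : rho (fq q) q ≠ 0 := by
  unfold rho
  rw [← Nat.pos_iff_ne_zero, card_pos]
  refine ⟨0, ?_⟩
  rw [mem_filter, mem_range, fq_eval]
  refine ⟨hq.pos, ?_⟩
  have h1 : (q : ℤ) ∣ qs q := by
    rw [Int.natCast_dvd, qs_natAbs]
  simpa using h1

open Classical in
theorem fixed_s {s : ℕ} (hs : 0 < s) {q : ℕ} (hq : q.Prime) (hq2 : q ≠ 2) {ε : ℝ} (hε : 0 < ε) :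
    ∃ Y0 : ℕ, ∀ X Y : ℕ, Y0 ≤ Y → 1 ≤ X → ∀ A : Finset ℕ,
    (∀ n ∈ A, n ≤ X ∧ Y ^ 10 < n ∧ (∃ R : ℕ, R.Prime ∧ n ^ 2 + n + 1 = s * R) ∧
      (∀ l : ℕ, l.Prime → l ∣ n → IsSquare (l : ZMod q))) →
    (#A : ℝ) ≤ ε * X / Real.log Y + s * Y := by
  obtain ⟨c, hc, hsv⟩ := sieve_exp
  obtain ⟨C1, hC1, h1⟩ := mert FP FP_irreducible (by rw [FP_natDegree]; norm_num)
  obtain ⟨C3, h3⟩ := NR_sum hq
  have hlog2 : 0 < Real.log 2 := Real.log_pos (by norm_num)
  have hc0 : (0 : ℝ) < c := by exact_mod_cast hc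
  have hs0r : (0 : ℝ) < s := by exact_mod_cast hs
  set C4 : ℝ := C1 + C3 + (s + 1) with hC4
  set K : ℝ := 4 * s * Real.exp C4 * (8 * c * Real.log 2) with hK
  have hK0 : 0 < K := by positivity
  set δ : ℝ := ε / K with hδ
  have hδ0 : 0 < δ := by positivity
  refine ⟨2 ^ (16 * c) + s + ⌈Real.exp (8 * c * Real.log 2 / δ ^ 2)⌉₊, fun X Y hY0 hX A hA => ?_⟩
  have hX1 : (1 : ℝ) ≤ X := by exact_mod_cast hX
  have hYc : 2 ^ (16 * c) ≤ Y := (Nat.le_add_right _ _).trans ((Nat.le_add_right _ _).trans hY0)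
  have hsY : s ≤ Y := (Nat.le_add_left _ _).trans ((Nat.le_add_right _ _).trans hY0)
  have hYe0 : ⌈Real.exp (8 * c * Real.log 2 / δ ^ 2)⌉₊ ≤ Y := (Nat.le_add_left _ _).trans hY0
  obtain ⟨J, hJ, hJ2, hJ3, hJ4⟩ := exists_level3 (Y := Y) hc hYc
  have hY2 : 2 ^ 1 ≤ Y := le_trans (Nat.pow_le_pow_right (by norm_num) (by omega)) hYc
  have hYpos : 0 < Y := by omega
  have hYr0 : (0 : ℝ) < Y := by exact_mod_cast hYpos
  have hlogY : 0 < Real.log Y := Real.log_pos (by exact_mod_cast (by omega : 1 < Y))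
  have hYe : Real.exp (8 * c * Real.log 2 / δ ^ 2) ≤ Y :=
    (Nat.le_ceil _).trans (by exact_mod_cast hYe0)
  have hlogYe : 8 * c * Real.log 2 / δ ^ 2 ≤ Real.log Y := (Real.le_log_iff_exp_le hYr0).2 hYe
  have hJδ : Real.exp (-(J * Real.log 2 / 2)) ≤ δ := by
    rw [← pow_le_pow_iff_left₀ (Real.exp_pos _).le hδ0.le (by norm_num : 2 ≠ 0)]
    have e1 : Real.exp (-(J * Real.log 2 / 2)) ^ 2 = 1 / 2 ^ J := by
      rw [← Real.exp_nat_mul]
      have : ((2 : ℕ) : ℝ) * -(J * Real.log 2 / 2) = -Real.log (2 ^ J) := by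
        rw [Real.log_pow]; push_cast; ring
      rw [this, Real.exp_neg, Real.exp_log (by positivity), one_div]
    rw [e1]
    refine hJ4.trans ?_
    rw [div_le_iff₀ (by positivity)] at hlogYe
    rw [div_le_iff₀ hlogY]
    linarith
  -- one residue class
  have hclass : ∀ a : ℕ, (#((range (X / s + 1)).filter (fun t => ∀ l ∈ Pr 3 J,
      ¬ (¬ l ∣ s ∧ ((l ∣ (a + s * t) ^ 2 + (a + s * t) + 1) ∨ (rho (fq q) l = 0 ∧ l ∣ a + s * t))))) : ℝ) ≤
      (K * δ / s) * X / Real.log Y + Y := by
    intro a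
    obtain ⟨P, hP⟩ : ∃ P : ℕ → ℕ → Prop, ∀ l t, P l t ↔ (¬ l ∣ s ∧
      ((l ∣ (a + s * t) ^ 2 + (a + s * t) + 1) ∨ (rho (fq q) l = 0 ∧ l ∣ a + s * t))) :=
      ⟨_, fun _ _ => Iff.rfl⟩
    have hper : ∀ l n, P l (n + l) ↔ P l n := by
      intro l n
      rw [hP, hP]
      have h4 : a + s * (n + l) ≡ a + s * n [MOD l] := by
        have h2 : a + s * (n + l) = (a + s * n) + s * l := by ring
        rw [h2]
        exact Nat.add_mul_modulus_modEq_iff.2 rfl
      rw [dvd_val_congr h4, h4.dvd_iff dvd_rfl]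
    have hcard : ∀ l : ℕ, l.Prime → ¬ l ∣ s → #((range l).filter (P l)) =
        rho FP l + (if rho (fq q) l = 0 then 1 else 0) := by
      intro l hl hls
      have h4 : (range l).filter (P l) = (range l).filter (fun t => l ∣ (a + s * t) ^ 2 + (a + s * t) + 1) ∪
          (range l).filter (fun t => rho (fq q) l = 0 ∧ l ∣ a + s * t) := by
        rw [← Finset.filter_or]
        apply Finset.filter_congr
        intro n _
        rw [hP]
        tauto
      rw [h4, card_union_of_disjoint]
      · congr 1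
        · exact card_affine hl hls
        · split_ifs with h5
          · have h6 := card_affine' (a := a) hl hls (fun n => l ∣ n) (fun n => by
              rw [Nat.dvd_mod_iff dvd_rfl])
            have h7 : (range l).filter (fun t => rho (fq q) l = 0 ∧ l ∣ a + s * t) =
                (range l).filter (fun t => l ∣ a + s * t) := by
              apply Finset.filter_congr
              intro n _
              simp [h5]
            rw [h7]
            have h8 : (range l).filter (fun n => l ∣ n) = {0} := by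
              ext n
              simp only [mem_filter, mem_range, mem_singleton]
              constructor
              · rintro ⟨h9, h10⟩
                exact Nat.eq_zero_of_dvd_of_lt h10 h9
              · rintro rfl
                exact ⟨hl.pos, dvd_zero _⟩
            calc #((range l).filter (fun t => l ∣ a + s * t)) = #((range l).filter (fun n => l ∣ n)) := by
                  convert h6
              _ = 1 := by rw [h8, card_singleton]
          · rw [card_eq_zero, Finset.filter_eq_empty_iff]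
            intro t _ h6
            exact h5 h6.1
      · rw [Finset.disjoint_filter]
        intro t _ h4 h5
        have h6 : l ∣ (a + s * t) ^ 2 + (a + s * t) := dvd_add (dvd_pow h5.2 (by norm_num)) h5.2
        have h7 := (Nat.dvd_add_right h6).1 h4
        exact hl.one_lt.ne' (Nat.dvd_one.1 h7)
    have hcard0 : ∀ l : ℕ, l ∣ s → #((range l).filter (P l)) = 0 := by
      intro l hls
      rw [card_eq_zero, Finset.filter_eq_empty_iff]
      intro t _ h4
      exact ((hP l t).1 h4).1 hls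
    have hcard3 : ∀ l : ℕ, l.Prime → #((range l).filter (P l)) ≤ 3 := by
      intro l hl
      by_cases hls : l ∣ s
      · rw [hcard0 l hls]; norm_num
      · rw [hcard l hl hls]
        have := rho_FP_le hl
        split_ifs <;> omega
    have hS : (J * Real.log 2 + J * Real.log 2 / 2) - C4 ≤
        ∑ l ∈ Pr 3 J, (#((range l).filter (P l)) : ℝ) / l := by
      have e1 := (abs_le.1 (h1 J hJ)).1
      have e3 := h3 J hJ
      have e4 : ∑ l ∈ Pr 3 J, ((rho FP l : ℝ) / l + (if rho (fq q) l = 0 then (1 : ℝ) / l else 0)) ≤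
          ∑ l ∈ Pr 3 J, ((#((range l).filter (P l)) : ℝ) / l + (if l ∣ s then 1 else 0)) := by
        apply Finset.sum_le_sum
        intro l hl
        have hl' := (mem_filter.1 hl).2
        have hl6 : (6 : ℝ) ≤ l := by exact_mod_cast (by omega : 6 ≤ l)
        by_cases hls : l ∣ s
        · rw [if_pos hls, hcard0 l hls]
          have h4 : (rho FP l : ℝ) ≤ 2 := by exact_mod_cast rho_FP_le hl'.1
          have h5 : (rho FP l : ℝ) / l ≤ 2 / 6 := by gcongr
          have h6 : (if rho (fq q) l = 0 then (1 : ℝ) / l else 0) ≤ 1 / 6 := by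
            split_ifs
            · gcongr
            · norm_num
          simp only [Nat.cast_zero, zero_div, zero_add]
          linarith
        · rw [if_neg hls, hcard l hl'.1 hls, add_zero]
          split_ifs
          · push_cast; rw [add_div]
          · push_cast; simp
      rw [Finset.sum_add_distrib, Finset.sum_add_distrib, ← Finset.sum_filter] at e4
      have e5 : ∑ l ∈ Pr 3 J, (if l ∣ s then (1 : ℝ) else 0) ≤ s + 1 := by
        rw [← Finset.sum_filter, sum_const, nsmul_eq_mul, mul_one]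
        have : (Pr 3 J).filter (fun l => l ∣ s) ⊆ range (s + 1) := by
          intro l hl
          rw [mem_range]
          exact Nat.lt_succ_of_le (Nat.le_of_dvd hs (mem_filter.1 hl).2)
        have := card_le_card this
        rw [card_range] at this
        exact_mod_cast this
      linarith
    have hmain := hsv P (X / s + 1) J _ hper hcard3 hS
    have hexp : Real.exp (-((J * Real.log 2 + J * Real.log 2 / 2) - C4)) =
        Real.exp C4 * (1 / 2 ^ J) * Real.exp (-(J * Real.log 2 / 2)) := by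
      have e1 : -((J * Real.log 2 + J * Real.log 2 / 2) - C4) =
          C4 + -Real.log (2 ^ J) + -(J * Real.log 2 / 2) := by
        rw [Real.log_pow]; ring
      rw [e1, Real.exp_add, Real.exp_add, Real.exp_neg (Real.log (2 ^ J)), Real.exp_log (by positivity), one_div]
    have hXs : ((X / s + 1 : ℕ) : ℝ) ≤ 2 * X := by
      have : X / s + 1 ≤ 2 * X := by
        have := Nat.div_le_self X s
        omega
      exact_mod_cast this
    have hfil : (range (X / s + 1)).filter (fun t => ∀ l ∈ Pr 3 J,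
      ¬ (¬ l ∣ s ∧ ((l ∣ (a + s * t) ^ 2 + (a + s * t) + 1) ∨ (rho (fq q) l = 0 ∧ l ∣ a + s * t)))) =
      (range (X / s + 1)).filter (fun t => ∀ l ∈ Pr 3 J, ¬ P l t) := by
      apply Finset.filter_congr
      intro t _
      refine forall₂_congr fun l _ => ?_
      rw [hP]
    rw [hfil]
    calc _ ≤ _ := hmain
      _ ≤ 2 * (2 * X) * (Real.exp C4 * (8 * c * Real.log 2 / Real.log Y) * δ) + Y := by
          rw [hexp]
          gcongr
      _ = (K * δ / s) * X / Real.log Y + Y := by
          rw [hK]; field_simp; ring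
  set Rt : Finset ℕ := (range s).filter (fun a => s ∣ a ^ 2 + a + 1) with hRt
  have hsub : A ⊆ Rt.biUnion (fun a => ((range (X / s + 1)).filter (fun t => ∀ l ∈ Pr 3 J,
      ¬ (¬ l ∣ s ∧ ((l ∣ (a + s * t) ^ 2 + (a + s * t) + 1) ∨
        (rho (fq q) l = 0 ∧ l ∣ a + s * t))))).image (fun t => a + s * t)) := by
    intro n hn
    obtain ⟨hnX, hYn, ⟨R, hR, hv⟩, hsqr⟩ := hA n hn
    have hdm : n % s + s * (n / s) = n := Nat.mod_add_div n s
    rw [mem_biUnion]
    refine ⟨n % s, ?_, ?_⟩
    · rw [hRt, mem_filter, mem_range]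
      refine ⟨Nat.mod_lt _ hs, ?_⟩
      rw [dvd_val_congr (Nat.mod_modEq n s), hv]
      exact dvd_mul_right _ _
    · rw [mem_image]
      refine ⟨n / s, ?_, hdm⟩
      simp only [mem_filter, mem_range]
      refine ⟨Nat.lt_succ_of_le (Nat.div_le_div_right hnX), ?_⟩
      intro l hl hbad
      obtain ⟨hls, hbad⟩ := hbad
      rw [hdm] at hbad
      have hlp : l.Prime := (mem_filter.1 hl).2.1
      have hl6 : 6 < l := by have := (mem_filter.1 hl).2.2; omega
      have hlt : l < 2 ^ 2 ^ J := mem_range.1 (mem_filter.1 hl).1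
      rcases hbad with hdvd | ⟨h4, h5⟩
      · rw [hv] at hdvd
        have h6 := (hlp.dvd_mul.1 hdvd).resolve_left hls
        have h7 : l = R := (Nat.prime_dvd_prime_iff_eq hlp hR).1 h6
        have h8 : R < Y := by omega
        have h9 : n ^ 2 + n + 1 ≤ Y * Y := by
          rw [hv]; exact Nat.mul_le_mul hsY h8.le
        have h10 : Y * Y ≤ Y ^ 10 := by
          calc Y * Y = Y ^ 2 := by ring
            _ ≤ Y ^ 10 := Nat.pow_le_pow_right hYpos (by norm_num)
        have : n ≤ n ^ 2 + n + 1 := by omega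
        omega
      · by_cases hlq : l = q
        · subst hlq
          exact rho_fq_self hlp h4
        · exact rho_fq_ne_zero hlp hq (by omega) hq2 hlq (hsqr l hlp h5) h4
  have hRtc : (#Rt : ℝ) ≤ s := by
    have := (card_filter_le (range s) (fun a => s ∣ a ^ 2 + a + 1))
    rw [card_range] at this
    exact_mod_cast this
  calc (#A : ℝ) ≤ ((∑ a ∈ Rt, #((range (X / s + 1)).filter (fun t => ∀ l ∈ Pr 3 J,
      ¬ (¬ l ∣ s ∧ ((l ∣ (a + s * t) ^ 2 + (a + s * t) + 1) ∨
        (rho (fq q) l = 0 ∧ l ∣ a + s * t))))) : ℕ) : ℝ) := by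
        norm_cast
        exact (card_le_card hsub).trans (card_biUnion_le.trans (sum_le_sum fun a _ => card_image_le))
    _ = ∑ a ∈ Rt, (#((range (X / s + 1)).filter (fun t => ∀ l ∈ Pr 3 J,
      ¬ (¬ l ∣ s ∧ ((l ∣ (a + s * t) ^ 2 + (a + s * t) + 1) ∨
        (rho (fq q) l = 0 ∧ l ∣ a + s * t))))) : ℝ) := by push_cast; rfl
    _ ≤ ∑ a ∈ Rt, ((K * δ / s) * X / Real.log Y + Y) := Finset.sum_le_sum fun a _ => hclass a
    _ = #Rt * ((K * δ / s) * X / Real.log Y + Y) := by rw [sum_const, nsmul_eq_mul]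
    _ ≤ s * ((K * δ / s) * X / Real.log Y + Y) := by gcongr
    _ = _ := by
        have : K * δ = ε := by rw [hδ]; field_simp
        rw [this]; field_simp

end Pool.Agent.TH506.APD
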