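import Pool.Agent.TH506.APD.Siv2

set_option autoImplicit false

namespace Pool.Agent.TH506.APD

open Finset Polynomial
open Pool.Agent.H410R2.ED Pool.Agent.H474R2.PG

open Classical in
/-- A9 with `j ≥ j0` -/
theorem A9_tail : ∃ (C : ℝ) (Y0 : ℕ), 0 < C ∧ ∀ X Y w B j0 : ℕ, Y0 ≤ Y → w + 2 ≤ Y → 
    (∀ N : ℕ, 1 ≤ N → N ≤ Y ^ 2 → N.divisors.card ≤ B) → ∀ A : Finset ℕ,
    (∀ n ∈ A, n ≤ X ∧ Y ^ 10 < n ∧ ∃ j R : ℕ, j0 ≤ j ∧ j < w + 2 ∧ R.Prime ∧
      n ^ 2 + n + 1 = (j * (j - 1) + 1) * R) →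
    (#A : ℝ) ≤ C * X / Real.log Y * (∑ j ∈ Ico j0 (w + 2),
      (((j * (j - 1) + 1).divisors.card : ℝ) ^ 2 / ((j * (j - 1) + 1 : ℕ) : ℝ))) +
      (w + 2) * (C * B ^ 2 + 4 * B * Y) := by
  obtain ⟨c, hc, hsv⟩ := sieve_core
  obtain ⟨C1, hC1, hprod⟩ := prod_bound
  have hlog2 : 0 < Real.log 2 := Real.log_pos (by norm_num)
  set K : ℝ := 32 * c * C1 * Real.log 2 with hK
  have hc0 : (0 : ℝ) < c := by exact_mod_cast hc
  have hK0 : 0 < K := by positivity
  refine ⟨K, 2 ^ (8 * c), by positivity, fun X Y w B j0 hY0 hwY hτ A hA => ?_⟩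
  obtain ⟨J, hJ1, hJ2, hJ3, hJ4⟩ := exists_level hc hY0
  have hY8 : 2 ^ 8 ≤ Y := le_trans (Nat.pow_le_pow_right (by norm_num) (by omega)) hY0
  have hYpos : 0 < Y := by omega
  have hY3 : (3 : ℝ) ≤ Y := by exact_mod_cast (by omega : 3 ≤ Y)
  have hlogY : 1 ≤ Real.log Y := by
    rw [Real.le_log_iff_exp_le (by linarith)]
    have := Real.exp_one_lt_d9
    linarith
  -- one value of `j`
  have hone : ∀ j ∈ Ico j0 (w + 2), (#(A.filter (fun n => ∃ R : ℕ, R.Prime ∧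
      n ^ 2 + n + 1 = (j * (j - 1) + 1) * R)) : ℝ) ≤
      K / Real.log Y * (X * (((j * (j - 1) + 1).divisors.card : ℝ) ^ 2 / ((j * (j - 1) + 1 : ℕ) : ℝ)) + B ^ 2) +
        4 * B * Y := by
    intro j hj
    replace hj : j < w + 2 := (mem_Ico.1 hj).2
    set s := j * (j - 1) + 1 with hs
    have hs0 : 0 < s := by omega
    have hsr : (0 : ℝ) < s := by exact_mod_cast hs0
    have hsY : s ≤ Y ^ 2 := by
      have h1 : j * (j - 1) ≤ (Y - 1) * (Y - 1) := Nat.mul_le_mul (by omega) (by omega)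
      obtain ⟨y, rfl⟩ : ∃ y, Y = y + 1 := ⟨Y - 1, by omega⟩
      simp only [Nat.add_sub_cancel] at h1
      have h2 : (y + 1) ^ 2 = y * y + 2 * y + 1 := by ring
      rw [h2, hs]
      omega
    have hτs := hτ s (by omega) hsY
    set Rt : Finset ℕ := (range s).filter (fun a => s ∣ a ^ 2 + a + 1) with hRt
    set St : ℕ → Finset ℕ := fun a => (range (X / s + 1)).filter (fun t => ∀ l ∈ Pr 2 J, ¬ l ∣ s →
      ¬ l ∣ (a + s * t) ^ 2 + (a + s * t) + 1) with hSt
    have hsub : A.filter (fun n => ∃ R : ℕ, R.Prime ∧ n ^ 2 + n + 1 = s * R) ⊆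
        Rt.biUnion (fun a => (St a).image (fun t => a + s * t)) := by
      intro n hn
      rw [mem_filter] at hn
      obtain ⟨hnA, R, hR, hv⟩ := hn
      obtain ⟨hnX, hYn, _⟩ := hA n hnA
      have hdm : n % s + s * (n / s) = n := Nat.mod_add_div n s
      rw [mem_biUnion]
      refine ⟨n % s, ?_, ?_⟩
      · rw [hRt, mem_filter, mem_range]
        refine ⟨Nat.mod_lt _ hs0, ?_⟩
        rw [dvd_val_congr (Nat.mod_modEq n s), hv]
        exact dvd_mul_right _ _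
      · rw [mem_image]
        refine ⟨n / s, ?_, hdm⟩
        rw [hSt]
        simp only [mem_filter, mem_range]
        refine ⟨Nat.lt_succ_of_le (Nat.div_le_div_right hnX), ?_⟩
        intro l hl hls hdvd
        rw [hdm, hv] at hdvd
        have hlp : l.Prime := (mem_filter.1 hl).2.1
        have hlt : l < 2 ^ 2 ^ J := mem_range.1 (mem_filter.1 hl).1
        have h1 := (hlp.dvd_mul.1 hdvd).resolve_left hls
        have h2 : l = R := (Nat.prime_dvd_prime_iff_eq hlp hR).1 h1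
        -- `R` is large
        have h3 : R < Y := by omega
        have h4 : n ^ 2 + n + 1 < Y ^ 2 * Y := by
          rw [hv]
          calc s * R ≤ Y ^ 2 * R := Nat.mul_le_mul_right _ hsY
            _ < Y ^ 2 * Y := by gcongr
        have h5 : Y ^ 2 * Y ≤ Y ^ 10 := by
          calc Y ^ 2 * Y = Y ^ 3 := by ring
            _ ≤ Y ^ 10 := Nat.pow_le_pow_right hYpos (by norm_num)
        have : n ≤ n ^ 2 + n + 1 := by omega
        omega
    have hRtc : (#Rt : ℝ) ≤ 4 * s.divisors.card := by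
      have h1 := count_dvd (X := s) hs0 Rt (fun x hx => (mem_range.1 (mem_filter.1 hx).1).le)
        (fun x hx => (mem_filter.1 hx).2)
      have h2 : 3 * (s : ℝ) / s + 1 = 4 := by field_simp; norm_num
      rw [h2] at h1
      linarith
    have hStc : ∀ a ∈ Rt, (#(St a) : ℝ) ≤
        2 * (X / s + 1) * (C1 * s.divisors.card * (4 * c * Real.log 2 / Real.log Y)) + Y := by
      intro a _
      have h1 := hsv s a (X / s + 1) J
      have h2 := hprod s J hs0 hJ1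
      have h3 : ((X / s + 1 : ℕ) : ℝ) ≤ X / s + 1 := by
        push_cast
        gcongr
        exact Nat.cast_div_le
      have h4 : C1 * (s.divisors.card : ℝ) / 2 ^ J ≤ C1 * s.divisors.card * (4 * c * Real.log 2 / Real.log Y) := by
        calc C1 * (s.divisors.card : ℝ) / 2 ^ J = C1 * s.divisors.card * (1 / 2 ^ J) := by ring
          _ ≤ _ := by gcongr
      have h5 : (0 : ℝ) ≤ C1 * s.divisors.card * (4 * c * Real.log 2 / Real.log Y) := by positivity
      have h6 : 2 * ((X / s + 1 : ℕ) : ℝ) * ∏ l ∈ (Pr 2 J).filter (fun l => ¬ l ∣ s), (1 - (rho FP l : ℝ) / l) ≤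
          2 * (X / s + 1) * (C1 * s.divisors.card * (4 * c * Real.log 2 / Real.log Y)) := by
        calc _ ≤ 2 * ((X / s + 1 : ℕ) : ℝ) * (C1 * s.divisors.card * (4 * c * Real.log 2 / Real.log Y)) := by
              apply mul_le_mul_of_nonneg_left (h2.trans h4) (by positivity)
          _ ≤ _ := by gcongr
      calc (#(St a) : ℝ) ≤ _ := h1
        _ ≤ _ := add_le_add h6 hJ2
    calc (#(A.filter (fun n => ∃ R : ℕ, R.Prime ∧ n ^ 2 + n + 1 = s * R)) : ℝ)
        ≤ ((∑ a ∈ Rt, #(St a) : ℕ) : ℝ) := by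
          norm_cast
          exact (card_le_card hsub).trans (card_biUnion_le.trans (sum_le_sum fun a _ => card_image_le))
      _ = ∑ a ∈ Rt, (#(St a) : ℝ) := by push_cast; rfl
      _ ≤ ∑ a ∈ Rt, (2 * (X / s + 1) * (C1 * s.divisors.card * (4 * c * Real.log 2 / Real.log Y)) + Y) :=
          Finset.sum_le_sum hStc
      _ = #Rt * (2 * (X / s + 1) * (C1 * s.divisors.card * (4 * c * Real.log 2 / Real.log Y)) + Y) := by
          rw [sum_const, nsmul_eq_mul]
      _ ≤ (4 * s.divisors.card) * (2 * (X / s + 1) * (C1 * s.divisors.card * (4 * c * Real.log 2 / Real.log Y)) + Y) := by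
          gcongr
      _ = K / Real.log Y * (X * ((s.divisors.card : ℝ) ^ 2 / s) + (s.divisors.card : ℝ) ^ 2) +
          4 * s.divisors.card * Y := by
          rw [hK]; field_simp; ring
      _ ≤ K / Real.log Y * (X * ((s.divisors.card : ℝ) ^ 2 / s) + (B : ℝ) ^ 2) + 4 * B * Y := by
          have : (s.divisors.card : ℝ) ≤ B := by exact_mod_cast hτs
          gcongr
  have hcov : A ⊆ (Ico j0 (w + 2)).biUnion (fun j => A.filter (fun n => ∃ R : ℕ, R.Prime ∧
      n ^ 2 + n + 1 = (j * (j - 1) + 1) * R)) := by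
    intro n hn
    obtain ⟨_, _, j, R, h0, h1, h2, h3⟩ := hA n hn
    rw [mem_biUnion]
    exact ⟨j, mem_Ico.2 ⟨h0, h1⟩, mem_filter.2 ⟨hn, R, h2, h3⟩⟩
  have hcI : (#(Ico j0 (w + 2)) : ℝ) ≤ w + 2 := by
    have : #(Ico j0 (w + 2)) ≤ w + 2 := by rw [Nat.card_Ico]; omega
    exact_mod_cast this
  calc (#A : ℝ) ≤ ((∑ j ∈ Ico j0 (w + 2), #(A.filter (fun n => ∃ R : ℕ, R.Prime ∧
      n ^ 2 + n + 1 = (j * (j - 1) + 1) * R)) : ℕ) : ℝ) := by
        norm_cast
        exact (card_le_card hcov).trans card_biUnion_le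
    _ = ∑ j ∈ Ico j0 (w + 2), (#(A.filter (fun n => ∃ R : ℕ, R.Prime ∧
      n ^ 2 + n + 1 = (j * (j - 1) + 1) * R)) : ℝ) := by push_cast; rfl
    _ ≤ ∑ j ∈ Ico j0 (w + 2), (K / Real.log Y * (X * (((j * (j - 1) + 1).divisors.card : ℝ) ^ 2 / ((j * (j - 1) + 1 : ℕ) : ℝ)) + B ^ 2) +
        4 * B * Y) := Finset.sum_le_sum hone
    _ = K / Real.log Y * (X * ∑ j ∈ Ico j0 (w + 2), (((j * (j - 1) + 1).divisors.card : ℝ) ^ 2 / ((j * (j - 1) + 1 : ℕ) : ℝ)))
        + #(Ico j0 (w + 2)) * (K / Real.log Y * B ^ 2 + 4 * B * Y) := by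
        rw [Finset.sum_add_distrib, ← Finset.mul_sum, Finset.sum_add_distrib, ← Finset.mul_sum,
          sum_const, sum_const, nsmul_eq_mul, nsmul_eq_mul]
        ring
    _ ≤ K / Real.log Y * (X * ∑ j ∈ Ico j0 (w + 2), (((j * (j - 1) + 1).divisors.card : ℝ) ^ 2 / ((j * (j - 1) + 1 : ℕ) : ℝ)))
        + (w + 2) * (K / 1 * B ^ 2 + 4 * B * Y) := by
        gcongr
    _ = _ := by ring

/-- the tails of the series -/
lemma series_tail {δ : ℝ} (hδ : 0 < δ) : ∃ j0 : ℕ, ∀ N : ℕ, ∑ j ∈ Ico j0 N,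
    (((j * (j - 1) + 1).divisors.card : ℝ) ^ 2 / ((j * (j - 1) + 1 : ℕ) : ℝ)) ≤ δ := by
  obtain ⟨C, hC, h⟩ := series_s
  set f : ℕ → ℝ := fun j => ((j * (j - 1) + 1).divisors.card : ℝ) ^ 2 / ((j * (j - 1) + 1 : ℕ) : ℝ) with hf
  have hf0 : ∀ j, 0 ≤ f j := fun j => by positivity
  have hsum : Summable f := summable_of_sum_range_le hf0 h
  have ht := (tendsto_sum_nat_add f).eventually (gt_mem_nhds hδ)
  obtain ⟨j0, hj0⟩ := Filter.eventually_atTop.1 ht
  refine ⟨j0, fun N => ?_⟩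
  rw [Finset.sum_Ico_eq_sum_range]
  have h1 : Summable (fun k => f (k + j0)) := (summable_nat_add_iff j0).2 hsum
  have h2 : ∑ k ∈ range (N - j0), f (k + j0) ≤ ∑' k, f (k + j0) :=
    h1.sum_le_tsum _ (fun i _ => hf0 _)
  have h3 : ∑ k ∈ range (N - j0), f (j0 + k) = ∑ k ∈ range (N - j0), f (k + j0) :=
    Finset.sum_congr rfl fun k _ => by rw [add_comm]
  calc _ = ∑ k ∈ range (N - j0), f (j0 + k) := rfl
    _ ≤ δ := by
      rw [h3]
      exact h2.trans (hj0 j0 le_rfl).le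

end Pool.Agent.TH506.APD
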