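import Pool.Agent.TH506.APD.Main
import Pool.Agent.TH506.APD.Ord3
import Pool.Agent.TH506.APD.Fix
import Pool.Agent.TH506.APD.Tail
import Pool.Agent.TH506.APD.Alg2

/-!
The cover of the orders that are not prime powers, `n ^ 2 + n + 1` composite.
-/

set_option autoImplicit false

namespace Pool.Agent.TH506.APD

open Finset Pool.Agent.H152R2 Filter Topology

def Q5 (Y w n : ℕ) : Prop := ∃ p f r r' : ℕ, p.Prime ∧ p ≤ 2 * Y ^ 10 ∧ p ∣ n ∧ 0 < f ∧ f ≤ Y ∧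
      r ∈ ordSet p f (w ^ 2) ∧ r' ∈ ordSet p f (w ^ 2) ∧ r ≠ r' ∧ r ≤ Y ^ 4 ∧ r' ≤ Y ^ 4 ∧
      r ∣ n ^ 2 + n + 1 ∧ r' ∣ n ^ 2 + n + 1
def Q6 (Y z n : ℕ) : Prop := ∃ p f r : ℕ, p.Prime ∧ p ≤ 2 * Y ^ 10 ∧ p ∣ n ∧ 0 < f ∧ f ≤ Y ∧
      r ∈ ordSet p f z ∧ Y ^ 4 ≤ r ∧ r ∣ n ^ 2 + n + 1
def QR (Y w n : ℕ) : Prop := (∀ l : ℕ, l.Prime → l ∣ n → Y < l) ∧
      (∀ l : ℕ, l.Prime → l ∣ n ^ 2 + n + 1 → l ≤ w ^ 2 ∨ Y < l)

theorem cover_rough {Y w n : ℕ} (hw : 1 ≤ w) (hwY : w + 2 ≤ Y) (hn : IsOrd n) (hnX : n ≤ 2 * Y ^ 20)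
    (hYn : Y ^ 10 < n) (hE : ¬ E1 (w ^ 2) n) (hrough : ∀ p : ℕ, p.Prime → p ∣ n → Y < p)
    (hnp : ¬ n.Prime)
    (hA3 : ¬ ∃ s : ℕ, s ∣ n ^ 2 + n + 1 ∧ Y < s ∧ ∀ q : ℕ, q.Prime → q ∣ s → q ≤ w ^ 2)
    (hA4 : ¬ ∃ r : ℕ, r.Prime ∧ w ^ 2 < r ∧ r ≤ Y ^ 6 ∧ r ^ 2 ∣ n ^ 2 + n + 1) :
    Q5 Y w n ∨ Q6 Y (w ^ 2) n ∨ QR Y w n := by
  have hY0 : 0 < Y := by omega
  have hn0 : 0 < n := by omega
  have hYn' : Y < n := lt_of_le_of_lt (Nat.le_self_pow (by norm_num) Y) hYn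
  have hnv : n < n ^ 2 + n + 1 := by nlinarith [sq_nonneg n]
  have hn1 : n ≠ 1 := by omega
  obtain ⟨p, hpdef⟩ : ∃ p : ℕ, p = n.minFac := ⟨_, rfl⟩
  have hp : p.Prime := by rw [hpdef]; exact Nat.minFac_prime hn1
  have hpn : p ∣ n := by rw [hpdef]; exact Nat.minFac_dvd n
  have hp2 : p ^ 2 ≤ n := by rw [hpdef]; exact Nat.minFac_sq_le_self hn0 hnp
  have hpY : p ≤ 2 * Y ^ 10 := by
    by_contra hcon
    push Not at hcon
    have h1 : (2 * Y ^ 10) ^ 2 < p ^ 2 := Nat.pow_lt_pow_left hcon (by norm_num)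
    have h2 : (2 * Y ^ 10) ^ 2 = 4 * Y ^ 20 := by ring
    omega
  obtain ⟨G, _, D, hD⟩ := hn
  obtain ⟨f, s, R, j, hf0, hv, hs, hR, hjs, hjn, hd1, hsv, hd2⟩ :=
    structure_of hD hn0 hp hpn hE
  have hsY : s ≤ Y := by
    by_contra hcon
    exact hA3 ⟨s, by rw [hv]; exact dvd_mul_right _ _, not_le.1 hcon, hs⟩
  have hR0 : R ≠ 0 := by rintro rfl; simp at hv
  have hR1 : R ≠ 1 := by rintro rfl; omega
  have hT : ∀ r : ℕ, r.Prime → r ∣ R → r ∈ ordSet p f (w ^ 2) := fun r hr hrR =>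
    mem_ordSet_of hp.two_le hf0 hr (hR r hr hrR).1 (hR r hr hrR).2
  have hRv : R ∣ n ^ 2 + n + 1 := by rw [hv]; exact dvd_mul_left _ _
  rcases le_or_gt f Y with hf | hf
  · by_cases hbig : ∃ r : ℕ, r.Prime ∧ r ∣ R ∧ Y ^ 4 ≤ r
    · obtain ⟨r, h1, h2, h3⟩ := hbig
      right; left
      exact ⟨p, f, r, hp, hpY, hpn, hf0, hf, hT r h1 h2, h3, h2.trans hRv⟩
    · push Not at hbig
      left
      have hr := Nat.minFac_prime hR1
      set r := R.minFac with hrdef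
      obtain ⟨R1, hR1'⟩ := Nat.minFac_dvd R
      rw [← hrdef] at hR1'
      have hrR : r ∣ R := Dvd.intro _ hR1'.symm
      have hrY := hbig r hr hrR
      have hne1 : R1 ≠ 1 := by
        rintro rfl
        rw [mul_one] at hR1'
        have h1 : s * R ≤ Y * Y ^ 4 := Nat.mul_le_mul hsY (by rw [hR1']; exact hrY.le)
        have h2 : Y * Y ^ 4 ≤ Y ^ 10 := by
          calc Y * Y ^ 4 = Y ^ 5 := by ring
            _ ≤ Y ^ 10 := Nat.pow_le_pow_right hY0 (by norm_num)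
        omega
      have hr' := Nat.minFac_prime hne1
      have hr'R : R1.minFac ∣ R := (Nat.minFac_dvd R1).trans (Dvd.intro_left _ hR1'.symm)
      refine ⟨p, f, r, R1.minFac, hp, hpY, hpn, hf0, hf, hT r hr hrR, hT _ hr' hr'R, ?_, hrY.le,
        (hbig _ hr' hr'R).le, hrR.trans hRv, hr'R.trans hRv⟩
      intro he
      apply hA4
      refine ⟨r, hr, (hR r hr hrR).1, hrY.le.trans (Nat.pow_le_pow_right hY0 (by norm_num)), ?_⟩
      have h1 : r * r ∣ R := by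
        conv_rhs => rw [hR1']
        exact Nat.mul_dvd_mul_left r (he ▸ Nat.minFac_dvd R1)
      rw [pow_two]
      exact h1.trans hRv
  · right; right
    refine ⟨hrough, fun l hl hlv => ?_⟩
    rw [hv] at hlv
    rcases hl.dvd_mul.1 hlv with h1 | h1
    · exact Or.inl (hs l hl h1)
    · right
      have h2 := ordSet_dvd hf0 (hT l hl h1)
      have h3 := Nat.le_of_dvd (by have := hl.two_le; omega) h2
      omega

/-- the cases with a small prime factor and `j ≥ 2` -/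
def PT (w j0 n : ℕ) : Prop := ∃ j R : ℕ, j0 ≤ j ∧ j < w + 2 ∧ R.Prime ∧
      n ^ 2 + n + 1 = (j * (j - 1) + 1) * R
def PJ (j n : ℕ) : Prop := (∃ R : ℕ, R.Prime ∧ n ^ 2 + n + 1 = (j * (j - 1) + 1) * R) ∧
      (∀ l : ℕ, l.Prime → l ∣ n → IsSquare (l : ZMod (j * (j - 1) + 1).minFac))

theorem cover2 {Y w n : ℕ} (j0 : ℕ) (hw : 1 ≤ w) (hwY : w + 2 ≤ Y) (hn : IsOrd n) (hnX : n ≤ 2 * Y ^ 20)
    (hnp : ¬ IsPrimePow n) (hvp : ¬ (n ^ 2 + n + 1).Prime) :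
    n ≤ Y ^ 10 ∨ IsSquare n ∨ E1 (w ^ 2) n ∨
    (∃ s : ℕ, s ∣ n ^ 2 + n + 1 ∧ Y < s ∧ ∀ q : ℕ, q.Prime → q ∣ s → q ≤ w ^ 2) ∨
    (∃ r : ℕ, r.Prime ∧ w ^ 2 < r ∧ r ≤ Y ^ 6 ∧ r ^ 2 ∣ n ^ 2 + n + 1) ∨
    P5 Y w n ∨ P6 Y (w ^ 2) n ∨ P7 Y (w ^ 2) (w + 2) n ∨ P8 Y (w + 2) n ∨
    Q5 Y w n ∨ Q6 Y (w ^ 2) n ∨ QR Y w n ∨
    (Y ^ 10 < n ∧ PT w j0 n) ∨ (∃ j : ℕ, 2 ≤ j ∧ j < j0 ∧ Y ^ 10 < n ∧ PJ j n) := by
  by_cases hr : ∀ p : ℕ, p.Prime → p ∣ n → Y < p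
  · rcases le_or_gt n (Y ^ 10) with h1 | h1
    · exact Or.inl h1
    by_cases h3 : E1 (w ^ 2) n
    · exact Or.inr (Or.inr (Or.inl h3))
    by_cases h4 : ∃ s : ℕ, s ∣ n ^ 2 + n + 1 ∧ Y < s ∧ ∀ q : ℕ, q.Prime → q ∣ s → q ≤ w ^ 2
    · exact Or.inr (Or.inr (Or.inr (Or.inl h4)))
    by_cases h5 : ∃ r : ℕ, r.Prime ∧ w ^ 2 < r ∧ r ≤ Y ^ 6 ∧ r ^ 2 ∣ n ^ 2 + n + 1
    · exact Or.inr (Or.inr (Or.inr (Or.inr (Or.inl h5))))
    rcases cover_rough hw hwY hn hnX h1 h3 hr (fun hp => hnp hp.isPrimePow) h4 h5 with h | h | h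
    · exact Or.inr (Or.inr (Or.inr (Or.inr (Or.inr (Or.inr (Or.inr (Or.inr (Or.inr (Or.inl h)))))))))
    · exact Or.inr (Or.inr (Or.inr (Or.inr (Or.inr (Or.inr (Or.inr (Or.inr (Or.inr (Or.inr (Or.inl h))))))))))
    · exact Or.inr (Or.inr (Or.inr (Or.inr (Or.inr (Or.inr (Or.inr (Or.inr (Or.inr (Or.inr (Or.inr (Or.inl h)))))))))))
  · by_cases hsq : IsSquare n
    · exact Or.inr (Or.inl hsq)
    have h := cover hw hwY hn
    rcases h with h | h | h | h | h | h | h | h | h | h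
    · exact Or.inl h
    · exact absurd h hr
    · exact Or.inr (Or.inr (Or.inl h))
    · exact Or.inr (Or.inr (Or.inr (Or.inl h)))
    · exact Or.inr (Or.inr (Or.inr (Or.inr (Or.inl h))))
    · exact Or.inr (Or.inr (Or.inr (Or.inr (Or.inr (Or.inl h)))))
    · exact Or.inr (Or.inr (Or.inr (Or.inr (Or.inr (Or.inr (Or.inl h))))))
    · exact Or.inr (Or.inr (Or.inr (Or.inr (Or.inr (Or.inr (Or.inr (Or.inl h)))))))
    · exact Or.inr (Or.inr (Or.inr (Or.inr (Or.inr (Or.inr (Or.inr (Or.inr (Or.inl h))))))))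
    · obtain ⟨h1, j, R, hj, hR, hv⟩ := h
      have hj2 : 2 ≤ j := by
        by_contra hcon
        apply hvp
        have h2 : j * (j - 1) = 0 := by
          have : j = 0 ∨ j = 1 := by omega
          rcases this with rfl | rfl <;> rfl
        rw [hv, h2, zero_add, one_mul]
        exact hR
      rcases le_or_gt j0 j with h2 | h2
      · have h3 : PT w j0 n := ⟨j, R, h2, hj, hR, hv⟩
        exact Or.inr (Or.inr (Or.inr (Or.inr (Or.inr (Or.inr (Or.inr (Or.inr (Or.inr (Or.inr (Or.inr (Or.inr (Or.inl ⟨h1, h3⟩))))))))))))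
      · have hs1 : j * (j - 1) + 1 ≠ 1 := by
          have : 0 < j * (j - 1) := Nat.mul_pos (by omega) (by omega)
          omega
        have hPJ : PJ j n := by
          refine ⟨⟨R, hR, hv⟩, fun l hl hln => ?_⟩
          obtain ⟨G, _, D, hD⟩ := hn
          have hn2 : 2 ≤ n := by
            have := Nat.one_le_pow 10 Y (by omega)
            omega
          exact isSquare_of_dvd hD hn2 hsq hl hln (Nat.minFac_prime hs1)
            ((Nat.minFac_dvd _).trans (by rw [hv]; exact dvd_mul_right _ _))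
        exact Or.inr (Or.inr (Or.inr (Or.inr (Or.inr (Or.inr (Or.inr (Or.inr (Or.inr (Or.inr (Or.inr (Or.inr (Or.inr (⟨j, hj2, h2, h1, hPJ⟩)))))))))))))

end Pool.Agent.TH506.APD
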