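import Pool.Agent.TH506.APD.Smo
import Pool.Agent.Helper923.PPS.Rough

/-!
Abelian planar difference sets: the number of orders up to `X` is `O(X / log X)`.
-/

set_option autoImplicit false

namespace Pool.Agent.TH506.APD

open Finset Pool.Agent.H152R2 Filter Topology

/-- `n` is the order of an abelian planar difference set -/
def IsOrd (n : ℕ) : Prop := ∃ (G : Type) (_ : AddCommGroup G) (D : Finset G), IsPDS n D

/-- the cover -/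
lemma cover {Y w n : ℕ} (hw : 1 ≤ w) (hwY : w + 2 ≤ Y) (hn : IsOrd n) :
    n ≤ Y ^ 10 ∨ (∀ p : ℕ, p.Prime → p ∣ n → Y < p) ∨ E1 (w ^ 2) n ∨
    (∃ s : ℕ, s ∣ n ^ 2 + n + 1 ∧ Y < s ∧ ∀ q : ℕ, q.Prime → q ∣ s → q ≤ w ^ 2) ∨
    (∃ r : ℕ, r.Prime ∧ w ^ 2 < r ∧ r ≤ Y ^ 6 ∧ r ^ 2 ∣ n ^ 2 + n + 1) ∨
    P5 Y w n ∨ P6 Y (w ^ 2) n ∨ P7 Y (w ^ 2) (w + 2) n ∨ P8 Y (w + 2) n ∨
    (Y ^ 10 < n ∧ P9 (w + 2) n) := by
  rcases le_or_gt n (Y ^ 10) with h1 | h1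
  · exact Or.inl h1
  right
  by_cases h2 : ∀ p : ℕ, p.Prime → p ∣ n → Y < p
  · exact Or.inl h2
  right
  push Not at h2
  obtain ⟨p, hp, hpn, hpY⟩ := h2
  by_cases h3 : E1 (w ^ 2) n
  · exact Or.inl h3
  right
  obtain ⟨G, _, D, hD⟩ := hn
  obtain ⟨f, s, R, j, hf0, hv, hs, hR, hjs, hjn, hd1, hsv, hd2⟩ :=
    structure_of hD (by omega) hp hpn h3
  rcases lt_or_ge Y s with h4 | h4
  · left
    exact ⟨s, by rw [hv]; exact dvd_mul_right _ _, h4, hs⟩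
  right
  by_cases h5 : ∃ r : ℕ, r.Prime ∧ w ^ 2 < r ∧ r ≤ Y ^ 6 ∧ r ^ 2 ∣ n ^ 2 + n + 1
  · exact Or.inl h5
  right
  rcases classify hw hwY h1 hp hpY hpn h3 hf0 hv hR hjs hjn hd1 hd2 h4 h5 with h | h | h | h | h
  · exact Or.inl h
  · exact Or.inr (Or.inl h)
  · exact Or.inr (Or.inr (Or.inl h))
  · exact Or.inr (Or.inr (Or.inr (Or.inl h)))
  · exact Or.inr (Or.inr (Or.inr (Or.inr ⟨h1, h⟩)))

open Classical in
/-- the combined count, all parameters free -/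
theorem combined : ∃ (C : ℝ) (Y0 : ℕ), 1 ≤ C ∧ ∀ X Y w L B : ℕ, Y0 ≤ Y → 2 ≤ Y → 1 ≤ w → w + 2 ≤ B →
    B ≤ Y → Y < 2 ^ L → Y ^ 20 ≤ X → X ≤ 2 * Y ^ 20 → Y * w ^ 2 ≤ X →
    (∀ N : ℕ, 1 ≤ N → N ≤ X ^ 5 → N.divisors.card ≤ B) →
    (#((Icc 2 X).filter IsOrd) : ℝ) ≤
      (Y : ℝ) ^ 10 + C * X / Real.log Y +
      C * (X * (w : ℝ) ^ (-(1 / 2) : ℝ) + (X : ℝ) ^ (3 / 4 : ℝ)) +
      C * X * (Y : ℝ) ^ (-(1 / 64) : ℝ) *
        Real.exp (3 * ((w ^ 2 : ℕ) : ℝ) ^ (1 / 32 : ℝ) * (1 + Real.log ((w ^ 2 : ℕ) : ℝ))) +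
      (9 * X / ((w ^ 2 : ℕ) : ℝ) + 3 * (Y : ℝ) ^ 6) +
      8 * X * (1 + Real.log ((X ^ 2 + X + 1 : ℕ) : ℝ)) *
        (L ^ 2 + (1 + Real.log ((X ^ 2 + X + 1 : ℕ) : ℝ)) ^ 2) / w +
      8 * L * X / Y +
      2 * B * (1 + Real.log ((X ^ 2 + X + 1 : ℕ) : ℝ) + L) * X / Y +
      148 * (B : ℝ) ^ 2 * (Y : ℝ) ^ 18 +
      (C * X / Real.log Y + B * (C * B ^ 2 + 4 * B * Y)) := by
  obtain ⟨C1, hC1, hrough⟩ := Pool.Agent.Helper923.PPS.rough_count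
  obtain ⟨C2, hC2, hE1⟩ := A2_count
  obtain ⟨C3, hC3, hA3⟩ := A3_count
  obtain ⟨C9, Y0, hC9, hA9⟩ := A9_count
  refine ⟨C1 + C2 + C3 + C9, Y0, by linarith, fun X Y w L B hY0 hY2 hw hwB hBY hL hX1 hX2 hYw hτ => ?_⟩
  have hC1' : C1 ≤ C1 + C2 + C3 + C9 := by linarith
  have hC2' : C2 ≤ C1 + C2 + C3 + C9 := by linarith
  have hC3' : C3 ≤ C1 + C2 + C3 + C9 := by linarith
  have hC9' : C9 ≤ C1 + C2 + C3 + C9 := by linarith
  set C := C1 + C2 + C3 + C9 with hC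
  have hY0' : 0 < Y := by omega
  have hYr : (1 : ℝ) ≤ Y := by exact_mod_cast hY0'
  have hX0 : 1 ≤ X := le_trans (Nat.one_le_pow _ _ hY0') hX1
  have hYX : Y ≤ X := le_trans (Nat.le_self_pow (by norm_num) Y) hX1
  have hXr : (1 : ℝ) ≤ X := by exact_mod_cast hX0
  have hlogY : 0 < Real.log Y := Real.log_pos (by exact_mod_cast hY2)
  have hwr : (1 : ℝ) ≤ w := by exact_mod_cast hw
  set V := X ^ 2 + X + 1 with hV
  set H : ℝ := 1 + Real.log (V : ℝ) with hH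
  have hHs : ∑ k ∈ Icc 1 V, (1 : ℝ) / k ≤ H := by
    have h := harmonic_le_one_add_log V
    rw [harmonic_eq_sum_Icc] at h
    push_cast at h
    simpa [one_div] using h
  have hYV : Y ^ 6 ≤ V := by
    calc Y ^ 6 ≤ Y ^ 20 := Nat.pow_le_pow_right hY0' (by norm_num)
      _ ≤ X := hX1
      _ ≤ V := by rw [hV]; omega
  set N : Finset ℕ := (Icc 2 X).filter IsOrd with hN
  have hNm : ∀ n ∈ N, 2 ≤ n ∧ n ≤ X ∧ IsOrd n := by
    intro n hn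
    rw [hN, mem_filter, mem_Icc] at hn
    exact ⟨hn.1.1, hn.1.2, hn.2⟩
  have hwY : w + 2 ≤ Y := by omega
  -- the parts
  set N0 := N.filter (fun n => n ≤ Y ^ 10) with hN0
  set N1 := N.filter (fun n => ∀ p : ℕ, p.Prime → p ∣ n → Y < p) with hN1
  set N2 := N.filter (fun n => E1 (w ^ 2) n) with hN2
  set N3 := N.filter (fun n => ∃ s : ℕ, s ∣ n ^ 2 + n + 1 ∧ Y < s ∧ ∀ q : ℕ, q.Prime → q ∣ s → q ≤ w ^ 2) with hN3
  set N4 := N.filter (fun n => ∃ r : ℕ, r.Prime ∧ w ^ 2 < r ∧ r ≤ Y ^ 6 ∧ r ^ 2 ∣ n ^ 2 + n + 1) with hN4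
  set N5 := N.filter (fun n => P5 Y w n) with hN5
  set N6 := N.filter (fun n => P6 Y (w ^ 2) n) with hN6
  set N7 := N.filter (fun n => P7 Y (w ^ 2) (w + 2) n) with hN7
  set N8 := N.filter (fun n => P8 Y (w + 2) n) with hN8
  set N9 := N.filter (fun n => Y ^ 10 < n ∧ P9 (w + 2) n) with hN9
  have hcov : N ⊆ N0 ∪ (N1 ∪ (N2 ∪ (N3 ∪ (N4 ∪ (N5 ∪ (N6 ∪ (N7 ∪ (N8 ∪ N9)))))))) := by
    intro n hn
    have h := cover hw hwY (hNm n hn).2.2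
    simp only [mem_union, hN0, hN1, hN2, hN3, hN4, hN5, hN6, hN7, hN8, hN9, mem_filter]
    rcases h with h | h | h | h | h | h | h | h | h | h
    · exact Or.inl ⟨hn, h⟩
    · exact Or.inr (Or.inl ⟨hn, h⟩)
    · exact Or.inr (Or.inr (Or.inl ⟨hn, h⟩))
    · exact Or.inr (Or.inr (Or.inr (Or.inl ⟨hn, h⟩)))
    · exact Or.inr (Or.inr (Or.inr (Or.inr (Or.inl ⟨hn, h⟩))))
    · exact Or.inr (Or.inr (Or.inr (Or.inr (Or.inr (Or.inl ⟨hn, h⟩)))))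
    · exact Or.inr (Or.inr (Or.inr (Or.inr (Or.inr (Or.inr (Or.inl ⟨hn, h⟩))))))
    · exact Or.inr (Or.inr (Or.inr (Or.inr (Or.inr (Or.inr (Or.inr (Or.inl ⟨hn, h⟩)))))))
    · exact Or.inr (Or.inr (Or.inr (Or.inr (Or.inr (Or.inr (Or.inr (Or.inr (Or.inl ⟨hn, h⟩))))))))
    · exact Or.inr (Or.inr (Or.inr (Or.inr (Or.inr (Or.inr (Or.inr (Or.inr (Or.inr ⟨hn, h⟩))))))))
  have hcard : #N ≤ #N0 + #N1 + #N2 + #N3 + #N4 + #N5 + #N6 + #N7 + #N8 + #N9 := by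
    have h0 := (card_le_card hcov).trans (card_union_le _ _)
    have h1 := card_union_le N1 (N2 ∪ (N3 ∪ (N4 ∪ (N5 ∪ (N6 ∪ (N7 ∪ (N8 ∪ N9)))))))
    have h2 := card_union_le N2 (N3 ∪ (N4 ∪ (N5 ∪ (N6 ∪ (N7 ∪ (N8 ∪ N9))))))
    have h3 := card_union_le N3 (N4 ∪ (N5 ∪ (N6 ∪ (N7 ∪ (N8 ∪ N9)))))
    have h4 := card_union_le N4 (N5 ∪ (N6 ∪ (N7 ∪ (N8 ∪ N9))))
    have h5 := card_union_le N5 (N6 ∪ (N7 ∪ (N8 ∪ N9)))
    have h6 := card_union_le N6 (N7 ∪ (N8 ∪ N9))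
    have h7 := card_union_le N7 (N8 ∪ N9)
    have h8 := card_union_le N8 N9
    omega
  have hcardr : (#N : ℝ) ≤ #N0 + #N1 + #N2 + #N3 + #N4 + #N5 + #N6 + #N7 + #N8 + #N9 := by
    exact_mod_cast hcard
  -- the bounds
  have b0 : (#N0 : ℝ) ≤ (Y : ℝ) ^ 10 := by
    have h1 : N0 ⊆ Icc 1 (Y ^ 10) := by
      intro n hn
      rw [hN0, mem_filter] at hn
      have := hNm n hn.1
      rw [mem_Icc]
      exact ⟨by omega, hn.2⟩
    have h2 := card_le_card h1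
    rw [Nat.card_Icc, Nat.add_sub_cancel] at h2
    exact_mod_cast h2
  have b1 : (#N1 : ℝ) ≤ C * X / Real.log Y := by
    have h1 := hrough 1 X Y hY2 hYX
    have h2 : #N1 ≤ #((Finset.range X).filter (fun k => ∀ p : ℕ, p.Prime → p ∣ 1 + k → Y < p)) := by
      apply Finset.card_le_card_of_injOn (fun n => n - 1)
      · intro n hn
        simp only [hN1, coe_filter, Set.mem_ofPred_eq] at hn
        have h3 := hNm n hn.1
        simp only [coe_filter, Set.mem_ofPred_eq, mem_range]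
        refine ⟨by omega, fun p hp hpn => hn.2 p hp ?_⟩
        have : 1 + (n - 1) = n := by omega
        rwa [this] at hpn
      · intro a ha b hb hab
        simp only [hN1, coe_filter, Set.mem_ofPred_eq] at ha hb
        have h3 := hNm a ha.1
        have h4 := hNm b hb.1
        simp only at hab
        omega
    calc (#N1 : ℝ) ≤ _ := by exact_mod_cast h2
      _ ≤ C1 * X / Real.log Y := h1
      _ ≤ _ := by gcongr
  have b2 : (#N2 : ℝ) ≤ C * (X * (w : ℝ) ^ (-(1 / 2) : ℝ) + (X : ℝ) ^ (3 / 4 : ℝ)) := by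
    have h1 := hE1 X w hX0 hw N2 (fun n hn => by
      rw [hN2, mem_filter] at hn
      have := hNm n hn.1
      exact ⟨this.2.1, by omega, hn.2⟩)
    refine h1.trans ?_
    gcongr
  have b3 : (#N3 : ℝ) ≤ C * X * (Y : ℝ) ^ (-(1 / 64) : ℝ) *
        Real.exp (3 * ((w ^ 2 : ℕ) : ℝ) ^ (1 / 32 : ℝ) * (1 + Real.log ((w ^ 2 : ℕ) : ℝ))) := by
    have h1 := hA3 X Y (w ^ 2) hY0' (Nat.one_le_pow _ _ hw) hYw N3 (fun n hn => by
      rw [hN3, mem_filter] at hn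
      exact ⟨(hNm n hn.1).2.1, hn.2⟩)
    refine h1.trans ?_
    gcongr
  have b4 : (#N4 : ℝ) ≤ 9 * X / ((w ^ 2 : ℕ) : ℝ) + 3 * (Y : ℝ) ^ 6 := by
    have h1 := A4_count (X := X) (z := w ^ 2) (W := Y ^ 6) (pow_pos hw 2) N4 (fun n hn => by
      rw [hN4, mem_filter] at hn
      exact ⟨(hNm n hn.1).2.1, hn.2⟩)
    refine h1.trans (le_of_eq ?_)
    push_cast; ring
  have b5 : (#N5 : ℝ) ≤ 8 * X * H * (L ^ 2 + H ^ 2) / w :=
    A5_count hw hY0' hX1 hL hYV hHs N5 (fun n hn => by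
      rw [hN5, mem_filter] at hn
      exact ⟨(hNm n hn.1).2.1, hn.2⟩)
  have b6 : (#N6 : ℝ) ≤ 8 * L * X / Y :=
    A6_count (z := w ^ 2) hY0' hX1 hL N6 (fun n hn => by
      rw [hN6, mem_filter] at hn
      exact ⟨(hNm n hn.1).2.1, hn.2⟩)
  have hlogV : 0 ≤ Real.log (V : ℝ) := Real.log_natCast_nonneg V
  have hH0 : 0 ≤ H := by rw [hH]; linarith
  have b7 : (#N7 : ℝ) ≤ 2 * B * (H + L) * X / Y := by
    have h1 := A7_count (z := w ^ 2) (J := w + 2) hY0' hX1 hL le_rfl hHs N7 (fun n hn => by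
      rw [hN7, mem_filter] at hn
      exact ⟨(hNm n hn.1).2.1, hn.2⟩)
    refine h1.trans ?_
    have : ((w + 2 : ℕ) : ℝ) ≤ B := by exact_mod_cast hwB
    gcongr
  have b8 : (#N8 : ℝ) ≤ 148 * (B : ℝ) ^ 2 * (Y : ℝ) ^ 18 := by
    have h1 := A8_count (J := w + 2) (B := B) hY2 hX1 hX2 hwY hτ N8 (fun n hn => by
      rw [hN8, mem_filter] at hn
      exact ⟨(hNm n hn.1).2.1, hn.2⟩)
    have h2 : 148 * (w + 2) * B * Y ^ 18 ≤ 148 * B ^ 2 * Y ^ 18 := by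
      have : 148 * (w + 2) * B * Y ^ 18 = (w + 2) * (148 * B * Y ^ 18) := by ring
      rw [this]
      calc (w + 2) * (148 * B * Y ^ 18) ≤ B * (148 * B * Y ^ 18) := Nat.mul_le_mul_right _ hwB
        _ = _ := by ring
    exact_mod_cast h1.trans h2
  have b9 : (#N9 : ℝ) ≤ C * X / Real.log Y + B * (C * B ^ 2 + 4 * B * Y) := by
    have h1 := hA9 X Y w B hY0 hwY (fun M hM1 hM2 => hτ M hM1 (by
      calc M ≤ Y ^ 2 := hM2
        _ ≤ Y ^ 100 := Nat.pow_le_pow_right hY0' (by norm_num)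
        _ = (Y ^ 20) ^ 5 := by ring
        _ ≤ X ^ 5 := Nat.pow_le_pow_left hX1 5)) N9 (fun n hn => by
      rw [hN9, mem_filter] at hn
      exact ⟨(hNm n hn.1).2.1, hn.2.1, hn.2.2⟩)
    refine h1.trans ?_
    have : ((w : ℝ) + 2) ≤ B := by exact_mod_cast hwB
    gcongr
  linarith

end Pool.Agent.TH506.APD
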