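import Pool.Agent.TH506.APD.Cov2

/-!
The combined count of the orders that are not prime powers, `n ^ 2 + n + 1` composite.
-/

set_option autoImplicit false

namespace Pool.Agent.TH506.APD

open Finset Pool.Agent.H152R2 Filter Topology

/-- orders that are not prime powers, with composite `n ^ 2 + n + 1` -/
def Bad (n : ℕ) : Prop := IsOrd n ∧ ¬ IsPrimePow n ∧ ¬ (n ^ 2 + n + 1).Prime

open Classical in
/-- the fixed part and the tail -/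
theorem fixed_part (j0 : ℕ) {ε : ℝ} (hε : 0 < ε) : ∃ Y0 : ℕ, ∀ X Y : ℕ, Y0 ≤ Y → 1 ≤ X →
    ∀ A : Finset ℕ, (∀ n ∈ A, n ≤ X ∧ ∃ j : ℕ, 2 ≤ j ∧ j < j0 ∧ Y ^ 10 < n ∧ PJ j n) →
    (#A : ℝ) ≤ ε * X / Real.log Y + (Y : ℝ) ^ 2 := by
  have hodd : ∀ j : ℕ, (j * (j - 1) + 1).minFac ≠ 2 := by
    intro j h
    have h1 := Nat.minFac_dvd (j * (j - 1) + 1)
    rw [h] at h1
    have h2 : Even (j * (j - 1)) := Nat.even_mul_pred_self j
    obtain ⟨k, hk⟩ := h2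
    omega
  have hone : ∀ j : ℕ, ∃ Y0 : ℕ, 2 ≤ j → ∀ X Y : ℕ, Y0 ≤ Y → 1 ≤ X → ∀ A : Finset ℕ,
      (∀ n ∈ A, n ≤ X ∧ Y ^ 10 < n ∧ PJ j n) →
      (#A : ℝ) ≤ (ε / (j0 + 1)) * X / Real.log Y + ((j * (j - 1) + 1 : ℕ) : ℝ) * Y := by
    intro j
    by_cases hj : 2 ≤ j
    · have hs1 : j * (j - 1) + 1 ≠ 1 := by
        have : 0 < j * (j - 1) := Nat.mul_pos (by omega) (by omega)
        omega
      obtain ⟨Y0, h⟩ := fixed_s (s := j * (j - 1) + 1) (by omega) (Nat.minFac_prime hs1) (hodd j)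
        (ε := ε / (j0 + 1)) (by positivity)
      refine ⟨Y0, fun _ X Y hY hX A hA => h X Y hY hX A (fun n hn => ?_)⟩
      obtain ⟨h1, h2, h3, h4⟩ := hA n hn
      exact ⟨h1, h2, h3, h4⟩
    · exact ⟨0, fun h => absurd h hj⟩
  choose Y0 hY0 using hone
  refine ⟨2 + ∑ j ∈ range j0, (Y0 j + (j * (j - 1) + 1)), fun X Y hY hX A hA => ?_⟩
  have hXr : (1 : ℝ) ≤ X := by exact_mod_cast hX
  have hY2 : 2 ≤ Y := (Nat.le_add_right _ _).trans hY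
  have hsumY : ∑ j ∈ range j0, (Y0 j + (j * (j - 1) + 1)) ≤ Y := (Nat.le_add_left _ _).trans hY
  have hlogY : 0 < Real.log Y := Real.log_pos (by exact_mod_cast (by omega : 1 < Y))
  have hsub : A ⊆ (Ico 2 j0).biUnion (fun j => A.filter (fun n => Y ^ 10 < n ∧ PJ j n)) := by
    intro n hn
    obtain ⟨h1, j, h2, h3, h4, h5⟩ := hA n hn
    rw [mem_biUnion]
    exact ⟨j, mem_Ico.2 ⟨h2, h3⟩, mem_filter.2 ⟨hn, h4, h5⟩⟩
  calc (#A : ℝ) ≤ ((∑ j ∈ Ico 2 j0, #(A.filter (fun n => Y ^ 10 < n ∧ PJ j n)) : ℕ) : ℝ) := by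
        norm_cast
        exact (card_le_card hsub).trans card_biUnion_le
    _ = ∑ j ∈ Ico 2 j0, (#(A.filter (fun n => Y ^ 10 < n ∧ PJ j n)) : ℝ) := by push_cast; rfl
    _ ≤ ∑ j ∈ Ico 2 j0, ((ε / (j0 + 1)) * X / Real.log Y + ((j * (j - 1) + 1 : ℕ) : ℝ) * Y) := by
        apply Finset.sum_le_sum
        intro j hj
        rw [mem_Ico] at hj
        refine hY0 j hj.1 X Y ?_ hX _ (fun n hn => ?_)
        · have h1 : Y0 j + (j * (j - 1) + 1) ≤ ∑ j ∈ range j0, (Y0 j + (j * (j - 1) + 1)) :=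
            Finset.single_le_sum (f := fun j => Y0 j + (j * (j - 1) + 1)) (fun i _ => Nat.zero_le _)
              (mem_range.2 hj.2)
          omega
        · rw [mem_filter] at hn
          exact ⟨(hA n hn.1).1, hn.2.1, hn.2.2⟩
    _ ≤ ∑ j ∈ range j0, ((ε / (j0 + 1)) * X / Real.log Y + ((j * (j - 1) + 1 : ℕ) : ℝ) * Y) := by
        apply Finset.sum_le_sum_of_subset_of_nonneg
        · intro j hj
          rw [mem_Ico] at hj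
          exact mem_range.2 hj.2
        · intro j _ _; positivity
    _ = j0 * ((ε / (j0 + 1)) * X / Real.log Y) + (∑ j ∈ range j0, ((j * (j - 1) + 1 : ℕ) : ℝ)) * Y := by
        rw [Finset.sum_add_distrib, sum_const, card_range, nsmul_eq_mul, Finset.sum_mul]
    _ ≤ (j0 + 1) * ((ε / (j0 + 1)) * X / Real.log Y) + Y * Y := by
        gcongr
        · linarith
        · rw [← Nat.cast_sum]
          have h1 : ∑ j ∈ range j0, (j * (j - 1) + 1) ≤ ∑ j ∈ range j0, (Y0 j + (j * (j - 1) + 1)) :=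
            Finset.sum_le_sum fun j _ => by omega
          exact_mod_cast h1.trans hsumY
    _ = _ := by field_simp

lemma card_squares {M : ℕ} (A : Finset ℕ) (hA : ∀ n ∈ A, n ≤ M ^ 2 ∧ IsSquare n) : #A ≤ M + 1 := by
  have h1 : A ⊆ (range (M + 1)).image (fun k => k * k) := by
    intro n hn
    obtain ⟨h1, m, hm⟩ := hA n hn
    rw [mem_image]
    refine ⟨m, ?_, hm.symm⟩
    rw [mem_range]
    by_contra hcon
    push Not at hcon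
    have : (M + 1) * (M + 1) ≤ m * m := Nat.mul_le_mul hcon hcon
    nlinarith
  exact (card_le_card h1).trans (card_image_le.trans (by rw [card_range]))

open Classical in
theorem combined2 : ∃ C : ℝ, 1 ≤ C ∧ ∀ ε : ℝ, 0 < ε → ∃ Y0 : ℕ, ∀ X Y w L B J1 : ℕ, Y0 ≤ Y → 2 ≤ Y →
    1 ≤ w → w + 2 ≤ B → B ≤ Y → Y < 2 ^ L → 1 ≤ L → Y ^ 20 ≤ X → X ≤ 2 * Y ^ 20 → Y * w ^ 2 ≤ X →
    (∀ N : ℕ, 1 ≤ N → N ≤ X ^ 5 → N.divisors.card ≤ B) → 1 ≤ J1 → w ^ 2 < 2 ^ 2 ^ J1 →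
    (#((Icc 2 X).filter Bad) : ℝ) ≤
      4 * (Y : ℝ) ^ 10 +
      C * (X * (w : ℝ) ^ (-(1 / 2) : ℝ) + (X : ℝ) ^ (3 / 4 : ℝ)) +
      C * X * (Y : ℝ) ^ (-(1 / 64) : ℝ) *
        Real.exp (3 * ((w ^ 2 : ℕ) : ℝ) ^ (1 / 32 : ℝ) * (1 + Real.log ((w ^ 2 : ℕ) : ℝ))) +
      (9 * X / ((w ^ 2 : ℕ) : ℝ) + 3 * (Y : ℝ) ^ 6) +
      8 * X * (1 + Real.log ((X ^ 2 + X + 1 : ℕ) : ℝ)) *
        (L ^ 2 + (1 + Real.log ((X ^ 2 + X + 1 : ℕ) : ℝ)) ^ 2) / w +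
      8 * L * X / Y +
      2 * B * (1 + Real.log ((X ^ 2 + X + 1 : ℕ) : ℝ) + L) * X / Y +
      148 * (B : ℝ) ^ 2 * (Y : ℝ) ^ 18 +
      8 * X * (1 + Real.log ((X ^ 2 + X + 1 : ℕ) : ℝ)) *
        ((11 * L) ^ 2 + (1 + Real.log ((X ^ 2 + X + 1 : ℕ) : ℝ)) ^ 2) / w +
      2 * (11 * L) * (Y : ℝ) ^ 2 *
        (X * (1 + Real.log ((X ^ 2 + X + 1 : ℕ) : ℝ)) / (Y : ℝ) ^ 4 + 2 * (Y : ℝ) ^ 10) +
      (C * X * 2 ^ J1 / Real.log Y ^ 2 + Y) +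
      B * (C * B ^ 2 + 4 * B * Y) + (Y : ℝ) ^ 2 + ε * X / Real.log Y := by
  obtain ⟨C1, Y1, hC1, hrough⟩ := rough_count3
  obtain ⟨C2, hC2, hE1⟩ := A2_count
  obtain ⟨C3, hC3, hA3⟩ := A3_count
  obtain ⟨C9, Y9, hC9, hA9⟩ := A9_tail
  refine ⟨1 + C1 + C2 + C3 + C9, by linarith, fun ε hε => ?_⟩
  obtain ⟨j0, hj0⟩ := series_tail (δ := ε / (2 * C9)) (by positivity)
  obtain ⟨Y10, hfix⟩ := fixed_part j0 (ε := ε / 2) (by positivity)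
  refine ⟨Y1 + Y9 + Y10, fun X Y w L B J1 hY0 hY2 hw hwB hBY hL hL1 hX1 hX2 hYw hτ hJ1 hwJ => ?_⟩
  have hC1' : C1 ≤ 1 + C1 + C2 + C3 + C9 := by linarith
  have hC2' : C2 ≤ 1 + C1 + C2 + C3 + C9 := by linarith
  have hC3' : C3 ≤ 1 + C1 + C2 + C3 + C9 := by linarith
  have hC9' : C9 ≤ 1 + C1 + C2 + C3 + C9 := by linarith
  set C := 1 + C1 + C2 + C3 + C9 with hC
  have hY0' : 0 < Y := by omega
  have hYr : (1 : ℝ) ≤ Y := by exact_mod_cast hY0'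
  have hX0 : 1 ≤ X := le_trans (Nat.one_le_pow _ _ hY0') hX1
  have hYX : Y ≤ X := le_trans (Nat.le_self_pow (by norm_num) Y) hX1
  have hXr : (1 : ℝ) ≤ X := by exact_mod_cast hX0
  have hlogY : 0 < Real.log Y := Real.log_pos (by exact_mod_cast hY2)
  have hwr : (1 : ℝ) ≤ w := by exact_mod_cast hw
  obtain ⟨V, hV⟩ : ∃ V : ℕ, V = X ^ 2 + X + 1 := ⟨_, rfl⟩
  rw [← hV]
  obtain ⟨H, hH⟩ : ∃ H : ℝ, H = 1 + Real.log (V : ℝ) := ⟨_, rfl⟩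
  rw [← hH]
  have hHs : ∑ k ∈ Icc 1 V, (1 : ℝ) / k ≤ H := by
    have h := harmonic_le_one_add_log V
    rw [harmonic_eq_sum_Icc] at h
    push_cast at h
    rw [hH]
    simpa [one_div] using h
  have hYV : ∀ i : ℕ, i ≤ 20 → Y ^ i ≤ V := by
    intro i hi
    calc Y ^ i ≤ Y ^ 20 := Nat.pow_le_pow_right hY0' hi
      _ ≤ X := hX1
      _ ≤ V := by rw [hV]; omega
  have hPV : 2 * Y ^ 10 ≤ V := by
    calc 2 * Y ^ 10 ≤ Y * Y ^ 10 := Nat.mul_le_mul_right _ hY2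
      _ = Y ^ 11 := by ring
      _ ≤ V := hYV 11 (by norm_num)
  set N : Finset ℕ := (Icc 2 X).filter Bad with hN
  have hNm : ∀ n ∈ N, 2 ≤ n ∧ n ≤ X ∧ Bad n := by
    intro n hn
    rw [hN, mem_filter, mem_Icc] at hn
    exact ⟨hn.1.1, hn.1.2, hn.2⟩
  have hwY : w + 2 ≤ Y := by omega
  -- the parts
  set N0 := N.filter (fun n => n ≤ Y ^ 10) with hN0
  set N1 := N.filter (fun n => IsSquare n) with hN1
  set N2 := N.filter (fun n => E1 (w ^ 2) n) with hN2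
  set N3 := N.filter (fun n => ∃ s : ℕ, s ∣ n ^ 2 + n + 1 ∧ Y < s ∧ ∀ q : ℕ, q.Prime → q ∣ s → q ≤ w ^ 2) with hN3
  set N4 := N.filter (fun n => ∃ r : ℕ, r.Prime ∧ w ^ 2 < r ∧ r ≤ Y ^ 6 ∧ r ^ 2 ∣ n ^ 2 + n + 1) with hN4
  set N5 := N.filter (fun n => P5 Y w n) with hN5
  set N6 := N.filter (fun n => P6 Y (w ^ 2) n) with hN6
  set N7 := N.filter (fun n => P7 Y (w ^ 2) (w + 2) n) with hN7
  set N8 := N.filter (fun n => P8 Y (w + 2) n) with hN8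
  set N9 := N.filter (fun n => Q5 Y w n) with hN9
  set N10 := N.filter (fun n => Q6 Y (w ^ 2) n) with hN10
  set N11 := N.filter (fun n => QR Y w n) with hN11
  set N12 := N.filter (fun n => Y ^ 10 < n ∧ PT w j0 n) with hN12
  set N13 := N.filter (fun n => ∃ j : ℕ, 2 ≤ j ∧ j < j0 ∧ Y ^ 10 < n ∧ PJ j n) with hN13
  have hcov : N ⊆ N0 ∪ (N1 ∪ (N2 ∪ (N3 ∪ (N4 ∪ (N5 ∪ (N6 ∪ (N7 ∪ (N8 ∪ (N9 ∪ (N10 ∪ (N11 ∪ (N12 ∪ N13)))))))))))) := by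
    intro n hn
    obtain ⟨_, hnX, h1, h2, h3⟩ := hNm n hn
    have h := cover2 j0 hw hwY h1 (hnX.trans hX2) h2 h3
    simp only [mem_union, hN0, hN1, hN2, hN3, hN4, hN5, hN6, hN7, hN8, hN9, hN10, hN11, hN12, hN13,
      mem_filter, hn, true_and]
    exact h
  have hcard : #N ≤ #N0 + #N1 + #N2 + #N3 + #N4 + #N5 + #N6 + #N7 + #N8 + #N9 + #N10 + #N11 + #N12 + #N13 := by
    have h0 := (card_le_card hcov).trans (card_union_le _ _)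
    have h1 := card_union_le N1 (N2 ∪ (N3 ∪ (N4 ∪ (N5 ∪ (N6 ∪ (N7 ∪ (N8 ∪ (N9 ∪ (N10 ∪ (N11 ∪ (N12 ∪ N13)))))))))))
    have h2 := card_union_le N2 (N3 ∪ (N4 ∪ (N5 ∪ (N6 ∪ (N7 ∪ (N8 ∪ (N9 ∪ (N10 ∪ (N11 ∪ (N12 ∪ N13))))))))))
    have h3 := card_union_le N3 (N4 ∪ (N5 ∪ (N6 ∪ (N7 ∪ (N8 ∪ (N9 ∪ (N10 ∪ (N11 ∪ (N12 ∪ N13)))))))))
    have h4 := card_union_le N4 (N5 ∪ (N6 ∪ (N7 ∪ (N8 ∪ (N9 ∪ (N10 ∪ (N11 ∪ (N12 ∪ N13))))))))
    have h5 := card_union_le N5 (N6 ∪ (N7 ∪ (N8 ∪ (N9 ∪ (N10 ∪ (N11 ∪ (N12 ∪ N13)))))))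
    have h6 := card_union_le N6 (N7 ∪ (N8 ∪ (N9 ∪ (N10 ∪ (N11 ∪ (N12 ∪ N13))))))
    have h7 := card_union_le N7 (N8 ∪ (N9 ∪ (N10 ∪ (N11 ∪ (N12 ∪ N13)))))
    have h8 := card_union_le N8 (N9 ∪ (N10 ∪ (N11 ∪ (N12 ∪ N13))))
    have h9 := card_union_le N9 (N10 ∪ (N11 ∪ (N12 ∪ N13)))
    have h10 := card_union_le N10 (N11 ∪ (N12 ∪ N13))
    have h11 := card_union_le N11 (N12 ∪ N13)
    have h12 := card_union_le N12 N13
    omega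
  have hcardr : (#N : ℝ) ≤ #N0 + #N1 + #N2 + #N3 + #N4 + #N5 + #N6 + #N7 + #N8 + #N9 + #N10 + #N11 + #N12 + #N13 := by
    exact_mod_cast hcard
  -- the bounds
  have b0 : (#N0 : ℝ) ≤ (Y : ℝ) ^ 10 := by
    have h1 : N0 ⊆ Icc 1 (Y ^ 10) := by
      intro n hn
      rw [hN0, mem_filter] at hn
      have := hNm n hn.1
      rw [mem_Icc]
      exact ⟨by omega, hn.2⟩
    have h2 := card_le_card h1
    rw [Nat.card_Icc, Nat.add_sub_cancel] at h2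
    exact_mod_cast h2
  have b1 : (#N1 : ℝ) ≤ 3 * (Y : ℝ) ^ 10 := by
    have h1 := card_squares (M := 2 * Y ^ 10) N1 (fun n hn => by
      rw [hN1, mem_filter] at hn
      refine ⟨(hNm n hn.1).2.1.trans (hX2.trans ?_), hn.2⟩
      have : (2 * Y ^ 10) ^ 2 = 4 * Y ^ 20 := by ring
      rw [this]; omega)
    have h2 : 1 ≤ Y ^ 10 := Nat.one_le_pow _ _ hY0'
    have h3 : #N1 ≤ 3 * Y ^ 10 := by omega
    exact_mod_cast h3
  have b2 : (#N2 : ℝ) ≤ C * (X * (w : ℝ) ^ (-(1 / 2) : ℝ) + (X : ℝ) ^ (3 / 4 : ℝ)) := by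
    have h1 := hE1 X w hX0 hw N2 (fun n hn => by
      rw [hN2, mem_filter] at hn
      have := hNm n hn.1
      exact ⟨this.2.1, by omega, hn.2⟩)
    refine h1.trans ?_
    gcongr
  have b3 : (#N3 : ℝ) ≤ C * X * (Y : ℝ) ^ (-(1 / 64) : ℝ) *
        Real.exp (3 * ((w ^ 2 : ℕ) : ℝ) ^ (1 / 32 : ℝ) * (1 + Real.log ((w ^ 2 : ℕ) : ℝ))) := by
    have h1 := hA3 X Y (w ^ 2) hY0' (Nat.one_le_pow _ _ hw) hYw N3 (fun n hn => by
      rw [hN3, mem_filter] at hn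
      exact ⟨(hNm n hn.1).2.1, hn.2⟩)
    refine h1.trans ?_
    gcongr
  have b4 : (#N4 : ℝ) ≤ 9 * X / ((w ^ 2 : ℕ) : ℝ) + 3 * (Y : ℝ) ^ 6 := by
    have h1 := A4_count (X := X) (z := w ^ 2) (W := Y ^ 6) (pow_pos hw 2) N4 (fun n hn => by
      rw [hN4, mem_filter] at hn
      exact ⟨(hNm n hn.1).2.1, hn.2⟩)
    refine h1.trans (le_of_eq ?_)
    push_cast; ring
  have b5 : (#N5 : ℝ) ≤ 8 * X * H * (L ^ 2 + H ^ 2) / w :=
    A5_count hw hY0' hX1 hL (hYV 6 (by norm_num)) hHs N5 (fun n hn => by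
      rw [hN5, mem_filter] at hn
      exact ⟨(hNm n hn.1).2.1, hn.2⟩)
  have b6 : (#N6 : ℝ) ≤ 8 * L * X / Y :=
    A6_count (z := w ^ 2) hY0' hX1 hL N6 (fun n hn => by
      rw [hN6, mem_filter] at hn
      exact ⟨(hNm n hn.1).2.1, hn.2⟩)
  have hlogV : 0 ≤ Real.log (V : ℝ) := Real.log_natCast_nonneg V
  have hH0 : 0 ≤ H := by rw [hH]; linarith
  have b7 : (#N7 : ℝ) ≤ 2 * B * (H + L) * X / Y := by
    have h1 := A7_count (z := w ^ 2) (J := w + 2) hY0' hX1 hL (V := V) (by rw [hV]) hHs N7 (fun n hn => by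
      rw [hN7, mem_filter] at hn
      exact ⟨(hNm n hn.1).2.1, hn.2⟩)
    refine h1.trans ?_
    have : ((w + 2 : ℕ) : ℝ) ≤ B := by exact_mod_cast hwB
    gcongr
  have b8 : (#N8 : ℝ) ≤ 148 * (B : ℝ) ^ 2 * (Y : ℝ) ^ 18 := by
    have h1 := A8_count (J := w + 2) (B := B) hY2 hX1 hX2 hwY hτ N8 (fun n hn => by
      rw [hN8, mem_filter] at hn
      exact ⟨(hNm n hn.1).2.1, hn.2⟩)
    have h2 : 148 * (w + 2) * B * Y ^ 18 ≤ 148 * B ^ 2 * Y ^ 18 := by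
      have : 148 * (w + 2) * B * Y ^ 18 = (w + 2) * (148 * B * Y ^ 18) := by ring
      rw [this]
      calc (w + 2) * (148 * B * Y ^ 18) ≤ B * (148 * B * Y ^ 18) := Nat.mul_le_mul_right _ hwB
        _ = _ := by ring
    exact_mod_cast h1.trans h2
  -- the level for `2 Y ^ 10`
  have hL' : 2 * Y ^ 10 < 2 ^ (11 * L) := by
    calc 2 * Y ^ 10 < 2 * (2 ^ L) ^ 10 := by
          have := Nat.pow_lt_pow_left hL (by norm_num : 10 ≠ 0)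
          omega
      _ = 2 ^ (10 * L + 1) := by rw [← pow_mul, pow_succ]; ring
      _ ≤ 2 ^ (11 * L) := Nat.pow_le_pow_right (by norm_num) (by omega)
  have b9 : (#N9 : ℝ) ≤ 8 * X * H * ((11 * L) ^ 2 + H ^ 2) / w := by
    have h1 := A5g_count (X := X) (P := 2 * Y ^ 10) (F := Y) (W := Y ^ 4) (L := 11 * L) (w := w) (V := V)
      hw (by positivity) (by positivity) (by
        calc 2 * Y ^ 10 * Y ^ 4 * Y ^ 4 = 2 * Y ^ 18 := by ring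
          _ ≤ Y * Y ^ 18 := Nat.mul_le_mul_right _ hY2
          _ = Y ^ 19 := by ring
          _ ≤ Y ^ 20 := Nat.pow_le_pow_right hY0' (by norm_num)
          _ ≤ X := hX1) hL' (hYV 4 (by norm_num)) hPV hHs N9 (fun n hn => by
      rw [hN9, mem_filter] at hn
      exact ⟨(hNm n hn.1).2.1, hn.2⟩)
    push_cast at h1
    exact h1
  have b10 : (#N10 : ℝ) ≤ 2 * (11 * L) * (Y : ℝ) ^ 2 * (X * H / (Y : ℝ) ^ 4 + 2 * (Y : ℝ) ^ 10) := by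
    have h1 := A6g_count (X := X) (P := 2 * Y ^ 10) (F := Y) (W := Y ^ 4) (L := 11 * L) (z := w ^ 2) (V := V)
      (by positivity) hL' hPV hHs N10 (fun n hn => by
      rw [hN10, mem_filter] at hn
      exact ⟨(hNm n hn.1).2.1, hn.2⟩)
    push_cast at h1
    exact h1
  have b11 : (#N11 : ℝ) ≤ C * X * 2 ^ J1 / Real.log Y ^ 2 + Y := by
    have h1 := hrough X Y (w ^ 2) J1 (by omega) hX0 hJ1 hwJ N11 (fun n hn => by
      rw [hN11, mem_filter] at hn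
      exact ⟨(hNm n hn.1).2.1, hn.2⟩)
    refine h1.trans ?_
    gcongr
  have b12 : (#N12 : ℝ) ≤ (ε / 2) * X / Real.log Y + B * (C * B ^ 2 + 4 * B * Y) := by
    have h1 := hA9 X Y w B j0 (by omega) hwY (fun M hM1 hM2 => hτ M hM1 (by
      calc M ≤ Y ^ 2 := hM2
        _ ≤ Y ^ 100 := Nat.pow_le_pow_right hY0' (by norm_num)
        _ = (Y ^ 20) ^ 5 := by ring
        _ ≤ X ^ 5 := Nat.pow_le_pow_left hX1 5)) N12 (fun n hn => by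
      rw [hN12, mem_filter] at hn
      exact ⟨(hNm n hn.1).2.1, hn.2.1, hn.2.2⟩)
    refine h1.trans ?_
    have h2 := hj0 (w + 2)
    have h3 : ((w : ℝ) + 2) ≤ B := by exact_mod_cast hwB
    have h4 : C9 * X / Real.log Y * (∑ j ∈ Ico j0 (w + 2),
      (((j * (j - 1) + 1).divisors.card : ℝ) ^ 2 / ((j * (j - 1) + 1 : ℕ) : ℝ))) ≤ (ε / 2) * X / Real.log Y := by
      calc _ ≤ C9 * X / Real.log Y * (ε / (2 * C9)) := by gcongr
        _ = _ := by field_simp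
    refine add_le_add h4 ?_
    gcongr
  have b13 : (#N13 : ℝ) ≤ (ε / 2) * X / Real.log Y + (Y : ℝ) ^ 2 :=
    hfix X Y (by omega) hX0 N13 (fun n hn => by
      rw [hN13, mem_filter] at hn
      exact ⟨(hNm n hn.1).2.1, hn.2⟩)
  have hhalf : (ε / 2) * X / Real.log Y + (ε / 2) * X / Real.log Y = ε * X / Real.log Y := by ring
  linarith

end Pool.Agent.TH506.APD
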