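import Pool.Agent.TH506.APD.Cnt

/-!
Primes modulo which a given integer has a given order.
-/

set_option autoImplicit false

namespace Pool.Agent.TH506.APD

open Finset

open Classical in
/-- primes `r > z` modulo which `p` has order `f` -/
noncomputable def ordSet (p f z : ℕ) : Finset ℕ :=
  ((p ^ f - 1).primeFactors).filter (fun r => z < r ∧ orderOf (p : ZMod r) = f)

lemma mem_ordSet_of {p f z r : ℕ} (hp : 2 ≤ p) (hf : 0 < f) (hr : r.Prime) (hz : z < r)
    (ho : orderOf (p : ZMod r) = f) : r ∈ ordSet p f z := by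
  unfold ordSet
  rw [mem_filter, Nat.mem_primeFactors]
  have h1 : 1 < p ^ f := Nat.one_lt_pow hf.ne' (by omega)
  refine ⟨⟨hr, ?_, by omega⟩, hz, ho⟩
  have h2 : (p : ZMod r) ^ f = 1 := by rw [← ho]; exact pow_orderOf_eq_one _
  have h3 : ((p ^ f : ℕ) : ZMod r) = ((1 : ℕ) : ZMod r) := by push_cast; exact h2
  have h4 := (ZMod.natCast_eq_natCast_iff _ _ _).1 h3
  exact (Nat.modEq_iff_dvd' h1.le).1 h4.symm

lemma ordSet_prop {p f z r : ℕ} (hr : r ∈ ordSet p f z) :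
    r.Prime ∧ z < r ∧ orderOf (p : ZMod r) = f := by
  unfold ordSet at hr
  rw [mem_filter, Nat.mem_primeFactors] at hr
  exact ⟨hr.1.1, hr.2.1, hr.2.2⟩

lemma ordSet_ne_zero {p f z r : ℕ} (hf : 0 < f) (hr : r ∈ ordSet p f z) : (p : ZMod r) ≠ 0 := by
  obtain ⟨h1, h2, h3⟩ := ordSet_prop hr
  have : Fact r.Prime := ⟨h1⟩
  intro h0
  rw [h0] at h3
  have h4 : (0 : ZMod r) ^ f = 1 := by
    have := pow_orderOf_eq_one (0 : ZMod r)
    rwa [h3] at this
  rw [zero_pow hf.ne'] at h4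
  exact zero_ne_one h4

lemma ordSet_dvd {p f z r : ℕ} (hf : 0 < f) (hr : r ∈ ordSet p f z) : f ∣ r - 1 := by
  obtain ⟨h1, h2, h3⟩ := ordSet_prop hr
  have : Fact r.Prime := ⟨h1⟩
  rw [← h3]
  exact orderOf_dvd_of_pow_eq_one (ZMod.pow_card_sub_one_eq_one (ordSet_ne_zero hf hr))

lemma ordSet_coprime {p f z r : ℕ} (hp : p.Prime) (hf : 0 < f) (hr : r ∈ ordSet p f z) :
    Nat.Coprime p r := by
  obtain ⟨h1, h2, h3⟩ := ordSet_prop hr
  refine (Nat.coprime_primes hp h1).2 ?_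
  rintro rfl
  exact ordSet_ne_zero hf hr (by simp)

lemma ordSet_coprime' {p f z r : ℕ} (hf : 0 < f) (hr : r ∈ ordSet p f z) :
    Nat.Coprime f r := by
  obtain ⟨h1, h2, h3⟩ := ordSet_prop hr
  have h4 := ordSet_dvd hf hr
  refine (Nat.Coprime.symm ((Nat.Prime.coprime_iff_not_dvd h1).2 ?_))
  intro h5
  have h6 := Nat.le_of_dvd (by have := h1.two_le; omega) (h5.trans h4)
  have := h1.two_le
  omega

lemma card_ordSet {p f z L : ℕ} (hp : 2 ≤ p) (hpL : p < 2 ^ L) (hf : 0 < f) :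
    #(ordSet p f z) ≤ L * f := by
  have h1 : 2 ^ #(ordSet p f z) ≤ 2 ^ (L * f) := by
    calc 2 ^ #(ordSet p f z) ≤ 2 ^ #((p ^ f - 1).primeFactors) :=
          Nat.pow_le_pow_right (by norm_num) (card_filter_le _ _)
      _ = ∏ r ∈ (p ^ f - 1).primeFactors, 2 := by rw [prod_const]
      _ ≤ ∏ r ∈ (p ^ f - 1).primeFactors, r :=
          Finset.prod_le_prod' (fun r hr => (Nat.prime_of_mem_primeFactors hr).two_le)
      _ ≤ p ^ f - 1 := Nat.le_of_dvd (by have : 1 < p ^ f := Nat.one_lt_pow hf.ne' (by omega)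
                                         omega) (Nat.prod_primeFactors_dvd _)
      _ ≤ p ^ f := Nat.sub_le _ _
      _ ≤ (2 ^ L) ^ f := Nat.pow_le_pow_left hpL.le _
      _ = 2 ^ (L * f) := by rw [pow_mul]
  exact (Nat.pow_le_pow_iff_right (by norm_num)).1 h1

/-- sum of reciprocals -/
lemma sum_inv_ordSet {p f z V : ℕ} {H : ℝ} (hf : 0 < f)
    (hH : ∑ k ∈ Icc 1 V, (1 : ℝ) / k ≤ H) :
    ∑ r ∈ (ordSet p f z).filter (fun r => r ≤ V), (1 : ℝ) / r ≤ H / f := by
  have hf0 : (0 : ℝ) < f := by exact_mod_cast hf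
  calc ∑ r ∈ (ordSet p f z).filter (fun r => r ≤ V), (1 : ℝ) / r
      ≤ ∑ r ∈ (ordSet p f z).filter (fun r => r ≤ V), (1 : ℝ) / (f * (((r - 1) / f : ℕ) : ℝ)) := by
        apply Finset.sum_le_sum
        intro r hr
        rw [mem_filter] at hr
        have h1 := ordSet_dvd hf hr.1
        have h2 := (ordSet_prop hr.1).1.two_le
        have h3 : f * ((r - 1) / f) = r - 1 := Nat.mul_div_cancel' h1
        have h4 : (f : ℝ) * (((r - 1) / f : ℕ) : ℝ) = r - 1 := by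
          rw [← Nat.cast_mul, h3, Nat.cast_sub (by omega)]; simp
        rw [h4]
        have h5 : (2 : ℝ) ≤ r := by exact_mod_cast h2
        apply one_div_le_one_div_of_le <;> linarith
    _ = ∑ k ∈ ((ordSet p f z).filter (fun r => r ≤ V)).image (fun r => (r - 1) / f),
          (1 : ℝ) / (f * k) := by
        rw [Finset.sum_image]
        intro r hr r' hr' h
        simp only [coe_filter, Set.mem_ofPred_eq] at hr hr'
        have h1 := Nat.mul_div_cancel' (ordSet_dvd hf hr.1)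
        have h2 := Nat.mul_div_cancel' (ordSet_dvd hf hr'.1)
        have h3 := (ordSet_prop hr.1).1.two_le
        have h4 := (ordSet_prop hr'.1).1.two_le
        simp only at h
        rw [h, h2] at h1
        omega
    _ ≤ ∑ k ∈ Icc 1 V, (1 : ℝ) / (f * k) := by
        apply Finset.sum_le_sum_of_subset_of_nonneg
        · intro k hk
          obtain ⟨r, hr, rfl⟩ := mem_image.1 hk
          rw [mem_filter] at hr
          have h1 := ordSet_dvd hf hr.1
          have h2 := (ordSet_prop hr.1).1.two_le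
          rw [mem_Icc]
          refine ⟨Nat.div_pos (Nat.le_of_dvd (by omega) h1) hf, ?_⟩
          exact (Nat.div_le_self _ _).trans (by omega)
        · intro k _ _; positivity
    _ = (∑ k ∈ Icc 1 V, (1 : ℝ) / k) / f := by
        rw [Finset.sum_div]
        apply Finset.sum_congr rfl
        intro k _
        rw [mul_comm, ← div_div]
    _ ≤ H / f := by gcongr

lemma sum_inv_ordSet' {p f z L : ℕ} (hz : 0 < z) (hp : 2 ≤ p) (hpL : p < 2 ^ L) (hf : 0 < f) :
    ∑ r ∈ ordSet p f z, (1 : ℝ) / r ≤ L * f / z := by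
  have hz0 : (0 : ℝ) < z := by exact_mod_cast hz
  calc ∑ r ∈ ordSet p f z, (1 : ℝ) / r ≤ ∑ r ∈ ordSet p f z, (1 : ℝ) / z := by
        apply Finset.sum_le_sum
        intro r hr
        have h1 : (z : ℝ) ≤ r := by exact_mod_cast (ordSet_prop hr).2.1.le
        exact one_div_le_one_div_of_le hz0 h1
    _ = (#(ordSet p f z) : ℝ) / z := by rw [sum_const, nsmul_eq_mul]; ring
    _ ≤ (L * f : ℕ) / z := by gcongr; exact card_ordSet hp hpL hf
    _ = _ := by push_cast; ring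

/-- `∑ 1 / f ^ 2` over `f > w` -/
lemma sum_inv_sq_tail (w N : ℕ) (hw : 0 < w) : ∑ f ∈ Ioc w N, (1 : ℝ) / (f : ℝ) ^ 2 ≤ 1 / w := by
  have hw0 : (0 : ℝ) < w := by exact_mod_cast hw
  have key : ∀ N : ℕ, w ≤ N → ∑ f ∈ Ioc w N, (1 : ℝ) / (f : ℝ) ^ 2 ≤ 1 / w - 1 / N := by
    intro N hN
    induction N, hN using Nat.le_induction with
    | base => simp
    | succ N hN ih =>
      rw [Finset.sum_Ioc_succ_top (by omega)]
      have hN0 : (0 : ℝ) < N := by exact_mod_cast (by omega : 0 < N)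
      have h1 : (1 : ℝ) / ((N + 1 : ℕ) : ℝ) ^ 2 ≤ 1 / N - 1 / ((N + 1 : ℕ) : ℝ) := by
        push_cast
        rw [div_sub_div _ _ hN0.ne' (by positivity), div_le_div_iff₀ (by positivity) (by positivity)]
        nlinarith
      linarith
  rcases le_total w N with h | h
  · exact (key N h).trans (by have : (0 : ℝ) ≤ 1 / N := by positivity
                              linarith)
  · rw [Finset.Ioc_eq_empty_of_le h, Finset.sum_empty]; positivity

/-- A4: square divisors -/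
lemma A4_count {X z W : ℕ} (hz : 0 < z) (A : Finset ℕ) (hA : ∀ n ∈ A, n ≤ X ∧
    ∃ r : ℕ, r.Prime ∧ z < r ∧ r ≤ W ∧ r ^ 2 ∣ n ^ 2 + n + 1) :
    (#A : ℝ) ≤ 9 * X / z + 3 * W := by
  classical
  have hz0 : (0 : ℝ) < z := by exact_mod_cast hz
  have h1 : A ⊆ ((Ioc z W).filter Nat.Prime).biUnion (fun r => A.filter (fun n => r ^ 2 ∣ n ^ 2 + n + 1)) := by
    intro n hn
    obtain ⟨_, r, h1, h2, h3, h4⟩ := hA n hn
    exact mem_biUnion.2 ⟨r, mem_filter.2 ⟨mem_Ioc.2 ⟨h2, h3⟩, h1⟩, mem_filter.2 ⟨hn, h4⟩⟩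
  calc (#A : ℝ) ≤ ((∑ r ∈ (Ioc z W).filter Nat.Prime, #(A.filter (fun n => r ^ 2 ∣ n ^ 2 + n + 1)) : ℕ) : ℝ) := by
        exact_mod_cast (card_le_card h1).trans card_biUnion_le
    _ = ∑ r ∈ (Ioc z W).filter Nat.Prime, (#(A.filter (fun n => r ^ 2 ∣ n ^ 2 + n + 1)) : ℝ) := by
        push_cast; rfl
    _ ≤ ∑ r ∈ (Ioc z W).filter Nat.Prime, (9 * X * (1 / (r : ℝ) ^ 2) + 3) := by
        apply Finset.sum_le_sum
        intro r hr
        rw [mem_filter] at hr
        have h2 := count_dvd (X := X) (d := r ^ 2) (pow_pos hr.2.pos 2)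
          (A.filter (fun n => r ^ 2 ∣ n ^ 2 + n + 1)) (fun x hx => (hA x (mem_filter.1 hx).1).1)
          (fun x hx => (mem_filter.1 hx).2)
        have h3 : (r ^ 2).divisors.card = 3 := by
          rw [Nat.divisors_prime_pow hr.2]; simp
        rw [h3] at h2
        refine h2.trans (le_of_eq ?_)
        push_cast
        ring
    _ ≤ ∑ r ∈ Ioc z W, (9 * X * (1 / (r : ℝ) ^ 2) + 3) := by
        apply Finset.sum_le_sum_of_subset_of_nonneg (filter_subset _ _)
        intro i _ _; positivity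
    _ = 9 * X * ∑ r ∈ Ioc z W, (1 / (r : ℝ) ^ 2) + 3 * (#(Ioc z W) : ℝ) := by
        rw [Finset.sum_add_distrib, ← Finset.mul_sum, sum_const, nsmul_eq_mul]; ring
    _ ≤ 9 * X * (1 / z) + 3 * W := by
        gcongr
        · exact sum_inv_sq_tail z W hz
        · rw [Nat.card_Ioc]; omega
    _ = _ := by ring

/-- A6: a large prime modulo which `p` has small order -/
lemma A6_count {X Y L z : ℕ} (hY : 0 < Y) (hYX : Y ^ 20 ≤ X) (hL : Y < 2 ^ L) (A : Finset ℕ)
    (hA : ∀ n ∈ A, n ≤ X ∧ ∃ p f r : ℕ, p.Prime ∧ p ≤ Y ∧ 0 < f ∧ f ≤ Y ^ 2 ∧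
      r ∈ ordSet p f z ∧ Y ^ 6 ≤ r ∧ r ∣ n ^ 2 + n + 1) :
    (#A : ℝ) ≤ 8 * L * X / Y := by
  classical
  have hY0 : (0 : ℝ) < Y := by exact_mod_cast hY
  have hYX' : (Y : ℝ) ^ 20 ≤ X := by exact_mod_cast hYX
  have h1 : A ⊆ (Icc 2 Y).biUnion (fun p => (Icc 1 (Y ^ 2)).biUnion (fun f =>
      ((ordSet p f z).filter (fun r => Y ^ 6 ≤ r)).biUnion (fun r =>
        A.filter (fun n => r ∣ n ^ 2 + n + 1)))) := by
    intro n hn
    obtain ⟨_, p, f, r, h1, h2, h3, h4, h5, h6, h7⟩ := hA n hn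
    simp only [mem_biUnion, mem_Icc, mem_filter]
    exact ⟨p, ⟨h1.two_le, h2⟩, f, ⟨h3, h4⟩, r, ⟨h5, h6⟩, hn, h7⟩
  have h6X : (Y : ℝ) ^ 6 ≤ X := by
    refine le_trans ?_ hYX'
    exact pow_le_pow_right₀ (by exact_mod_cast hY) (by norm_num)
  have hone : (1 : ℝ) ≤ X / (Y : ℝ) ^ 6 := by rw [le_div_iff₀ (by positivity)]; linarith
  calc (#A : ℝ) ≤ ((∑ p ∈ Icc 2 Y, ∑ f ∈ Icc 1 (Y ^ 2), ∑ r ∈ (ordSet p f z).filter (fun r => Y ^ 6 ≤ r),
        #(A.filter (fun n => r ∣ n ^ 2 + n + 1)) : ℕ) : ℝ) := by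
        norm_cast
        refine (card_le_card h1).trans (card_biUnion_le.trans (sum_le_sum fun p _ => ?_))
        exact card_biUnion_le.trans (sum_le_sum fun f _ => card_biUnion_le)
    _ = ∑ p ∈ Icc 2 Y, ∑ f ∈ Icc 1 (Y ^ 2), ∑ r ∈ (ordSet p f z).filter (fun r => Y ^ 6 ≤ r),
        (#(A.filter (fun n => r ∣ n ^ 2 + n + 1)) : ℝ) := by push_cast; rfl
    _ ≤ ∑ p ∈ Icc 2 Y, ∑ f ∈ Icc 1 (Y ^ 2), ∑ r ∈ (ordSet p f z).filter (fun r => Y ^ 6 ≤ r),
        (8 * X / (Y : ℝ) ^ 6) := by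
        apply Finset.sum_le_sum; intro p _
        apply Finset.sum_le_sum; intro f _
        apply Finset.sum_le_sum; intro r hr
        rw [mem_filter] at hr
        have hrp := (ordSet_prop hr.1).1
        have h2 := count_dvd (X := X) (d := r) hrp.pos
          (A.filter (fun n => r ∣ n ^ 2 + n + 1)) (fun x hx => (hA x (mem_filter.1 hx).1).1)
          (fun x hx => (mem_filter.1 hx).2)
        have h3 : r.divisors.card = 2 := by
          rw [hrp.divisors, card_pair hrp.one_lt.ne]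
        rw [h3] at h2
        have h4 : (Y : ℝ) ^ 6 ≤ r := by exact_mod_cast hr.2
        have h5 : 3 * (X : ℝ) / r ≤ 3 * X / (Y : ℝ) ^ 6 := by gcongr
        push_cast at h2
        calc _ ≤ 2 * (3 * (X : ℝ) / r + 1) := h2
          _ ≤ 2 * (3 * X / (Y : ℝ) ^ 6 + X / (Y : ℝ) ^ 6) := by gcongr
          _ = _ := by ring
    _ ≤ ∑ p ∈ Icc 2 Y, ∑ f ∈ Icc 1 (Y ^ 2), (L * (Y : ℝ) ^ 2) * (8 * X / (Y : ℝ) ^ 6) := by
        apply Finset.sum_le_sum; intro p hp
        apply Finset.sum_le_sum; intro f hf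
        rw [mem_Icc] at hp hf
        rw [sum_const, nsmul_eq_mul]
        gcongr
        have h2 := (card_filter_le (ordSet p f z) (fun r => Y ^ 6 ≤ r)).trans
          (card_ordSet (z := z) hp.1 (lt_of_le_of_lt hp.2 hL) (by omega : 0 < f))
        have h3 : L * f ≤ L * Y ^ 2 := Nat.mul_le_mul_left _ hf.2
        exact_mod_cast h2.trans h3
    _ ≤ Y * ((Y : ℝ) ^ 2 * ((L * (Y : ℝ) ^ 2) * (8 * X / (Y : ℝ) ^ 6))) := by
        rw [sum_const, sum_const, nsmul_eq_mul, nsmul_eq_mul, Nat.card_Icc, Nat.card_Icc]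
        gcongr
        · norm_cast; omega
        · push_cast; simp
    _ = _ := by field_simp

end Pool.Agent.TH506.APD
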