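import Pool.Agent.TH506.APD.Siv3
import Mathlib.NumberTheory.LegendreSymbol.QuadraticReciprocity

/-!
Primes that are not squares modulo an odd prime `q`: the sum of their reciprocals.
-/

set_option autoImplicit false

namespace Pool.Agent.TH506.APD

open Finset Polynomial
open Pool.Agent.H410R2.ED Pool.Agent.H474R2.PG

/-- `q* = (-1) ^ ((q - 1) / 2) q` -/
def qs (q : ℕ) : ℤ := if q % 4 = 1 then q else -q

/-- `X ^ 2 - q*` -/
noncomputable def fq (q : ℕ) : ℤ[X] := X ^ 2 - C (qs q)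

lemma fq_eval (q : ℕ) (a : ℤ) : (fq q).eval a = a ^ 2 - qs q := by
  unfold fq; simp

lemma fq_natDegree (q : ℕ) : (fq q).natDegree = 2 := by
  unfold fq; exact natDegree_X_pow_sub_C

lemma fq_monic (q : ℕ) : (fq q).Monic := by
  unfold fq; exact monic_X_pow_sub_C _ (by norm_num)

lemma qs_natAbs (q : ℕ) : (qs q).natAbs = q := by
  unfold qs; split_ifs <;> simp

lemma fq_irreducible {q : ℕ} (hq : q.Prime) : Irreducible (fq q) := by
  rw [(fq_monic q).irreducible_iff_roots_eq_zero_of_degree_le_three (by rw [fq_natDegree])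
    (by rw [fq_natDegree]; norm_num)]
  apply Multiset.eq_zero_of_forall_notMem
  intro a ha
  rw [mem_roots (fq_monic q).ne_zero, IsRoot.def, fq_eval, sub_eq_zero] at ha
  have h1 : a.natAbs ^ 2 = q := by
    rw [← Int.natAbs_pow, ha, qs_natAbs]
  have h2 := hq
  rw [← h1] at h2
  exact Nat.Prime.not_prime_pow (by norm_num : 2 ≤ 2) h2

/-- quadratic reciprocity -/
lemma sq_star {l q : ℕ} (hl : l.Prime) (hq : q.Prime) (hl2 : l ≠ 2) (hq2 : q ≠ 2) (hlq : l ≠ q)
    (h : IsSquare (l : ZMod q)) : IsSquare ((qs q : ℤ) : ZMod l) := by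
  have : Fact l.Prime := ⟨hl⟩
  have : Fact q.Prime := ⟨hq⟩
  have hl4 : l % 4 = 1 ∨ l % 4 = 3 := by
    have := hl.eq_two_or_odd
    omega
  have hq4 : q % 4 = 1 ∨ q % 4 = 3 := by
    have := hq.eq_two_or_odd
    omega
  unfold qs
  rcases hq4 with hq4 | hq4
  · rw [if_pos hq4]
    have := (ZMod.exists_sq_eq_prime_iff_of_mod_four_eq_one (p := q) (q := l) hq4 hl2).1 h
    exact_mod_cast this
  · rw [if_neg (by omega)]
    rcases hl4 with hl4 | hl4
    · have h1 := (ZMod.exists_sq_eq_prime_iff_of_mod_four_eq_one (p := l) (q := q) hl4 hq2).2 h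
      have h2 : IsSquare (-1 : ZMod l) := ZMod.exists_sq_eq_neg_one_iff.2 (by omega)
      have h3 := h2.mul h1
      push_cast
      rwa [neg_one_mul] at h3
    · have h1 : ¬ IsSquare ((q : ℕ) : ZMod l) := fun hcon =>
        (ZMod.exists_sq_eq_prime_iff_of_mod_four_eq_three (p := l) (q := q) hl4 hq4 hlq).1 hcon h
      have h2 : ¬ IsSquare (-1 : ZMod l) := fun hcon =>
        absurd (ZMod.exists_sq_eq_neg_one_iff.1 hcon) (by omega)
      have h3 : legendreSym l (-1) = -1 := (legendreSym.eq_neg_one_iff l).2 (by simpa using h2)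
      have h4 : legendreSym l (q : ℤ) = -1 := (legendreSym.eq_neg_one_iff l).2 (by simpa using h1)
      have h5 : legendreSym l (-(q : ℤ)) = 1 := by
        rw [show (-(q : ℤ)) = (-1) * q by ring, legendreSym.mul, h3, h4]; norm_num
      have h6 : ((-(q : ℤ) : ℤ) : ZMod l) ≠ 0 := by
        push_cast
        rw [neg_ne_zero]
        intro hcon
        exact hlq ((Nat.prime_dvd_prime_iff_eq hl hq).1 ((ZMod.natCast_eq_zero_iff _ _).1 hcon))
      exact (legendreSym.eq_one_iff l h6).1 h5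

lemma rho_fq_ne_zero {l q : ℕ} (hl : l.Prime) (hq : q.Prime) (hl2 : l ≠ 2) (hq2 : q ≠ 2) (hlq : l ≠ q)
    (h : IsSquare (l : ZMod q)) : rho (fq q) l ≠ 0 := by
  have : Fact l.Prime := ⟨hl⟩
  obtain ⟨x, hx⟩ := sq_star hl hq hl2 hq2 hlq h
  unfold rho
  rw [← Nat.pos_iff_ne_zero, card_pos]
  refine ⟨x.val, ?_⟩
  rw [mem_filter, mem_range]
  refine ⟨ZMod.val_lt x, ?_⟩
  rw [fq_eval, ← ZMod.intCast_zmod_eq_zero_iff_dvd]
  push_cast
  rw [ZMod.natCast_val, ZMod.cast_id', id, hx]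
  ring

/-- the roots come in pairs -/
lemma rho_fq_two {l q : ℕ} (hl : l.Prime) (hq : q.Prime) (hl2 : l ≠ 2) (hlq : l ≠ q)
    (h : rho (fq q) l ≠ 0) : 2 ≤ rho (fq q) l := by
  unfold rho at h ⊢
  rw [← Nat.pos_iff_ne_zero, card_pos] at h
  obtain ⟨a, ha⟩ := h
  rw [mem_filter, mem_range, fq_eval] at ha
  have ha0 : a ≠ 0 := by
    rintro rfl
    have h1 : (l : ℤ) ∣ qs q := by
      have := ha.2
      simpa using this
    have h2 : l ∣ q := by
      have := Int.natCast_dvd.1 h1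
      rwa [qs_natAbs] at this
    exact hlq ((Nat.prime_dvd_prime_iff_eq hl hq).1 h2)
  have hodd : l % 2 = 1 := by
    rcases hl.eq_two_or_odd with h1 | h1
    · exact absurd h1 hl2
    · exact h1
  have hne : a ≠ l - a := by omega
  rw [← card_pair hne]
  apply card_le_card
  intro x hx
  rw [mem_insert, mem_singleton] at hx
  rw [mem_filter, mem_range, fq_eval]
  rcases hx with rfl | rfl
  · exact ha
  · refine ⟨by omega, ?_⟩
    have h1 : (((l - a : ℕ) : ℤ)) ^ 2 - qs q = (a : ℤ) ^ 2 - qs q + l * (l - 2 * a) := by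
      rw [Nat.cast_sub ha.1.le]; ring
    rw [h1]
    exact dvd_add ha.2 (dvd_mul_right _ _)

lemma rho_X {l : ℕ} (hl : 0 < l) : rho (X : ℤ[X]) l = 1 := by
  unfold rho
  rw [card_eq_one]
  refine ⟨0, ?_⟩
  ext a
  simp only [mem_filter, mem_range, eval_X, mem_singleton]
  constructor
  · rintro ⟨h1, h2⟩
    have h3 : l ∣ a := by exact_mod_cast h2
    exact Nat.eq_zero_of_dvd_of_lt h3 h1
  · rintro rfl
    exact ⟨hl, by simp⟩

/-- the sum of the reciprocals of the primes `l` with `(l / q) = -1` -/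
theorem NR_sum {q : ℕ} (hq : q.Prime) : ∃ C : ℝ, ∀ J : ℕ, 1 ≤ J →
    J * Real.log 2 / 2 - C ≤ ∑ l ∈ (Pr 3 J).filter (fun l => rho (fq q) l = 0), (1 : ℝ) / l := by
  obtain ⟨C1, _, h1⟩ := mert (X : ℤ[X]) Polynomial.irreducible_X (by rw [natDegree_X]; norm_num)
  obtain ⟨C2, _, h2⟩ := mert (fq q) (fq_irreducible hq) (by rw [fq_natDegree]; norm_num)
  obtain ⟨B, hB⟩ := rho_le (fq q) (fq_irreducible hq).ne_zero
  rw [fq_natDegree] at hB
  refine ⟨C1 + C2 / 2 + (B + q + 1), fun J hJ => ?_⟩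
  have e1 := (abs_le.1 (h1 J hJ)).1
  have e2 := (abs_le.1 (h2 J hJ)).2
  have e3 : ∑ l ∈ Pr 3 J, ((rho (X : ℤ[X]) l : ℝ) / l - (rho (fq q) l : ℝ) / l / 2) ≤
      ∑ l ∈ Pr 3 J, ((if rho (fq q) l = 0 then (1 : ℝ) / l else 0) + (if l ∈ range (B + q + 1) then 1 else 0)) := by
    apply Finset.sum_le_sum
    intro l hl
    have hl' := (mem_filter.1 hl).2
    have hl0 : (0 : ℝ) < l := by exact_mod_cast hl'.1.pos
    rw [rho_X hl'.1.pos]
    by_cases hlB : l ∈ range (B + q + 1)
    · rw [if_pos hlB]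
      have : (0 : ℝ) ≤ (if rho (fq q) l = 0 then (1 : ℝ) / l else 0) := by split_ifs <;> positivity
      have h3 : ((1 : ℕ) : ℝ) / l ≤ 1 := by
        rw [div_le_one hl0]; exact_mod_cast hl'.1.pos
      have h4 : (0 : ℝ) ≤ (rho (fq q) l : ℝ) / l / 2 := by positivity
      linarith
    · rw [if_neg hlB, add_zero]
      rw [mem_range] at hlB
      have hlq : l ≠ q := by omega
      have hlB' : B < l := by omega
      have h3 := hB l hl'.1 hlB'
      by_cases h0 : rho (fq q) l = 0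
      · rw [if_pos h0, h0]; simp
      · rw [if_neg h0]
        have h4 := rho_fq_two hl'.1 hq (by omega) hlq h0
        have h5 : rho (fq q) l = 2 := by omega
        rw [h5]
        push_cast
        have : (1 : ℝ) / l - 2 / l / 2 = 0 := by ring
        rw [this]
  rw [Finset.sum_sub_distrib, Finset.sum_add_distrib, ← Finset.sum_div] at e3
  have e4 : ∑ l ∈ Pr 3 J, (if l ∈ range (B + q + 1) then (1 : ℝ) else 0) ≤ B + q + 1 := by
    rw [← Finset.sum_filter, sum_const, nsmul_eq_mul, mul_one]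
    have : (Pr 3 J).filter (fun l => l ∈ range (B + q + 1)) ⊆ range (B + q + 1) := by
      intro l hl; exact (mem_filter.1 hl).2
    have := card_le_card this
    rw [card_range] at this
    exact_mod_cast this
  rw [Finset.sum_filter]
  linarith

end Pool.Agent.TH506.APD
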