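import Pool.Agent.TH506.APD.Cls
import Pool.Agent.H483R2.ED_BHK
import Pool.Agent.H483R2.ED_CountCRT
import Pool.Agent.H474R2.PG.MertensF

/-!
The sieve: `n ^ 2 + n + 1 = s * prime`.
-/

set_option autoImplicit false

namespace Pool.Agent.TH506.APD

open Finset Polynomial
open Pool.Agent.H410R2.ED Pool.Agent.H474R2.PG

/-- the polynomial -/
noncomputable def FP : ℤ[X] := X ^ 2 + X + 1

lemma FP_eval (a : ℕ) : FP.eval (a : ℤ) = ((a ^ 2 + a + 1 : ℕ) : ℤ) := by
  unfold FP; simp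

lemma rho_FP (l : ℕ) : rho FP l = #((range l).filter (fun a => l ∣ a ^ 2 + a + 1)) := by
  unfold rho
  congr 1
  apply Finset.filter_congr
  intro a _
  rw [FP_eval, Int.natCast_dvd_natCast]

lemma rho_FP_le {l : ℕ} (hl : l.Prime) : rho FP l ≤ 2 := by
  rw [rho_FP]
  have h := count_one (X := l - 1) (f := 1) hl (Nat.coprime_one_left l)
    ((range l).filter (fun a => l ∣ a ^ 2 + a + 1))
    (fun x hx => by have := mem_range.1 (mem_filter.1 hx).1; omega)
    (fun x _ y _ => Nat.modEq_one) (fun x hx => (mem_filter.1 hx).2)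
  have h2 : (l - 1) / (1 * l) = 0 := by
    rw [one_mul]; exact Nat.div_eq_of_lt (by have := hl.pos; omega)
  rw [h2] at h
  simpa using h

lemma dvd_val_congr {l x y : ℕ} (h : x ≡ y [MOD l]) : l ∣ x ^ 2 + x + 1 ↔ l ∣ y ^ 2 + y + 1 := by
  have h1 : x ^ 2 + x + 1 ≡ y ^ 2 + y + 1 [MOD l] := ((h.pow 2).add h).add_right 1
  exact h1.dvd_iff dvd_rfl

lemma card_affine {l s a : ℕ} (hl : l.Prime) (hs : ¬ l ∣ s) :
    #((range l).filter (fun t => l ∣ (a + s * t) ^ 2 + (a + s * t) + 1)) = rho FP l := by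
  rw [rho_FP]
  have : Fact l.Prime := ⟨hl⟩
  have hs0 : (s : ZMod l) ≠ 0 := fun h => hs ((ZMod.natCast_eq_zero_iff s l).1 h)
  refine Finset.card_bij (fun t _ => (a + s * t) % l) ?_ ?_ ?_
  · intro t ht
    rw [mem_filter] at ht ⊢
    exact ⟨mem_range.2 (Nat.mod_lt _ hl.pos), (dvd_val_congr (Nat.mod_modEq _ _)).2 ht.2⟩
  · intro t ht t' ht' h
    rw [mem_filter, mem_range] at ht ht'
    have h1 : ((a + s * t : ℕ) : ZMod l) = ((a + s * t' : ℕ) : ZMod l) :=
      (ZMod.natCast_eq_natCast_iff' _ _ _).2 h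
    push_cast at h1
    have h3 := mul_left_cancel₀ hs0 (add_left_cancel h1)
    have h4 := (ZMod.natCast_eq_natCast_iff' _ _ _).1 h3
    rwa [Nat.mod_eq_of_lt ht.1, Nat.mod_eq_of_lt ht'.1] at h4
  · intro b hb
    rw [mem_filter, mem_range] at hb
    set x : ZMod l := ((b : ZMod l) - a) * (s : ZMod l)⁻¹ with hx
    have h1 : ((a + s * x.val : ℕ) : ZMod l) = (b : ZMod l) := by
      push_cast
      rw [ZMod.natCast_val, ZMod.cast_id', id, hx]
      field_simp
      ring
    have h2 := (ZMod.natCast_eq_natCast_iff' _ _ _).1 h1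
    refine ⟨x.val, ?_, ?_⟩
    · rw [mem_filter, mem_range]
      exact ⟨ZMod.val_lt x, (dvd_val_congr h2).2 hb.2⟩
    · rwa [Nat.mod_eq_of_lt hb.1] at h2

open Classical in
theorem sieve_core : ∃ c : ℕ, 1 ≤ c ∧ ∀ (s a N J : ℕ),
    (#((range N).filter (fun t => ∀ l ∈ Pr 2 J, ¬ l ∣ s → ¬ l ∣ (a + s * t) ^ 2 + (a + s * t) + 1)) : ℝ) ≤
      2 * N * ∏ l ∈ (Pr 2 J).filter (fun l => ¬ l ∣ s), (1 - (rho FP l : ℝ) / l) +
        ((2 : ℝ) ^ 2 ^ J) ^ (c * 2) := by
  obtain ⟨c, hc, hB⟩ := Pool.Agent.H483R2.bhk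
  refine ⟨c, hc, fun s a N J => ?_⟩
  set P : ℕ → ℕ → Prop := fun l t => ¬ l ∣ s ∧ l ∣ (a + s * t) ^ 2 + (a + s * t) + 1 with hP
  set g : ℕ → ℝ := fun l => if ¬ l ∣ s ∧ l.Prime then (rho FP l : ℝ) / l else 0 with hg
  have hPr : ∀ l ∈ Pr 2 J, l.Prime := fun l hl => (mem_filter.1 hl).2.1
  set nn : ℕ → ℕ := fun t => ∏ l ∈ (Pr 2 J).filter (fun l => P l t), l with hnn
  have hdvd : ∀ l ∈ Pr 2 J, ∀ t, l ∣ nn t ↔ P l t := by
    intro l hl t
    constructor
    · intro h
      obtain ⟨q, hq, hlq⟩ := (Prime.dvd_finsetProd_iff (Nat.Prime.prime (hPr l hl)) _).1 h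
      rw [mem_filter] at hq
      have : l = q := (Nat.prime_dvd_prime_iff_eq (hPr l hl) (hPr q hq.1)).1 hlq
      rw [this]; exact hq.2
    · intro h
      exact Finset.dvd_prod_of_mem _ (mem_filter.2 ⟨hl, h⟩)
  have hper : ∀ l t : ℕ, P l (t + l) ↔ P l t := by
    intro l t
    simp only [hP]
    have h1 : a + s * (t + l) ≡ a + s * t [MOD l] := by
      have h2 : a + s * (t + l) = (a + s * t) + s * l := by ring
      rw [h2]
      exact Nat.add_mul_modulus_modEq_iff.2 rfl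
    rw [dvd_val_congr h1]
  have hcard : ∀ l ∈ Pr 2 J, (#((range l).filter (P l)) : ℝ) / l = g l ∧
      (#((range l).filter (P l)) : ℝ) ≤ 2 := by
    intro l hl
    have hlp := hPr l hl
    by_cases hs : l ∣ s
    · have h1 : (range l).filter (P l) = ∅ := by
        rw [Finset.filter_eq_empty_iff]
        intro t _ h
        exact h.1 hs
      rw [h1, hg]
      simp [hs]
    · have h1 : (range l).filter (P l) =
          (range l).filter (fun t => l ∣ (a + s * t) ^ 2 + (a + s * t) + 1) := by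
        apply Finset.filter_congr
        intro t _
        simp only [hP]
        exact ⟨fun h => h.2, fun h => ⟨hs, h⟩⟩
      rw [h1, card_affine hlp hs, hg]
      simp only [hs, hlp, not_false_eq_true, and_self, if_true, true_and]
      exact_mod_cast rho_FP_le hlp
  have h1 := (hB 2 (by norm_num) g (by
    intro l hl
    rw [hg]
    beta_reduce
    split_ifs with h
    · refine ⟨by positivity, ?_⟩
      have : (rho FP l : ℝ) ≤ 2 := by exact_mod_cast rho_FP_le hl
      push_cast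
      gcongr
    · exact ⟨le_rfl, by positivity⟩) J ℕ (Ico 0 (0 + N)) nn N 1 (by positivity) (by norm_num) (by
    intro D hD
    have h2 := Pool.Agent.H483R2.countCRT D P (fun l hl => hPr l (hD hl))
      (fun l _ t => hper l t) 0 N
    have e1 : (Ico 0 (0 + N)).filter (fun t => ∀ l ∈ D, l ∣ nn t) =
        (Ico 0 (0 + N)).filter (fun t => ∀ l ∈ D, P l t) := by
      apply Finset.filter_congr
      intro t _
      exact forall₂_congr fun l hl => hdvd l (hD hl) t
    have e2 : ∏ l ∈ D, ((#((range l).filter (P l)) : ℝ) / l) = ∏ l ∈ D, g l :=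
      Finset.prod_congr rfl fun l hl => (hcard l (hD hl)).1
    have e3 : ∏ l ∈ D, (#((range l).filter (P l)) : ℝ) ≤ (2 : ℝ) ^ #D := by
      rw [← Finset.prod_const]
      exact Finset.prod_le_prod (fun l _ => by positivity) (fun l hl => (hcard l (hD hl)).2)
    rw [e1, ← e2, mul_one]
    push_cast
    exact h2.trans e3)).2
  have e4 : (range N).filter (fun t => ∀ l ∈ Pr 2 J, ¬ l ∣ s → ¬ l ∣ (a + s * t) ^ 2 + (a + s * t) + 1) =
      (Ico 0 (0 + N)).filter (fun t => ∀ l ∈ Pr 2 J, ¬ l ∣ nn t) := by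
    rw [zero_add, ← Finset.range_eq_Ico]
    apply Finset.filter_congr
    intro t _
    refine forall₂_congr fun l hl => ?_
    rw [hdvd l hl t]
    simp only [hP]
    tauto
  have e5 : ∏ l ∈ Pr 2 J, (1 - g l) = ∏ l ∈ (Pr 2 J).filter (fun l => ¬ l ∣ s), (1 - (rho FP l : ℝ) / l) := by
    rw [Finset.prod_filter]
    apply Finset.prod_congr rfl
    intro l hl
    rw [hg]
    beta_reduce
    by_cases h : l ∣ s
    · simp [h]
    · simp [h, hPr l hl]
  rw [e4]
  rw [e5, mul_one] at h1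
  exact h1

end Pool.Agent.TH506.APD
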