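import Pool.Agent.TH506.APD.Siv
import Pool.Agent.H510R2.Div

set_option autoImplicit false

namespace Pool.Agent.TH506.APD

open Finset Polynomial
open Pool.Agent.H410R2.ED Pool.Agent.H474R2.PG

lemma FP_natDegree : FP.natDegree = 2 := by
  unfold FP; compute_degree!

lemma FP_monic : FP.Monic := by
  unfold FP; monicity!

lemma FP_irreducible : Irreducible FP := by
  have h := Polynomial.cyclotomic.irreducible (n := 3) (by norm_num)
  rw [Polynomial.cyclotomic_three] at h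
  exact h

lemma two_pow_omega_le (s : ℕ) (hs : s ≠ 0) : 2 ^ #s.primeFactors ≤ s.divisors.card := by
  rw [Nat.card_divisors hs, ← Finset.prod_const]
  apply Finset.prod_le_prod'
  intro p hp
  have := (Nat.mem_primeFactors.1 hp)
  have h1 : 0 < s.factorization p := this.1.factorization_pos_of_dvd hs this.2.1
  omega

open Classical in
lemma prod_bound : ∃ C : ℝ, 0 < C ∧ ∀ s J : ℕ, 0 < s → 1 ≤ J →
    ∏ l ∈ (Pr 2 J).filter (fun l => ¬ l ∣ s), (1 - (rho FP l : ℝ) / l) ≤
      C * s.divisors.card / 2 ^ J := by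
  obtain ⟨C0, hC0⟩ := mertens_lower FP FP_irreducible (by rw [FP_natDegree]; norm_num)
  refine ⟨Real.exp (C0 + 2) * (2 / Real.log 2), by
    have : 0 < Real.log 2 := Real.log_pos (by norm_num)
    positivity, fun s J hs hJ => ?_⟩
  have hlog2 : 0 < Real.log 2 := Real.log_pos (by norm_num)
  have hPr : ∀ l ∈ Pr 2 J, l.Prime ∧ 4 < l := fun l hl => by
    have := (mem_filter.1 hl).2
    exact ⟨this.1, by omega⟩
  -- the sum over the primes dividing `s`
  have h1 : ∑ l ∈ (Pr 2 J).filter (fun l => l ∣ s), (rho FP l : ℝ) / l ≤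
      #s.primeFactors * Real.log 2 := by
    calc ∑ l ∈ (Pr 2 J).filter (fun l => l ∣ s), (rho FP l : ℝ) / l
        ≤ ∑ l ∈ (Pr 2 J).filter (fun l => l ∣ s), Real.log 2 := by
          apply Finset.sum_le_sum
          intro l hl
          rw [mem_filter] at hl
          have h2 : (rho FP l : ℝ) ≤ 2 := by exact_mod_cast rho_FP_le (hPr l hl.1).1
          have h3 : (5 : ℝ) ≤ l := by exact_mod_cast (hPr l hl.1).2
          have h4 : (rho FP l : ℝ) / l ≤ 2 / 5 := by gcongr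
          have := Real.log_two_gt_d9
          linarith
      _ = (#((Pr 2 J).filter (fun l => l ∣ s)) : ℝ) * Real.log 2 := by
          rw [sum_const, nsmul_eq_mul]
      _ ≤ _ := by
          gcongr
          intro l hl
          rw [mem_filter] at hl
          exact Nat.mem_primeFactors.2 ⟨(hPr l hl.1).1, hl.2, hs.ne'⟩
  -- Mertens
  set W : ℝ := (2 : ℝ) ^ 2 ^ J - 1 with hW
  have hJ2 : 2 ≤ 2 ^ J := by
    calc 2 = 2 ^ 1 := by norm_num
      _ ≤ 2 ^ J := Nat.pow_le_pow_right (by norm_num) hJ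
  have hpow : (4 : ℝ) ≤ (2 : ℝ) ^ 2 ^ J := by
    calc (4 : ℝ) = 2 ^ 2 := by norm_num
      _ ≤ (2 : ℝ) ^ 2 ^ J := pow_le_pow_right₀ (by norm_num) hJ2
  have hW3 : 3 ≤ W := by rw [hW]; linarith
  have hfl : ⌊W⌋₊ = 2 ^ 2 ^ J - 1 := by
    have h2 : 1 ≤ 2 ^ 2 ^ J := Nat.one_le_two_pow
    have h3 : W = ((2 ^ 2 ^ J - 1 : ℕ) : ℝ) := by rw [hW]; push_cast [Nat.cast_sub h2]; ring
    rw [h3, Nat.floor_natCast]
  have h2 : Sg (rho FP) W ≤ ∑ l ∈ Pr 2 J, (rho FP l : ℝ) / l + 2 := by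
    unfold Sg
    have hsub : PR W ⊆ Pr 2 J ∪ {2, 3} := by
      intro l hl
      unfold PR at hl
      rw [mem_filter, mem_Icc, hfl] at hl
      rw [mem_union]
      by_cases h4 : 4 < l
      · left
        unfold Pr
        rw [mem_filter, mem_range]
        have : 1 ≤ 2 ^ 2 ^ J := Nat.one_le_two_pow
        exact ⟨by omega, hl.2, by omega⟩
      · right
        have h5 := hl.2.two_le
        have h6 : l ≠ 4 := by rintro rfl; exact absurd hl.2 (by norm_num)
        have h7 : l = 2 ∨ l = 3 := by omega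
        simpa using h7
    calc ∑ l ∈ PR W, (rho FP l : ℝ) / l ≤ ∑ l ∈ Pr 2 J ∪ {2, 3}, (rho FP l : ℝ) / l := by
          apply Finset.sum_le_sum_of_subset_of_nonneg hsub
          intro i _ _; positivity
      _ ≤ ∑ l ∈ Pr 2 J, (rho FP l : ℝ) / l + ∑ l ∈ ({2, 3} : Finset ℕ), (rho FP l : ℝ) / l := by
          rw [← Finset.sum_union_inter]
          have : 0 ≤ ∑ l ∈ Pr 2 J ∩ {2, 3}, (rho FP l : ℝ) / l := Finset.sum_nonneg fun i _ => by positivity
          linarith
      _ ≤ _ := by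
          rw [Finset.sum_pair (by norm_num)]
          have e2 : (rho FP 2 : ℝ) ≤ 2 := by exact_mod_cast rho_FP_le Nat.prime_two
          have e3 : (rho FP 3 : ℝ) ≤ 2 := by exact_mod_cast rho_FP_le Nat.prime_three
          push_cast
          linarith
  have h3 := hC0 W hW3
  have h4 : Real.log (2 ^ J * Real.log 2 / 2) ≤ Real.log (Real.log W) := by
    apply Real.log_le_log (by positivity)
    have h5 : (2 : ℝ) ^ (2 ^ J - 1) ≤ W := by
      have h6 : (2 : ℝ) ^ 2 ^ J = 2 * (2 : ℝ) ^ (2 ^ J - 1) := by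
        rw [← pow_succ']
        congr 1; omega
      have h7 : (1 : ℝ) ≤ (2 : ℝ) ^ (2 ^ J - 1) := one_le_pow₀ (by norm_num)
      rw [hW, h6]; linarith
    have h6 : ((2 ^ J - 1 : ℕ) : ℝ) * Real.log 2 ≤ Real.log W := by
      rw [← Real.log_pow]
      exact Real.log_le_log (by positivity) h5
    refine le_trans ?_ h6
    have h7 : (2 : ℝ) ^ J / 2 ≤ ((2 ^ J - 1 : ℕ) : ℝ) := by
      have h8 : 1 ≤ 2 ^ J := by omega
      have h9 : (2 : ℝ) ≤ (2 : ℝ) ^ J := by exact_mod_cast hJ2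
      push_cast [Nat.cast_sub h8]
      linarith
    calc 2 ^ J * Real.log 2 / 2 = (2 : ℝ) ^ J / 2 * Real.log 2 := by ring
      _ ≤ _ := by gcongr
  have h5 : Real.log (2 ^ J * Real.log 2 / 2) - C0 - 2 - #s.primeFactors * Real.log 2 ≤
      ∑ l ∈ (Pr 2 J).filter (fun l => ¬ l ∣ s), (rho FP l : ℝ) / l := by
    have h6 := Finset.sum_filter_add_sum_filter_not (Pr 2 J) (fun l => l ∣ s)
      (fun l => (rho FP l : ℝ) / l)
    linarith
  calc ∏ l ∈ (Pr 2 J).filter (fun l => ¬ l ∣ s), (1 - (rho FP l : ℝ) / l)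
      ≤ ∏ l ∈ (Pr 2 J).filter (fun l => ¬ l ∣ s), Real.exp (-((rho FP l : ℝ) / l)) := by
        apply Finset.prod_le_prod
        · intro l hl
          rw [mem_filter] at hl
          have h2 : (rho FP l : ℝ) ≤ 2 := by exact_mod_cast rho_FP_le (hPr l hl.1).1
          have h3 : (5 : ℝ) ≤ l := by exact_mod_cast (hPr l hl.1).2
          have h4 : (rho FP l : ℝ) / l ≤ 2 / 5 := by gcongr
          linarith
        · intro l _
          have := Real.add_one_le_exp (-((rho FP l : ℝ) / l))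
          linarith
    _ = Real.exp (-∑ l ∈ (Pr 2 J).filter (fun l => ¬ l ∣ s), (rho FP l : ℝ) / l) := by
        rw [← Real.exp_sum, Finset.sum_neg_distrib]
    _ ≤ Real.exp (C0 + 2 + #s.primeFactors * Real.log 2 - Real.log (2 ^ J * Real.log 2 / 2)) := by
        apply Real.exp_le_exp.2
        linarith
    _ = Real.exp (C0 + 2) * 2 ^ #s.primeFactors / (2 ^ J * Real.log 2 / 2) := by
        rw [Real.exp_sub, Real.exp_add, Real.exp_log (by positivity), ← Real.log_pow,
          Real.exp_log (by positivity)]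
    _ ≤ Real.exp (C0 + 2) * s.divisors.card / (2 ^ J * Real.log 2 / 2) := by
        gcongr
        exact_mod_cast two_pow_omega_le s hs.ne'
    _ = _ := by field_simp

/-- choice of the level -/
lemma exists_level {c Y : ℕ} (hc : 1 ≤ c) (hY : 2 ^ (8 * c) ≤ Y) :
    ∃ J : ℕ, 1 ≤ J ∧ ((2 : ℝ) ^ 2 ^ J) ^ (c * 2) ≤ Y ∧ 2 ^ 2 ^ J ≤ Y ∧
      1 / (2 : ℝ) ^ J ≤ 4 * c * Real.log 2 / Real.log Y := by
  have hY0 : Y ≠ 0 := by have : 0 < 2 ^ (8 * c) := by positivity
                         omega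
  set k := Nat.log 2 Y with hk
  have hk8 : 8 * c ≤ k := Nat.le_log_of_pow_le (by norm_num) hY
  set u := k / (2 * c) with hu
  have hu4 : 4 ≤ u := by
    rw [hu, Nat.le_div_iff_mul_le (by omega)]
    calc 4 * (2 * c) = 8 * c := by ring
      _ ≤ k := hk8
  set J := Nat.log 2 u with hJ
  have hJ1 : 1 ≤ J := Nat.le_log_of_pow_le (by norm_num) (by omega)
  have h1 : 2 ^ J ≤ u := Nat.pow_log_le_self 2 (by omega)
  have h2 : u < 2 ^ (J + 1) := Nat.lt_pow_succ_log_self (by norm_num) u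
  have h3 : 2 ^ k ≤ Y := Nat.pow_log_le_self 2 hY0
  have h4 : Y < 2 ^ (k + 1) := Nat.lt_pow_succ_log_self (by norm_num) Y
  have h5 : 2 ^ J * (c * 2) ≤ k := by
    calc 2 ^ J * (c * 2) ≤ u * (2 * c) := by rw [mul_comm c 2]; exact Nat.mul_le_mul_right _ h1
      _ ≤ k := Nat.div_mul_le_self _ _
  have h6 : (2 ^ 2 ^ J) ^ (c * 2) ≤ Y := by
    rw [← pow_mul]
    exact (Nat.pow_le_pow_right (by norm_num) h5).trans h3
  refine ⟨J, hJ1, by exact_mod_cast h6, ?_, ?_⟩
  · refine le_trans ?_ h6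
    exact Nat.le_self_pow (by omega) _
  · have h7 : k + 1 ≤ 4 * c * 2 ^ J := by
      have h8 : k < (u + 1) * (2 * c) := by
        have := Nat.div_add_mod k (2 * c)
        have h9 : k % (2 * c) < 2 * c := Nat.mod_lt _ (by omega)
        rw [← hu] at this
        nlinarith
      have h9 : (u + 1) * (2 * c) ≤ 2 ^ (J + 1) * (2 * c) := Nat.mul_le_mul_right _ h2
      calc k + 1 ≤ (u + 1) * (2 * c) := h8
        _ ≤ 2 ^ (J + 1) * (2 * c) := h9
        _ = _ := by ring
    have hlog2 : 0 < Real.log 2 := Real.log_pos (by norm_num)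
    have hY1 : (1 : ℝ) < Y := by
      have : 2 ^ 1 ≤ 2 ^ (8 * c) := Nat.pow_le_pow_right (by norm_num) (by omega)
      have h8 : 1 < Y := by omega
      exact_mod_cast h8
    have hlogY : 0 < Real.log Y := Real.log_pos hY1
    have h8 : Real.log Y ≤ (k + 1) * Real.log 2 := by
      have h9 : (Y : ℝ) ≤ 2 ^ (k + 1) := by exact_mod_cast h4.le
      calc Real.log Y ≤ Real.log ((2 : ℝ) ^ (k + 1)) := Real.log_le_log (by linarith) h9
        _ = _ := by rw [Real.log_pow]; push_cast; ring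
    have h9 : ((k : ℝ) + 1) ≤ 4 * c * 2 ^ J := by exact_mod_cast h7
    rw [div_le_div_iff₀ (by positivity) hlogY]
    calc 1 * Real.log Y ≤ (k + 1) * Real.log 2 := by linarith
      _ ≤ (4 * c * 2 ^ J) * Real.log 2 := by gcongr
      _ = _ := by ring

/-- the series over `s = j (j - 1) + 1` -/
lemma series_s : ∃ C : ℝ, 0 < C ∧ ∀ J : ℕ, ∑ j ∈ range J,
    ((j * (j - 1) + 1).divisors.card : ℝ) ^ 2 / ((j * (j - 1) + 1 : ℕ) : ℝ) ≤ C := by
  obtain ⟨D, hD, hDb⟩ := Pool.Agent.H510R2.divisor_bound (1 / 8) (by norm_num)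
  have hsum : Summable (fun k : ℕ => 1 / (k : ℝ) ^ (3 / 2 : ℝ)) :=
    Real.summable_one_div_nat_rpow.2 (by norm_num)
  set T := ∑' k : ℕ, 1 / (k : ℝ) ^ (3 / 2 : ℝ) with hT
  have hT0 : 0 ≤ T := tsum_nonneg fun k => by positivity
  refine ⟨D ^ 2 * (2 + T), by positivity, fun J => ?_⟩
  have key : ∀ j : ℕ, ((j * (j - 1) + 1).divisors.card : ℝ) ^ 2 / ((j * (j - 1) + 1 : ℕ) : ℝ) ≤
      D ^ 2 * (((if j < 2 then 1 else 0) : ℝ) + 1 / ((j - 1 : ℕ) : ℝ) ^ (3 / 2 : ℝ)) := by
    intro j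
    set s := j * (j - 1) + 1 with hs
    have hs0 : (0 : ℝ) < s := by positivity
    have h1 := hDb s (by omega)
    have h2 : (s.divisors.card : ℝ) ^ 2 ≤ D ^ 2 * (s : ℝ) ^ (1 / 4 : ℝ) := by
      calc (s.divisors.card : ℝ) ^ 2 ≤ (D * (s : ℝ) ^ (1 / 8 : ℝ)) ^ 2 := by gcongr
        _ = D ^ 2 * (s : ℝ) ^ (1 / 4 : ℝ) := by
          rw [mul_pow, ← Real.rpow_natCast ((s : ℝ) ^ (1 / 8 : ℝ)), ← Real.rpow_mul hs0.le]
          norm_num
    have h3 : (s.divisors.card : ℝ) ^ 2 / s ≤ D ^ 2 * (s : ℝ) ^ (-(3 / 4) : ℝ) := by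
      rw [div_le_iff₀ hs0]
      calc _ ≤ D ^ 2 * (s : ℝ) ^ (1 / 4 : ℝ) := h2
        _ = D ^ 2 * (s : ℝ) ^ (-(3 / 4) : ℝ) * s := by
          rw [mul_assoc]
          congr 1
          nth_rewrite 3 [← Real.rpow_one (s : ℝ)]
          rw [← Real.rpow_add hs0]; norm_num
    refine h3.trans ?_
    gcongr
    by_cases hj : j < 2
    · rw [if_pos hj]
      have h4 : (s : ℝ) ^ (-(3 / 4) : ℝ) ≤ 1 := by
        apply Real.rpow_le_one_of_one_le_of_nonpos
        · rw [hs]; push_cast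
          have : (0 : ℝ) ≤ (j : ℝ) * ((j - 1 : ℕ) : ℝ) := by positivity
          linarith
        · norm_num
      have h5 : (0 : ℝ) ≤ 1 / ((j - 1 : ℕ) : ℝ) ^ (3 / 2 : ℝ) := by positivity
      linarith
    · rw [if_neg hj, zero_add]
      have hj1 : (0 : ℝ) < ((j - 1 : ℕ) : ℝ) := by exact_mod_cast (by omega : 0 < j - 1)
      have h4 : (((j - 1 : ℕ) : ℝ)) ^ 2 ≤ s := by
        have : (j - 1) ^ 2 ≤ s := by
          rw [hs, pow_two]
          have := Nat.mul_le_mul_right (j - 1) (Nat.sub_le j 1)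
          omega
        exact_mod_cast this
      rw [Real.rpow_neg hs0.le, one_div]
      apply inv_anti₀ (by positivity)
      calc ((j - 1 : ℕ) : ℝ) ^ (3 / 2 : ℝ) = ((((j - 1 : ℕ) : ℝ)) ^ 2) ^ (3 / 4 : ℝ) := by
            rw [← Real.rpow_natCast, ← Real.rpow_mul hj1.le]; norm_num
        _ ≤ _ := Real.rpow_le_rpow (by positivity) h4 (by norm_num)
  calc _ ≤ ∑ j ∈ range J, D ^ 2 * (((if j < 2 then 1 else 0) : ℝ) + 1 / ((j - 1 : ℕ) : ℝ) ^ (3 / 2 : ℝ)) :=
        Finset.sum_le_sum fun j _ => key j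
    _ = D ^ 2 * (∑ j ∈ range J, (if j < 2 then (1 : ℝ) else 0) + ∑ j ∈ range J, 1 / ((j - 1 : ℕ) : ℝ) ^ (3 / 2 : ℝ)) := by
        rw [← Finset.mul_sum, Finset.sum_add_distrib]
    _ ≤ D ^ 2 * (2 + T) := by
        gcongr
        · rw [← Finset.sum_filter, sum_const, nsmul_eq_mul, mul_one]
          have : (range J).filter (fun j => j < 2) ⊆ range 2 := by
            intro j hj; rw [mem_filter] at hj; exact mem_range.2 hj.2
          have := card_le_card this
          rw [card_range] at this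
          exact_mod_cast this
        · rcases Nat.eq_zero_or_pos J with rfl | hJ
          · simpa using hT0
          · obtain ⟨J', rfl⟩ : ∃ J', J = J' + 1 := ⟨J - 1, by omega⟩
            rw [Finset.sum_range_succ']
            simp only [Nat.add_sub_cancel, Nat.zero_sub, Nat.cast_zero]
            rw [Real.zero_rpow (by norm_num), div_zero, add_zero]
            exact hsum.sum_le_tsum _ (fun i _ => by positivity)

open Classical in
/-- A9: `n ^ 2 + n + 1 = s * prime` -/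
theorem A9_count : ∃ (C : ℝ) (Y0 : ℕ), 0 < C ∧ ∀ X Y w B : ℕ, Y0 ≤ Y → w + 2 ≤ Y → 
    (∀ N : ℕ, 1 ≤ N → N ≤ Y ^ 2 → N.divisors.card ≤ B) → ∀ A : Finset ℕ,
    (∀ n ∈ A, n ≤ X ∧ Y ^ 10 < n ∧ P9 (w + 2) n) →
    (#A : ℝ) ≤ C * X / Real.log Y + (w + 2) * (C * B ^ 2 + 4 * B * Y) := by
  obtain ⟨c, hc, hsv⟩ := sieve_core
  obtain ⟨C1, hC1, hprod⟩ := prod_bound
  obtain ⟨C2, hC2, hser⟩ := series_s
  have hlog2 : 0 < Real.log 2 := Real.log_pos (by norm_num)
  set K : ℝ := 32 * c * C1 * Real.log 2 with hK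
  have hc0 : (0 : ℝ) < c := by exact_mod_cast hc
  have hK0 : 0 < K := by positivity
  refine ⟨K * (C2 + 1), 2 ^ (8 * c), by positivity, fun X Y w B hY0 hwY hτ A hA => ?_⟩
  obtain ⟨J, hJ1, hJ2, hJ3, hJ4⟩ := exists_level hc hY0
  have hY8 : 2 ^ 8 ≤ Y := le_trans (Nat.pow_le_pow_right (by norm_num) (by omega)) hY0
  have hYpos : 0 < Y := by omega
  have hY3 : (3 : ℝ) ≤ Y := by exact_mod_cast (by omega : 3 ≤ Y)
  have hlogY : 1 ≤ Real.log Y := by
    rw [Real.le_log_iff_exp_le (by linarith)]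
    have := Real.exp_one_lt_d9
    linarith
  -- one value of `j`
  have hone : ∀ j ∈ range (w + 2), (#(A.filter (fun n => ∃ R : ℕ, R.Prime ∧
      n ^ 2 + n + 1 = (j * (j - 1) + 1) * R)) : ℝ) ≤
      K / Real.log Y * (X * (((j * (j - 1) + 1).divisors.card : ℝ) ^ 2 / ((j * (j - 1) + 1 : ℕ) : ℝ)) + B ^ 2) +
        4 * B * Y := by
    intro j hj
    rw [mem_range] at hj
    set s := j * (j - 1) + 1 with hs
    have hs0 : 0 < s := by omega
    have hsr : (0 : ℝ) < s := by exact_mod_cast hs0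
    have hsY : s ≤ Y ^ 2 := by
      have h1 : j * (j - 1) ≤ (Y - 1) * (Y - 1) := Nat.mul_le_mul (by omega) (by omega)
      obtain ⟨y, rfl⟩ : ∃ y, Y = y + 1 := ⟨Y - 1, by omega⟩
      simp only [Nat.add_sub_cancel] at h1
      have h2 : (y + 1) ^ 2 = y * y + 2 * y + 1 := by ring
      rw [h2, hs]
      omega
    have hτs := hτ s (by omega) hsY
    set Rt : Finset ℕ := (range s).filter (fun a => s ∣ a ^ 2 + a + 1) with hRt
    set St : ℕ → Finset ℕ := fun a => (range (X / s + 1)).filter (fun t => ∀ l ∈ Pr 2 J, ¬ l ∣ s →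
      ¬ l ∣ (a + s * t) ^ 2 + (a + s * t) + 1) with hSt
    have hsub : A.filter (fun n => ∃ R : ℕ, R.Prime ∧ n ^ 2 + n + 1 = s * R) ⊆
        Rt.biUnion (fun a => (St a).image (fun t => a + s * t)) := by
      intro n hn
      rw [mem_filter] at hn
      obtain ⟨hnA, R, hR, hv⟩ := hn
      obtain ⟨hnX, hYn, _⟩ := hA n hnA
      have hdm : n % s + s * (n / s) = n := Nat.mod_add_div n s
      rw [mem_biUnion]
      refine ⟨n % s, ?_, ?_⟩
      · rw [hRt, mem_filter, mem_range]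
        refine ⟨Nat.mod_lt _ hs0, ?_⟩
        rw [dvd_val_congr (Nat.mod_modEq n s), hv]
        exact dvd_mul_right _ _
      · rw [mem_image]
        refine ⟨n / s, ?_, hdm⟩
        rw [hSt]
        simp only [mem_filter, mem_range]
        refine ⟨Nat.lt_succ_of_le (Nat.div_le_div_right hnX), ?_⟩
        intro l hl hls hdvd
        rw [hdm, hv] at hdvd
        have hlp : l.Prime := (mem_filter.1 hl).2.1
        have hlt : l < 2 ^ 2 ^ J := mem_range.1 (mem_filter.1 hl).1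
        have h1 := (hlp.dvd_mul.1 hdvd).resolve_left hls
        have h2 : l = R := (Nat.prime_dvd_prime_iff_eq hlp hR).1 h1
        -- `R` is large
        have h3 : R < Y := by omega
        have h4 : n ^ 2 + n + 1 < Y ^ 2 * Y := by
          rw [hv]
          calc s * R ≤ Y ^ 2 * R := Nat.mul_le_mul_right _ hsY
            _ < Y ^ 2 * Y := by gcongr
        have h5 : Y ^ 2 * Y ≤ Y ^ 10 := by
          calc Y ^ 2 * Y = Y ^ 3 := by ring
            _ ≤ Y ^ 10 := Nat.pow_le_pow_right hYpos (by norm_num)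
        have : n ≤ n ^ 2 + n + 1 := by omega
        omega
    have hRtc : (#Rt : ℝ) ≤ 4 * s.divisors.card := by
      have h1 := count_dvd (X := s) hs0 Rt (fun x hx => (mem_range.1 (mem_filter.1 hx).1).le)
        (fun x hx => (mem_filter.1 hx).2)
      have h2 : 3 * (s : ℝ) / s + 1 = 4 := by field_simp; norm_num
      rw [h2] at h1
      linarith
    have hStc : ∀ a ∈ Rt, (#(St a) : ℝ) ≤
        2 * (X / s + 1) * (C1 * s.divisors.card * (4 * c * Real.log 2 / Real.log Y)) + Y := by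
      intro a _
      have h1 := hsv s a (X / s + 1) J
      have h2 := hprod s J hs0 hJ1
      have h3 : ((X / s + 1 : ℕ) : ℝ) ≤ X / s + 1 := by
        push_cast
        gcongr
        exact Nat.cast_div_le
      have h4 : C1 * (s.divisors.card : ℝ) / 2 ^ J ≤ C1 * s.divisors.card * (4 * c * Real.log 2 / Real.log Y) := by
        calc C1 * (s.divisors.card : ℝ) / 2 ^ J = C1 * s.divisors.card * (1 / 2 ^ J) := by ring
          _ ≤ _ := by gcongr
      have h5 : (0 : ℝ) ≤ C1 * s.divisors.card * (4 * c * Real.log 2 / Real.log Y) := by positivity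
      have h6 : 2 * ((X / s + 1 : ℕ) : ℝ) * ∏ l ∈ (Pr 2 J).filter (fun l => ¬ l ∣ s), (1 - (rho FP l : ℝ) / l) ≤
          2 * (X / s + 1) * (C1 * s.divisors.card * (4 * c * Real.log 2 / Real.log Y)) := by
        calc _ ≤ 2 * ((X / s + 1 : ℕ) : ℝ) * (C1 * s.divisors.card * (4 * c * Real.log 2 / Real.log Y)) := by
              apply mul_le_mul_of_nonneg_left (h2.trans h4) (by positivity)
          _ ≤ _ := by gcongr
      calc (#(St a) : ℝ) ≤ _ := h1
        _ ≤ _ := add_le_add h6 hJ2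
    calc (#(A.filter (fun n => ∃ R : ℕ, R.Prime ∧ n ^ 2 + n + 1 = s * R)) : ℝ)
        ≤ ((∑ a ∈ Rt, #(St a) : ℕ) : ℝ) := by
          norm_cast
          exact (card_le_card hsub).trans (card_biUnion_le.trans (sum_le_sum fun a _ => card_image_le))
      _ = ∑ a ∈ Rt, (#(St a) : ℝ) := by push_cast; rfl
      _ ≤ ∑ a ∈ Rt, (2 * (X / s + 1) * (C1 * s.divisors.card * (4 * c * Real.log 2 / Real.log Y)) + Y) :=
          Finset.sum_le_sum hStc
      _ = #Rt * (2 * (X / s + 1) * (C1 * s.divisors.card * (4 * c * Real.log 2 / Real.log Y)) + Y) := by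
          rw [sum_const, nsmul_eq_mul]
      _ ≤ (4 * s.divisors.card) * (2 * (X / s + 1) * (C1 * s.divisors.card * (4 * c * Real.log 2 / Real.log Y)) + Y) := by
          gcongr
      _ = K / Real.log Y * (X * ((s.divisors.card : ℝ) ^ 2 / s) + (s.divisors.card : ℝ) ^ 2) +
          4 * s.divisors.card * Y := by
          rw [hK]; field_simp; ring
      _ ≤ K / Real.log Y * (X * ((s.divisors.card : ℝ) ^ 2 / s) + (B : ℝ) ^ 2) + 4 * B * Y := by
          have : (s.divisors.card : ℝ) ≤ B := by exact_mod_cast hτs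
          gcongr
  have hcov : A ⊆ (range (w + 2)).biUnion (fun j => A.filter (fun n => ∃ R : ℕ, R.Prime ∧
      n ^ 2 + n + 1 = (j * (j - 1) + 1) * R)) := by
    intro n hn
    obtain ⟨_, _, j, R, h1, h2, h3⟩ := hA n hn
    rw [mem_biUnion]
    exact ⟨j, mem_range.2 h1, mem_filter.2 ⟨hn, R, h2, h3⟩⟩
  calc (#A : ℝ) ≤ ((∑ j ∈ range (w + 2), #(A.filter (fun n => ∃ R : ℕ, R.Prime ∧
      n ^ 2 + n + 1 = (j * (j - 1) + 1) * R)) : ℕ) : ℝ) := by
        norm_cast
        exact (card_le_card hcov).trans card_biUnion_le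
    _ = ∑ j ∈ range (w + 2), (#(A.filter (fun n => ∃ R : ℕ, R.Prime ∧
      n ^ 2 + n + 1 = (j * (j - 1) + 1) * R)) : ℝ) := by push_cast; rfl
    _ ≤ ∑ j ∈ range (w + 2), (K / Real.log Y * (X * (((j * (j - 1) + 1).divisors.card : ℝ) ^ 2 / ((j * (j - 1) + 1 : ℕ) : ℝ)) + B ^ 2) +
        4 * B * Y) := Finset.sum_le_sum hone
    _ = K / Real.log Y * (X * ∑ j ∈ range (w + 2), (((j * (j - 1) + 1).divisors.card : ℝ) ^ 2 / ((j * (j - 1) + 1 : ℕ) : ℝ)))
        + (w + 2) * (K / Real.log Y * B ^ 2 + 4 * B * Y) := by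
        rw [Finset.sum_add_distrib, ← Finset.mul_sum, Finset.sum_add_distrib, ← Finset.mul_sum,
          sum_const, sum_const, card_range, nsmul_eq_mul, nsmul_eq_mul]
        push_cast
        ring
    _ ≤ K / Real.log Y * (X * C2) + (w + 2) * (K / 1 * B ^ 2 + 4 * B * Y) := by
        gcongr
        exact hser _
    _ ≤ _ := by
        have e1 : K / Real.log Y * (X * C2) = (K * C2) * X / Real.log Y := by ring
        rw [e1]
        have e2 : (K * C2) * X / Real.log Y ≤ K * (C2 + 1) * X / Real.log Y := by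
          gcongr
          linarith
        have e3 : K / 1 * (B : ℝ) ^ 2 ≤ K * (C2 + 1) * B ^ 2 := by
          rw [div_one]
          gcongr
          nlinarith
        gcongr

end Pool.Agent.TH506.APD
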