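import Pool.Agent.TH506.APD.Siv2
import Pool.Agent.H474R2.GE.FA

/-!
A general sieve of dimension at most `3`, and Mertens' theorem at the levels `2 ^ 2 ^ J`.
-/

set_option autoImplicit false

namespace Pool.Agent.TH506.APD

open Finset Polynomial
open Pool.Agent.H410R2.ED Pool.Agent.H474R2.PG

open Classical in
theorem sieve_gen : ∃ c : ℕ, 1 ≤ c ∧ ∀ (P : ℕ → ℕ → Prop) (N J : ℕ),
    (∀ l n, P l (n + l) ↔ P l n) → (∀ l : ℕ, l.Prime → #((range l).filter (P l)) ≤ 3) →
    (#((range N).filter (fun t => ∀ l ∈ Pr 3 J, ¬ P l t)) : ℝ) ≤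
      2 * N * ∏ l ∈ Pr 3 J, (1 - (#((range l).filter (P l)) : ℝ) / l) + ((2 : ℝ) ^ 2 ^ J) ^ (c * 3) := by
  obtain ⟨c, hc, hB⟩ := Pool.Agent.H483R2.bhk
  refine ⟨c, hc, fun P N J hper hcard => ?_⟩
  set g : ℕ → ℝ := fun l => if l.Prime then (#((range l).filter (P l)) : ℝ) / l else 0 with hg
  have hPr : ∀ l ∈ Pr 3 J, l.Prime := fun l hl => (mem_filter.1 hl).2.1
  set nn : ℕ → ℕ := fun t => ∏ l ∈ (Pr 3 J).filter (fun l => P l t), l with hnn
  have hdvd : ∀ l ∈ Pr 3 J, ∀ t, l ∣ nn t ↔ P l t := by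
    intro l hl t
    constructor
    · intro h
      obtain ⟨q, hq, hlq⟩ := (Prime.dvd_finsetProd_iff (Nat.Prime.prime (hPr l hl)) _).1 h
      rw [mem_filter] at hq
      have : l = q := (Nat.prime_dvd_prime_iff_eq (hPr l hl) (hPr q hq.1)).1 hlq
      rw [this]; exact hq.2
    · intro h
      exact Finset.dvd_prod_of_mem _ (mem_filter.2 ⟨hl, h⟩)
  have h1 := (hB 3 (by norm_num) g (by
    intro l hl
    rw [hg]
    beta_reduce
    rw [if_pos hl]
    refine ⟨by positivity, ?_⟩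
    have : (#((range l).filter (P l)) : ℝ) ≤ 3 := by exact_mod_cast hcard l hl
    push_cast
    gcongr) J ℕ (Ico 0 (0 + N)) nn N 1 (by positivity) (by norm_num) (by
    intro D hD
    have h2 := Pool.Agent.H483R2.countCRT D P (fun l hl => hPr l (hD hl))
      (fun l _ t => hper l t) 0 N
    have e1 : (Ico 0 (0 + N)).filter (fun t => ∀ l ∈ D, l ∣ nn t) =
        (Ico 0 (0 + N)).filter (fun t => ∀ l ∈ D, P l t) := by
      apply Finset.filter_congr
      intro t _
      exact forall₂_congr fun l hl => hdvd l (hD hl) t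
    have e2 : ∏ l ∈ D, ((#((range l).filter (P l)) : ℝ) / l) = ∏ l ∈ D, g l :=
      Finset.prod_congr rfl fun l hl => by
        rw [hg]; beta_reduce; rw [if_pos (hPr l (hD hl))]
    have e3 : ∏ l ∈ D, (#((range l).filter (P l)) : ℝ) ≤ (3 : ℝ) ^ #D := by
      rw [← Finset.prod_const]
      exact Finset.prod_le_prod (fun l _ => by positivity)
        (fun l hl => by exact_mod_cast hcard l (hPr l (hD hl)))
    rw [e1, ← e2, mul_one]
    push_cast
    exact h2.trans e3)).2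
  have e4 : (range N).filter (fun t => ∀ l ∈ Pr 3 J, ¬ P l t) =
      (Ico 0 (0 + N)).filter (fun t => ∀ l ∈ Pr 3 J, ¬ l ∣ nn t) := by
    rw [zero_add, ← Finset.range_eq_Ico]
    apply Finset.filter_congr
    intro t _
    refine forall₂_congr fun l hl => ?_
    rw [hdvd l hl t]
  have e5 : ∏ l ∈ Pr 3 J, (1 - g l) = ∏ l ∈ Pr 3 J, (1 - (#((range l).filter (P l)) : ℝ) / l) := by
    apply Finset.prod_congr rfl
    intro l hl
    rw [hg]
    beta_reduce
    rw [if_pos (hPr l hl)]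
  rw [e4]
  rw [e5, mul_one] at h1
  exact h1

open Classical in
/-- the same with an exponential -/
theorem sieve_exp : ∃ c : ℕ, 1 ≤ c ∧ ∀ (P : ℕ → ℕ → Prop) (N J : ℕ) (S : ℝ),
    (∀ l n, P l (n + l) ↔ P l n) → (∀ l : ℕ, l.Prime → #((range l).filter (P l)) ≤ 3) →
    S ≤ ∑ l ∈ Pr 3 J, (#((range l).filter (P l)) : ℝ) / l →
    (#((range N).filter (fun t => ∀ l ∈ Pr 3 J, ¬ P l t)) : ℝ) ≤
      2 * N * Real.exp (-S) + ((2 : ℝ) ^ 2 ^ J) ^ (c * 3) := by
  obtain ⟨c, hc, h⟩ := sieve_gen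
  refine ⟨c, hc, fun P N J S hper hcard hS => (h P N J hper hcard).trans ?_⟩
  gcongr
  calc ∏ l ∈ Pr 3 J, (1 - (#((range l).filter (P l)) : ℝ) / l)
      ≤ ∏ l ∈ Pr 3 J, Real.exp (-((#((range l).filter (P l)) : ℝ) / l)) := by
        apply Finset.prod_le_prod
        · intro l hl
          have hl2 := (mem_filter.1 hl).2
          have h2 : (#((range l).filter (P l)) : ℝ) ≤ 3 := by exact_mod_cast hcard l hl2.1
          have h3 : (6 : ℝ) ≤ l := by exact_mod_cast (by omega : 6 ≤ l)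
          have h4 : (#((range l).filter (P l)) : ℝ) / l ≤ 3 / 6 := by gcongr
          linarith
        · intro l _
          have := Real.add_one_le_exp (-((#((range l).filter (P l)) : ℝ) / l))
          linarith
    _ = Real.exp (-∑ l ∈ Pr 3 J, (#((range l).filter (P l)) : ℝ) / l) := by
        rw [← Real.exp_sum, Finset.sum_neg_distrib]
    _ ≤ Real.exp (-S) := Real.exp_le_exp.2 (by linarith)

/-- Mertens' theorem at the levels `2 ^ 2 ^ J` -/
theorem mert (f : ℤ[X]) (hf : Irreducible f) (hd : 0 < f.natDegree) :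
    ∃ C : ℝ, 0 ≤ C ∧ ∀ J : ℕ, 1 ≤ J →
      |∑ l ∈ Pr 3 J, (rho f l : ℝ) / l - J * Real.log 2| ≤ C := by
  obtain ⟨C, hC0, hC⟩ := Pool.Agent.H474R2.GE.mertens_rho f hf hd
  refine ⟨C + 5, by linarith, fun J hJ => ?_⟩
  have hl2 := Real.log_two_gt_d9
  have hl2' := Real.log_two_lt_d9
  have hrho : ∀ l : ℕ, l.Prime → (rho f l : ℝ) / l ≤ 1 := by
    intro l hl
    have hl0 : (0 : ℝ) < l := by exact_mod_cast hl.pos
    rw [div_le_one hl0]
    have : rho f l ≤ l := by
      unfold rho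
      exact (card_filter_le _ _).trans (by rw [card_range])
    exact_mod_cast this
  set W : ℝ := (2 : ℝ) ^ 2 ^ J - 1 with hW
  have hJ2 : 2 ≤ 2 ^ J := by
    calc 2 = 2 ^ 1 := by norm_num
      _ ≤ 2 ^ J := Nat.pow_le_pow_right (by norm_num) hJ
  have hpow : (4 : ℝ) ≤ (2 : ℝ) ^ 2 ^ J := by
    calc (4 : ℝ) = 2 ^ 2 := by norm_num
      _ ≤ (2 : ℝ) ^ 2 ^ J := pow_le_pow_right₀ (by norm_num) hJ2
  have hW3 : 3 ≤ W := by rw [hW]; linarith
  have hfl : ⌊W⌋₊ = 2 ^ 2 ^ J - 1 := by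
    have h2 : 1 ≤ 2 ^ 2 ^ J := Nat.one_le_two_pow
    have h3 : W = ((2 ^ 2 ^ J - 1 : ℕ) : ℝ) := by rw [hW]; push_cast [Nat.cast_sub h2]; ring
    rw [h3, Nat.floor_natCast]
  have h2 : Sg (rho f) W ≤ ∑ l ∈ Pr 3 J, (rho f l : ℝ) / l + 3 := by
    unfold Sg
    have hsub : PR W ⊆ Pr 3 J ∪ {2, 3, 5} := by
      intro l hl
      unfold PR at hl
      rw [mem_filter, mem_Icc, hfl] at hl
      rw [mem_union]
      by_cases h4 : 6 < l
      · left
        unfold Pr
        rw [mem_filter, mem_range]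
        have : 1 ≤ 2 ^ 2 ^ J := Nat.one_le_two_pow
        exact ⟨by omega, hl.2, by omega⟩
      · right
        have h5 := hl.2.two_le
        have h6 : l ≠ 4 := by rintro rfl; exact absurd hl.2 (by norm_num)
        have h7 : l ≠ 6 := by rintro rfl; exact absurd hl.2 (by norm_num)
        have h8 : l = 2 ∨ l = 3 ∨ l = 5 := by omega
        simpa using h8
    calc ∑ l ∈ PR W, (rho f l : ℝ) / l ≤ ∑ l ∈ Pr 3 J ∪ {2, 3, 5}, (rho f l : ℝ) / l := by
          apply Finset.sum_le_sum_of_subset_of_nonneg hsub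
          intro i _ _; positivity
      _ ≤ ∑ l ∈ Pr 3 J, (rho f l : ℝ) / l + ∑ l ∈ ({2, 3, 5} : Finset ℕ), (rho f l : ℝ) / l := by
          rw [← Finset.sum_union_inter]
          have : 0 ≤ ∑ l ∈ Pr 3 J ∩ {2, 3, 5}, (rho f l : ℝ) / l := Finset.sum_nonneg fun i _ => by positivity
          linarith
      _ ≤ _ := by
          have e2 := hrho 2 Nat.prime_two
          have e3 := hrho 3 Nat.prime_three
          have e5 := hrho 5 Nat.prime_five
          rw [Finset.sum_insert (by norm_num), Finset.sum_pair (by norm_num)]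
          linarith
  have h2' : ∑ l ∈ Pr 3 J, (rho f l : ℝ) / l ≤ Sg (rho f) W := by
    unfold Sg
    apply Finset.sum_le_sum_of_subset_of_nonneg
    · intro l hl
      unfold Pr at hl
      rw [mem_filter, mem_range] at hl
      unfold PR
      rw [mem_filter, mem_Icc, hfl]
      exact ⟨⟨hl.2.1.one_lt.le, by omega⟩, hl.2.1⟩
    · intro i _ _; positivity
  have h3 := abs_le.1 (hC W hW3)
  have hlogW : 0 < Real.log W := Real.log_pos (by linarith)
  have h4 : Real.log (Real.log W) ≤ J * Real.log 2 := by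
    have h5 : Real.log W ≤ 2 ^ J * Real.log 2 := by
      have h6 : Real.log W ≤ Real.log ((2 : ℝ) ^ 2 ^ J) := Real.log_le_log (by linarith) (by rw [hW]; linarith)
      rw [Real.log_pow] at h6
      exact_mod_cast h6
    have h6 : Real.log W ≤ 2 ^ J := by
      have : (0 : ℝ) < 2 ^ J := by positivity
      nlinarith
    have h7 := Real.log_le_log hlogW h6
    rw [Real.log_pow] at h7
    exact h7
  have h5 : J * Real.log 2 - 2 ≤ Real.log (Real.log W) := by
    have h5 : (2 : ℝ) ^ (2 ^ J - 1) ≤ W := by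
      have h6 : (2 : ℝ) ^ 2 ^ J = 2 * (2 : ℝ) ^ (2 ^ J - 1) := by
        rw [← pow_succ']
        congr 1; omega
      have h7 : (1 : ℝ) ≤ (2 : ℝ) ^ (2 ^ J - 1) := one_le_pow₀ (by norm_num)
      rw [hW, h6]; linarith
    have h6 : ((2 ^ J - 1 : ℕ) : ℝ) * Real.log 2 ≤ Real.log W := by
      rw [← Real.log_pow]
      exact Real.log_le_log (by positivity) h5
    have h7 : (2 : ℝ) ^ J / 2 ≤ ((2 ^ J - 1 : ℕ) : ℝ) := by
      have h8 : 1 ≤ 2 ^ J := by omega
      have h9 : (2 : ℝ) ≤ (2 : ℝ) ^ J := by exact_mod_cast hJ2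
      push_cast [Nat.cast_sub h8]
      linarith
    have h8 : (2 : ℝ) ^ J / 4 ≤ Real.log W := by
      have : (0 : ℝ) < 2 ^ J := by positivity
      nlinarith
    have h9 := Real.log_le_log (by positivity) h8
    rw [Real.log_div (by positivity) (by norm_num), Real.log_pow] at h9
    have h10 : Real.log 4 ≤ 2 := by
      have : Real.log 4 = 2 * Real.log 2 := by
        rw [show (4 : ℝ) = 2 ^ 2 by norm_num, Real.log_pow]; norm_num
      rw [this]; linarith
    linarith
  rw [abs_le]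
  constructor <;> linarith

end Pool.Agent.TH506.APD
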